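import Pool.Agent.Lib.GogLI.Defs

/-!
# CDefs : the covering forest

(helper81, problem MP_cf50d6_gt; paper MP_cf50d6_gt_paper81b.md, section 4)
-/

set_option autoImplicit false

open scoped Classical

namespace Pool.Agent.LIA.GOG

universe u

variable (A : GOG.{u})

/-- the graph of groups over the covering forest -/
abbrev cover : GOG.{u} where
  I := FreeGroup A.J × A.I
  J := FreeGroup A.J × A.J
  X := fun v => A.X v.2
  R := fun v => A.R v.2
  s := fun x => (x.1, A.s x.2)
  t := fun x => (x.1 * FreeGroup.of x.2, A.t x.2)
  r := fun x => A.r x.2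
  α := fun x => A.α x.2
  β := fun x => A.β x.2
  hα := fun x => A.hα x.2
  hβ := fun x => A.hβ x.2

end Pool.Agent.LIA.GOG
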