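import Pool.Agent.Lib.MP_cf50d6_gt.Defs

/-!
# CExt : extensions of locally indicable groups

Let `H ≤ G` be finitely generated and nontrivial. If `H.map f ≠ ⊥`, it is finitely generated and has a surjection onto `Multiplicative ℤ`;
compose with `H → H.map f`. Otherwise `H ≤ f.ker`, and `H.subgroupOf f.ker` (isomorphic to `H`) is a finitely generated
nontrivial subgroup of `f.ker`.
-/

set_option autoImplicit false

namespace Pool.Agent.LIA

private theorem cext_map {G Q : Type*} [Group G] [Group Q] (f : G →* Q)
    (hQ : LocallyIndicable Q) (H : Subgroup G) (hfg : H.FG) (hne : H.map f ≠ ⊥) :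
    ∃ g : H →* Multiplicative ℤ, Function.Surjective g := by
  have h0 : Group.FG H := (Group.fg_iff_subgroup_fg H).2 hfg
  have h2 : Group.FG (H.map f) :=
    Group.fg_of_surjective (f := f.subgroupMap H) (f.subgroupMap_surjective H)
  have h1 : (H.map f).FG := (Group.fg_iff_subgroup_fg _).1 h2
  obtain ⟨φ, hφ⟩ := hQ (H.map f) h1 hne
  exact ⟨φ.comp (f.subgroupMap H), hφ.comp (f.subgroupMap_surjective H)⟩

theorem LocallyIndicable.extension {G Q : Type*} [Group G] [Group Q] (f : G →* Q)
    (hQ : LocallyIndicable Q) (hk : LocallyIndicable f.ker) : LocallyIndicable G := by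
  intro H hfg hne
  by_cases h : H.map f = ⊥
  · have hle : H ≤ f.ker := by
      rw [Subgroup.map_eq_bot_iff] at h
      exact h
    let e := Subgroup.subgroupOfEquivOfLe hle
    have h1 : Group.FG H := (Group.fg_iff_subgroup_fg H).2 hfg
    have h2 : Group.FG (H.subgroupOf f.ker) :=
      Group.fg_of_surjective (f := e.symm.toMonoidHom) e.symm.surjective
    have h3 : (H.subgroupOf f.ker).FG := (Group.fg_iff_subgroup_fg _).1 h2
    have h4 : H.subgroupOf f.ker ≠ ⊥ := by
      intro h5
      rw [Subgroup.subgroupOf_eq_bot] at h5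
      exact hne (by
        rw [disjoint_iff, inf_eq_left.2 hle] at h5
        exact h5)
    obtain ⟨φ, hφ⟩ := hk (H.subgroupOf f.ker) h3 h4
    exact ⟨φ.comp e.symm.toMonoidHom, hφ.comp e.symm.surjective⟩
  · exact cext_map f hQ H hfg h

theorem LocallyIndicable.of_inj {G G' : Type*} [Group G] [Group G'] (f : G →* G')
    (hf : Function.Injective f) (h : LocallyIndicable G') : LocallyIndicable G := by
  intro H hfg hne
  refine cext_map f h H hfg fun h1 => hne ?_
  exact (Subgroup.map_eq_bot_iff_of_injective H hf).1 h1

theorem LocallyIndicable.of_equiv {G G' : Type*} [Group G] [Group G'] (e : G ≃* G')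
    (h : LocallyIndicable G) : LocallyIndicable G' :=
  LocallyIndicable.of_inj e.symm.toMonoidHom e.symm.injective h

end Pool.Agent.LIA
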