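import Pool.Agent.Lib.GogLI.CDefs

/-!
# CPsi : the homomorphism from the group over the covering forest

`PresentedGroup.toGroup` with `Sum.inl ⟨(g, i), x⟩ ↦ σ g * of (inl ⟨i, x⟩) * (σ g)⁻¹`, `Sum.inr (g, j) ↦ 1`, where
`σ = FreeGroup.lift (fun j => of (inr j))`. A word `w` in the letters of the vertex `(g, i)` is mapped to
`σ g * (w at i) * (σ g)⁻¹` (`FreeGroup.lift` composed with `FreeGroup.map` and conjugation: both sides are homomorphisms,
`FreeGroup.ext_hom`), so the vertex relators are mapped to 1; for the edge relator of `((g, j), z)`: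
`σ (g * of j) * β(z) * (σ (g * of j))⁻¹ = σ g * (j * β(z) * j⁻¹) * (σ g)⁻¹ = σ g * α(z) * (σ g)⁻¹` by the edge relation of `j` (`PresentedGroup.one_of_mem`).
-/

set_option autoImplicit false

open scoped Classical

namespace Pool.Agent.LIA.GOG

universe u

variable (A : GOG.{u})

/-- the homomorphism from the free group on the edges -/
noncomputable def sig : FreeGroup A.J →* A.Grp :=
  FreeGroup.lift fun j => PresentedGroup.of (Sum.inr j)

/-- the words in the letters of one vertex -/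
private noncomputable def im (i : A.I) : FreeGroup (A.X i) →* A.Grp :=
  (PresentedGroup.mk A.rels).comp (FreeGroup.map fun x => Sum.inl ⟨i, x⟩)

private theorem im_R (i : A.I) (w : FreeGroup (A.X i)) (h : w ∈ A.R i) : A.im i w = 1 := by
  refine PresentedGroup.one_of_mem ?_
  exact Or.inl (Set.mem_iUnion.2 ⟨i, w, h, rfl⟩)

private theorem im_edge (j : A.J) (z : Fin (A.r j)) :
    PresentedGroup.of (Sum.inr j) * A.im (A.t j) (A.β j (FreeGroup.of z)) *
      (PresentedGroup.of (Sum.inr j))⁻¹ = A.im (A.s j) (A.α j (FreeGroup.of z)) := by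
  have h : PresentedGroup.mk A.rels (FreeGroup.of (Sum.inr j) *
      FreeGroup.map (fun x => Sum.inl ⟨A.t j, x⟩) (A.β j (FreeGroup.of z)) *
      (FreeGroup.of (Sum.inr j))⁻¹ *
      (FreeGroup.map (fun x => Sum.inl ⟨A.s j, x⟩) (A.α j (FreeGroup.of z)))⁻¹) = 1 :=
    PresentedGroup.one_of_mem (Or.inr ⟨⟨j, z⟩, rfl⟩)
  rw [map_mul, map_inv, mul_inv_eq_one, map_mul, map_mul, map_inv] at h
  exact h

/-- the images of the generators -/
private noncomputable def gen : (Σ v, A.cover.X v) ⊕ A.cover.J → A.Grp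
  | Sum.inl ⟨v, x⟩ => A.sig v.1 * PresentedGroup.of (Sum.inl ⟨v.2, x⟩) * (A.sig v.1)⁻¹
  | Sum.inr _ => 1

private theorem gen_word (v : FreeGroup A.J × A.I) (w : FreeGroup (A.X v.2)) :
    FreeGroup.lift A.gen (FreeGroup.map
      (fun x : A.X v.2 => (Sum.inl ⟨v, x⟩ : (Σ v, A.cover.X v) ⊕ A.cover.J)) w) =
      A.sig v.1 * A.im v.2 w * (A.sig v.1)⁻¹ := by
  have h : (FreeGroup.lift A.gen).comp (FreeGroup.map
      (fun x : A.X v.2 => (Sum.inl ⟨v, x⟩ : (Σ v, A.cover.X v) ⊕ A.cover.J))) =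
      (MulAut.conj (A.sig v.1)).toMonoidHom.comp (A.im v.2) := by
    apply FreeGroup.ext_hom
    intro x
    have h1 : A.im v.2 (FreeGroup.of x) = PresentedGroup.of (Sum.inl ⟨v.2, x⟩) := by
      unfold im
      rw [MonoidHom.comp_apply, FreeGroup.map.of]
      rfl
    rw [MonoidHom.comp_apply, FreeGroup.map.of, FreeGroup.lift_apply_of, MonoidHom.comp_apply, h1]
    rfl
  exact DFunLike.congr_fun h w

theorem exists_psi : ∃ ψ : A.cover.Grp →* A.Grp,
    (∀ g i x, ψ (PresentedGroup.of (Sum.inl ⟨(g, i), x⟩)) =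
      A.sig g * PresentedGroup.of (Sum.inl ⟨i, x⟩) * (A.sig g)⁻¹) ∧
    ∀ g j, ψ (PresentedGroup.of (Sum.inr (g, j))) = 1 := by
  have h : ∀ r ∈ A.cover.rels, FreeGroup.lift A.gen r = 1 := by
    rintro r (hr | ⟨⟨⟨g, j⟩, z⟩, rfl⟩)
    · obtain ⟨v, w, hw, rfl⟩ := Set.mem_iUnion.1 hr
      have h1 := A.gen_word v w
      rw [A.im_R v.2 w hw, mul_one, mul_inv_cancel] at h1
      exact h1
    · have h1 := A.gen_word (g * FreeGroup.of j, A.t j) (A.β j (FreeGroup.of z))
      have h2 := A.gen_word (g, A.s j) (A.α j (FreeGroup.of z))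
      have h3 : FreeGroup.lift A.gen (FreeGroup.of (Sum.inr (g, j))) = 1 := rfl
      have h4 : A.sig (g * FreeGroup.of j) = A.sig g * PresentedGroup.of (Sum.inr j) := by
        rw [map_mul]
        rfl
      show FreeGroup.lift A.gen (FreeGroup.of (Sum.inr (g, j)) *
        FreeGroup.map (fun x => Sum.inl ⟨(g * FreeGroup.of j, A.t j), x⟩)
          (A.β j (FreeGroup.of z)) * (FreeGroup.of (Sum.inr (g, j)))⁻¹ *
        (FreeGroup.map (fun x => Sum.inl ⟨(g, A.s j), x⟩) (A.α j (FreeGroup.of z)))⁻¹) = 1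
      rw [map_mul, map_inv, mul_inv_eq_one, map_mul, map_mul, map_inv, h3]
      refine Eq.trans ?_ h2.symm
      rw [one_mul, inv_one, mul_one]
      refine h1.trans ?_
      show A.sig (g * FreeGroup.of j) * A.im (A.t j) (A.β j (FreeGroup.of z)) *
        (A.sig (g * FreeGroup.of j))⁻¹ = A.sig g * A.im (A.s j) (A.α j (FreeGroup.of z)) *
        (A.sig g)⁻¹
      rw [h4, ← A.im_edge j z]
      group
  refine ⟨PresentedGroup.toGroup h, ?_, ?_⟩
  · intro g i x
    exact PresentedGroup.toGroup.of h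
  · intro g j
    exact PresentedGroup.toGroup.of h

end Pool.Agent.LIA.GOG
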