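import Pool.Agent.Lib.GogLI.CTr
import Pool.Agent.Lib.GogLI.CExt
import Pool.Agent.Lib.GogLI.CPsi
import Pool.Agent.Lib.TwLI.VFree

/-!
# CEmb : the group is embedded into an extension of the group over the covering forest by a free group

`G~ = A.cover.Grp`, `N = G~ ⋊[τ] FreeGroup A.J` (`SemidirectProduct`, `τ` from `exists_tr`).
* `Φ : A.Grp →* N`: `of (inl ⟨i, x⟩) ↦ inl (of (inl ⟨(1, i), x⟩))`, `of (inr j) ↦ inl (of (inr (1, j))) * inr (of j)`. The relators are mapped to 1: a
  word in the letters of the vertex `i` is mapped to the same word in the letters of `(1, i)`; for the edge relator,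
  `(t, j) * (β(z) at (1, t j), 1) * (t, j)⁻¹ = (t * τ_j (β(z) at (1, t j)) * t⁻¹, 1)` and `τ_j (β(z) at (1, t j)) = β(z) at (of j, t j)`, so this is the edge
  relation of the edge `(1, j)` of `A.cover` (`t = of (inr (1, j))`).
* `σ = A.sig`, `ψ` from `exists_psi` (module CPsi).
* `ψ (τ g a) = σ g * ψ a * (σ g)⁻¹` (on generators), so `Ψ = SemidirectProduct.lift ψ σ _ : N →* A.Grp` exists, and `Ψ (Φ x) = x` on the
  generators: for `inr j`, `ψ (of (inr (1, j))) * σ (of j) = 1 * of (inr j)`. So `Φ` is injective.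
* `N` is locally indicable: `LocallyIndicable.extension` for `SemidirectProduct.rightHom`, whose kernel is the range of `inl`
  (`SemidirectProduct.range_inl_eq_ker_rightHom`), isomorphic to `G~`; `li_freeGroup` in `Lib/TwLI/VFree.lean`. Then
  `LocallyIndicable.of_inj`.
-/

set_option autoImplicit false

open scoped Classical

namespace Pool.Agent.LIA.GOG

universe u

private noncomputable def cm (A : GOG.{u}) (g : FreeGroup A.J) (i : A.I) :
    FreeGroup (A.X i) →* A.cover.Grp :=
  (PresentedGroup.mk A.cover.rels).comp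
    (FreeGroup.map (fun x => (Sum.inl ⟨(g, i), x⟩ : (Σ v, A.cover.X v) ⊕ A.cover.J)))

private lemma cm_of (A : GOG.{u}) (g : FreeGroup A.J) (i : A.I) (x : A.X i) :
    cm A g i (FreeGroup.of x) = PresentedGroup.of (Sum.inl ⟨(g, i), x⟩) := by
  unfold cm
  rw [MonoidHom.comp_apply, FreeGroup.map.of]
  rfl

private lemma cm_rel (A : GOG.{u}) (g : FreeGroup A.J) (i : A.I) {w : FreeGroup (A.X i)}
    (hw : w ∈ A.R i) : cm A g i w = 1 := by
  refine PresentedGroup.one_of_mem (Set.mem_union_left _ (Set.mem_iUnion.2 ⟨(g, i), ?_⟩))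
  exact ⟨w, hw, rfl⟩

private lemma cm_edge (A : GOG.{u}) (g : FreeGroup A.J) (j : A.J) (z : Fin (A.r j)) :
    (PresentedGroup.of (Sum.inr (g, j)) : A.cover.Grp) *
      cm A (g * FreeGroup.of j) (A.t j) (A.β j (FreeGroup.of z)) *
      (PresentedGroup.of (Sum.inr (g, j)))⁻¹ * (cm A g (A.s j) (A.α j (FreeGroup.of z)))⁻¹ = 1 := by
  have h := PresentedGroup.one_of_mem (rels := A.cover.rels)
    (Set.mem_union_right _ ⟨⟨(g, j), z⟩, rfl⟩)
  simp only [map_mul, map_inv] at h
  exact h

private noncomputable def emf (A : GOG.{u}) (τ : FreeGroup A.J →* MulAut A.cover.Grp) :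
    ((Σ i, A.X i) ⊕ A.J) → A.cover.Grp ⋊[τ] FreeGroup A.J
  | Sum.inl x => SemidirectProduct.inl (PresentedGroup.of (Sum.inl ⟨(1, x.1), x.2⟩))
  | Sum.inr j => SemidirectProduct.inl (PresentedGroup.of (Sum.inr (1, j))) *
      SemidirectProduct.inr (FreeGroup.of j)

private lemma lift_vert (A : GOG.{u}) (τ : FreeGroup A.J →* MulAut A.cover.Grp) (i : A.I)
    (w : FreeGroup (A.X i)) :
    FreeGroup.lift (emf A τ) (FreeGroup.map (fun x => Sum.inl ⟨i, x⟩) w) =
      SemidirectProduct.inl (cm A 1 i w) := by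
  have h : (FreeGroup.lift (emf A τ)).comp (FreeGroup.map (fun x => Sum.inl ⟨i, x⟩)) =
      (SemidirectProduct.inl (φ := τ)).comp (cm A 1 i) := by
    apply FreeGroup.ext_hom
    intro x
    rw [MonoidHom.comp_apply, MonoidHom.comp_apply, FreeGroup.map.of, FreeGroup.lift_apply_of, cm_of]
    rfl
  exact DFunLike.congr_fun h w

private lemma tau_cm (A : GOG.{u}) (τ : FreeGroup A.J →* MulAut A.cover.Grp)
    (h1 : ∀ g h i x, τ g (PresentedGroup.of (Sum.inl ⟨(h, i), x⟩)) =
      PresentedGroup.of (Sum.inl ⟨(g * h, i), x⟩)) (g h : FreeGroup A.J) (i : A.I)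
    (w : FreeGroup (A.X i)) : τ g (cm A h i w) = cm A (g * h) i w := by
  have h2 : ((τ g).toMonoidHom).comp (cm A h i) = cm A (g * h) i := by
    apply FreeGroup.ext_hom
    intro x
    rw [MonoidHom.comp_apply, cm_of, cm_of]
    exact h1 g h i x
  exact DFunLike.congr_fun h2 w

theorem li_of_cover (A : GOG.{u}) (h : LocallyIndicable A.cover.Grp) :
    LocallyIndicable A.Grp := by
  obtain ⟨τ, hτ1, hτ2⟩ := exists_tr A
  obtain ⟨ψ, hψ1, hψ2⟩ := exists_psi A
  -- the homomorphism `Φ`
  have hrel : ∀ r ∈ A.rels, FreeGroup.lift (emf A τ) r = 1 := by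
    intro r hr
    rcases hr with hr | ⟨⟨j, z⟩, rfl⟩
    · obtain ⟨i, w, hw, rfl⟩ := Set.mem_iUnion.1 hr
      rw [lift_vert, cm_rel A 1 i hw, map_one]
    · simp only [map_mul, map_inv]
      rw [lift_vert, lift_vert, FreeGroup.lift_apply_of]
      change SemidirectProduct.inl (PresentedGroup.of (Sum.inr (1, j))) *
        SemidirectProduct.inr (FreeGroup.of j) * _ *
        (SemidirectProduct.inl (PresentedGroup.of (Sum.inr (1, j))) *
        SemidirectProduct.inr (FreeGroup.of j))⁻¹ * _ = 1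
      have h1 : (SemidirectProduct.inr (FreeGroup.of j) : A.cover.Grp ⋊[τ] FreeGroup A.J) *
          SemidirectProduct.inl (cm A 1 (A.t j) (A.β j (FreeGroup.of z))) *
          (SemidirectProduct.inr (FreeGroup.of j))⁻¹ =
          SemidirectProduct.inl (cm A (1 * FreeGroup.of j) (A.t j) (A.β j (FreeGroup.of z))) := by
        rw [← map_inv, ← SemidirectProduct.inl_aut, tau_cm A τ hτ1, mul_one, one_mul]
      have h2 := congrArg (SemidirectProduct.inl (φ := τ)) (cm_edge A 1 j z)
      simp only [map_mul, map_inv, map_one] at h2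
      rw [← h1] at h2
      rw [← h2, mul_inv_rev]
      simp only [mul_assoc]
  set Φ : A.Grp →* A.cover.Grp ⋊[τ] FreeGroup A.J := PresentedGroup.toGroup hrel with hΦ
  -- the homomorphism `Ψ`
  have hcomp : ∀ g : FreeGroup A.J, ψ.comp (τ g).toMonoidHom =
      (MulAut.conj (A.sig g)).toMonoidHom.comp ψ := by
    intro g
    apply PresentedGroup.ext
    rintro (⟨⟨h, i⟩, x⟩ | ⟨h, j⟩)
    · change ψ (τ g (PresentedGroup.of (Sum.inl ⟨(h, i), x⟩))) =
        A.sig g * ψ (PresentedGroup.of (Sum.inl ⟨(h, i), x⟩)) * (A.sig g)⁻¹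
      rw [hτ1, hψ1, hψ1, map_mul, mul_inv_rev]
      simp only [mul_assoc]
    · change ψ (τ g (PresentedGroup.of (Sum.inr (h, j)))) =
        A.sig g * ψ (PresentedGroup.of (Sum.inr (h, j))) * (A.sig g)⁻¹
      rw [hτ2, hψ2, hψ2, mul_one, mul_inv_cancel]
  set Ψ : A.cover.Grp ⋊[τ] FreeGroup A.J →* A.Grp := SemidirectProduct.lift ψ A.sig hcomp with hΨ
  have hid : Ψ.comp Φ = MonoidHom.id A.Grp := by
    apply PresentedGroup.ext
    rintro (⟨i, x⟩ | j)
    · have h1 : Φ (PresentedGroup.of (Sum.inl ⟨i, x⟩)) =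
          SemidirectProduct.inl (PresentedGroup.of (Sum.inl ⟨(1, i), x⟩)) :=
        PresentedGroup.toGroup.of hrel
      rw [MonoidHom.comp_apply, h1, hΨ, SemidirectProduct.lift_inl, hψ1, map_one, one_mul, inv_one,
        mul_one]
      rfl
    · have h1 : Φ (PresentedGroup.of (Sum.inr j)) =
          SemidirectProduct.inl (PresentedGroup.of (Sum.inr (1, j))) *
            SemidirectProduct.inr (FreeGroup.of j) :=
        PresentedGroup.toGroup.of hrel
      rw [MonoidHom.comp_apply, h1, hΨ, map_mul, SemidirectProduct.lift_inl,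
        SemidirectProduct.lift_inr, hψ2, one_mul, sig, FreeGroup.lift_apply_of]
      rfl
  have hinj : Function.Injective Φ := by
    intro x y hxy
    have h1 := congrArg Ψ hxy
    rw [← MonoidHom.comp_apply, ← MonoidHom.comp_apply, hid] at h1
    exact h1
  -- the semidirect product is locally indicable
  have hN : LocallyIndicable (A.cover.Grp ⋊[τ] FreeGroup A.J) := by
    refine LocallyIndicable.extension (SemidirectProduct.rightHom (φ := τ))
      (li_freeGroup A.J) ?_
    refine LocallyIndicable.of_equiv ?_ h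
    exact (MonoidHom.ofInjective (SemidirectProduct.inl_injective (φ := τ))).trans
      (MulEquiv.subgroupCongr SemidirectProduct.range_inl_eq_ker_rightHom)
  exact LocallyIndicable.of_inj Φ hinj hN

end Pool.Agent.LIA.GOG
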