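import Pool.Agent.Lib.GogLI.JSt

/-!
# JBal : the numbers `nst` of the vertices with given fibre are balanced

For `Tn` nonempty, `∑ S, nst S * [outT S = Tn]` is the number of the `x : V` with `outT (EE wd) b (St x) = Tn` (such an `x` has
  `St x ≠ ∅`), and the other side is the number of the `y` with `inT (EE wd) b (St y) = Tn`. `st_out` and `st_in` give a bijection `x ↦ y`,
  `(x, b, y) ∈ Γ.F` (`Γ.det`, `Γ.cod`).
-/

set_option autoImplicit false

open scoped Classical

namespace Pool.Agent.LIA.JH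

open LP

variable {κ X : Type*} {q : κ → ℕ} [Fintype κ]

private theorem st_bal_count {wd : ∀ k, Fin (q k) → List (X × Bool)} {V : Type*} [Fintype V] {Γ : LG V X}
    {T : κ → Type*} {P : ∀ k, LG (T k) (Fin (q k))} {a : ∀ k, T k → V}
    (φ : Finset (BV wd) → Prop) (h0 : ¬ φ ∅) :
    ∑ S, nst wd Γ P a S * (if φ S then (1 : ℝ) else 0) =
      ((Finset.univ.filter fun x => φ (St wd Γ P a x)).card : ℝ) := by
  have h1 : ∀ S : Finset (BV wd), nst wd Γ P a S * (if φ S then (1 : ℝ) else 0) =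
      ∑ x : V, if St wd Γ P a x = S then (if φ S then (1 : ℝ) else 0) else 0 := by
    intro S
    by_cases h : φ S
    · have hS : S ≠ ∅ := by
        rintro rfl
        exact h0 h
      rw [nst, if_neg hS, if_pos h, mul_one, Finset.sum_boole]
    · simp [h]
  rw [Finset.sum_congr rfl fun S _ => h1 S, Finset.sum_comm]
  have h2 : ∀ x : V, (∑ S : Finset (BV wd),
      if St wd Γ P a x = S then (if φ S then (1 : ℝ) else 0) else 0) =
      if φ (St wd Γ P a x) then (1 : ℝ) else 0 := by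
    intro x
    rw [Finset.sum_ite_eq, if_pos (Finset.mem_univ _)]
  rw [Finset.sum_congr rfl fun x _ => h2 x, Finset.sum_boole]

theorem st_bal {wd : ∀ k, Fin (q k) → List (X × Bool)} {V : Type*} [Fintype V] {Γ : LG V X}
    {T : κ → Type*} {P : ∀ k, LG (T k) (Fin (q k))} {a : ∀ k, T k → V}
    (hw : ∀ k t z t', (t, z, t') ∈ (P k).F → Γ.Walk (a k t) (wd k z) (a k t')) :
    Bal (EE wd) (nst wd Γ P a) := by
  intro b Tn hT
  have hout0 : ¬ outT (EE wd) b ∅ = Tn := by
    intro h
    rw [← h] at hT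
    obtain ⟨e, he⟩ := hT
    simp [outT] at he
  have hin0 : ¬ inT (EE wd) b ∅ = Tn := by
    intro h
    rw [← h] at hT
    obtain ⟨e, he⟩ := hT
    simp [inT] at he
  have h1 := st_bal_count (Γ := Γ) (P := P) (a := a) (fun S => outT (EE wd) b S = Tn) hout0
  have h2 := st_bal_count (Γ := Γ) (P := P) (a := a) (fun S => inT (EE wd) b S = Tn) hin0
  refine Eq.trans (Finset.sum_congr rfl fun S _ => ?_) (Eq.trans (h1.trans ?_)
    (h2.symm.trans (Finset.sum_congr rfl fun S _ => ?_)))
  · by_cases h : outT (EE wd) b S = Tn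
    · rw [if_pos h, if_pos h]
    · rw [if_neg h, if_neg h]
  swap
  · by_cases h : inT (EE wd) b S = Tn
    · rw [if_pos h, if_pos h]
    · rw [if_neg h, if_neg h]
  congr 1
  have key : ∀ x, outT (EE wd) b (St wd Γ P a x) = Tn →
      ∃ y, (x, b.1, y) ∈ Γ.F ∧ inT (EE wd) b (St wd Γ P a y) = Tn := by
    intro x hx
    obtain ⟨y, hy, hy'⟩ := st_out hw b x (by rw [hx]; exact hT)
    exact ⟨y, hy, hy'.trans hx⟩
  choose f hf1 hf2 using key
  refine Finset.card_bij (fun x hx => f x (Finset.mem_filter.1 hx).2) ?_ ?_ ?_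
  · intro x hx
    rw [Finset.mem_filter]
    exact ⟨Finset.mem_univ _, hf2 _ _⟩
  · intro x hx x' hx' h
    have e1 := hf1 x (Finset.mem_filter.1 hx).2
    have e2 := hf1 x' (Finset.mem_filter.1 hx').2
    rw [← h] at e2
    exact Γ.cod e1 e2
  · intro y hy
    have hy2 := (Finset.mem_filter.1 hy).2
    obtain ⟨x, hx, hx'⟩ := st_in hw b y (by rw [hy2]; exact hT)
    have hx2 : outT (EE wd) b (St wd Γ P a x) = Tn := hx'.symm.trans hy2
    refine ⟨x, Finset.mem_filter.2 ⟨Finset.mem_univ _, hx2⟩, ?_⟩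
    exact Γ.det (hf1 x hx2) hx

end Pool.Agent.LIA.JH
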