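import Pool.Agent.Lib.MP_cf50d6_gt.Cnt

/-!
# JRR : the Euler characteristic of a part of a graph

Proof. Sum over the components `C ∈ Γ.comps` (`sum_card_edges`, `sum_card_comps`, or split `F0` and `V0` by components):
`(F0 ∩ Γ.edges C).card ≤ (V0 ∩ C).card + ((Γ.edges C).card - C.card)`. If `V0 ∩ C = ∅` the left side is empty. Otherwise every vertex of
`C \ V0` can be given an edge of `Γ.edges C \ F0`, injectively: `exists_parent` (in `Lib/MP_cf50d6_gt/Gl.lean`) for the multigraph with
the vertices `C`, the edges `Γ.edges C` and `U = V0 ∩ C` (see `cntS`, `cntT`, `cnt_conn` in `Cnt.lean`, private there): the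
edge `par q` has the end `q ∉ V0`, so it is not in `F0` by `h`. So `(C \ V0).card ≤ (Γ.edges C \ F0).card`.
(Or: apply the count of `Cnt.lean` to a spanning forest.)
-/

set_option autoImplicit false

open scoped Classical

namespace Pool.Agent.LIA.LG

/-- the initial vertex of an edge of a component -/
private def jrS {V X : Type*} [Fintype V] (Γ : LG V X) (C : Finset V)
    (e : {e // e ∈ Γ.edges C}) : {v // v ∈ C} :=
  ⟨e.1.1, by
    obtain ⟨⟨u, s, v⟩, he⟩ := e
    exact (mem_edges.1 he).2⟩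

/-- the terminal vertex of an edge of a component -/
private def jrT {V X : Type*} [Fintype V] (Γ : LG V X) {C : Finset V} (hC : C ∈ Γ.comps)
    (e : {e // e ∈ Γ.edges C}) : {v // v ∈ C} :=
  ⟨e.1.2.2, by
    obtain ⟨⟨u, s, v⟩, he⟩ := e
    exact (mem_of_edge hC (mem_edges.1 he).1).1 (mem_edges.1 he).2⟩

private theorem jr_conn {V X : Type*} [Fintype V] (Γ : LG V X) {C : Finset V} (hC : C ∈ Γ.comps)
    (q q' : {v // v ∈ C}) : Relation.EqvGen (MAdj (jrS Γ C) (jrT Γ hC)) q q' := by
  have h : Γ.Conn q.1 q'.1 := conn_of_mem_comps hC q.2 q'.2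
  have key : ∃ hx : q'.1 ∈ C,
      Relation.EqvGen (MAdj (jrS Γ C) (jrT Γ hC)) q ⟨q'.1, hx⟩ := by
    refine Conn.induction (p := fun x => ∃ hx : x ∈ C,
      Relation.EqvGen (MAdj (jrS Γ C) (jrT Γ hC)) q ⟨x, hx⟩) ⟨q.2, Relation.EqvGen.refl _⟩
      ?_ h
    rintro a ⟨s, b⟩ c ⟨ha, h1⟩ hs
    have hc : c ∈ C := mem_of_step hC ha hs
    refine ⟨hc, h1.trans _ _ _ ?_⟩
    cases b
    · rw [step_false] at hs
      exact Relation.EqvGen.symm _ _ (Relation.EqvGen.rel _ _
        ⟨⟨(c, s, a), mem_edges.2 ⟨hs, hc⟩⟩, rfl, rfl⟩)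
    · rw [step_true] at hs
      exact Relation.EqvGen.rel _ _ ⟨⟨(a, s, c), mem_edges.2 ⟨hs, ha⟩⟩, rfl, rfl⟩
  exact key.2

private theorem jr_comp {V X : Type*} [Fintype V] (Γ : LG V X) {C : Finset V} (hC : C ∈ Γ.comps)
    (V0 : Finset V) (F0 : Finset (V × X × V)) (hF : F0 ⊆ Γ.F)
    (h : ∀ e ∈ F0, e.1 ∈ V0 ∧ e.2.2 ∈ V0) :
    (F0.filter fun e => e.1 ∈ C).card ≤
      (V0.filter fun v => v ∈ C).card + ((Γ.edges C).card - C.card) := by
  by_cases hne : ∃ u, u ∈ V0 ∧ u ∈ C
  · obtain ⟨u, hu0, huC⟩ := hne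
    set U : Finset {v // v ∈ C} := Finset.univ.filter fun q => q.1 ∈ V0 with hU
    obtain ⟨d, par, hinj, hpar⟩ := exists_parent (jrS Γ C) (jrT Γ hC) U
      (fun q => ⟨⟨u, huC⟩, by rw [hU, Finset.mem_filter]; exact ⟨Finset.mem_univ _, hu0⟩,
        jr_conn Γ hC _ _⟩)
    have hpn : ∀ q, (par q).1 ∉ F0 := by
      intro q hq
      have hq0 : q.1.1 ∉ V0 := by
        intro h1
        exact q.2 (Finset.mem_filter.2 ⟨Finset.mem_univ _, h1⟩)
      obtain ⟨h1, h2⟩ := h _ hq
      rcases hpar q with ⟨h3, _⟩ | ⟨h3, _⟩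
      · have h4 : (jrS Γ C (par q)).1 = q.1.1 := congrArg Subtype.val h3
        exact hq0 (h4 ▸ h1)
      · have h4 : (jrT Γ hC (par q)).1 = q.1.1 := congrArg Subtype.val h3
        exact hq0 (h4 ▸ h2)
    have h1 : Fintype.card {q : {v // v ∈ C} // q ∉ U} ≤ (Γ.edges C \ F0).card := by
      rw [← Finset.card_univ]
      refine Finset.card_le_card_of_injOn (fun q => (par q).1) ?_ ?_
      · intro q _
        rw [Finset.mem_coe, Finset.mem_sdiff]
        exact ⟨(par q).2, hpn q⟩
      · intro a _ b _ hab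
        exact hinj (Subtype.ext hab)
    have h2 : Fintype.card {q : {v // v ∈ C} // q ∉ U} = C.card - U.card := by
      rw [Fintype.card_subtype_compl, Fintype.card_coe, Fintype.card_coe]
    have h3 : U.card = (V0.filter fun v => v ∈ C).card := by
      refine Finset.card_bij (fun q _ => q.1) ?_ ?_ ?_
      · intro q hq
        rw [hU, Finset.mem_filter] at hq
        rw [Finset.mem_filter]
        exact ⟨hq.2, q.2⟩
      · intro a _ b _ hab
        exact Subtype.ext hab
      · intro v hv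
        rw [Finset.mem_filter] at hv
        refine ⟨⟨v, hv.2⟩, ?_, rfl⟩
        rw [hU, Finset.mem_filter]
        exact ⟨Finset.mem_univ _, hv.1⟩
    have h4 : (F0.filter fun e => e.1 ∈ C).card + (Γ.edges C \ F0).card ≤ (Γ.edges C).card := by
      rw [← Finset.card_union_of_disjoint]
      · apply Finset.card_le_card
        intro e he
        rw [Finset.mem_union, Finset.mem_filter, Finset.mem_sdiff] at he
        rcases he with he | he
        · rw [edges, Finset.mem_filter]
          exact ⟨hF he.1, he.2⟩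
        · exact he.1
      · rw [Finset.disjoint_left]
        intro e he he'
        rw [Finset.mem_filter] at he
        rw [Finset.mem_sdiff] at he'
        exact he'.2 he.1
    have h5 : (V0.filter fun v => v ∈ C).card ≤ C.card := by
      apply Finset.card_le_card
      intro v hv
      exact (Finset.mem_filter.1 hv).2
    omega
  · have h1 : (F0.filter fun e => e.1 ∈ C) = ∅ := by
      rw [Finset.filter_eq_empty_iff]
      intro e he heC
      exact hne ⟨e.1, (h e he).1, heC⟩
    rw [h1, Finset.card_empty]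
    exact Nat.zero_le _

private theorem jr_sum {V X A : Type*} [Fintype V] (Γ : LG V X) (T : Finset A) (f : A → V) :
    T.card = ∑ C ∈ Γ.comps, (T.filter fun a => f a ∈ C).card := by
  have h1 : T.card = ∑ C ∈ Γ.comps, (T.filter fun a => Γ.comp (f a) = C).card :=
    Finset.card_eq_sum_card_fiberwise fun a _ => comp_mem_comps (f a)
  rw [h1]
  refine Finset.sum_congr rfl fun C hC => ?_
  congr 1
  ext a
  simp only [Finset.mem_filter, and_congr_right_iff]
  intro _
  constructor
  · rintro rfl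
    exact self_mem_comp _
  · intro ha
    exact (eq_comp_of_mem hC ha).symm

theorem sub_card_le {V X : Type*} [Fintype V] (Γ : LG V X) (V0 : Finset V)
    (F0 : Finset (V × X × V)) (hF : F0 ⊆ Γ.F) (h : ∀ e ∈ F0, e.1 ∈ V0 ∧ e.2.2 ∈ V0) :
    F0.card ≤ V0.card + Γ.rr := by
  have h1 := jr_sum Γ F0 (fun e => e.1)
  have h2 := jr_sum Γ V0 (fun v => v)
  rw [h1, h2, rr, ← Finset.sum_add_distrib]
  exact Finset.sum_le_sum fun C hC => jr_comp Γ hC V0 F0 hF h

end Pool.Agent.LIA.LG
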