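import Pool.Agent.Lib.GogLI.JSt
import Pool.Agent.Lib.GogLI.JRR

/-!
# JCost : the cost of the fibres is at most the reduced rank

`∑ S, nst S * cost S = ∑ x, cost (St x) = F0.card - V0.card` with `V0 = {x | St x ≠ ∅}` and
`F0 = {(x, b, y) ∈ Γ.F | b ∈ lets wd, outT (EE wd) b (St x) nonempty}` (for every such pair `(x, b)` there is exactly
one `y`, by `st_out`; both ends are in `V0`). `LG.sub_card_le` of `JRR` gives the bound.
-/

set_option autoImplicit false

open scoped Classical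

namespace Pool.Agent.LIA.JH

open LP

variable {κ X : Type*} {q : κ → ℕ} [Fintype κ]

private theorem sum_nst {wd : ∀ k, Fin (q k) → List (X × Bool)} {V : Type*} [Fintype V]
    {Γ : LG V X} {T : κ → Type*} {P : ∀ k, LG (T k) (Fin (q k))} {a : ∀ k, T k → V}
    (f : Finset (BV wd) → ℝ) (hf : f ∅ = 0) :
    ∑ S, nst wd Γ P a S * f S = ∑ x, f (St wd Γ P a x) := by
  have h1 : ∀ S, nst wd Γ P a S * f S =
      ∑ x ∈ Finset.univ.filter (fun x => St wd Γ P a x = S), f (St wd Γ P a x) := by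
    intro S
    have h2 : ∑ x ∈ Finset.univ.filter (fun x => St wd Γ P a x = S), f (St wd Γ P a x) =
        ∑ x ∈ Finset.univ.filter (fun x => St wd Γ P a x = S), f S :=
      Finset.sum_congr rfl fun x hx => by rw [(Finset.mem_filter.1 hx).2]
    rw [h2, Finset.sum_const, nsmul_eq_mul]
    unfold nst
    by_cases h3 : S = ∅
    · rw [h3, hf, mul_zero, mul_zero]
    · rw [if_neg h3]
  rw [Finset.sum_congr rfl fun S _ => h1 S]
  exact Finset.sum_fiberwise _ _ _

theorem st_cost {wd : ∀ k, Fin (q k) → List (X × Bool)} {V : Type*} [Fintype V] {Γ : LG V X}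
    {T : κ → Type*} {P : ∀ k, LG (T k) (Fin (q k))} {a : ∀ k, T k → V}
    (hw : ∀ k t z t', (t, z, t') ∈ (P k).F → Γ.Walk (a k t) (wd k z) (a k t')) :
    ∑ S, nst wd Γ P a S * cost (EE wd) S ≤ (Γ.rr : ℝ) := by
  have h0 : cost (EE wd) (∅ : Finset (BV wd)) = 0 := by
    unfold cost
    rw [if_neg Finset.not_nonempty_empty, sub_zero]
    refine Finset.sum_eq_zero fun b _ => ?_
    rw [if_neg]
    rintro ⟨e, he⟩
    exact Finset.notMem_empty _ (Finset.mem_filter.1 he).2
  rw [sum_nst _ h0]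
  set V0 : Finset V := Finset.univ.filter fun x => (St wd Γ P a x).Nonempty with hV0
  set PP : Finset (V × ↥(lets wd)) := Finset.univ.filter fun p =>
    (outT (EE wd) p.2 (St wd Γ P a p.1)).Nonempty with hPP
  have hne : ∀ (b : ↥(lets wd)) (x : V), (outT (EE wd) b (St wd Γ P a x)).Nonempty → x ∈ V0 := by
    rintro b x ⟨e, he⟩
    rw [hV0, Finset.mem_filter]
    exact ⟨Finset.mem_univ _, e.1, (Finset.mem_filter.1 he).2⟩
  have hne' : ∀ (b : ↥(lets wd)) (x : V), (inT (EE wd) b (St wd Γ P a x)).Nonempty → x ∈ V0 := by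
    rintro b x ⟨e, he⟩
    rw [hV0, Finset.mem_filter]
    exact ⟨Finset.mem_univ _, e.2, (Finset.mem_filter.1 he).2⟩
  have hex : ∀ p : V × ↥(lets wd), ∃ y, p ∈ PP → (p.1, p.2.1, y) ∈ Γ.F ∧
      inT (EE wd) p.2 (St wd Γ P a y) = outT (EE wd) p.2 (St wd Γ P a p.1) := by
    intro p
    by_cases hp : p ∈ PP
    · obtain ⟨y, hy⟩ := st_out hw p.2 p.1 (Finset.mem_filter.1 hp).2
      exact ⟨y, fun _ => hy⟩
    · exact ⟨p.1, fun h => absurd h hp⟩
  choose Y hY using hex
  have hcard := LG.sub_card_le Γ V0 (PP.image fun p => (p.1, p.2.1, Y p)) (by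
      intro e he
      obtain ⟨p, hp, rfl⟩ := Finset.mem_image.1 he
      exact (hY p hp).1) (by
      intro e he
      obtain ⟨p, hp, rfl⟩ := Finset.mem_image.1 he
      have h1 := (Finset.mem_filter.1 hp).2
      refine ⟨hne p.2 p.1 h1, hne' p.2 (Y p) ?_⟩
      rw [(hY p hp).2]
      exact h1)
  rw [Finset.card_image_of_injective _ (by
    rintro ⟨x, b⟩ ⟨x', b'⟩ h
    simp only [Prod.mk.injEq] at h
    obtain ⟨h1, h2, -⟩ := h
    rw [Prod.mk.injEq]
    exact ⟨h1, Subtype.ext h2⟩)] at hcard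
  have h2 : ∑ x, cost (EE wd) (St wd Γ P a x) = (PP.card : ℝ) - (V0.card : ℝ) := by
    unfold cost
    rw [Finset.sum_sub_distrib]
    congr 1
    · rw [hPP, Finset.card_filter, ← Finset.univ_product_univ, Finset.sum_product]
      push_cast
      rfl
    · rw [hV0, Finset.card_filter]
      push_cast
      rfl
  rw [h2]
  have h3 : (PP.card : ℝ) ≤ (V0.card : ℝ) + (Γ.rr : ℝ) := by exact_mod_cast hcard
  linarith

end Pool.Agent.LIA.JH
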