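import Pool.Agent.Lib.MP_cf50d6_gt.Cnt

/-!
# JPos : the components with positive reduced rank

`Tp` = the union of the components `C ∈ P.comps` with `C.card < (P.edges C).card`, `P'` = the edges of `P` in `Tp` (transported to the
subtype). `P'.F.card = ∑ (P.edges C).card` over these components, `Tp.card = ∑ C.card`, `P.rr = ∑ ((P.edges C).card - C.card)` over them (the
other components contribute zero to `rr`).
-/

/-!
# JPos : the components with positive reduced rank

`Tp` = the union of the components `C ∈ P.comps` with `C.card < (P.edges C).card`, `P'` = the edges of `P` in `Tp` (transported to the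
subtype). `P'.F.card = ∑ (P.edges C).card` over these components, `Tp.card = ∑ C.card`, `P.rr = ∑ ((P.edges C).card - C.card)` over them (the
other components contribute zero to `rr`).
-/

set_option autoImplicit false

open scoped Classical

namespace Pool.Agent.LIA.LG

private def jposMap {T Z : Type*} (Tp : Finset T) (e : {t // t ∈ Tp} × Z × {t // t ∈ Tp}) :
    T × Z × T := (e.1.1, e.2.1, e.2.2.1)

private theorem jposMap_inj {T Z : Type*} (Tp : Finset T) :
    Function.Injective (jposMap (Z := Z) Tp) := by
  rintro ⟨a, z, b⟩ ⟨a', z', b'⟩ h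
  simp only [jposMap, Prod.mk.injEq] at h
  obtain ⟨h1, h2, h3⟩ := h
  rw [Subtype.ext h1, h2, Subtype.ext h3]

theorem exists_pos {T Z : Type*} [Fintype T] (P : LG T Z) :
    ∃ (Tp : Finset T) (P' : LG {t // t ∈ Tp} Z),
      (∀ t z t', (t, z, t') ∈ P'.F → (t.1, z, t'.1) ∈ P.F) ∧ P'.F.card = Tp.card + P.rr := by
  set CC : Finset (Finset T) := P.comps.filter fun C => C.card < (P.edges C).card with hCC
  set Tp : Finset T := Finset.univ.filter fun t => P.comp t ∈ CC with hTp
  have hmem : ∀ t, t ∈ Tp ↔ P.comp t ∈ CC := fun t => by simp [hTp]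
  have hTcard : Tp.card = ∑ C ∈ CC, C.card := by
    rw [Finset.card_eq_sum_card_fiberwise (f := P.comp) (t := CC)
      (fun t ht => (hmem t).1 ht)]
    refine Finset.sum_congr rfl fun C hC => ?_
    congr 1
    ext v
    rw [Finset.mem_filter, hmem]
    constructor
    · rintro ⟨-, rfl⟩
      exact self_mem_comp v
    · intro hv
      have h1 := eq_comp_of_mem (Finset.mem_filter.1 hC).1 hv
      rw [← h1]
      exact ⟨hC, rfl⟩
  have hEcard : (P.F.filter fun e => e.1 ∈ Tp).card = ∑ C ∈ CC, (P.edges C).card := by
    rw [Finset.card_eq_sum_card_fiberwise (f := fun e : T × Z × T => P.comp e.1) (t := CC)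
      (fun e he => (hmem _).1 (Finset.mem_filter.1 he).2)]
    refine Finset.sum_congr rfl fun C hC => ?_
    congr 1
    ext e
    have hm := hmem e.1
    simp only [edges, Finset.mem_filter, hm]
    constructor
    · rintro ⟨⟨h1, -⟩, rfl⟩
      exact ⟨h1, self_mem_comp _⟩
    · rintro ⟨h1, hv⟩
      have h2 := eq_comp_of_mem (Finset.mem_filter.1 hC).1 hv
      rw [← h2]
      exact ⟨⟨h1, hC⟩, rfl⟩
  have hrr : P.rr = ∑ C ∈ CC, ((P.edges C).card - C.card) := by
    rw [rr, hCC, Finset.sum_filter]
    refine Finset.sum_congr rfl fun C _ => ?_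
    split_ifs with h
    · rfl
    · omega
  have hpre : ∀ u z v, (u, z, v) ∈ P.F.preimage (jposMap Tp) (jposMap_inj Tp).injOn →
      (u.1, z, v.1) ∈ P.F := by
    intro u z v h
    rw [Finset.mem_preimage] at h
    exact h
  refine ⟨Tp, ⟨P.F.preimage (jposMap Tp) (jposMap_inj Tp).injOn, ?_, ?_⟩, ?_, ?_⟩
  · intro u s v v' h h'
    exact Subtype.ext (P.det (hpre _ _ _ h) (hpre _ _ _ h'))
  · intro u u' s v h h'
    exact Subtype.ext (P.cod (hpre _ _ _ h) (hpre _ _ _ h'))
  · intro t z t' h
    exact hpre _ _ _ h
  · show (P.F.preimage (jposMap Tp) (jposMap_inj Tp).injOn).card = _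
    have h1 : (P.F.preimage (jposMap Tp) (jposMap_inj Tp).injOn).card =
        (P.F.filter fun e => e.1 ∈ Tp).card := by
      rw [← Finset.card_image_of_injective _ (jposMap_inj Tp)]
      congr 1
      ext ⟨u, s, v⟩
      rw [Finset.mem_image, Finset.mem_filter]
      constructor
      · rintro ⟨e, he, h2⟩
        have h3 := Finset.mem_preimage.1 he
        rw [h2] at h3
        refine ⟨h3, ?_⟩
        have h4 : e.1.1 = u := congrArg Prod.fst h2
        show u ∈ Tp
        rw [← h4]
        exact e.1.2
      · rintro ⟨h2, h3⟩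
        have h3' : u ∈ Tp := h3
        have hv : v ∈ Tp := by
          rw [hmem] at h3' ⊢
          have h4 : v ∈ P.comp u :=
            (mem_of_edge (comp_mem_comps u) h2).1 (self_mem_comp u)
          rw [← eq_comp_of_mem (comp_mem_comps u) h4]
          exact h3'
        refine ⟨(⟨u, h3'⟩, s, ⟨v, hv⟩), ?_, rfl⟩
        rw [Finset.mem_preimage]
        exact h2
    rw [h1, hEcard, hTcard, hrr, ← Finset.sum_add_distrib]
    refine Finset.sum_congr rfl fun C hC => ?_
    have := (Finset.mem_filter.1 hC).2
    omega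

end Pool.Agent.LIA.LG
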