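import Pool.Agent.Lib.GogLI.JDefs

/-!
# JPw : the weighted multiplicities

`∑ S, nst S * ∑ u ∈ S, pw u = ∑ x, ∑ u ∈ St x, pw u` (for `St x = ∅` the inner sum is zero; group the `x` by `St x`)
`= ∑ u, pw u * #{x | u ∈ St x}`. For `u = Sum.inl k`: `#{x | ∃ t, a k t = x} = card (T k)`, as `a k` is injective, weight `-1`. For
`u = Sum.inr ⟨k, z, 0⟩` (weight 1): `x ∈` iff `x = a k t` for some edge `(t, z, t')` of `P k` (the walk with the word `take 0 = []`), so the number is that of
the edges of `P k` with the label `z` (`a k` injective, `(P k).det`). The other `u` have weight 0. The sum over `z` of the numbers of the edges with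
label `z` is `(P k).F.card`.
-/

set_option autoImplicit false

open scoped Classical

namespace Pool.Agent.LIA.JH

open LP

variable {κ X : Type*} {q : κ → ℕ} [Fintype κ]

omit [Fintype κ] in
private theorem fiber_sum {β V : Type*} [Fintype β] [Fintype V] (g : V → Finset β)
    (f : Finset β → ℝ) (hf : f ∅ = 0) :
    ∑ S : Finset β, (if S = ∅ then (0 : ℝ) else
      ((Finset.univ.filter fun x => g x = S).card : ℝ)) * f S = ∑ x, f (g x) := by
  rw [← Finset.sum_fiberwise Finset.univ g (fun x => f (g x))]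
  apply Finset.sum_congr rfl
  intro S _
  by_cases h : S = ∅
  · rw [if_pos h, zero_mul]
    symm
    apply Finset.sum_eq_zero
    intro x hx
    rw [(Finset.mem_filter.1 hx).2, h, hf]
  · rw [if_neg h]
    rw [Finset.sum_congr rfl (g := fun _ => f S)
      (fun x hx => by rw [(Finset.mem_filter.1 hx).2])]
    rw [Finset.sum_const, nsmul_eq_mul]

omit [Fintype κ] in
private theorem cnt_inl {V T : Type*} [Fintype V] [Fintype T] (a : T → V)
    (ha : Function.Injective a) :
    ∑ x, (if ∃ t : T, a t = x then (-1 : ℝ) else 0) = -(Fintype.card T : ℝ) := by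
  rw [← Finset.sum_filter, Finset.sum_const, nsmul_eq_mul, mul_neg, mul_one]
  congr 2
  rw [← Finset.card_univ, ← Finset.card_image_of_injective Finset.univ ha]
  congr 1
  ext x
  simp

omit [Fintype κ] in
private theorem cnt_inr {V T Z : Type*} [Fintype V] (Q : LG T Z) (a : T → V)
    (ha : Function.Injective a) (z : Z) :
    ∑ x, (if ∃ t t' : T, (t, z, t') ∈ Q.F ∧ a t = x then (1 : ℝ) else 0) =
      ((Q.F.filter fun e => e.2.1 = z).card : ℝ) := by
  rw [← Finset.sum_filter, Finset.sum_const, nsmul_eq_mul, mul_one]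
  congr 1
  symm
  apply Finset.card_bij (fun e _ => a e.1)
  · rintro ⟨t, z', t'⟩ he
    obtain ⟨h1, h2⟩ := Finset.mem_filter.1 he
    simp only at h2
    subst h2
    exact Finset.mem_filter.2 ⟨Finset.mem_univ _, t, t', h1, rfl⟩
  · rintro ⟨t, z', t'⟩ he ⟨s, z'', s'⟩ he' h
    obtain ⟨h1, h2⟩ := Finset.mem_filter.1 he
    obtain ⟨h3, h4⟩ := Finset.mem_filter.1 he'
    simp only at h2 h4 h
    subst h2
    subst h4
    obtain rfl := ha h
    obtain rfl := Q.det h1 h3
    rfl
  · intro x hx
    obtain ⟨-, t, t', h1, h2⟩ := Finset.mem_filter.1 hx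
    exact ⟨(t, z, t'), Finset.mem_filter.2 ⟨h1, rfl⟩, h2⟩

omit [Fintype κ] in
private theorem cnt_all {T : Type*} {m : ℕ} (Q : LG T (Fin m)) :
    ∑ z, ((Q.F.filter fun e => e.2.1 = z).card : ℝ) = (Q.F.card : ℝ) := by
  rw [← Nat.cast_sum]
  congr 1
  exact (Finset.card_eq_sum_card_fiberwise (f := fun e : T × Fin m × T => e.2.1)
    (t := Finset.univ) (fun _ _ => Finset.mem_coe.2 (Finset.mem_univ _))).symm

theorem st_pw {wd : ∀ k, Fin (q k) → List (X × Bool)} {V : Type*} [Fintype V] {Γ : LG V X}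
    {T : κ → Type*} [∀ k, Fintype (T k)] {P : ∀ k, LG (T k) (Fin (q k))} {a : ∀ k, T k → V}
    (ha : ∀ k, Function.Injective (a k)) :
    ∑ S, nst wd Γ P a S * ∑ u ∈ S, pw wd u =
      ∑ k, (((P k).F.card : ℝ) - Fintype.card (T k)) := by
  have h1 : ∑ S, nst wd Γ P a S * ∑ u ∈ S, pw wd u = ∑ x, ∑ u ∈ St wd Γ P a x, pw wd u := by
    have := fiber_sum (fun x => St wd Γ P a x) (fun S => ∑ u ∈ S, pw wd u) (by simp)
    rw [← this]
    apply Finset.sum_congr rfl
    intro S _
    unfold nst
    by_cases h : S = ∅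
    · rw [if_pos h, if_pos h]
    · rw [if_neg h, if_neg h]
      refine congrArg (fun s : Finset V => (s.card : ℝ) * ∑ u ∈ S, pw wd u) ?_
      ext x
      simp only [Finset.mem_filter, Finset.mem_univ, true_and]
  rw [h1]
  have h2 : ∑ x, ∑ u ∈ St wd Γ P a x, pw wd u =
      ∑ u, ∑ x, (if u ∈ St wd Γ P a x then pw wd u else 0) := by
    rw [Finset.sum_comm]
    apply Finset.sum_congr rfl
    intro x _
    rw [← Finset.sum_filter]
    apply Finset.sum_congr _ (fun _ _ => rfl)
    ext u
    simp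
  rw [h2, Fintype.sum_sum_type]
  have h3 : ∀ k, ∑ x, (if (Sum.inl k : BV wd) ∈ St wd Γ P a x then pw wd (Sum.inl k) else 0) =
      -(Fintype.card (T k) : ℝ) := by
    intro k
    rw [← cnt_inl (a k) (ha k)]
    apply Finset.sum_congr rfl
    intro x _
    have : ((Sum.inl k : BV wd) ∈ St wd Γ P a x) ↔ ∃ t : T k, a k t = x := by
      simp [St]
    by_cases h : ∃ t : T k, a k t = x
    · rw [if_pos (this.2 h), if_pos h]
      simp [pw]
    · rw [if_neg (fun h' => h (this.1 h')), if_neg h]
  have h4 : ∀ k z (p : Fin ((wd k z).length + 1)),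
      ∑ x, (if (Sum.inr ⟨k, z, p⟩ : BV wd) ∈ St wd Γ P a x then pw wd (Sum.inr ⟨k, z, p⟩) else 0) =
      if p = 0 then (((P k).F.filter fun e => e.2.1 = z).card : ℝ) else 0 := by
    intro k z p
    by_cases hp : p = 0
    · subst hp
      rw [if_pos rfl]
      refine Eq.trans ?_ ((cnt_inr (P k) (a k) (ha k) z).trans ?_)
      swap
      · refine congrArg (fun s : Finset (T k × Fin (q k) × T k) => (s.card : ℝ)) ?_
        ext x
        simp only [Finset.mem_filter]
      apply Finset.sum_congr rfl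
      intro x _
      have : ((Sum.inr ⟨k, z, 0⟩ : BV wd) ∈ St wd Γ P a x) ↔
          ∃ t t' : T k, (t, z, t') ∈ (P k).F ∧ a k t = x := by
        simp [St, LG.Walk]
      by_cases h : ∃ t t' : T k, (t, z, t') ∈ (P k).F ∧ a k t = x
      · rw [if_pos (this.2 h), if_pos h]
        simp [pw]
      · rw [if_neg (fun h' => h (this.1 h')), if_neg h]
    · rw [if_neg hp]
      apply Finset.sum_eq_zero
      intro x _
      have : pw wd (Sum.inr ⟨k, z, p⟩) = 0 := by
        simp [pw, hp]
      rw [this, ite_self]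
  rw [Finset.sum_congr rfl (fun k _ => h3 k)]
  have h5 : ∑ y : (Σ k, Σ z : Fin (q k), Fin ((wd k z).length + 1)),
      ∑ x, (if (Sum.inr y : BV wd) ∈ St wd Γ P a x then pw wd (Sum.inr y) else 0) =
      ∑ k, ((P k).F.card : ℝ) := by
    rw [Fintype.sum_sigma]
    apply Finset.sum_congr rfl
    intro k _
    rw [Fintype.sum_sigma, ← cnt_all (P k)]
    apply Finset.sum_congr rfl
    intro z _
    rw [Finset.sum_congr rfl (fun p _ => h4 k z p)]
    simp
  rw [h5, ← Finset.sum_add_distrib]
  apply Finset.sum_congr rfl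
  intro k _
  ring

end Pool.Agent.LIA.JH
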