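import Pool.Agent.Lib.MP_cf50d6_gt.Cnt

/-!
# JGens : generators of the fundamental group of a component of a finite graph

`LG.exists_tree Γ hC` gives a subgraph `T` with a potential `φ`; the generators are the
`φ o⁻¹ * φ u * of s * (φ v)⁻¹ * φ o` for the edges `(u, s, v)` of `Γ` on `C` outside `T`.
-/

set_option autoImplicit false

open scoped Classical

namespace Pool.Agent.LIA.LG

theorem exists_gens {V X : Type*} [Fintype V] (Γ : LG V X) {C : Finset V} (hC : C ∈ Γ.comps)
    {o : V} (ho : o ∈ C) :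
    ∃ S : Finset (FreeGroup X),
      (∀ L, Γ.Walk o L o → FreeGroup.mk L ∈ Subgroup.closure (S : Set (FreeGroup X))) ∧
      S.card + C.card ≤ (Γ.edges C).card + 1 := by
  obtain ⟨T, hTF, hTc, hTC, φ, hφ⟩ := exists_tree Γ hC
  let S : Finset (FreeGroup X) := (Γ.edges C \ T.F).image fun e =>
    (φ o)⁻¹ * φ e.1 * FreeGroup.of e.2.1 * (φ e.2.2)⁻¹ * φ o
  have hedge : ∀ u s v, (u, s, v) ∈ Γ.F → u ∈ C →
      (φ o)⁻¹ * φ u * FreeGroup.of s * (φ v)⁻¹ * φ o ∈
        Subgroup.closure (S : Set (FreeGroup X)) := by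
    intro u s v he hu
    by_cases heT : (u, s, v) ∈ T.F
    · have h1 : (φ o)⁻¹ * φ u * FreeGroup.of s * (φ v)⁻¹ * φ o = 1 := by
        rw [hφ u s v heT hu]
        group
      rw [h1]
      exact Subgroup.one_mem _
    · apply Subgroup.subset_closure
      rw [Finset.mem_coe]
      exact Finset.mem_image_of_mem (fun e : V × X × V =>
        (φ o)⁻¹ * φ e.1 * FreeGroup.of e.2.1 * (φ e.2.2)⁻¹ * φ o)
        (Finset.mem_sdiff.2 ⟨mem_edges.2 ⟨he, hu⟩, heT⟩)
  have hwalk : ∀ (L : List (X × Bool)) (u v : V), u ∈ C → Γ.Walk u L v →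
      (φ o)⁻¹ * φ u * FreeGroup.mk L * (φ v)⁻¹ * φ o ∈
        Subgroup.closure (S : Set (FreeGroup X)) := by
    intro L
    induction L with
    | nil =>
      intro u v _ h
      have h1 : u = v := h
      subst h1
      have h2 : (φ o)⁻¹ * φ u * FreeGroup.mk ([] : List (X × Bool)) * (φ u)⁻¹ * φ o = 1 := by
        rw [← FreeGroup.one_eq_mk]
        group
      rw [h2]
      exact Subgroup.one_mem _
    | cons l L ih =>
      rintro u v hu ⟨a, ha, ha'⟩
      have ha1 : a ∈ C := mem_of_step hC hu ha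
      have h1 := ih a v ha1 ha'
      obtain ⟨s, b⟩ := l
      have hu1 : (φ o)⁻¹ * φ u * FreeGroup.mk [(s, b)] * (φ a)⁻¹ * φ o ∈
          Subgroup.closure (S : Set (FreeGroup X)) := by
        cases b
        · rw [step_false] at ha
          have h2 := Subgroup.inv_mem _ (hedge a s u ha ha1)
          have h3 : ((φ o)⁻¹ * φ a * FreeGroup.of s * (φ u)⁻¹ * φ o)⁻¹ =
              (φ o)⁻¹ * φ u * FreeGroup.mk [(s, false)] * (φ a)⁻¹ * φ o := by
            have h4 : FreeGroup.mk [(s, false)] = (FreeGroup.of s)⁻¹ := by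
              rw [FreeGroup.of, FreeGroup.inv_mk]
              rfl
            rw [h4]
            group
          rw [h3] at h2
          exact h2
        · rw [step_true] at ha
          exact hedge u s a ha hu
      have h5 := Subgroup.mul_mem _ hu1 h1
      have h6 : (φ o)⁻¹ * φ u * FreeGroup.mk [(s, b)] * (φ a)⁻¹ * φ o *
          ((φ o)⁻¹ * φ a * FreeGroup.mk L * (φ v)⁻¹ * φ o) =
          (φ o)⁻¹ * φ u * FreeGroup.mk ((s, b) :: L) * (φ v)⁻¹ * φ o := by
        have h7 : FreeGroup.mk ((s, b) :: L) = FreeGroup.mk [(s, b)] * FreeGroup.mk L := by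
          rw [FreeGroup.mul_mk]
          rfl
        rw [h7]
        group
      rw [h6] at h5
      exact h5
  refine ⟨S, ?_, ?_⟩
  · intro L hL
    have h1 := hwalk L o o ho hL
    have h2 : (φ o)⁻¹ * φ o * FreeGroup.mk L * (φ o)⁻¹ * φ o = FreeGroup.mk L := by group
    rw [h2] at h1
    exact h1
  · have h1 : S.card ≤ (Γ.edges C \ T.F).card := Finset.card_image_le
    have h2 : (Γ.edges C \ T.F).card + T.F.card = (Γ.edges C).card :=
      Finset.card_sdiff_add_card_eq_card hTF
    omega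

end Pool.Agent.LIA.LG
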