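import Pool.Agent.Lib.GogLI.JQb
import Pool.Agent.Lib.GogLI.JGens

/-!
# JQc : the inequality for one component of the quotient graph

Let `Q = QG wd M hM`, `C` a component with base point `o ∈ C`, `kk C` the set of the `k` with `Sum.inl k ∈ S` for some `S ∈ C` (this member
`S k` is unique by `hM.uniq`).
`LG.exists_gens` gives `S0 : Finset (FreeGroup X)`, `S0.card + C.card ≤ (Q.edges C).card + 1`, whose closure contains the values of
all closed walks at `o`. For `k ∈ kk C` choose a walk `L k` from `o` to `S k` (`conn_of_mem_comps`); for `z ∈ zz M k` the walk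
`L k ++ wd k z ++ invRev (L k)` is closed at `o` (`petal` applied to the member with `⟨k, z, 0⟩`: the member `S0` there contains the centre, so it
is `S k` by uniqueness), so `g k * c k (of z) * (g k)⁻¹ ∈ closure S0` with `g k = mk (L k)`.
Let `S1 = S0 ∪ (the elements g k * c k (of z) * (g k)⁻¹, k ∈ kk C, z ∉ zz M k)`, so
`S1.card ≤ S0.card + ∑ k ∈ kk C, (q k - (zz M k).card)`. `hJ (kk C) S1` (the closure contains `g k * c k x * (g k)⁻¹` for all `x`: it is
enough for the generators `of z`, the set of these `x` is a subgroup) gives `∑ k ∈ kk C, q k + 1 ≤ S1.card + (kk C).card`. Hence the claim.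
`kk C` is not empty: a member `S ∈ C` is nonempty (`hM.nonempty`), it contains a centre or a point of a petal, and in the second
case `petal` gives a member with a centre which is connected with `S`.
-/

set_option autoImplicit false

open scoped Classical

namespace Pool.Agent.LIA.JH

open LP

variable {κ X : Type*} {q : κ → ℕ} [Fintype κ]

theorem comp_le {wd : ∀ k, Fin (q k) → List (X × Bool)}
    {c : ∀ k, FreeGroup (Fin (q k)) →* FreeGroup X}
    (hwd : ∀ k z, FreeGroup.mk (wd k z) = c k (FreeGroup.of z)) (hJ : JComp q c)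
    {M : Finset (Finset (BV wd))} (hM : VPart (EE wd) M) (hA : ∀ S ∈ M, Adm wd S)
    {C : Finset {S // S ∈ M}} (hC : C ∈ (QG wd M hM).comps) :
    ∑ k ∈ kk C, (zz M k).card + C.card ≤ ((QG wd M hM).edges C).card + (kk C).card := by
  obtain ⟨o, ho⟩ := LG.nonempty_of_mem_comps hC
  obtain ⟨S0, hS0, hcard⟩ := LG.exists_gens (QG wd M hM) hC ho
  -- the members with the centres
  have hk : ∀ k : κ, ∃ (s : {S // S ∈ M}) (L : List (X × Bool)),
      k ∈ kk C → Sum.inl k ∈ s.1 ∧ (QG wd M hM).Walk o L s := by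
    intro k
    by_cases h : k ∈ kk C
    · obtain ⟨-, s, hs, hks⟩ := Finset.mem_filter.1 h
      obtain ⟨L, hL⟩ := LG.conn_of_mem_comps hC ho hs
      exact ⟨s, L, fun _ => ⟨hks, hL⟩⟩
    · exact ⟨o, [], fun h' => absurd h' h⟩
  choose s L hsL using hk
  have hgen : ∀ k ∈ kk C, ∀ z ∈ zz M k,
      FreeGroup.mk (L k) * c k (FreeGroup.of z) * (FreeGroup.mk (L k))⁻¹ ∈
        Subgroup.closure (S0 : Set (FreeGroup X)) := by
    intro k hkC z hz
    obtain ⟨hks, hL⟩ := hsL k hkC
    obtain ⟨-, S, hS, hzS⟩ := Finset.mem_filter.1 hz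
    obtain ⟨S', h1, -, h3, -⟩ := petal hM hA hS hzS
    have h4 : S' = s k :=
      Subtype.ext (hM.uniq _ S'.2 _ (s k).2 ⟨Sum.inl k, Finset.mem_inter.2 ⟨h1, hks⟩⟩)
    rw [h4] at h3
    have h5 : (QG wd M hM).Walk o (L k ++ wd k z ++ FreeGroup.invRev (L k)) o :=
      LG.walk_append.2 ⟨s k, LG.walk_append.2 ⟨s k, hL, h3⟩, LG.walk_symm hL⟩
    have h6 := hS0 _ h5
    rw [mk_append, mk_append, ← FreeGroup.inv_mk, hwd] at h6
    exact h6
  -- the additional generators
  obtain ⟨S2, hS2⟩ : ∃ S2 : Finset (FreeGroup X), S2 = (kk C).biUnion fun k =>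
      (Finset.univ \ zz M k).image fun z =>
        FreeGroup.mk (L k) * c k (FreeGroup.of z) * (FreeGroup.mk (L k))⁻¹ := ⟨_, rfl⟩
  have hS2c : S2.card ≤ ∑ k ∈ kk C, (Finset.univ \ zz M k).card := by
    rw [hS2]
    exact Finset.card_biUnion_le.trans (Finset.sum_le_sum fun k _ => Finset.card_image_le)
  have hne : (kk C).Nonempty := by
    obtain ⟨u, hu⟩ := hM.nonempty o.1 o.2
    rcases u with k | ⟨k, z, p⟩
    · exact ⟨k, Finset.mem_filter.2 ⟨Finset.mem_univ k, o, ho, hu⟩⟩
    · obtain ⟨S', h1, -, -, h4⟩ := petal hM hA o.2 hu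
      refine ⟨k, Finset.mem_filter.2 ⟨Finset.mem_univ k, S', ?_, h1⟩⟩
      rw [LG.eq_comp_of_mem hC ho]
      exact LG.mem_comp.2 h4.symm
  have hJ' := hJ (kk C) (S0 ∪ S2) hne ?_
  · have h1 : ∀ k, (Finset.univ \ zz M k).card + (zz M k).card = q k := by
      intro k
      rw [Finset.card_sdiff_add_card_eq_card (Finset.subset_univ _), Finset.card_univ,
        Fintype.card_fin]
    have h2 : ∑ k ∈ kk C, q k =
        ∑ k ∈ kk C, (Finset.univ \ zz M k).card + ∑ k ∈ kk C, (zz M k).card := by
      rw [← Finset.sum_add_distrib]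
      exact Finset.sum_congr rfl fun k _ => (h1 k).symm
    have h3 := Finset.card_union_le S0 S2
    omega
  · intro k hkC
    refine ⟨FreeGroup.mk (L k), fun x => ?_⟩
    have hsub : (⊤ : Subgroup (FreeGroup (Fin (q k)))) ≤
        ((Subgroup.closure ((S0 ∪ S2 : Finset (FreeGroup X)) : Set (FreeGroup X))).comap
          (MulAut.conj (FreeGroup.mk (L k))).toMonoidHom).comap (c k) := by
      rw [← FreeGroup.closure_range_of, Subgroup.closure_le]
      rintro _ ⟨z, rfl⟩
      show FreeGroup.mk (L k) * c k (FreeGroup.of z) * (FreeGroup.mk (L k))⁻¹ ∈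
        Subgroup.closure ((S0 ∪ S2 : Finset (FreeGroup X)) : Set (FreeGroup X))
      by_cases hz : z ∈ zz M k
      · refine Subgroup.closure_mono ?_ (hgen k hkC z hz)
        rw [Finset.coe_union]
        exact Set.subset_union_left
      · refine Subgroup.subset_closure ?_
        rw [Finset.mem_coe, Finset.mem_union]
        right
        rw [hS2, Finset.mem_biUnion]
        exact ⟨k, hkC, Finset.mem_image.2
          ⟨z, Finset.mem_sdiff.2 ⟨Finset.mem_univ z, hz⟩, rfl⟩⟩
    exact hsub (Subgroup.mem_top x)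

end Pool.Agent.LIA.JH
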