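import Pool.Agent.Lib.GogLI.JQa
import Pool.Agent.Lib.GogLI.JQc

/-!
# JQd : the hypothesis of the linear programming lemma

Let `K = {k | some S ∈ M contains Sum.inl k}`.
1. `∑ S ∈ M, ∑ u ∈ S, pw wd u = ∑ k ∈ K, ((zz M k).card - 1)`: the members of `M` are disjoint; the only vertices with nonzero `pw` are
   the centres (`-1`) and the points `⟨k, z, 0⟩` (`1`); if `z ∈ zz M k`, then `k ∈ K` (the member with `⟨k, z, 0⟩` is admissible). (Sum over
   `M.biUnion id` and `Finset.sum_biUnion`.)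
2. Every `k ∈ K` is in `kk C` for exactly one component `C` (its centre is in exactly one member of `M`).
3. Sum `comp_le` over the components (`sum_card_edges`, `sum_card_comps`), and use `sum_cost`.
-/

set_option autoImplicit false

open scoped Classical

namespace Pool.Agent.LIA.JH

open LP

variable {κ X : Type*} {q : κ → ℕ} [Fintype κ]

private theorem kk_disj {wd : ∀ k, Fin (q k) → List (X × Bool)} {M : Finset (Finset (BV wd))}
    (hM : VPart (EE wd) M) :
    (↑(QG wd M hM).comps : Set (Finset {S // S ∈ M})).PairwiseDisjoint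
      (fun C => kk (wd := wd) C) := by
  intro C hC C' hC' hne
  rw [Function.onFun, Finset.disjoint_left]
  intro k hk hk'
  obtain ⟨S, hS, hkS⟩ := (Finset.mem_filter.1 hk).2
  obtain ⟨S', hS', hkS'⟩ := (Finset.mem_filter.1 hk').2
  have h1 : S = S' :=
    Subtype.ext (hM.uniq _ S.2 _ S'.2 ⟨_, Finset.mem_inter.2 ⟨hkS, hkS'⟩⟩)
  subst h1
  exact hne ((LG.eq_comp_of_mem hC hS).trans (LG.eq_comp_of_mem hC' hS').symm)

private theorem sum_pw {wd : ∀ k, Fin (q k) → List (X × Bool)} {M : Finset (Finset (BV wd))}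
    (hM : VPart (EE wd) M) (hA : ∀ S ∈ M, Adm wd S) (K : Finset κ)
    (hK : ∀ k, k ∈ K ↔ ∃ S ∈ M, Sum.inl k ∈ S) :
    ∑ S ∈ M, ∑ u ∈ S, pw wd u = ∑ k ∈ K, (((zz (wd := wd) M k).card : ℝ) - 1) := by
  have hd : (↑M : Set (Finset (BV wd))).PairwiseDisjoint id := by
    intro S hS S' hS' hne
    rw [Function.onFun, id, id, Finset.disjoint_iff_inter_eq_empty]
    by_contra h
    exact hne (hM.uniq S hS S' hS' (Finset.nonempty_iff_ne_empty.2 h))
  have h1 : ∑ S ∈ M, ∑ u ∈ S, pw wd u = ∑ u ∈ M.biUnion id, pw wd u :=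
    (Finset.sum_biUnion hd).symm
  have hU : ∀ u, u ∈ M.biUnion id ↔ ∃ S ∈ M, u ∈ S := by
    intro u
    rw [Finset.mem_biUnion]
    rfl
  have h2 : ∑ u ∈ M.biUnion id, pw wd u =
      ∑ u, if u ∈ M.biUnion id then pw wd u else 0 := by
    rw [Finset.sum_ite_mem, Finset.univ_inter]
  have h3 : (∑ k : κ, if (Sum.inl k : BV wd) ∈ M.biUnion id then pw wd (Sum.inl k) else 0) =
      ∑ k ∈ K, (-1 : ℝ) := by
    rw [← Finset.sum_filter]
    refine Finset.sum_congr ?_ fun k _ => rfl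
    ext k
    rw [Finset.mem_filter, hU, hK]
    simp
  have h4 : (∑ y : (Σ k, Σ z : Fin (q k), Fin ((wd k z).length + 1)),
      if (Sum.inr y : BV wd) ∈ M.biUnion id then pw wd (Sum.inr y) else 0) =
      ∑ k, ((zz (wd := wd) M k).card : ℝ) := by
    rw [Fintype.sum_sigma]
    refine Finset.sum_congr rfl fun k _ => ?_
    rw [Fintype.sum_sigma]
    have h5 : ∀ z : Fin (q k), (∑ p : Fin ((wd k z).length + 1),
        if (Sum.inr ⟨k, z, p⟩ : BV wd) ∈ M.biUnion id then pw wd (Sum.inr ⟨k, z, p⟩) else 0) =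
        if (Sum.inr ⟨k, z, 0⟩ : BV wd) ∈ M.biUnion id then (1 : ℝ) else 0 := by
      intro z
      rw [Finset.sum_eq_single (0 : Fin ((wd k z).length + 1))]
      · have : pw wd (Sum.inr ⟨k, z, 0⟩) = 1 := by simp [pw]
        rw [this]
      · intro p _ hp
        have : pw wd (Sum.inr ⟨k, z, p⟩) = 0 := by simp [pw, hp]
        rw [this, ite_self]
      · intro h
        exact absurd (Finset.mem_univ _) h
    rw [Finset.sum_congr rfl fun z _ => h5 z, ← Finset.sum_filter, Finset.sum_const,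
      nsmul_eq_mul, mul_one]
    congr 2
    ext z
    rw [Finset.mem_filter, hU, zz, Finset.mem_filter]
  have h6 : ∑ k, ((zz (wd := wd) M k).card : ℝ) = ∑ k ∈ K, ((zz (wd := wd) M k).card : ℝ) := by
    symm
    refine Finset.sum_subset (Finset.subset_univ K) fun k _ hk => ?_
    have h7 : zz (wd := wd) M k = ∅ := by
      rw [Finset.eq_empty_iff_forall_notMem]
      intro z hz
      obtain ⟨S, hS, hzS⟩ := (Finset.mem_filter.1 hz).2
      exact hk ((hK k).2 ⟨S, hS, hA S hS k z (Or.inl hzS)⟩)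
    rw [h7]
    simp
  rw [h1, h2, Fintype.sum_sum_type, h3, h4, h6, Finset.sum_sub_distrib, Finset.sum_const,
    Finset.sum_const]
  simp only [nsmul_eq_mul]
  ring

theorem quot_le {wd : ∀ k, Fin (q k) → List (X × Bool)}
    {c : ∀ k, FreeGroup (Fin (q k)) →* FreeGroup X}
    (hwd : ∀ k z, FreeGroup.mk (wd k z) = c k (FreeGroup.of z)) (hJ : JComp q c)
    (M : Finset (Finset (BV wd))) (hM : VPart (EE wd) M) (hA : ∀ S ∈ M, Adm wd S) :
    ∑ S ∈ M, ∑ u ∈ S, pw wd u ≤ ∑ S ∈ M, cost (EE wd) S := by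
  obtain ⟨K, hKdef⟩ : ∃ K, K = (QG wd M hM).comps.biUnion (fun C => kk (wd := wd) C) := ⟨_, rfl⟩
  have hK : ∀ k, k ∈ K ↔ ∃ S ∈ M, Sum.inl k ∈ S := by
    intro k
    rw [hKdef, Finset.mem_biUnion]
    constructor
    · rintro ⟨C, hC, hk⟩
      obtain ⟨S, hS, hkS⟩ := (Finset.mem_filter.1 hk).2
      exact ⟨S.1, S.2, hkS⟩
    · rintro ⟨S, hS, hkS⟩
      refine ⟨(QG wd M hM).comp ⟨S, hS⟩, LG.comp_mem_comps _, ?_⟩
      exact Finset.mem_filter.2 ⟨Finset.mem_univ _, ⟨S, hS⟩, LG.self_mem_comp _, hkS⟩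
  have hcomb : ∑ k ∈ K, (zz (wd := wd) M k).card + M.card ≤
      (QG wd M hM).F.card + K.card := by
    have h1 : ∑ C ∈ (QG wd M hM).comps, (∑ k ∈ kk (wd := wd) C, (zz (wd := wd) M k).card + C.card) ≤
        ∑ C ∈ (QG wd M hM).comps, (((QG wd M hM).edges C).card + (kk (wd := wd) C).card) :=
      Finset.sum_le_sum fun C hC => comp_le hwd hJ hM hA hC
    rw [Finset.sum_add_distrib, Finset.sum_add_distrib, LG.sum_card_comps, LG.sum_card_edges,
      ← Finset.sum_biUnion (kk_disj hM), ← Finset.card_biUnion (kk_disj hM), ← hKdef,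
      Fintype.card_coe] at h1
    exact h1
  rw [sum_pw hM hA K hK, sum_cost wd M hM, Finset.sum_sub_distrib, Finset.sum_const]
  simp only [nsmul_eq_mul, mul_one]
  have h2 : (∑ k ∈ K, ((zz (wd := wd) M k).card : ℝ)) + M.card ≤
      (QG wd M hM).F.card + K.card := by
    exact_mod_cast hcomb
  linarith

end Pool.Agent.LIA.JH
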