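import Pool.Agent.Lib.GogLI.LMain
import Pool.Agent.Lib.GogLI.JQd
import Pool.Agent.Lib.GogLI.JBal
import Pool.Agent.Lib.GogLI.JCost
import Pool.Agent.Lib.GogLI.JPw
import Pool.Agent.Lib.GogLI.JPos

/-!
# JHN : jointly compressed families satisfy the strengthened Hanna Neumann inequality with constant 1

(helper81, problem MP_cf50d6_gt; paper MP_cf50d6_gt_paper81b.md, section 2)
-/

set_option autoImplicit false

open scoped Classical

namespace Pool.Agent.LIA

universe u

theorem jhn {κ X : Type*} [Fintype κ] {q : κ → ℕ}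
    {c : ∀ k, FreeGroup (Fin (q k)) →* FreeGroup X} (hJ : JComp q c) {V : Type*} [Fintype V]
    (Γ : LG V X) {T : κ → Type*} [∀ k, Fintype (T k)] (P : ∀ k, LG (T k) (Fin (q k)))
    (a : ∀ k, T k → V) (ha : ∀ k, Function.Injective (a k))
    (hw : ∀ k t z t', (t, z, t') ∈ (P k).F →
      Γ.Walk (a k t) (c k (FreeGroup.of z)).toWord (a k t')) :
    ∑ k, (P k).rr ≤ Γ.rr := by
  choose Tp P' hP' hcard using fun k => (P k).exists_pos
  let wd : ∀ k, Fin (q k) → List (X × Bool) := fun k z => (c k (FreeGroup.of z)).toWord
  have hw' : ∀ k (t : {t // t ∈ Tp k}) z t', (t, z, t') ∈ (P' k).F →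
      Γ.Walk (a k t.1) (wd k z) (a k t'.1) := fun k t z t' h => hw _ _ _ _ (hP' k _ _ _ h)
  have h1 := LP.lp2 (E := JH.EE wd) (JH.Adm wd) ?_ (JH.pw wd)
    (fun M hM hA => JH.quot_le (c := c) (fun k z => FreeGroup.mk_toWord) hJ M hM hA)
    (JH.nst wd Γ P' fun k t => a k t.1) ?_ ?_ (JH.st_bal hw') ?_
  · have h2 := h1.trans (JH.st_cost hw')
    rw [JH.st_pw (fun k t t' h => Subtype.ext (ha k h))] at h2
    have h3 : ∀ k, (((P' k).F.card : ℝ) - Fintype.card {t // t ∈ Tp k}) = ((P k).rr : ℝ) := by
      intro k
      rw [hcard, Fintype.card_coe]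
      push_cast
      ring
    rw [Finset.sum_congr rfl fun k _ => h3 k] at h2
    exact_mod_cast h2
  · intro S S' hS hS'
    constructor
    · intro k z h
      rw [Finset.mem_inter]
      rw [Finset.mem_inter, Finset.mem_inter] at h
      exact ⟨hS k z (h.imp And.left And.left), hS' k z (h.imp And.right And.right)⟩
    · intro k z h
      rw [Finset.mem_union]
      rw [Finset.mem_union, Finset.mem_union] at h
      rcases h with (h | h) | (h | h)
      · exact Or.inl (hS k z (Or.inl h))
      · exact Or.inr (hS' k z (Or.inl h))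
      · exact Or.inl (hS k z (Or.inr h))
      · exact Or.inr (hS' k z (Or.inr h))
  · intro S
    unfold JH.nst
    split_ifs
    · exact le_rfl
    · exact Nat.cast_nonneg _
  · simp [JH.nst]
  · intro S hS
    unfold JH.nst at hS
    split_ifs at hS with h0
    · exact absurd rfl hS
    · have h4 : (Finset.univ.filter fun x => JH.St wd Γ P' (fun k t => a k t.1) x = S).Nonempty := by
        rw [Finset.nonempty_iff_ne_empty]
        intro h5
        rw [h5] at hS
        simp at hS
      obtain ⟨x, hx⟩ := h4
      rw [← (Finset.mem_filter.1 hx).2]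
      exact JH.st_adm hw' x

/-- a compressed subgroup has the Hanna Neumann constant 1 -/
theorem Compressed.hnBound {r : ℕ} {X : Type*} {c : FreeGroup (Fin r) →* FreeGroup X}
    (h : Compressed c) : HNBound.{u} c 1 := by
  intro V T _ _ Γ P a ha hw
  have hJ : JComp (κ := Unit) (fun _ => r) fun _ => c := by
    intro T S hT hS
    obtain ⟨k, hk⟩ := hT
    obtain ⟨g, hg⟩ := hS k hk
    have h1 : T = {()} := by
      ext x
      simp only [Finset.mem_singleton, iff_true]
      exact hk
    have h2 : ∀ x ∈ Subgroup.closure (S : Set (FreeGroup X)), g⁻¹ * x * g ∈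
        Subgroup.closure ((S.image fun x => g⁻¹ * x * g : Finset (FreeGroup X)) :
          Set (FreeGroup X)) := by
      intro x hx
      induction hx using Subgroup.closure_induction with
      | mem x hx =>
        exact Subgroup.subset_closure (Finset.mem_coe.2 (Finset.mem_image_of_mem _ hx))
      | one => simp
      | mul x y _ _ hx hy =>
        have := mul_mem hx hy
        have e : g⁻¹ * x * g * (g⁻¹ * y * g) = g⁻¹ * (x * y) * g := by group
        rwa [e] at this
      | inv x _ hx =>
        have := inv_mem hx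
        have e : (g⁻¹ * x * g)⁻¹ = g⁻¹ * x⁻¹ * g := by group
        rwa [e] at this
    have h3 := h (S.image fun x => g⁻¹ * x * g) (fun z => by
      have := h2 _ (hg z)
      have e : g⁻¹ * (g * c z * g⁻¹) * g = c z := by group
      rwa [e] at this)
    have h4 : (S.image fun x => g⁻¹ * x * g).card ≤ S.card := Finset.card_image_le
    rw [h1]
    simp only [Finset.sum_const, Finset.card_singleton, smul_eq_mul, one_mul]
    omega
  have h1 := jhn hJ Γ (T := fun _ => T) (fun _ => P) (fun _ => a) (fun _ => ha)
    (fun _ => hw)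
  simp only [Finset.univ_unique, Finset.sum_const, Finset.card_singleton, smul_eq_mul,
    one_mul] at h1
  rw [one_mul]
  exact_mod_cast h1

end Pool.Agent.LIA
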