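import Pool.Agent.Lib.GogLI.KDefs
import Pool.Agent.Lib.GogLI.JHN

/-!
# SEnds : the jointly compressed ends at a vertex
-/

set_option autoImplicit false

open scoped Classical

namespace Pool.Agent.LIA

universe u

theorem JComp.of_injective {κ κ' G : Type*} [Group G] {q : κ → ℕ}
    {c : ∀ k, FreeGroup (Fin (q k)) →* G} (h : JComp q c) (f : κ' → κ)
    (hf : Function.Injective f) : JComp (fun k => q (f k)) fun k => c (f k) := by
  intro T S hT hS
  have h1 := h (T.map ⟨f, hf⟩) S (hT.map) (by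
    intro k hk
    obtain ⟨k', hk', rfl⟩ := Finset.mem_map.1 hk
    exact hS k' hk')
  rwa [Finset.sum_map, Finset.card_map] at h1

namespace GOG

variable (A : GOG.{u})

/-- the vertex of an edge at the given end -/
private def aE {V : Type u} [Fintype V] (Γ : LG V ((Σ i, A.X i) ⊕ A.J)) (e : A.J × Bool)
    (t : A.toGFG.TT Γ e.1) : V := if e.2 then t.1.1 else t.1.2

private theorem aE_inj {V : Type u} [Fintype V] (Γ : LG V ((Σ i, A.X i) ⊕ A.J))
    (e : A.J × Bool) : Function.Injective (A.aE Γ e) := by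
  obtain ⟨j, b⟩ := e
  rintro ⟨⟨u, v⟩, h1⟩ ⟨⟨u', v'⟩, h2⟩ h3
  cases b
  · have h4 : v = v' := h3
    subst h4
    obtain rfl := Γ.cod h1 h2
    rfl
  · have h4 : u = u' := h3
    subst h4
    obtain rfl := Γ.det h1 h2
    rfl

private theorem aE_walk {V : Type u} [Fintype V] (Γ : LG V ((Σ i, A.X i) ⊕ A.J)) (i : A.I)
    (e : A.J × Bool) (h : A.vert e = i) (t : A.toGFG.TT Γ e.1) (z : Fin (A.r e.1))
    (t' : A.toGFG.TT Γ e.1) (hP : (t, z, t') ∈ (A.toGFG.PP Γ e.1).F) :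
    (A.toGFG.GG Γ i).Walk (A.aE Γ e t) (A.embAt h (FreeGroup.of z)).toWord (A.aE Γ e t') := by
  subst h
  obtain ⟨j, b⟩ := e
  rw [GFG.mem_PP] at hP
  cases b
  · exact LG.walk_pull.2 hP.2
  · exact LG.walk_pull.2 hP.1

theorem ends_le {V : Type u} [Fintype V] (Γ : LG V ((Σ i, A.X i) ⊕ A.J))
    {E0 : Set (A.J × Bool)} (hJ : A.JointlyCompressed E0) (i : A.I)
    (B : Finset (A.J × Bool)) (hB : ∀ e ∈ B, e ∈ E0 ∧ A.vert e = i) :
    ∑ e ∈ B, (A.toGFG.PP Γ e.1).rr ≤ (A.toGFG.GG Γ i).rr := by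
  rw [← Finset.sum_coe_sort B fun e => (A.toGFG.PP Γ e.1).rr]
  have h1 : JComp (fun e : ↥B => A.r e.1.1) fun e : ↥B => A.embAt (hB e.1 e.2).2 :=
    (hJ i).of_injective (fun e : ↥B => ⟨e.1, hB e.1 e.2⟩) (by
      intro e e' h
      exact Subtype.ext (congrArg
        (fun x : {e : A.J × Bool // e ∈ E0 ∧ A.vert e = i} => x.1) h))
  exact jhn h1 (A.toGFG.GG Γ i) (T := fun e : ↥B => A.toGFG.TT Γ e.1.1)
    (fun e : ↥B => A.toGFG.PP Γ e.1.1) (fun e : ↥B => A.aE Γ e.1)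
    (fun e => A.aE_inj Γ e.1) (fun e t z t' h => A.aE_walk Γ i e.1 (hB e.1 e.2).2 t z t' h)

end GOG

end Pool.Agent.LIA
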