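import Pool.Agent.Lib.GogLI.CDefs
import Pool.Agent.Lib.GogLI.SEnds

/-!
# CJc : joint compressedness on the covering forest

At the vertex `v = (g, i)` of `A.cover` the index type is `{e : (FreeGroup A.J × A.J) × Bool // (e.1.2, e.2) ∈ E0 ∧ A.cover.vert e = (g, i)}`. The map
`e ↦ (e.1.2, e.2)` to `{e : A.J × Bool // e ∈ E0 ∧ A.vert e = i}` is injective: for `e = ((h, j), true)` we have `h = g`, for `e = ((h, j), false)`
we have `h * of j = g`. The embedding `A.cover.embAt _` is `A.embAt _` (after `subst`/`cases` on the equation, both sides are `A.α j` or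
`A.β j`). So `JComp.of_injective` (in `SEnds`) gives the claim.
-/

set_option autoImplicit false

open scoped Classical

namespace Pool.Agent.LIA.GOG

universe u

private theorem cj_emb (A : GOG.{u}) {v : A.cover.I} {e : A.cover.J × Bool}
    (hv : A.cover.vert e = v) (hi : A.vert (e.1.2, e.2) = v.2) :
    A.cover.embAt hv = A.embAt hi := by
  subst hv
  obtain ⟨⟨h, j⟩, b⟩ := e
  cases b <;> rfl

private theorem cj_vert (A : GOG.{u}) {v : A.cover.I} {e : A.cover.J × Bool}
    (hv : A.cover.vert e = v) : A.vert (e.1.2, e.2) = v.2 := by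
  subst hv
  obtain ⟨⟨h, j⟩, b⟩ := e
  cases b <;> rfl

private theorem cj_inj (A : GOG.{u}) {v : A.cover.I} {e e' : A.cover.J × Bool}
    (hv : A.cover.vert e = v) (hv' : A.cover.vert e' = v) (h1 : e.1.2 = e'.1.2)
    (h2 : e.2 = e'.2) : e = e' := by
  obtain ⟨⟨h, j⟩, b⟩ := e
  obtain ⟨⟨h', j'⟩, b'⟩ := e'
  have h1' : j = j' := h1
  have h2' : b = b' := h2
  subst h1' h2'
  have h3 := hv.trans hv'.symm
  cases b
  · have h4 : h * FreeGroup.of j = h' * FreeGroup.of j := congrArg Prod.fst h3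
    rw [mul_right_cancel h4]
  · have h4 : h = h' := congrArg Prod.fst h3
    rw [h4]

theorem cover_jc (A : GOG.{u}) {E0 : Set (A.J × Bool)} (h : A.JointlyCompressed E0) :
    A.cover.JointlyCompressed {e | (e.1.2, e.2) ∈ E0} := by
  intro v
  have key := JComp.of_injective (h v.2)
    (fun e : {e : A.cover.J × Bool // e ∈ {e : A.cover.J × Bool | (e.1.2, e.2) ∈ E0} ∧
        A.cover.vert e = v} =>
      (⟨(e.1.1.2, e.1.2), e.2.1, cj_vert A e.2.2⟩ :
        {e : A.J × Bool // e ∈ E0 ∧ A.vert e = v.2}))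
    (by
      intro e e' hee
      have h1 : ((e.1.1.2, e.1.2) : A.J × Bool) = (e'.1.1.2, e'.1.2) :=
        congrArg Subtype.val hee
      obtain ⟨h2, h3⟩ := Prod.mk.inj h1
      exact Subtype.ext (cj_inj A e.2.2 e'.2.2 h2 h3))
  have hc : (fun e : {e : A.cover.J × Bool // e ∈ {e : A.cover.J × Bool | (e.1.2, e.2) ∈ E0} ∧
        A.cover.vert e = v} => A.cover.embAt e.2.2) =
      fun e => A.embAt (cj_vert A e.2.2) := funext fun e => cj_emb A e.2.2 (cj_vert A e.2.2)
  rw [hc]
  exact key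

end Pool.Agent.LIA.GOG
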