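import Pool.Agent.Lib.GogLI.CDefs

/-!
# CTr : the translations of the group over the covering forest

`tr g` maps the letter `Sum.inl ⟨(h, i), x⟩` to `Sum.inl ⟨(g * h, i), x⟩` and `Sum.inr (h, j)` to `Sum.inr (g * h, j)`. This permutes the relators of
`A.cover` : `PresentedGroup.toGroup` (the relators of the vertex `(h, i)` are mapped to those of `(g * h, i)`, the edge relator of
`((h, j), z)` to that of `((g * h, j), z)`, as `g * (h * of j) = g * h * of j`; transport of the letters: `FreeGroup.map` and
`FreeGroup.map.comp`). `tr 1 = id`, `tr (g * g') = tr g ∘ tr g'` on the generators (`PresentedGroup.ext`), so `tr` is a homomorphism to `MulAut`.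
-/

set_option autoImplicit false

open scoped Classical

namespace Pool.Agent.LIA.GOG

universe u

variable (A : GOG.{u})

/-- the letters of the covering forest -/
private abbrev Let : Type u := (Σ i, A.cover.X i) ⊕ A.cover.J

/-- the letters of a vertex -/
private abbrev lv (h : FreeGroup A.J) (i : A.I) (x : A.X i) : Let A := Sum.inl ⟨(h, i), x⟩

/-- the letter of an edge -/
private abbrev le (h : FreeGroup A.J) (j : A.J) : Let A := Sum.inr (h, j)

/-- the translation of the letters -/
private def sg (g : FreeGroup A.J) : Let A → Let A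
  | Sum.inl ⟨(h, i), x⟩ => lv A (g * h) i x
  | Sum.inr (h, j) => le A (g * h) j

private theorem sg_lv (g h : FreeGroup A.J) (i : A.I) (x : A.X i) :
    sg A g (lv A h i x) = lv A (g * h) i x := rfl

private theorem sg_le (g h : FreeGroup A.J) (j : A.J) :
    sg A g (le A h j) = le A (g * h) j := rfl

private theorem map_lv (g h : FreeGroup A.J) (i : A.I) (w : FreeGroup (A.X i)) :
    FreeGroup.map (sg A g) (FreeGroup.map (lv A h i) w) = FreeGroup.map (lv A (g * h) i) w := by
  rw [FreeGroup.map.comp]
  rfl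

/-- the edge relator -/
private def er (h : FreeGroup A.J) (j : A.J) (z : Fin (A.r j)) : FreeGroup (Let A) :=
  FreeGroup.of (le A h j) * FreeGroup.map (lv A (h * FreeGroup.of j) (A.t j))
      (A.β j (FreeGroup.of z)) *
    (FreeGroup.of (le A h j))⁻¹ *
    (FreeGroup.map (lv A h (A.s j)) (A.α j (FreeGroup.of z)))⁻¹

private theorem er_mem (h : FreeGroup A.J) (j : A.J) (z : Fin (A.r j)) :
    er A h j z ∈ A.cover.rels :=
  Or.inr ⟨⟨(h, j), z⟩, rfl⟩

private theorem map_er (g h : FreeGroup A.J) (j : A.J) (z : Fin (A.r j)) :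
    FreeGroup.map (sg A g) (er A h j z) = er A (g * h) j z := by
  unfold er
  rw [map_mul, map_mul, map_mul, map_inv, map_inv, FreeGroup.map.of, map_lv, map_lv, sg_le,
    mul_assoc g h]

private theorem map_rels (g : FreeGroup A.J) (w : FreeGroup (Let A)) (hw : w ∈ A.cover.rels) :
    FreeGroup.map (sg A g) w ∈ A.cover.rels := by
  rcases hw with hw | ⟨⟨⟨h, j⟩, z⟩, rfl⟩
  · obtain ⟨v, hv⟩ := Set.mem_iUnion.mp hw
    obtain ⟨h, i⟩ := v
    obtain ⟨r0, hr0, rfl⟩ := hv
    refine Or.inl (Set.mem_iUnion.mpr ⟨(g * h, i), r0, hr0, ?_⟩)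
    exact (map_lv A g h i r0).symm
  · have h1 := er_mem A (g * h) j z
    rw [← map_er] at h1
    exact h1

/-- the translation of the group -/
private def tr0 (g : FreeGroup A.J) : A.cover.Grp →* A.cover.Grp :=
  PresentedGroup.toGroup (f := fun x => (PresentedGroup.of (sg A g x) : A.cover.Grp)) (by
    intro w hw
    have h1 : FreeGroup.lift (fun x => (PresentedGroup.of (sg A g x) : A.cover.Grp)) w =
        PresentedGroup.mk A.cover.rels (FreeGroup.map (sg A g) w) := by
      have h2 : FreeGroup.lift (fun x => (PresentedGroup.of (sg A g x) : A.cover.Grp)) =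
          (PresentedGroup.mk A.cover.rels).comp (FreeGroup.map (sg A g)) := by
        ext x
        simp [PresentedGroup.of]
      rw [h2]
      rfl
    rw [h1]
    exact PresentedGroup.one_of_mem (map_rels A g w hw))

private theorem tr0_of (g : FreeGroup A.J) (x : Let A) :
    tr0 A g (PresentedGroup.of x) = PresentedGroup.of (sg A g x) :=
  PresentedGroup.toGroup.of _

private theorem sg_one (x : Let A) : sg A 1 x = x := by
  rcases x with ⟨⟨h, i⟩, x⟩ | ⟨h, j⟩
  · have h1 := sg_lv A 1 h i x
    rw [one_mul] at h1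
    exact h1
  · have h1 := sg_le A 1 h j
    rw [one_mul] at h1
    exact h1

private theorem sg_mul (g g' : FreeGroup A.J) (x : Let A) :
    sg A (g * g') x = sg A g (sg A g' x) := by
  rcases x with ⟨⟨h, i⟩, x⟩ | ⟨h, j⟩
  · have h1 := sg_lv A (g * g') h i x
    rw [mul_assoc] at h1
    exact h1
  · have h1 := sg_le A (g * g') h j
    rw [mul_assoc] at h1
    exact h1

private theorem tr0_one : tr0 A 1 = MonoidHom.id _ := by
  refine PresentedGroup.ext fun x => ?_
  rw [tr0_of, sg_one]
  rfl

private theorem tr0_mul (g g' : FreeGroup A.J) : tr0 A (g * g') = (tr0 A g).comp (tr0 A g') := by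
  refine PresentedGroup.ext fun x => ?_
  rw [tr0_of, sg_mul, MonoidHom.comp_apply, tr0_of, tr0_of]

/-- the translation as an automorphism -/
private def tr1 (g : FreeGroup A.J) : MulAut A.cover.Grp :=
  MonoidHom.toMulEquiv (tr0 A g) (tr0 A g⁻¹)
    (by rw [← tr0_mul, inv_mul_cancel, tr0_one]) (by rw [← tr0_mul, mul_inv_cancel, tr0_one])

private theorem tr1_apply (g : FreeGroup A.J) (x : A.cover.Grp) : tr1 A g x = tr0 A g x := rfl

theorem exists_tr : ∃ τ : FreeGroup A.J →* MulAut A.cover.Grp,
    (∀ g h i x, τ g (PresentedGroup.of (Sum.inl ⟨(h, i), x⟩)) =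
      PresentedGroup.of (Sum.inl ⟨(g * h, i), x⟩)) ∧
    ∀ g h j, τ g (PresentedGroup.of (Sum.inr (h, j))) =
      PresentedGroup.of (Sum.inr (g * h, j)) := by
  refine ⟨{ toFun := tr1 A, map_one' := ?_, map_mul' := ?_ }, ?_, ?_⟩
  · ext x
    rw [tr1_apply, tr0_one]
    rfl
  · intro g g'
    ext x
    rw [tr1_apply, tr0_mul, MulAut.mul_apply, tr1_apply, tr1_apply]
    rfl
  · intro g h i x
    exact tr0_of A g (lv A h i x)
  · intro g h j
    exact tr0_of A g (le A h j)

end Pool.Agent.LIA.GOG
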