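import Pool.Agent.Lib.GogLI.CDefs

/-!
# CWt : the weights on the covering forest

`w' ((g, j), true) = w g (j, true)`, `w' ((g, j), false) = w (g * of j) (j, false)`, `lam' (g, i) = lam g i`. For the last condition at
`(g, i)`: map the finite set `B` by `e ↦ (e.1.2, e.2)` (injective on the ends at `(g, i)`: for `((h, j), true)` we have `h = g`, for
`((h, j), false)` we have `h * of j = g`), then `w' e = w g (e.1.2, e.2)`.
-/

set_option autoImplicit false

open scoped Classical

namespace Pool.Agent.LIA.GOG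

universe u

private theorem cwt_vert (A : GOG.{u}) (e : A.cover.J × Bool) :
    (A.cover.vert e).2 = A.vert (e.1.2, e.2) := by
  obtain ⟨⟨g, j⟩, b⟩ := e
  cases b <;> rfl

theorem cover_weights (A : GOG.{u}) {E0 : Set (A.J × Bool)} {K : A.J × Bool → ℚ}
    (h : A.TreeWeights E0 K) : ∃ w lam, A.cover.Weights {e | (e.1.2, e.2) ∈ E0}
      (fun e => K (e.1.2, e.2)) w lam := by
  obtain ⟨w, lam, h1, h2, h3, h4, h5, h6⟩ := h
  refine ⟨fun e => w (A.cover.vert e).1 (e.1.2, e.2), fun v => lam v.1 v.2,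
    fun e => h1 _ _, fun v => h2 _ _, ?_, ?_, ?_, ?_⟩
  · rintro ⟨g, j⟩ hj
    exact h3 g j hj
  · intro e he hR
    refine h4 _ (e.1.2, e.2) he ?_
    rw [← cwt_vert A e]
    exact hR
  · intro e he
    have h7 := h5 (A.cover.vert e).1 (e.1.2, e.2) he
    rw [← cwt_vert A e] at h7
    exact h7
  · rintro ⟨g, i⟩ hR B hB
    have hinj : Set.InjOn (fun e : A.cover.J × Bool => ((e.1.2, e.2) : A.J × Bool)) (B : Set _) := by
      rintro ⟨⟨g1, j1⟩, b1⟩ he1 ⟨⟨g2, j2⟩, b2⟩ he2 heq
      simp only [Prod.mk.injEq] at heq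
      obtain ⟨hj, hb⟩ := heq
      subst hj hb
      have v1 := (hB _ he1).1
      have v2 := (hB _ he2).1
      have v3 : (A.cover.vert ((g1, j1), b1)).1 = (A.cover.vert ((g2, j1), b1)).1 := by
        rw [v1, v2]
      have v4 : g1 = g2 := by
        cases b1
        · exact mul_right_cancel v3
        · exact v3
      rw [v4]
    have h7 := h6 g i hR (B.image fun e : A.cover.J × Bool => ((e.1.2, e.2) : A.J × Bool)) (by
      intro e he
      rw [Finset.mem_image] at he
      obtain ⟨e', he', rfl⟩ := he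
      refine ⟨?_, (hB e' he').2⟩
      rw [← cwt_vert A e', (hB e' he').1])
    rw [Finset.sum_image hinj] at h7
    have h8 : ∑ e ∈ B, w (A.cover.vert e).1 (e.1.2, e.2) * K (e.1.2, e.2) =
        ∑ e ∈ B, w g (e.1.2, e.2) * K (e.1.2, e.2) := by
      refine Finset.sum_congr rfl fun e he => ?_
      rw [(hB e he).1]
    show lam g i + ∑ e ∈ B, w (A.cover.vert e).1 (e.1.2, e.2) * K (e.1.2, e.2) ≤ 1
    rw [h8]
    exact h7

end Pool.Agent.LIA.GOG
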