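import Pool.Agent.Lib.TwLI.Defs

/-!
# Graphs of groups with free edge groups : definitions

(helper81, problem MP_cf50d6_gt; paper in the team store: MP_cf50d6_gt_paper81b.md)

`LocallyIndicable`, `LG`, `Walk`, `rr`, `HNBound`, `GFG` come from `Lib/MP_cf50d6_gt` (helper98).
-/

set_option autoImplicit false

open scoped Classical

namespace Pool.Agent.LIA

universe u

/-- the subgroup `c (FreeGroup (Fin r))` of `G` is not contained in a subgroup of `G` generated by
less than `r` elements -/
def Compressed {r : ℕ} {G : Type*} [Group G] (c : FreeGroup (Fin r) →* G) : Prop :=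
  ∀ S : Finset G, (∀ z, c z ∈ Subgroup.closure (S : Set G)) → r ≤ S.card

/-- the family of the subgroups `c k (FreeGroup (Fin (q k)))` of `G` is jointly compressed: if a
subgroup generated by `n` elements contains a conjugate of every member of a nonempty finite
subfamily `T`, then `∑ k ∈ T, (q k - 1) ≤ n - 1` -/
def JComp {κ G : Type*} [Group G] (q : κ → ℕ) (c : ∀ k, FreeGroup (Fin (q k)) →* G) : Prop :=
  ∀ (T : Finset κ) (S : Finset G), T.Nonempty →
    (∀ k ∈ T, ∃ g : G, ∀ z, g * c k z * g⁻¹ ∈ Subgroup.closure (S : Set G)) →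
    ∑ k ∈ T, q k + 1 ≤ S.card + T.card

/-- A graph of groups with finitely generated free edge groups. The vertices are `I`, the vertex group
of `i` is the group presented by the generators `X i` and the relators `R i` (so it is free if
`R i = ∅`), the edges are `J`, the edge `j` goes from `s j` to `t j`, its group is free of rank `r j`
and is embedded in the two vertex groups by `α j` and `β j` (given by words in the generators of the
vertex groups). -/
structure GOG where
  I : Type u
  J : Type u
  X : I → Type u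
  R : ∀ i, Set (FreeGroup (X i))
  s : J → I
  t : J → I
  r : J → ℕ
  α : ∀ j, FreeGroup (Fin (r j)) →* FreeGroup (X (s j))
  β : ∀ j, FreeGroup (Fin (r j)) →* FreeGroup (X (t j))
  hα : ∀ j, Function.Injective ((PresentedGroup.mk (R (s j))).comp (α j))
  hβ : ∀ j, Function.Injective ((PresentedGroup.mk (R (t j))).comp (β j))

namespace GOG

variable (A : GOG.{u})

/-- the relators of the vertex groups and the relators `j · β(z) · j⁻¹ · α(z)⁻¹` -/
def rels : Set (FreeGroup ((Σ i, A.X i) ⊕ A.J)) :=
  (⋃ i, FreeGroup.map (fun x => Sum.inl ⟨i, x⟩) '' A.R i) ∪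
  Set.range fun p : Σ j, Fin (A.r j) =>
    FreeGroup.of (Sum.inr p.1) *
      FreeGroup.map (fun x => Sum.inl ⟨A.t p.1, x⟩) (A.β p.1 (FreeGroup.of p.2)) *
      (FreeGroup.of (Sum.inr p.1))⁻¹ *
      (FreeGroup.map (fun x => Sum.inl ⟨A.s p.1, x⟩) (A.α p.1 (FreeGroup.of p.2)))⁻¹

/-- the group generated by the vertex groups and one letter for each edge: the fundamental group of
the graph of spaces whose vertex spaces are all joined at one point -/
abbrev Grp : Type u := PresentedGroup A.rels

/-- the vertex at which the end `(j, true)` or `(j, false)` of the edge `j` lies -/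
def vert : A.J × Bool → A.I
  | (j, true) => A.s j
  | (j, false) => A.t j

/-- the embedding of the edge group at an end of the edge -/
def emb : (e : A.J × Bool) → FreeGroup (Fin (A.r e.1)) →* FreeGroup (A.X (A.vert e))
  | (j, true) => A.α j
  | (j, false) => A.β j

/-- the embedding of the edge group at an end which lies at the vertex `i` -/
def embAt {i : A.I} {e : A.J × Bool} (h : A.vert e = i) :
    FreeGroup (Fin (A.r e.1)) →* FreeGroup (A.X i) :=
  h ▸ A.emb e

/-- for every vertex `i` the family of the edge groups of the ends in `E0` at `i` is jointly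
compressed in the free group on the generators of the vertex group -/
def JointlyCompressed (E0 : Set (A.J × Bool)) : Prop :=
  ∀ i, JComp (κ := {e : A.J × Bool // e ∈ E0 ∧ A.vert e = i}) (fun e => A.r e.1.1)
    fun e => A.embAt e.2.2

/-- the weight condition, for weights `w e` of the ends of the edges and `lam i` of the vertices -/
def Weights (E0 : Set (A.J × Bool)) (K : A.J × Bool → ℚ) (w : A.J × Bool → ℚ) (lam : A.I → ℚ) :
    Prop :=
  (∀ e, 0 ≤ w e) ∧ (∀ i, 0 ≤ lam i) ∧ (∀ j, 2 ≤ A.r j → 1 ≤ w (j, true) + w (j, false)) ∧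
    (∀ e, 2 ≤ A.r e.1 → A.R (A.vert e) ≠ ∅ → w e = 0) ∧
    (∀ e ∈ E0, w e ≤ lam (A.vert e)) ∧
    ∀ i, A.R i = ∅ → ∀ B : Finset (A.J × Bool), (∀ e ∈ B, A.vert e = i ∧ e ∉ E0) →
      lam i + ∑ e ∈ B, w e * K e ≤ 1

/-- The weight condition on the covering forest. This forest has the vertices `(g, i)` and the edges
`(g, j)` from `(g, s j)` to `(g * j, t j)`, where `g` is in the free group on `J`. So the ends
`(j, true)` and `(j, false)` at `g` belong to the edges `(g, j)` and `(g * j⁻¹, j)`. The weight of the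
end `e` at `g` is `w g e`, that of the vertex `(g, i)` is `lam g i`. -/
def TreeWeights (E0 : Set (A.J × Bool)) (K : A.J × Bool → ℚ) : Prop :=
  ∃ (w : FreeGroup A.J → A.J × Bool → ℚ) (lam : FreeGroup A.J → A.I → ℚ),
    (∀ g e, 0 ≤ w g e) ∧ (∀ g i, 0 ≤ lam g i) ∧
    (∀ g j, 2 ≤ A.r j → 1 ≤ w g (j, true) + w (g * FreeGroup.of j) (j, false)) ∧
    (∀ g e, 2 ≤ A.r e.1 → A.R (A.vert e) ≠ ∅ → w g e = 0) ∧
    (∀ g, ∀ e ∈ E0, w g e ≤ lam g (A.vert e)) ∧
    ∀ g i, A.R i = ∅ → ∀ B : Finset (A.J × Bool), (∀ e ∈ B, A.vert e = i ∧ e ∉ E0) →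
      lam g i + ∑ e ∈ B, w g e * K e ≤ 1

end GOG

end Pool.Agent.LIA
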