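import Pool.Agent.Lib.GogLI.FComp
import Pool.Agent.Lib.MP_cf50d6_gt.Push

/-!
# FAmal : amalgams of a free group and a locally indicable group over a subgroup which is compressed
in the free group are locally indicable

(helper81, problem MP_cf50d6_gt)
-/

set_option autoImplicit false

open scoped Classical

namespace Pool.Agent.LIA

universe u

/-- the relators of the presentation of `B` with the generators `B` -/
def allRels (B : Type u) [Group B] : Set (FreeGroup B) :=
  {w | FreeGroup.lift (fun b : B => b) w = 1}

/-- the map of the presented group to `B` -/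
noncomputable def allTo (B : Type u) [Group B] : PresentedGroup (allRels B) →* B :=
  PresentedGroup.toGroup (f := fun b : B => b) fun _ h => h

theorem allTo_mk (B : Type u) [Group B] (w : FreeGroup B) :
    allTo B (PresentedGroup.mk (allRels B) w) = FreeGroup.lift (fun b : B => b) w := rfl

theorem allTo_injective (B : Type u) [Group B] : Function.Injective (allTo B) := by
  rw [injective_iff_map_eq_one]
  intro x hx
  obtain ⟨w, rfl⟩ := PresentedGroup.mk_surjective (allRels B) x
  exact PresentedGroup.one_of_mem hx

theorem allRels_li {B : Type u} [Group B] (h : LocallyIndicable B) :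
    LocallyIndicable (PresentedGroup (allRels B)) :=
  LocallyIndicable.of_injective (allTo B) (allTo_injective B) h

variable {G : Bool → Type u} [∀ i, Group (G i)] [IsFreeGroup (G false)] {r : ℕ}

/-- generators of the vertex groups -/
def faX (G : Bool → Type u) [∀ i, Group (G i)] [IsFreeGroup (G false)] : ULift.{u} Bool → Type u
  | ⟨false⟩ => IsFreeGroup.Generators (G false)
  | ⟨true⟩ => G true

/-- relators of the vertex groups -/
def faR (G : Bool → Type u) [∀ i, Group (G i)] [IsFreeGroup (G false)] :
    ∀ i, Set (FreeGroup (faX G i))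
  | ⟨false⟩ => ∅
  | ⟨true⟩ => allRels (G true)

/-- the map of the edge group to the second vertex group -/
noncomputable def faB (φ : ∀ i, FreeGroup (Fin r) →* G i) :
    FreeGroup (Fin r) →* FreeGroup (G true) :=
  FreeGroup.lift fun z => FreeGroup.of (φ true (FreeGroup.of z))

omit [IsFreeGroup (G false)] in
theorem faB_lift (φ : ∀ i, FreeGroup (Fin r) →* G i) (z : FreeGroup (Fin r)) :
    FreeGroup.lift (fun b : G true => b) (faB φ z) = φ true z := by
  have h1 : (FreeGroup.lift (fun b : G true => b)).comp (faB φ) = φ true := by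
    apply FreeGroup.ext_hom
    intro z
    simp [faB]
  exact DFunLike.congr_fun h1 z

/-- the graph of groups of an amalgam -/
noncomputable def faA (φ : ∀ i, FreeGroup (Fin r) →* G i) (hφ : ∀ i, Function.Injective (φ i)) :
    GOG.{u} where
  I := ULift.{u} Bool
  J := PUnit.{u + 1}
  X := faX G
  R := faR G
  s _ := ⟨false⟩
  t _ := ⟨true⟩
  r _ := r
  α _ := (IsFreeGroup.toFreeGroup (G false)).toMonoidHom.comp (φ false)
  β _ := faB φ
  hα _ := by
    have h1 : Function.Injective (PresentedGroup.mk (∅ : Set (FreeGroup
        (IsFreeGroup.Generators (G false))))) := by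
      rw [injective_iff_map_eq_one]
      intro x hx
      rw [PresentedGroup.mk_eq_one_iff, Subgroup.normalClosure_empty, Subgroup.mem_bot] at hx
      exact hx
    exact h1.comp ((IsFreeGroup.toFreeGroup (G false)).injective.comp (hφ false))
  hβ _ := by
    intro x y hxy
    have h1 := congrArg (allTo (G true)) hxy
    change allTo (G true) (PresentedGroup.mk (allRels (G true)) (faB φ x)) =
      allTo (G true) (PresentedGroup.mk (allRels (G true)) (faB φ y)) at h1
    rw [allTo_mk, allTo_mk, faB_lift, faB_lift] at h1
    exact hφ true h1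

variable (φ : ∀ i, FreeGroup (Fin r) →* G i) (hφ : ∀ i, Function.Injective (φ i))

/-- the first vertex group in the fundamental group -/
noncomputable def faEmbF : G false →* (faA φ hφ).Grp :=
  (PresentedGroup.mk (faA φ hφ).rels).comp ((FreeGroup.map fun x : (faA φ hφ).X ⟨false⟩ =>
    Sum.inl ⟨(ULift.up false : (faA φ hφ).I), x⟩).comp
      (IsFreeGroup.toFreeGroup (G false)).toMonoidHom)

/-- the letters of the second vertex group in the fundamental group -/
noncomputable def faLet (b : G true) : (faA φ hφ).Grp :=
  PresentedGroup.mk (faA φ hφ).rels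
    (FreeGroup.of (Sum.inl ⟨(ULift.up true : (faA φ hφ).I), b⟩))

theorem faLet_lift (w : FreeGroup (G true)) :
    PresentedGroup.mk (faA φ hφ).rels (FreeGroup.map (fun x : (faA φ hφ).X ⟨true⟩ =>
      Sum.inl ⟨(ULift.up true : (faA φ hφ).I), x⟩) w) = FreeGroup.lift (faLet φ hφ) w := by
  have h1 : (PresentedGroup.mk (faA φ hφ).rels).comp (FreeGroup.map fun x : (faA φ hφ).X ⟨true⟩ =>
      Sum.inl ⟨(ULift.up true : (faA φ hφ).I), x⟩) = FreeGroup.lift (faLet φ hφ) := by
    apply FreeGroup.ext_hom
    intro x
    simp only [MonoidHom.comp_apply, FreeGroup.map.of, FreeGroup.lift_apply_of]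
    rfl
  exact DFunLike.congr_fun h1 w

theorem faLet_rel {w : FreeGroup (G true)} (hw : w ∈ allRels (G true)) :
    FreeGroup.lift (faLet φ hφ) w = 1 := by
  rw [← faLet_lift]
  apply PresentedGroup.one_of_mem
  refine Or.inl (Set.mem_iUnion.2 ⟨(ULift.up true : (faA φ hφ).I), ?_⟩)
  exact ⟨w, hw, rfl⟩

/-- the second vertex group in the fundamental group -/
noncomputable def faEmbT : G true →* (faA φ hφ).Grp where
  toFun := faLet φ hφ
  map_one' := by
    have h1 := faLet_rel φ hφ (w := FreeGroup.of 1) (by
      change FreeGroup.lift (fun b : G true => b) _ = 1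
      simp)
    simpa using h1
  map_mul' x y := by
    have h1 := faLet_rel φ hφ (w := FreeGroup.of x * FreeGroup.of y * (FreeGroup.of (x * y))⁻¹) (by
      change FreeGroup.lift (fun b : G true => b) _ = 1
      simp)
    rw [map_mul, map_mul, map_inv, mul_inv_eq_one] at h1
    simpa using h1.symm

/-- the edge letter -/
noncomputable def faJ : (faA φ hφ).Grp :=
  PresentedGroup.mk (faA φ hφ).rels (FreeGroup.of (Sum.inr PUnit.unit))

theorem fa_rel (z : Fin r) :
    faJ φ hφ * faEmbT φ hφ (φ true (FreeGroup.of z)) * (faJ φ hφ)⁻¹ =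
      faEmbF φ hφ (φ false (FreeGroup.of z)) := by
  have h1 := (faA φ hφ).edge_rel PUnit.unit (FreeGroup.of (z : Fin r))
  have h2 : PresentedGroup.mk (faA φ hφ).rels
      (FreeGroup.map (fun x : (faA φ hφ).X ⟨true⟩ =>
        Sum.inl ⟨(ULift.up true : (faA φ hφ).I), x⟩) (faB φ (FreeGroup.of z))) =
      faEmbT φ hφ (φ true (FreeGroup.of z)) := by
    rw [faLet_lift]
    have h4 : faB φ (FreeGroup.of z) = FreeGroup.of (φ true (FreeGroup.of z)) := by
      simp [faB]
    rw [h4, FreeGroup.lift_apply_of]
    rfl
  rw [← h2, mul_inv_eq_iff_eq_mul]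
  exact h1

/-- the two maps to the fundamental group -/
noncomputable def faF : ∀ i, G i →* (faA φ hφ).Grp
  | false => faEmbF φ hφ
  | true => (MulAut.conj (faJ φ hφ)).toMonoidHom.comp (faEmbT φ hφ)

/-- the map of the amalgam to the fundamental group -/
noncomputable def faLift : Monoid.PushoutI φ →* (faA φ hφ).Grp :=
  Monoid.PushoutI.lift (faF φ hφ) ((faEmbF φ hφ).comp (φ false)) (by
    intro i
    cases i
    · rfl
    · apply FreeGroup.ext_hom
      intro z
      exact fa_rel φ hφ z)

/-- values of the generators for the retraction -/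
noncomputable def faVal : ((Σ i, (faA φ hφ).X i) ⊕ (faA φ hφ).J) → Monoid.PushoutI φ
  | Sum.inl ⟨⟨false⟩, x⟩ => Monoid.PushoutI.of (φ := φ) false
      (IsFreeGroup.of (x : IsFreeGroup.Generators (G false)))
  | Sum.inl ⟨⟨true⟩, x⟩ => Monoid.PushoutI.of (φ := φ) true (x : G true)
  | Sum.inr _ => 1

theorem fa_valF (w : FreeGroup (IsFreeGroup.Generators (G false))) :
    FreeGroup.lift (faVal φ hφ)
      (FreeGroup.map (fun x : (faA φ hφ).X ⟨false⟩ =>
        Sum.inl ⟨(ULift.up false : (faA φ hφ).I), x⟩) w) =
      Monoid.PushoutI.of (φ := φ) false ((IsFreeGroup.toFreeGroup (G false)).symm w) := by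
  have h1 : (FreeGroup.lift (faVal φ hφ)).comp
      (FreeGroup.map (fun x : (faA φ hφ).X ⟨false⟩ =>
        Sum.inl ⟨(ULift.up false : (faA φ hφ).I), x⟩)) =
      (Monoid.PushoutI.of (φ := φ) false).comp
        (IsFreeGroup.toFreeGroup (G false)).symm.toMonoidHom := by
    apply FreeGroup.ext_hom
    intro x
    simp only [MonoidHom.comp_apply, FreeGroup.map.of, FreeGroup.lift_apply_of]
    rfl
  exact DFunLike.congr_fun h1 w

theorem fa_valT (w : FreeGroup (G true)) :
    FreeGroup.lift (faVal φ hφ)
      (FreeGroup.map (fun x : (faA φ hφ).X ⟨true⟩ =>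
        Sum.inl ⟨(ULift.up true : (faA φ hφ).I), x⟩) w) =
      Monoid.PushoutI.of (φ := φ) true (FreeGroup.lift (fun b : G true => b) w) := by
  have h1 : (FreeGroup.lift (faVal φ hφ)).comp
      (FreeGroup.map (fun x : (faA φ hφ).X ⟨true⟩ =>
        Sum.inl ⟨(ULift.up true : (faA φ hφ).I), x⟩)) =
      (Monoid.PushoutI.of (φ := φ) true).comp (FreeGroup.lift (fun b : G true => b)) := by
    apply FreeGroup.ext_hom
    intro (x : G true)
    have h2 : (FreeGroup.lift fun b : G true => b) (FreeGroup.of x) = x :=
      FreeGroup.lift_apply_of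
    change _ = Monoid.PushoutI.of (φ := φ) true ((FreeGroup.lift fun b : G true => b)
      (FreeGroup.of x))
    rw [h2]
    rw [MonoidHom.comp_apply]
    erw [FreeGroup.map.of, FreeGroup.lift_apply_of]
  exact DFunLike.congr_fun h1 w

/-- the retraction -/
noncomputable def faBack : (faA φ hφ).Grp →* Monoid.PushoutI φ :=
  PresentedGroup.toGroup (f := faVal φ hφ) (by
    rintro _ (h | ⟨⟨j, z⟩, rfl⟩)
    · obtain ⟨⟨b⟩, w, hw, rfl⟩ := Set.mem_iUnion.1 h
      cases b
      · exact absurd hw (Set.notMem_empty w)
      · refine (fa_valT φ hφ w).trans ?_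
        have h1 : FreeGroup.lift (fun b : G true => b) w = 1 := hw
        rw [h1, map_one]
    · rw [map_mul, map_mul, map_mul, map_inv, map_inv, FreeGroup.lift_apply_of]
      have h1 : faVal φ hφ (Sum.inr j) = 1 := rfl
      simp only [h1]
      rw [one_mul, inv_one, mul_one, mul_inv_eq_one]
      have h2 := fa_valT φ hφ (faB φ (FreeGroup.of z))
      have h3 := fa_valF φ hφ ((IsFreeGroup.toFreeGroup (G false)) (φ false (FreeGroup.of z)))
      rw [MulEquiv.symm_apply_apply, Monoid.PushoutI.of_apply_eq_base] at h3
      rw [faB_lift, Monoid.PushoutI.of_apply_eq_base] at h2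
      exact h2.trans h3.symm)

theorem faBack_mk (w : FreeGroup ((Σ i, (faA φ hφ).X i) ⊕ (faA φ hφ).J)) :
    faBack φ hφ (PresentedGroup.mk (faA φ hφ).rels w) = FreeGroup.lift (faVal φ hφ) w := rfl

theorem faBack_embF (g : G false) :
    faBack φ hφ (faEmbF φ hφ g) = Monoid.PushoutI.of (φ := φ) false g := by
  have h2 := fa_valF φ hφ ((IsFreeGroup.toFreeGroup (G false)) g)
  rw [MulEquiv.symm_apply_apply] at h2
  exact h2

theorem faBack_embT (g : G true) :
    faBack φ hφ (faEmbT φ hφ g) = Monoid.PushoutI.of (φ := φ) true g := by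
  change faBack φ hφ (PresentedGroup.mk (faA φ hφ).rels
    (FreeGroup.of (Sum.inl ⟨(ULift.up true : (faA φ hφ).I), g⟩))) = _
  rw [faBack_mk, FreeGroup.lift_apply_of]
  rfl

theorem faBack_J : faBack φ hφ (faJ φ hφ) = 1 := by
  rw [faJ, faBack_mk, FreeGroup.lift_apply_of]
  rfl

theorem faBack_lift (x : Monoid.PushoutI φ) : faBack φ hφ (faLift φ hφ x) = x := by
  have h1 : (faBack φ hφ).comp (faLift φ hφ) = MonoidHom.id _ := by
    apply Monoid.PushoutI.hom_ext_nonempty
    intro i
    ext g
    simp only [MonoidHom.comp_apply, MonoidHom.id_apply]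
    rw [faLift, Monoid.PushoutI.lift_of]
    cases i
    · exact faBack_embF φ hφ g
    · have h2 : faF φ hφ true g = faJ φ hφ * faEmbT φ hφ g * (faJ φ hφ)⁻¹ := rfl
      rw [h2, map_mul, map_mul, map_inv, faBack_J, faBack_embT, one_mul, inv_one, mul_one]
  exact DFunLike.congr_fun h1 x

/-- compressed subgroups are mapped to compressed subgroups by isomorphisms -/
theorem Compressed.comp_equiv {r : ℕ} {G G' : Type*} [Group G] [Group G']
    {c : FreeGroup (Fin r) →* G} (h : Compressed c) (f : G ≃* G') :
    Compressed (f.toMonoidHom.comp c) := by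
  intro S hS
  have h1 := h (S.image f.symm) (fun z => by
    have h2 : f (c z) ∈ Subgroup.closure (S : Set G') := hS z
    have h3 : f.symm (f (c z)) ∈ (Subgroup.closure (S : Set G')).map f.symm.toMonoidHom :=
      ⟨_, h2, rfl⟩
    rw [MonoidHom.map_closure, f.symm_apply_apply] at h3
    rw [Finset.coe_image]
    exact h3)
  exact h1.trans Finset.card_image_le

include hφ in
/-- An amalgam of a free group and a locally indicable group over a finitely generated subgroup
which is compressed in the free group is locally indicable. -/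
theorem amalgam_compressed_li (hC : Compressed (φ false)) (hB : LocallyIndicable (G true)) :
    LocallyIndicable (Monoid.PushoutI φ) := by
  refine LocallyIndicable.of_injective (faLift φ hφ)
    (Function.LeftInverse.injective (faBack_lift φ hφ)) ?_
  refine (faA φ hφ).li_of_treeWeights ?_ (E0 := ∅) (K := fun _ => 1) ?_ ?_ ?_
  · rintro ⟨b⟩
    cases b
    · exact Or.inl rfl
    · exact Or.inr (allRels_li (B := G true) hB)
  · intro i T S hT
    obtain ⟨k, -⟩ := hT
    exact absurd k.2.1 (Set.notMem_empty _)
  · rintro ⟨j, b⟩ - he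
    cases b
    · by_cases h1 : r ≤ 1
      · have h2 := hnBound_zero.{u} h1 ((faA φ hφ).emb (j, false))
        intro V T _ _ Γ P a ha hw
        refine (h2 V T Γ P a ha hw).trans ?_
        rw [zero_mul, one_mul]
        exact Nat.cast_nonneg _
      · exfalso
        -- the vertex group of the second vertex has no relators only if it is trivial
        have h2 : (1 : FreeGroup (G true)) ∈ allRels (G true) := map_one _
        have h3 : allRels (G true) = ∅ := he
        rw [h3] at h2
        exact absurd h2 (Set.notMem_empty _)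
    · exact (hC.comp_equiv (IsFreeGroup.toFreeGroup (G false))).hnBound
  · refine ⟨fun _ e => if e.2 then 1 else 0, fun _ _ => 0, ?_, fun _ _ => le_rfl, ?_, ?_, ?_, ?_⟩
    · rintro g ⟨j, b⟩
      cases b <;> simp
    · intro g j _
      simp
    · rintro g ⟨j, b⟩ _ he
      cases b
      · simp
      · exact absurd rfl he
    · intro g e he
      exact absurd he (Set.notMem_empty e)
    · intro g i _ B hB'
      rw [zero_add]
      have h1 : B.card ≤ 1 ∨ ∀ e ∈ B, e.2 = false := by
        by_cases h : ∃ e ∈ B, e.2 = true
        · left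
          obtain ⟨⟨j, b⟩, he, rfl⟩ := h
          refine Finset.card_le_one.2 ?_
          have hi : (⟨false⟩ : ULift.{u} Bool) = i := (hB' _ he).1
          have h2 : ∀ x ∈ B, x = (PUnit.unit, true) := by
            rintro ⟨j', b'⟩ hx
            cases b'
            · exfalso
              have h3 : (⟨true⟩ : ULift.{u} Bool) = i := (hB' _ hx).1
              rw [← hi] at h3
              exact Bool.false_ne_true (ULift.up_injective h3).symm
            · rfl
          intro x hx y hy
          rw [h2 x hx, h2 y hy]
        · right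
          intro e he
          push Not at h
          have := h e he
          simpa using this
      rcases h1 with h1 | h1
      · calc ∑ e ∈ B, (if e.2 = true then (1 : ℚ) else 0) * 1 ≤ ∑ e ∈ B, (1 : ℚ) := by
              refine Finset.sum_le_sum fun e _ => ?_
              split_ifs <;> norm_num
          _ ≤ 1 := by
              rw [Finset.sum_const, nsmul_eq_mul, mul_one]
              exact_mod_cast h1
      · rw [Finset.sum_eq_zero]
        · norm_num
        · intro e he
          have h2 : ¬ (e.2 = true) := by rw [h1 e he]; simp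
          simp only [if_neg h2, zero_mul]

end Pool.Agent.LIA
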