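import Pool.Agent.Lib.GogLI.Defs
import Pool.Agent.Lib.MP_cf50d6_gt.Cnt

/-!
# FNorm : the length of `g * lv l` in a free group; subgroups of rank at most two are compressed

(helper81, problem MP_cf50d6_gt)
-/

set_option autoImplicit false

open scoped Classical

namespace Pool.Agent.LIA

universe u

/-- multiplication by a letter changes the length; if the length decreases then the letter is the
inverse of the last letter -/
theorem norm_mul_lv {S : Type*} (g : FreeGroup S) (l : S × Bool) :
    (g * lv l).norm = g.norm + 1 ∨
      (g.norm = (g * lv l).norm + 1 ∧ g.toWord.getLast? = some (linv l)) := by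
  have hred : FreeGroup.IsReduced g.toWord := FreeGroup.isReduced_toWord
  rcases List.eq_nil_or_concat' g.toWord with h0 | ⟨L, m, h0⟩
  · left
    have h1 : g = 1 := FreeGroup.toWord_eq_nil_iff.1 h0
    subst h1
    obtain ⟨s, b⟩ := l
    cases b <;> simp
  · have hg : g = FreeGroup.mk (L ++ [m]) := by rw [← h0, FreeGroup.mk_toWord]
    by_cases hm : m = linv l
    · right
      have hL : FreeGroup.IsReduced L := List.IsChain.left_of_append (l₂ := [m]) (h0 ▸ hred)
      have h2 : g * lv l = FreeGroup.mk L := by
        rw [hg, mk_append, mul_assoc]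
        have : FreeGroup.mk [m] * lv l = 1 := by
          rw [hm]
          change lv (linv l) * lv l = 1
          simp
        rw [this, mul_one]
      constructor
      · unfold FreeGroup.norm
        rw [h2, FreeGroup.toWord_mk, hL.reduce_eq, h0]
        simp
      · rw [h0, hm]
        simp
    · left
      have h3 : FreeGroup.IsReduced (L ++ [m] ++ [l]) := by
        refine FreeGroup.IsReduced.append_overlap (h0 ▸ hred) ?_ (by simp)
        change FreeGroup.IsReduced [m, l]
        rw [FreeGroup.isReduced_cons_cons]
        refine ⟨(red_iff m l).2 ?_, FreeGroup.IsReduced.singleton⟩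
        rintro rfl
        exact hm (by simp)
      unfold FreeGroup.norm
      rw [hg, FreeGroup.toWord_mk]
      have h4 : FreeGroup.mk (L ++ [m]) * lv l = FreeGroup.mk (L ++ [m] ++ [l]) := by
        rw [mk_append (L ++ [m]) [l]]
        rfl
      rw [h4, FreeGroup.toWord_mk, h3.reduce_eq, (h0 ▸ hred : FreeGroup.IsReduced (L ++ [m])).reduce_eq]
      simp

/-- at most one letter decreases the length -/
theorem norm_lt_unique {S : Type*} {g : FreeGroup S} {l m : S × Bool}
    (hl : (g * lv l).norm < g.norm) (hm : (g * lv m).norm < g.norm) : l = m := by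
  obtain h | ⟨-, h⟩ := norm_mul_lv g l
  · omega
  obtain h' | ⟨-, h'⟩ := norm_mul_lv g m
  · omega
  rw [h] at h'
  have h1 : linv l = linv m := Option.some.inj h'
  rw [← linv_linv l, h1, linv_linv]

/-- a subgroup of rank at most two of a torsion free group with commutative one generator subgroups
is compressed -/
theorem compressed_of_le_two {r : ℕ} (hr : r ≤ 2) {G : Type*} [Group G]
    {c : FreeGroup (Fin r) →* G} (hc : Function.Injective c) : Compressed c := by
  intro S hS
  by_contra hcon
  push Not at hcon
  have hcard : S.card ≤ 1 := by omega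
  have hcomm : ∀ z z' : FreeGroup (Fin r), z * z' = z' * z := by
    intro z z'
    apply hc
    rw [map_mul, map_mul]
    obtain ⟨x, hx⟩ : ∃ x : G, (S : Set G) ⊆ {x} := by
      rcases Finset.card_le_one_iff_subset_singleton.1 hcard with ⟨x, hx⟩
      exact ⟨x, by exact_mod_cast hx⟩
    have h1 : ∀ z, c z ∈ Subgroup.zpowers x := fun z => by
      rw [Subgroup.zpowers_eq_closure]
      exact Subgroup.closure_mono hx (hS z)
    obtain ⟨a, ha⟩ := Subgroup.mem_zpowers_iff.1 (h1 z)
    obtain ⟨b, hb⟩ := Subgroup.mem_zpowers_iff.1 (h1 z')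
    rw [← ha, ← hb, ← zpow_add, ← zpow_add, add_comm]
  by_cases hr1 : r = 2
  · subst hr1
    have h1 := hcomm (FreeGroup.of 0) (FreeGroup.of 1)
    have h2 := congrArg FreeGroup.toWord h1
    have h3 : FreeGroup.toWord (FreeGroup.of (0 : Fin 2) * FreeGroup.of 1) =
        [((0 : Fin 2), true), (1, true)] := by
      rw [FreeGroup.toWord_mul, FreeGroup.toWord_of, FreeGroup.toWord_of]
      simp [FreeGroup.reduce]
    have h4 : FreeGroup.toWord (FreeGroup.of (1 : Fin 2) * FreeGroup.of 0) =
        [((1 : Fin 2), true), (0, true)] := by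
      rw [FreeGroup.toWord_mul, FreeGroup.toWord_of, FreeGroup.toWord_of]
      simp [FreeGroup.reduce]
    rw [h3, h4] at h2
    simp at h2
  · have hr2 : r = 1 := by omega
    subst hr2
    have h0 : S.card = 0 := by omega
    rw [Finset.card_eq_zero] at h0
    subst h0
    have h1 := hS (FreeGroup.of 0)
    rw [Finset.coe_empty, Subgroup.closure_empty, Subgroup.mem_bot] at h1
    have h2 : FreeGroup.of (0 : Fin 1) = 1 := hc (by rw [h1, map_one])
    exact FreeGroup.of_ne_one _ h2

end Pool.Agent.LIA
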