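import Pool.Agent.Lib.GogLI.KDefs

/-!
# SRank : graphs with at most one label have reduced rank zero

For a component `C` the map `e ↦ e.1` from `P.edges C` to `C` is injective (there is at most one label and `P.det`), so
`(P.edges C).card - C.card = 0`.
-/

set_option autoImplicit false

open scoped Classical

namespace Pool.Agent.LIA.LG

theorem rr_eq_zero {T : Type*} [Fintype T] {r : ℕ} (hr : r ≤ 1) (P : LG T (Fin r)) :
    P.rr = 0 := by
  unfold rr
  refine Finset.sum_eq_zero fun C _ => ?_
  rw [Nat.sub_eq_zero_iff_le]
  refine Finset.card_le_card_of_injOn (fun e => e.1) ?_ ?_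
  · intro e he
    exact (Finset.mem_filter.1 he).2
  · rintro ⟨u, s, v⟩ he ⟨u', s', v'⟩ he' huu
    have h1 : u = u' := huu
    subst h1
    have h2 : s = s' := Fin.ext (by have := s.2; have := s'.2; omega)
    subst h2
    have h3 : v = v' :=
      P.det (Finset.mem_filter.1 (Finset.mem_coe.1 he)).1 (Finset.mem_filter.1 (Finset.mem_coe.1 he')).1
    rw [h3]

end Pool.Agent.LIA.LG
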