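import Pool.Agent.Lib.GogLI.FMain
import Pool.Agent.Lib.GogLI.FNorm
import Pool.Agent.Lib.GogLI.SRank

/-!
# FComp : graphs of groups with compressed edge groups are locally indicable

(helper81, problem MP_cf50d6_gt)
-/

set_option autoImplicit false

open scoped Classical

namespace Pool.Agent.LIA

universe u

theorem hnBound_zero {r : ℕ} (hr : r ≤ 1) {X : Type*} (c : FreeGroup (Fin r) →* FreeGroup X) :
    HNBound.{u} c 0 := by
  intro V T _ _ Γ P a ha hw
  rw [LG.rr_eq_zero hr P]
  simp

/-- the weights which orient the edges of the covering forest towards the roots `(1, i)` -/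
theorem GOG.treeWeights_root (A : GOG.{u}) (K : A.J × Bool → ℚ)
    (hR : ∀ e, 2 ≤ A.r e.1 → A.R (A.vert e) = ∅)
    (hK : ∀ e, 2 ≤ A.r e.1 → K e ≤ 1) : A.TreeWeights ∅ K := by
  refine ⟨fun g e => if 2 ≤ A.r e.1 ∧ (g * lv e).norm < g.norm then 1 else 0, fun _ _ => 0,
    ?_, fun _ _ => le_rfl, ?_, ?_, ?_, ?_⟩
  · intro g e
    dsimp only
    split_ifs <;> norm_num
  · intro g j hj
    dsimp only
    have hg : g * FreeGroup.of j * lv (j, false) = g := by rw [lv_false]; group
    obtain h | ⟨h, -⟩ := norm_mul_lv g (j, true)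
    · rw [if_pos (c := 2 ≤ A.r j ∧ (g * FreeGroup.of j * lv (j, false)).norm <
        (g * FreeGroup.of j).norm) ⟨hj, by rw [hg]; rw [lv_true] at h; omega⟩]
      split_ifs <;> norm_num
    · rw [if_pos (c := 2 ≤ A.r j ∧ (g * lv (j, true)).norm < g.norm) ⟨hj, by omega⟩]
      split_ifs <;> norm_num
  · intro g e he h
    exact absurd (hR e he) h
  · intro g e he
    exact absurd he (Set.notMem_empty e)
  · intro g i _ B _
    rw [zero_add]
    have h1 : ∀ e ∈ B, (if 2 ≤ A.r e.1 ∧ (g * lv e).norm < g.norm then (1 : ℚ) else 0) * K e ≤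
        if (g * lv e).norm < g.norm then 1 else 0 := by
      intro e _
      by_cases h2 : 2 ≤ A.r e.1
      · by_cases h3 : (g * lv e).norm < g.norm
        · rw [if_pos ⟨h2, h3⟩, if_pos h3, one_mul]
          exact hK e h2
        · rw [if_neg fun h => h3 h.2, if_neg h3, zero_mul]
      · rw [if_neg fun h => h2 h.1, zero_mul]
        split_ifs <;> norm_num
    refine (Finset.sum_le_sum h1).trans ?_
    rw [← Finset.sum_filter, Finset.sum_const, nsmul_eq_mul, mul_one]
    have h2 : (B.filter fun e => (g * lv e).norm < g.norm).card ≤ 1 := by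
      refine Finset.card_le_one.2 fun e he e' he' => ?_
      exact norm_lt_unique (Finset.mem_filter.1 he).2 (Finset.mem_filter.1 he').2
    exact_mod_cast h2

/-- a graph of locally indicable groups, such that the edge groups of rank at least two are
compressed in their two vertex groups, which are free, has a locally indicable group -/
theorem GOG.li_of_compressed (A : GOG.{u})
    (hA : ∀ i, A.R i = ∅ ∨ LocallyIndicable (PresentedGroup (A.R i)))
    (hC : ∀ e, 2 ≤ A.r e.1 → A.R (A.vert e) = ∅ ∧ Compressed (A.emb e)) :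
    LocallyIndicable A.Grp := by
  refine A.li_of_treeWeights hA (E0 := ∅) (K := fun e => if A.r e.1 ≤ 1 then 0 else 1) ?_ ?_ ?_
  · intro i T S hT
    obtain ⟨k, -⟩ := hT
    exact absurd k.2.1 (Set.notMem_empty _)
  · intro e _ he
    split_ifs with h
    · exact hnBound_zero h _
    · exact (hC e (by omega)).2.hnBound
  · refine A.treeWeights_root _ (fun e he => (hC e he).1) ?_
    intro e _
    split_ifs <;> norm_num

end Pool.Agent.LIA
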