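import Pool.Agent.Lib.GogLI.FNorm

/-!
# FRank : subgroups of free groups generated by two elements; the kernel of the difference of two maps

(helper81, problem MP_cf50d6_gt)
-/

set_option autoImplicit false

open scoped Classical

namespace Pool.Agent.LIA

universe u

/-- two elements of a free group which generate a subgroup with a subgroup of rank at least two form
the basis of a free subgroup; more precisely the subgroup generated is the image of an injective
homomorphism -/
theorem exists_rank_two {G : Type u} [Group G] [IsFreeGroup G] {r : ℕ} (hr : 2 ≤ r)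
    {c : FreeGroup (Fin r) →* G} (hc : Function.Injective c) {S : Finset G} (hS : S.card ≤ 2)
    (hcS : ∀ z, c z ∈ Subgroup.closure (S : Set G)) :
    ∃ (μ : FreeGroup (Fin 2) →* G) (c' : FreeGroup (Fin r) →* FreeGroup (Fin 2)),
      Function.Injective μ ∧ ∀ z, μ (c' z) = c z := by
  let U : Subgroup G := Subgroup.closure (S : Set G)
  let ι := IsFreeGroup.Generators U
  let e : U ≃* FreeGroup ι := IsFreeGroup.toFreeGroup U
  let Z := Multiplicative (ZMod 2)
  -- homomorphisms to `ZMod 2`
  let Φ : (ι → Z) → (S → Z) := fun f s =>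
    (FreeGroup.lift f) (e ⟨s.1, Subgroup.subset_closure s.2⟩)
  have hΦ : Function.Injective Φ := by
    intro f f' hff
    have h1 : (FreeGroup.lift f).comp e.toMonoidHom = (FreeGroup.lift f').comp e.toMonoidHom := by
      ext ⟨x, hx⟩
      have h2 : ∀ x (hx : x ∈ U), (FreeGroup.lift f) (e ⟨x, hx⟩) =
          (FreeGroup.lift f') (e ⟨x, hx⟩) := by
        intro x hx
        induction hx using Subgroup.closure_induction with
        | mem x hx => exact congrFun hff ⟨x, hx⟩
        | one =>
          have : (⟨1, one_mem _⟩ : U) = 1 := rfl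
          rw [this, map_one, map_one, map_one]
        | mul x y hx hy ihx ihy =>
          have : (⟨x * y, mul_mem hx hy⟩ : U) = ⟨x, hx⟩ * ⟨y, hy⟩ := rfl
          rw [this, map_mul, map_mul, map_mul, ihx, ihy]
        | inv x hx ih =>
          have : (⟨x⁻¹, inv_mem hx⟩ : U) = ⟨x, hx⟩⁻¹ := rfl
          rw [this, map_inv, map_inv, map_inv, ih]
      exact h2 x hx
    funext i
    have h2 := DFunLike.congr_fun h1 (e.symm (FreeGroup.of i))
    simpa using h2
  haveI : Finite (ι → Z) := Finite.of_injective Φ hΦ
  haveI : Finite ι := by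
    refine Finite.of_injective (fun i : ι => (Pi.mulSingle i (Multiplicative.ofAdd (1 : ZMod 2)) :
      ι → Z)) ?_
    intro i j hij
    by_contra hne
    have h1 := congrFun hij i
    dsimp only at h1
    rw [Pi.mulSingle_eq_same, Pi.mulSingle_eq_of_ne hne] at h1
    have h2 : (1 : ZMod 2) = 0 := h1
    exact absurd h2 (by decide)
  haveI : Fintype ι := Fintype.ofFinite ι
  have hcard : Fintype.card ι ≤ 2 := by
    have h1 := Fintype.card_le_of_injective Φ hΦ
    rw [Fintype.card_fun, Fintype.card_fun, Fintype.card_coe] at h1
    have h2 : Fintype.card Z = 2 := by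
      change Fintype.card (ZMod 2) = 2
      exact ZMod.card 2
    rw [h2] at h1
    exact ((Nat.pow_le_pow_iff_right (by norm_num)).1 h1).trans hS
  -- the rank is two
  have hcard2 : Fintype.card ι = 2 := by
    by_contra hne
    have h1 : Fintype.card ι ≤ 1 := by omega
    have h2 : Subsingleton ι := Fintype.card_le_one_iff_subsingleton.1 h1
    have hcomm : ∀ x y : FreeGroup ι, x * y = y * x := by
      intro x y
      by_cases hne : Nonempty ι
      · obtain ⟨i⟩ := hne
        have h3 : ∀ x : FreeGroup ι, x ∈ Subgroup.zpowers (FreeGroup.of i) := by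
          intro x
          induction x using FreeGroup.induction_on with
          | C1 => exact one_mem _
          | of j =>
            rw [Subsingleton.elim j i]
            exact Subgroup.mem_zpowers _
          | inv_of j h => exact inv_mem h
          | mul x y hx hy => exact mul_mem hx hy
        obtain ⟨a, ha⟩ := Subgroup.mem_zpowers_iff.1 (h3 x)
        obtain ⟨b, hb⟩ := Subgroup.mem_zpowers_iff.1 (h3 y)
        rw [← ha, ← hb, ← zpow_add, ← zpow_add, add_comm]
      · rw [not_nonempty_iff] at hne
        exact Subsingleton.elim _ _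
    have hcomm' : ∀ z z' : FreeGroup (Fin r), z * z' = z' * z := by
      intro z z'
      apply hc
      rw [map_mul, map_mul]
      have h3 := hcomm (e ⟨c z, hcS z⟩) (e ⟨c z', hcS z'⟩)
      rw [← map_mul, ← map_mul] at h3
      have h4 := congrArg Subtype.val (e.injective h3)
      exact h4
    -- a free group of rank two is not commutative
    have h6 := hcomm' (FreeGroup.of ⟨0, by omega⟩) (FreeGroup.of ⟨1, by omega⟩)
    have h7 := congrArg (FreeGroup.lift fun i : Fin r =>
      (if i.1 = 0 then Equiv.swap (0 : Fin 3) 1 else Equiv.swap (1 : Fin 3) 2 :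
        Equiv.Perm (Fin 3))) h6
    rw [map_mul, map_mul, FreeGroup.lift_apply_of, FreeGroup.lift_apply_of] at h7
    simp only [if_true, one_ne_zero, if_false] at h7
    have h8 := congrArg (fun p : Equiv.Perm (Fin 3) => p 0) h7
    exact absurd h8 (by decide)
  let i2 : ι ≃ Fin 2 := Fintype.equivFinOfCardEq hcard2
  let e2 : U ≃* FreeGroup (Fin 2) := e.trans (FreeGroup.freeGroupCongr i2)
  refine ⟨U.subtype.comp e2.symm.toMonoidHom, e2.toMonoidHom.comp (c.codRestrict U hcS),
    U.subtype_injective.comp e2.symm.injective, ?_⟩
  intro z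
  change ((e2.symm (e2 (c.codRestrict U hcS z)) : U) : G) = c z
  rw [e2.symm_apply_apply]
  rfl

/-- two homomorphisms of a free group of rank `r` to a group generated by less than `r` elements
agree on a nontrivial element of the abelianization -/
theorem exists_eq_map {G : Type*} [Group G] {r : ℕ} {S : Finset G} (hS : S.card < r)
    (a b : FreeGroup (Fin r) →* Subgroup.closure (S : Set G)) :
    ∃ x : Abelianization (FreeGroup (Fin r)), x ≠ 1 ∧
      Abelianization.map a x = Abelianization.map b x := by
  let H := Subgroup.closure (S : Set G)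
  let g : S → Abelianization H := fun s => Abelianization.of ⟨s.1, Subgroup.subset_closure s.2⟩
  have hg : ∀ y : Abelianization H, ∃ n : S → ℤ, y = ∏ s, g s ^ n s := by
    intro y
    obtain ⟨⟨y, hy⟩, rfl⟩ := QuotientGroup.mk_surjective y
    change ∃ n : S → ℤ, Abelianization.of (⟨y, hy⟩ : H) = _
    induction hy using Subgroup.closure_induction with
    | mem x hx =>
      refine ⟨Pi.single ⟨x, hx⟩ 1, ?_⟩
      rw [Finset.prod_eq_single (⟨x, hx⟩ : S)]
      · simp [g]
      · intro s _ hs
        rw [Pi.single_eq_of_ne hs, zpow_zero]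
      · intro h
        exact absurd (Finset.mem_univ _) h
    | one =>
      refine ⟨0, ?_⟩
      have : (⟨1, one_mem _⟩ : H) = 1 := rfl
      rw [this, map_one]
      simp
    | mul x y hx hy ihx ihy =>
      obtain ⟨m, hm⟩ := ihx
      obtain ⟨n, hn⟩ := ihy
      refine ⟨m + n, ?_⟩
      have : (⟨x * y, mul_mem hx hy⟩ : H) = ⟨x, hx⟩ * ⟨y, hy⟩ := rfl
      rw [this, map_mul, hm, hn, ← Finset.prod_mul_distrib]
      exact Finset.prod_congr rfl fun s _ => by rw [Pi.add_apply, zpow_add]
    | inv x hx ih =>
      obtain ⟨m, hm⟩ := ih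
      refine ⟨-m, ?_⟩
      have : (⟨x⁻¹, inv_mem hx⟩ : H) = ⟨x, hx⟩⁻¹ := rfl
      rw [this, map_inv, hm, ← Finset.prod_inv_distrib]
      exact Finset.prod_congr rfl fun s _ => by rw [Pi.neg_apply, zpow_neg]
  choose n hn using fun i : Fin r => hg (Abelianization.of (a (FreeGroup.of i)) /
    Abelianization.of (b (FreeGroup.of i)))
  -- a relation
  obtain ⟨v, hv0, hv⟩ : ∃ v : Fin r → ℤ, v ≠ 0 ∧ ∀ s : S, ∑ i, v i * n i s = 0 := by
    by_contra hcon
    push Not at hcon
    let f : (Fin r → ℤ) →ₗ[ℤ] (S → ℤ) :=
      { toFun := fun v s => ∑ i, v i * n i s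
        map_add' := by
          intro v w
          funext s
          simp [add_mul, Finset.sum_add_distrib]
        map_smul' := by
          intro k v
          funext s
          simp [mul_assoc, Finset.mul_sum] }
    have hf : Function.Injective f := by
      rw [← LinearMap.ker_eq_bot, LinearMap.ker_eq_bot']
      intro v hv
      by_contra hv0
      obtain ⟨s, hs⟩ := hcon v hv0
      exact hs (congrFun hv s)
    have h1 := card_le_of_injective ℤ f hf
    rw [Fintype.card_fin, Fintype.card_coe] at h1
    omega
  refine ⟨∏ i, Abelianization.of (FreeGroup.of i) ^ v i, ?_, ?_⟩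
  · intro h
    apply hv0
    funext i
    have h1 := congrArg (Abelianization.lift (FreeGroup.lift fun j : Fin r =>
      (Multiplicative.ofAdd (if j = i then (1 : ℤ) else 0)))) h
    rw [map_one, map_prod] at h1
    simp only [map_zpow, Abelianization.lift_apply_of, FreeGroup.lift_apply_of] at h1
    have h2 := congrArg Multiplicative.toAdd h1
    rw [toAdd_prod, toAdd_one] at h2
    simp only [toAdd_zpow, toAdd_ofAdd, smul_eq_mul, mul_ite, mul_one, mul_zero,
      Finset.sum_ite_eq', Finset.mem_univ, if_true] at h2
    exact h2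
  · rw [map_prod, map_prod, ← div_eq_one, ← Finset.prod_div_distrib]
    have h1 : ∀ i, Abelianization.map a (Abelianization.of (FreeGroup.of i) ^ v i) /
        Abelianization.map b (Abelianization.of (FreeGroup.of i) ^ v i) =
        ∏ s, g s ^ (v i * n i s) := by
      intro i
      rw [map_zpow, map_zpow, Abelianization.map_of, Abelianization.map_of, ← div_zpow, hn i,
        ← Finset.prod_zpow]
      exact Finset.prod_congr rfl fun s _ => by rw [← zpow_mul, mul_comm]
    rw [Finset.prod_congr rfl fun i _ => h1 i, Finset.prod_comm]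
    refine Finset.prod_eq_one fun s _ => ?_
    have h2 : ∀ T : Finset (Fin r), ∏ i ∈ T, g s ^ (v i * n i s) =
        g s ^ (∑ i ∈ T, v i * n i s) := by
      intro T
      induction T using Finset.induction_on with
      | empty => simp
      | insert i T hi ih => rw [Finset.prod_insert hi, Finset.sum_insert hi, zpow_add, ih]
    rw [h2, hv s, zpow_zero]

end Pool.Agent.LIA
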