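import Pool.Agent.Lib.GogLI.KMain
import Pool.Agent.Lib.GogLI.JHN
import Pool.Agent.Lib.GogLI.FRank
import Pool.Agent.Lib.MP_cf50d6_gt.Push

/-!
# FHnn : HNN extensions of free groups with associated subgroups of rank at most three

(helper81, problem MP_cf50d6_gt)
-/

set_option autoImplicit false

open scoped Classical

namespace Pool.Agent.LIA

universe u

/-- the vertices of the subdivided graph of groups of an HNN extension -/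
inductive HV : Type u
  | f
  | a
  | b

/-- the edges of the subdivided graph of groups of an HNN extension -/
inductive HJ : Type u
  | x
  | y
  | z

variable {G : Type u} [Group G] [IsFreeGroup G] {q : ℕ}

/-- the generators of the vertex groups -/
def hsX (G : Type u) [Group G] [IsFreeGroup G] : HV.{u} → Type u
  | HV.f => IsFreeGroup.Generators G
  | HV.a => ULift.{u} (Fin 2)
  | HV.b => ULift.{u} (Fin 2)

/-- the first vertices of the edges -/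
def hsS : HJ.{u} → HV.{u}
  | HJ.x => HV.f
  | HJ.y => HV.a
  | HJ.z => HV.b

/-- the second vertices of the edges -/
def hsT : HJ.{u} → HV.{u}
  | HJ.x => HV.a
  | HJ.y => HV.b
  | HJ.z => HV.f

/-- the ranks of the edge groups -/
def hsR (q : ℕ) : HJ.{u} → ℕ
  | HJ.x => 2
  | HJ.y => q
  | HJ.z => 2

/-- the isomorphism of the free groups of rank two -/
noncomputable def up2 : FreeGroup (Fin 2) →* FreeGroup (ULift.{u} (Fin 2)) :=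
  FreeGroup.map ULift.up

theorem up2_injective : Function.Injective up2.{u} :=
  FreeGroup.map_injective ULift.up_injective

/-- the embeddings at the first vertices -/
noncomputable def hsA (μ : FreeGroup (Fin 2) →* G) (c₁ : FreeGroup (Fin q) →* FreeGroup (Fin 2)) :
    ∀ j : HJ.{u}, FreeGroup (Fin (hsR q j)) →* FreeGroup (hsX G (hsS j))
  | HJ.x => (IsFreeGroup.toFreeGroup G).toMonoidHom.comp μ
  | HJ.y => up2.comp c₁
  | HJ.z => up2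

/-- the embeddings at the second vertices -/
noncomputable def hsB (μ' : FreeGroup (Fin 2) →* G) (c₂ : FreeGroup (Fin q) →* FreeGroup (Fin 2)) :
    ∀ j : HJ.{u}, FreeGroup (Fin (hsR q j)) →* FreeGroup (hsX G (hsT j))
  | HJ.x => up2
  | HJ.y => up2.comp c₂
  | HJ.z => (IsFreeGroup.toFreeGroup G).toMonoidHom.comp μ'

theorem mk_empty_injective (X : Type*) :
    Function.Injective (PresentedGroup.mk (∅ : Set (FreeGroup X))) := by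
  rw [injective_iff_map_eq_one]
  intro x hx
  rw [PresentedGroup.mk_eq_one_iff, Subgroup.normalClosure_empty, Subgroup.mem_bot] at hx
  exact hx

variable (μ μ' : FreeGroup (Fin 2) →* G) (c₁ c₂ : FreeGroup (Fin q) →* FreeGroup (Fin 2))

theorem hsA_injective (hμ : Function.Injective μ) (h₁ : Function.Injective c₁) (j : HJ.{u}) :
    Function.Injective (hsA μ c₁ j) := by
  cases j
  · exact (IsFreeGroup.toFreeGroup G).injective.comp hμ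
  · exact up2_injective.comp h₁
  · exact up2_injective

theorem hsB_injective (hμ' : Function.Injective μ') (h₂ : Function.Injective c₂) (j : HJ.{u}) :
    Function.Injective (hsB μ' c₂ j) := by
  cases j
  · exact up2_injective
  · exact up2_injective.comp h₂
  · exact (IsFreeGroup.toFreeGroup G).injective.comp hμ'

variable (hμ : Function.Injective μ) (hμ' : Function.Injective μ') (h₁ : Function.Injective c₁)
  (h₂ : Function.Injective c₂)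

/-- the subdivided graph of groups of an HNN extension -/
noncomputable def hsG : GOG.{u} where
  I := HV.{u}
  J := HJ.{u}
  X := hsX G
  R _ := ∅
  s := hsS
  t := hsT
  r := hsR q
  α := hsA μ c₁
  β := hsB μ' c₂
  hα j := (mk_empty_injective _).comp (hsA_injective μ c₁ hμ h₁ j)
  hβ j := (mk_empty_injective _).comp (hsB_injective μ' c₂ hμ' h₂ j)

/-- the vertex group `G` in the fundamental group -/
noncomputable def hsEmb : G →* (hsG μ μ' c₁ c₂ hμ hμ' h₁ h₂).Grp :=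
  (PresentedGroup.mk (hsG μ μ' c₁ c₂ hμ hμ' h₁ h₂).rels).comp ((FreeGroup.map fun x : (hsG μ μ' c₁ c₂ hμ hμ' h₁ h₂).X HV.f =>
    Sum.inl ⟨(HV.f : (hsG μ μ' c₁ c₂ hμ hμ' h₁ h₂).I), x⟩).comp (IsFreeGroup.toFreeGroup G).toMonoidHom)

/-- a word of the vertex group at `a` or `b` in the fundamental group -/
noncomputable def hsEmbA : FreeGroup (ULift.{u} (Fin 2)) →* (hsG μ μ' c₁ c₂ hμ hμ' h₁ h₂).Grp :=
  (PresentedGroup.mk (hsG μ μ' c₁ c₂ hμ hμ' h₁ h₂).rels).comp (FreeGroup.map fun x : (hsG μ μ' c₁ c₂ hμ hμ' h₁ h₂).X HV.a =>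
    Sum.inl ⟨(HV.a : (hsG μ μ' c₁ c₂ hμ hμ' h₁ h₂).I), x⟩)

noncomputable def hsEmbB : FreeGroup (ULift.{u} (Fin 2)) →* (hsG μ μ' c₁ c₂ hμ hμ' h₁ h₂).Grp :=
  (PresentedGroup.mk (hsG μ μ' c₁ c₂ hμ hμ' h₁ h₂).rels).comp (FreeGroup.map fun x : (hsG μ μ' c₁ c₂ hμ hμ' h₁ h₂).X HV.b =>
    Sum.inl ⟨(HV.b : (hsG μ μ' c₁ c₂ hμ hμ' h₁ h₂).I), x⟩)

/-- the edge letters -/
noncomputable def hsJ (j : HJ.{u}) : (hsG μ μ' c₁ c₂ hμ hμ' h₁ h₂).Grp :=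
  PresentedGroup.of (Sum.inr j)

theorem hs_relx (w : FreeGroup (Fin 2)) :
    hsJ μ μ' c₁ c₂ hμ hμ' h₁ h₂ HJ.x * hsEmbA μ μ' c₁ c₂ hμ hμ' h₁ h₂ (up2 w) =
      hsEmb μ μ' c₁ c₂ hμ hμ' h₁ h₂ (μ w) * hsJ μ μ' c₁ c₂ hμ hμ' h₁ h₂ HJ.x :=
  (hsG μ μ' c₁ c₂ hμ hμ' h₁ h₂).edge_rel HJ.x w

theorem hs_rely (w : FreeGroup (Fin q)) :
    hsJ μ μ' c₁ c₂ hμ hμ' h₁ h₂ HJ.y * hsEmbB μ μ' c₁ c₂ hμ hμ' h₁ h₂ (up2 (c₂ w)) =
      hsEmbA μ μ' c₁ c₂ hμ hμ' h₁ h₂ (up2 (c₁ w)) * hsJ μ μ' c₁ c₂ hμ hμ' h₁ h₂ HJ.y :=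
  (hsG μ μ' c₁ c₂ hμ hμ' h₁ h₂).edge_rel HJ.y w

theorem hs_relz (w : FreeGroup (Fin 2)) :
    hsJ μ μ' c₁ c₂ hμ hμ' h₁ h₂ HJ.z * hsEmb μ μ' c₁ c₂ hμ hμ' h₁ h₂ (μ' w) =
      hsEmbB μ μ' c₁ c₂ hμ hμ' h₁ h₂ (up2 w) * hsJ μ μ' c₁ c₂ hμ hμ' h₁ h₂ HJ.z :=
  (hsG μ μ' c₁ c₂ hμ hμ' h₁ h₂).edge_rel HJ.z w

/-- the stable letter in the fundamental group -/
noncomputable def hsTt : (hsG μ μ' c₁ c₂ hμ hμ' h₁ h₂).Grp :=
  (hsJ μ μ' c₁ c₂ hμ hμ' h₁ h₂ HJ.x * hsJ μ μ' c₁ c₂ hμ hμ' h₁ h₂ HJ.y *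
    hsJ μ μ' c₁ c₂ hμ hμ' h₁ h₂ HJ.z)⁻¹

theorem hs_aux {H : Type*} [Group H] {x y z F A B F' : H} (h₁ : x * A = F * x)
    (h₂ : y * B = A * y) (h₃ : z * F' = B * z) : (x * y * z)⁻¹ * F = F' * (x * y * z)⁻¹ := by
  rw [inv_mul_eq_iff_eq_mul, ← mul_assoc, eq_mul_inv_iff_mul_eq]
  calc F * (x * y * z) = (F * x) * (y * z) := by simp only [mul_assoc]
    _ = (x * A) * (y * z) := by rw [h₁]
    _ = x * (A * y) * z := by simp only [mul_assoc]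
    _ = x * (y * B) * z := by rw [h₂]
    _ = x * y * (B * z) := by simp only [mul_assoc]
    _ = x * y * (z * F') := by rw [h₃]
    _ = x * y * z * F' := by simp only [mul_assoc]

theorem hs_conj (w : FreeGroup (Fin q)) :
    hsTt μ μ' c₁ c₂ hμ hμ' h₁ h₂ * hsEmb μ μ' c₁ c₂ hμ hμ' h₁ h₂ (μ (c₁ w)) =
      hsEmb μ μ' c₁ c₂ hμ hμ' h₁ h₂ (μ' (c₂ w)) * hsTt μ μ' c₁ c₂ hμ hμ' h₁ h₂ :=
  hs_aux (hs_relx μ μ' c₁ c₂ hμ hμ' h₁ h₂ (c₁ w)) (hs_rely μ μ' c₁ c₂ hμ hμ' h₁ h₂ w)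
    (hs_relz μ μ' c₁ c₂ hμ hμ' h₁ h₂ (c₂ w))

variable {A B : Subgroup G} (e : A ≃* B) (f : FreeGroup (Fin q) ≃* A)
  (hf₁ : ∀ w, μ (c₁ w) = f w) (hf₂ : ∀ w, μ' (c₂ w) = e (f w))

/-- the map of the HNN extension to the fundamental group -/
noncomputable def hsLift : HNNExtension G A B e →* (hsG μ μ' c₁ c₂ hμ hμ' h₁ h₂).Grp :=
  HNNExtension.lift (hsEmb μ μ' c₁ c₂ hμ hμ' h₁ h₂) (hsTt μ μ' c₁ c₂ hμ hμ' h₁ h₂) (by
    intro a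
    have h := hs_conj μ μ' c₁ c₂ hμ hμ' h₁ h₂ (f.symm a)
    rw [hf₁, hf₂, f.apply_symm_apply] at h
    exact h)

/-- values of the generators for the retraction -/
noncomputable def hsVal : ((Σ i, (hsG μ μ' c₁ c₂ hμ hμ' h₁ h₂).X i) ⊕ (hsG μ μ' c₁ c₂ hμ hμ' h₁ h₂).J) → HNNExtension G A B e
  | Sum.inl ⟨HV.f, x⟩ => HNNExtension.of (IsFreeGroup.of (x : IsFreeGroup.Generators G))
  | Sum.inl ⟨HV.a, x⟩ => HNNExtension.of (μ (FreeGroup.of (x : ULift.{u} (Fin 2)).down))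
  | Sum.inl ⟨HV.b, x⟩ => HNNExtension.of (μ' (FreeGroup.of (x : ULift.{u} (Fin 2)).down))
  | Sum.inr HJ.x => 1
  | Sum.inr HJ.y => (HNNExtension.t)⁻¹
  | Sum.inr HJ.z => 1

theorem hs_valF (w : FreeGroup (IsFreeGroup.Generators G)) :
    FreeGroup.lift (hsVal μ μ' c₁ c₂ hμ hμ' h₁ h₂ e)
      (FreeGroup.map (fun x : (hsG μ μ' c₁ c₂ hμ hμ' h₁ h₂).X HV.f => Sum.inl ⟨(HV.f : (hsG μ μ' c₁ c₂ hμ hμ' h₁ h₂).I), x⟩) w) =
      HNNExtension.of ((IsFreeGroup.toFreeGroup G).symm w) := by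
  have h1 : (FreeGroup.lift (hsVal μ μ' c₁ c₂ hμ hμ' h₁ h₂ e)).comp
      (FreeGroup.map (fun x : (hsG μ μ' c₁ c₂ hμ hμ' h₁ h₂).X HV.f => Sum.inl ⟨(HV.f : (hsG μ μ' c₁ c₂ hμ hμ' h₁ h₂).I), x⟩)) =
      (HNNExtension.of (φ := e)).comp (IsFreeGroup.toFreeGroup G).symm.toMonoidHom := by
    apply FreeGroup.ext_hom
    intro x
    rw [MonoidHom.comp_apply]
    erw [FreeGroup.map.of, FreeGroup.lift_apply_of]
  exact DFunLike.congr_fun h1 w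

theorem hs_valA (w : FreeGroup (Fin 2)) :
    FreeGroup.lift (hsVal μ μ' c₁ c₂ hμ hμ' h₁ h₂ e)
      (FreeGroup.map (fun x : (hsG μ μ' c₁ c₂ hμ hμ' h₁ h₂).X HV.a => Sum.inl ⟨(HV.a : (hsG μ μ' c₁ c₂ hμ hμ' h₁ h₂).I), x⟩) (up2 w)) =
      HNNExtension.of (μ w) := by
  have h1 : ((FreeGroup.lift (hsVal μ μ' c₁ c₂ hμ hμ' h₁ h₂ e)).comp
      (FreeGroup.map (fun x : (hsG μ μ' c₁ c₂ hμ hμ' h₁ h₂).X HV.a => Sum.inl ⟨(HV.a : (hsG μ μ' c₁ c₂ hμ hμ' h₁ h₂).I), x⟩))).comp up2 =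
      (HNNExtension.of (φ := e)).comp μ := by
    apply FreeGroup.ext_hom
    intro x
    have h2 : up2 (FreeGroup.of x) = FreeGroup.of (ULift.up x) := FreeGroup.map.of
    change FreeGroup.lift (hsVal μ μ' c₁ c₂ hμ hμ' h₁ h₂ e) (FreeGroup.map
      (fun x : (hsG μ μ' c₁ c₂ hμ hμ' h₁ h₂).X HV.a => Sum.inl ⟨(HV.a : (hsG μ μ' c₁ c₂ hμ hμ' h₁ h₂).I), x⟩) (up2 (FreeGroup.of x))) = _
    rw [h2]
    erw [FreeGroup.map.of, FreeGroup.lift_apply_of]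
  exact DFunLike.congr_fun h1 w

theorem hs_valB (w : FreeGroup (Fin 2)) :
    FreeGroup.lift (hsVal μ μ' c₁ c₂ hμ hμ' h₁ h₂ e)
      (FreeGroup.map (fun x : (hsG μ μ' c₁ c₂ hμ hμ' h₁ h₂).X HV.b => Sum.inl ⟨(HV.b : (hsG μ μ' c₁ c₂ hμ hμ' h₁ h₂).I), x⟩) (up2 w)) =
      HNNExtension.of (μ' w) := by
  have h1 : ((FreeGroup.lift (hsVal μ μ' c₁ c₂ hμ hμ' h₁ h₂ e)).comp
      (FreeGroup.map (fun x : (hsG μ μ' c₁ c₂ hμ hμ' h₁ h₂).X HV.b => Sum.inl ⟨(HV.b : (hsG μ μ' c₁ c₂ hμ hμ' h₁ h₂).I), x⟩))).comp up2 =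
      (HNNExtension.of (φ := e)).comp μ' := by
    apply FreeGroup.ext_hom
    intro x
    have h2 : up2 (FreeGroup.of x) = FreeGroup.of (ULift.up x) := FreeGroup.map.of
    change FreeGroup.lift (hsVal μ μ' c₁ c₂ hμ hμ' h₁ h₂ e) (FreeGroup.map
      (fun x : (hsG μ μ' c₁ c₂ hμ hμ' h₁ h₂).X HV.b => Sum.inl ⟨(HV.b : (hsG μ μ' c₁ c₂ hμ hμ' h₁ h₂).I), x⟩) (up2 (FreeGroup.of x))) = _
    rw [h2]
    erw [FreeGroup.map.of, FreeGroup.lift_apply_of]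
  exact DFunLike.congr_fun h1 w

include hf₁ hf₂ in
theorem hs_rel1 (w : FreeGroup ((Σ i, (hsG μ μ' c₁ c₂ hμ hμ' h₁ h₂).X i) ⊕ (hsG μ μ' c₁ c₂ hμ hμ' h₁ h₂).J)) (hw : w ∈ (hsG μ μ' c₁ c₂ hμ hμ' h₁ h₂).rels) :
    FreeGroup.lift (hsVal μ μ' c₁ c₂ hμ hμ' h₁ h₂ e) w = 1 := by
  rcases hw with h | ⟨⟨j, z⟩, rfl⟩
  · obtain ⟨i, w, hw, rfl⟩ := Set.mem_iUnion.1 h
    exact absurd hw (Set.notMem_empty w)
  · rw [map_mul, map_mul, map_mul, map_inv, map_inv, FreeGroup.lift_apply_of, mul_inv_eq_one]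
    cases j
    · have e1 : hsVal μ μ' c₁ c₂ hμ hμ' h₁ h₂ e (Sum.inr HJ.x) = 1 := rfl
      simp only [e1]
      rw [one_mul, inv_one, mul_one]
      have h3 := hs_valA μ μ' c₁ c₂ hμ hμ' h₁ h₂ e (FreeGroup.of z)
      have h4 := hs_valF μ μ' c₁ c₂ hμ hμ' h₁ h₂ e
        ((IsFreeGroup.toFreeGroup G) (μ (FreeGroup.of z)))
      rw [MulEquiv.symm_apply_apply] at h4
      exact h3.trans h4.symm
    · have e1 : hsVal μ μ' c₁ c₂ hμ hμ' h₁ h₂ e (Sum.inr HJ.y) = (HNNExtension.t)⁻¹ := rfl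
      simp only [e1]
      have h3 := hs_valB μ μ' c₁ c₂ hμ hμ' h₁ h₂ e (c₂ (FreeGroup.of z))
      have h4 := hs_valA μ μ' c₁ c₂ hμ hμ' h₁ h₂ e (c₁ (FreeGroup.of z))
      rw [hf₂] at h3
      rw [hf₁] at h4
      have h5 := HNNExtension.t_mul_of (φ := e) (f (FreeGroup.of z))
      have h6 : (HNNExtension.t)⁻¹ * (HNNExtension.of (φ := e) (e (f (FreeGroup.of z)) : G)) *
          ((HNNExtension.t)⁻¹)⁻¹ = HNNExtension.of (f (FreeGroup.of z) : G) := by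
        rw [inv_inv, mul_assoc, ← h5, ← mul_assoc, inv_mul_cancel, one_mul]
      rw [← h3, ← h4] at h6
      exact h6
    · have e1 : hsVal μ μ' c₁ c₂ hμ hμ' h₁ h₂ e (Sum.inr HJ.z) = 1 := rfl
      simp only [e1]
      rw [one_mul, inv_one, mul_one]
      have h3 := hs_valB μ μ' c₁ c₂ hμ hμ' h₁ h₂ e (FreeGroup.of z)
      have h4 := hs_valF μ μ' c₁ c₂ hμ hμ' h₁ h₂ e
        ((IsFreeGroup.toFreeGroup G) (μ' (FreeGroup.of z)))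
      rw [MulEquiv.symm_apply_apply] at h4
      exact h4.trans h3.symm

/-- the retraction -/
noncomputable def hsBack : (hsG μ μ' c₁ c₂ hμ hμ' h₁ h₂).Grp →* HNNExtension G A B e :=
  PresentedGroup.toGroup (f := hsVal μ μ' c₁ c₂ hμ hμ' h₁ h₂ e)
    (hs_rel1 μ μ' c₁ c₂ hμ hμ' h₁ h₂ e f hf₁ hf₂)

theorem hsBack_mk (w : FreeGroup ((Σ i, (hsG μ μ' c₁ c₂ hμ hμ' h₁ h₂).X i) ⊕ (hsG μ μ' c₁ c₂ hμ hμ' h₁ h₂).J)) :
    hsBack μ μ' c₁ c₂ hμ hμ' h₁ h₂ e f hf₁ hf₂ (PresentedGroup.mk (hsG μ μ' c₁ c₂ hμ hμ' h₁ h₂).rels w) =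
      FreeGroup.lift (hsVal μ μ' c₁ c₂ hμ hμ' h₁ h₂ e) w := rfl

theorem hsBack_lift (x : HNNExtension G A B e) :
    hsBack μ μ' c₁ c₂ hμ hμ' h₁ h₂ e f hf₁ hf₂ (hsLift μ μ' c₁ c₂ hμ hμ' h₁ h₂ e f hf₁ hf₂ x) =
      x := by
  have h1 : (hsBack μ μ' c₁ c₂ hμ hμ' h₁ h₂ e f hf₁ hf₂).comp
      (hsLift μ μ' c₁ c₂ hμ hμ' h₁ h₂ e f hf₁ hf₂) = MonoidHom.id _ := by
    apply HNNExtension.hom_ext
    · ext g
      simp only [MonoidHom.comp_apply, MonoidHom.id_apply]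
      rw [hsLift, HNNExtension.lift_of]
      have h2 := hs_valF μ μ' c₁ c₂ hμ hμ' h₁ h₂ e ((IsFreeGroup.toFreeGroup G) g)
      rw [MulEquiv.symm_apply_apply] at h2
      exact h2
    · simp only [MonoidHom.comp_apply, MonoidHom.id_apply]
      rw [hsLift, HNNExtension.lift_t, hsTt, map_inv, map_mul, map_mul]
      have e1 : ∀ j, hsBack μ μ' c₁ c₂ hμ hμ' h₁ h₂ e f hf₁ hf₂
          (hsJ μ μ' c₁ c₂ hμ hμ' h₁ h₂ j) = hsVal μ μ' c₁ c₂ hμ hμ' h₁ h₂ e (Sum.inr j) := by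
        intro j
        change hsBack μ μ' c₁ c₂ hμ hμ' h₁ h₂ e f hf₁ hf₂ (PresentedGroup.mk (hsG μ μ' c₁ c₂ hμ hμ' h₁ h₂).rels
          (FreeGroup.of (Sum.inr j))) = _
        rw [hsBack_mk]
        exact FreeGroup.lift_apply_of
      rw [e1, e1, e1]
      have e2 : hsVal μ μ' c₁ c₂ hμ hμ' h₁ h₂ e (Sum.inr HJ.x) = 1 := rfl
      have e3 : hsVal μ μ' c₁ c₂ hμ hμ' h₁ h₂ e (Sum.inr HJ.y) = (HNNExtension.t)⁻¹ := rfl
      have e4 : hsVal μ μ' c₁ c₂ hμ hμ' h₁ h₂ e (Sum.inr HJ.z) = 1 := rfl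
      rw [e2, e3, e4, one_mul, mul_one, inv_inv]
  exact DFunLike.congr_fun h1 x

end Pool.Agent.LIA
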