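import Pool.Agent.Lib.GogLI.FHnn

/-!
# FHnnLi : HNN extensions of free groups over compressed subgroups, or over subgroups of rank at most
three with trivial second homology, are locally indicable

(helper81, problem MP_cf50d6_gt)
-/

set_option autoImplicit false

open scoped Classical

namespace Pool.Agent.LIA

universe u

/-- isomorphisms preserve compressed subgroups -/
theorem Compressed.equiv_comp {r : ℕ} {G G' : Type*} [Group G] [Group G']
    {c : FreeGroup (Fin r) →* G} (h : Compressed c) (f : G ≃* G') :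
    Compressed (f.toMonoidHom.comp c) := by
  intro S hS
  have h1 := h (S.image f.symm) (fun z => by
    have h2 : f (c z) ∈ Subgroup.closure (S : Set G') := hS z
    have h3 : f.symm (f (c z)) ∈ (Subgroup.closure (S : Set G')).map f.symm.toMonoidHom :=
      ⟨_, h2, rfl⟩
    rw [MonoidHom.map_closure, f.symm_apply_apply] at h3
    rw [Finset.coe_image]
    exact h3)
  exact h1.trans Finset.card_image_le

section

variable {G : Type u} [Group G] [IsFreeGroup G] (A B : Subgroup G) (e : A ≃* B) {q : ℕ}
  (f : FreeGroup (Fin q) ≃* A)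

/-- an HNN extension of a free group is locally indicable if one of the associated subgroups is
compressed -/
theorem hnn_compressed_li (h : Compressed (A.subtype.comp f.toMonoidHom) ∨
    Compressed (B.subtype.comp (e.toMonoidHom.comp f.toMonoidHom))) :
    LocallyIndicable (HNNExtension G A B e) := by
  refine LocallyIndicable.of_injective (hnLift e f)
    (Function.LeftInverse.injective (hnBack_lift e f)) ?_
  have hc : ∀ C : Finset (hnA e f).J, (C.card : ℚ) ≤ 1 := by
    intro C
    have : C.card ≤ 1 := Finset.card_le_one.2 fun a _ b _ => (rfl : (a : PUnit) = b)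
    exact_mod_cast this
  have hrank : ∀ j, HNBound.{u} ((hnA e f).α j) (((q - 1 : ℕ) : ℚ)) := by
    intro j
    have := hnBound_rank.{u} ((hnA e f).α j) ((hnA e f).hα j)
    rwa [Fintype.card_fin] at this
  have hrank' : ∀ j, HNBound.{u} ((hnA e f).β j) (((q - 1 : ℕ) : ℚ)) := by
    intro j
    have := hnBound_rank.{u} ((hnA e f).β j) ((hnA e f).hβ j)
    rwa [Fintype.card_fin] at this
  rcases h with h | h
  · refine (hnA e f).li_of_bound (κ := fun _ => ((q - 1 : ℕ) : ℚ)) (κ' := fun _ => 1) hrank
      (fun _ => (h.equiv_comp (IsFreeGroup.toFreeGroup G)).hnBound) ⟨fun _ => 0, fun _ =>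
        ⟨le_rfl, zero_le_one⟩, ?_⟩
    intro i C
    simp only [zero_mul, Finset.sum_const_zero, zero_add, sub_zero, one_mul, Finset.sum_const,
      nsmul_eq_mul, mul_one]
    exact hc _
  · refine (hnA e f).li_of_bound (κ := fun _ => 1) (κ' := fun _ => ((q - 1 : ℕ) : ℚ))
      (fun _ => (h.equiv_comp (IsFreeGroup.toFreeGroup G)).hnBound) hrank' ⟨fun _ => 1, fun _ =>
        ⟨zero_le_one, le_rfl⟩, ?_⟩
    intro i C
    simp only [sub_self, zero_mul, Finset.sum_const_zero, add_zero, one_mul, Finset.sum_const,
      nsmul_eq_mul, mul_one]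
    exact hc _

/-- if the difference of the two maps `H_1(A) → H_1(G)` is injective then a subgroup generated by
less than `q` elements does not contain conjugates of both `A` and `B` -/
theorem not_both {S : Finset G} (hS : S.card < q)
    (hH : ∀ x : Abelianization A, Abelianization.map A.subtype x =
      Abelianization.map (B.subtype.comp e.toMonoidHom) x → x = 1) {g g' : G}
    (h1 : ∀ z, g * (f z : G) * g⁻¹ ∈ Subgroup.closure (S : Set G))
    (h2 : ∀ z, g' * (e (f z) : G) * g'⁻¹ ∈ Subgroup.closure (S : Set G)) : False := by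
  let a : FreeGroup (Fin q) →* Subgroup.closure (S : Set G) :=
    ((MulAut.conj g).toMonoidHom.comp (A.subtype.comp f.toMonoidHom)).codRestrict _ h1
  let b : FreeGroup (Fin q) →* Subgroup.closure (S : Set G) :=
    ((MulAut.conj g').toMonoidHom.comp (B.subtype.comp
      (e.toMonoidHom.comp f.toMonoidHom))).codRestrict _ h2
  obtain ⟨x, hx, hab⟩ := exists_eq_map hS a b
  have h3 := congrArg (Abelianization.map (Subgroup.closure (S : Set G)).subtype) hab
  -- conjugation is trivial on the abelianization
  have key : ∀ (g : G) (c : FreeGroup (Fin q) →* G) (x : Abelianization (FreeGroup (Fin q))),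
      Abelianization.map ((MulAut.conj g).toMonoidHom.comp c) x = Abelianization.map c x := by
    intro g c x
    obtain ⟨y, rfl⟩ := QuotientGroup.mk_surjective x
    change Abelianization.of (g * c y * g⁻¹) = Abelianization.of (c y)
    rw [map_mul, map_mul, map_inv, mul_comm, ← mul_assoc, inv_mul_cancel, one_mul]
  have h4 : Abelianization.map (Subgroup.closure (S : Set G)).subtype (Abelianization.map a x) =
      Abelianization.map (A.subtype.comp f.toMonoidHom) x := by
    rw [← key g]
    obtain ⟨y, rfl⟩ := QuotientGroup.mk_surjective x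
    rfl
  have h5 : Abelianization.map (Subgroup.closure (S : Set G)).subtype (Abelianization.map b x) =
      Abelianization.map (B.subtype.comp (e.toMonoidHom.comp f.toMonoidHom)) x := by
    rw [← key g']
    obtain ⟨y, rfl⟩ := QuotientGroup.mk_surjective x
    rfl
  rw [h4, h5] at h3
  have h6 := hH (Abelianization.map f.toMonoidHom x) (by
    obtain ⟨y, rfl⟩ := QuotientGroup.mk_surjective x
    exact h3)
  apply hx
  have h7 := congrArg (Abelianization.map f.symm.toMonoidHom) h6
  rw [map_one] at h7
  rw [← h7]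
  obtain ⟨y, rfl⟩ := QuotientGroup.mk_surjective x
  change Abelianization.of y = Abelianization.of (f.symm (f y))
  rw [f.symm_apply_apply]

/-- the two subgroups of rank two are jointly compressed -/
theorem pair_jc {A B : Subgroup G} {e : A ≃* B} {f : FreeGroup (Fin 3) ≃* A}
    (hH : ∀ x : Abelianization A, Abelianization.map A.subtype x =
      Abelianization.map (B.subtype.comp e.toMonoidHom) x → x = 1)
    {μ μ' : FreeGroup (Fin 2) →* G} {c₁ c₂ : FreeGroup (Fin 3) →* FreeGroup (Fin 2)}
    (hμ : Function.Injective μ) (hμ' : Function.Injective μ') (hf₁ : ∀ w, μ (c₁ w) = f w)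
    (hf₂ : ∀ w, μ' (c₂ w) = e (f w)) (S : Finset (FreeGroup (IsFreeGroup.Generators G)))
    {P Q : Prop}
    (hP : P → ∃ g : FreeGroup (IsFreeGroup.Generators G), ∀ z,
      g * IsFreeGroup.toFreeGroup G (μ z) * g⁻¹ ∈ Subgroup.closure (S : Set _))
    (hQ : Q → ∃ g : FreeGroup (IsFreeGroup.Generators G), ∀ z,
      g * IsFreeGroup.toFreeGroup G (μ' z) * g⁻¹ ∈ Subgroup.closure (S : Set _)) :
    (P → 2 ≤ S.card) ∧ (Q → 2 ≤ S.card) ∧ (P → Q → 3 ≤ S.card) := by
  let φ : G ≃* FreeGroup (IsFreeGroup.Generators G) := IsFreeGroup.toFreeGroup G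
  -- conjugates of the subgroups in `S`
  have hmem : ∀ {r : ℕ} (c : FreeGroup (Fin r) →* G) (g : FreeGroup (IsFreeGroup.Generators G)),
      (∀ z, g * φ (c z) * g⁻¹ ∈ Subgroup.closure (S : Set (FreeGroup
        (IsFreeGroup.Generators G)))) → ∀ z, φ.symm g * c z * (φ.symm g)⁻¹ ∈
        Subgroup.closure ((S.image φ.symm : Finset G) : Set G) := by
    intro r c g h z
    have h3 : φ.symm (g * φ (c z) * g⁻¹) ∈ (Subgroup.closure (S : Set (FreeGroup
        (IsFreeGroup.Generators G)))).map φ.symm.toMonoidHom := ⟨_, h z, rfl⟩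
    rw [MonoidHom.map_closure, map_mul, map_mul, φ.symm_apply_apply, map_inv] at h3
    rw [Finset.coe_image]
    exact h3
  have hcard : (S.image φ.symm).card ≤ S.card := Finset.card_image_le
  have hone : ∀ (c : FreeGroup (Fin 2) →* G) (g : FreeGroup (IsFreeGroup.Generators G)),
      Function.Injective c → (∀ z, g * φ (c z) * g⁻¹ ∈ Subgroup.closure (S : Set (FreeGroup
        (IsFreeGroup.Generators G)))) → 2 ≤ S.card := by
    intro c g hc h
    refine (compressed_of_le_two (le_refl 2)
      (c := (MulAut.conj (φ.symm g)).toMonoidHom.comp c)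
      ((MulAut.conj (φ.symm g)).injective.comp hc) _ (hmem c g h)).trans hcard
  refine ⟨fun h => ?_, fun h => ?_, fun h h' => ?_⟩
  · obtain ⟨g, hg⟩ := hP h
    exact hone μ g hμ hg
  · obtain ⟨g, hg⟩ := hQ h
    exact hone μ' g hμ' hg
  · by_contra hlt
    obtain ⟨g, hg⟩ := hP h
    obtain ⟨g', hg'⟩ := hQ h'
    refine not_both A B e f (S := S.image φ.symm) (by omega) hH (g := φ.symm g)
      (g' := φ.symm g') ?_ ?_
    · intro z
      have := hmem μ g hg (c₁ z)
      rw [hf₁] at this
      exact this
    · intro z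
      have := hmem μ' g' hg' (c₂ z)
      rw [hf₂] at this
      exact this

/-- the weights of the ends -/
def hsW : HJ.{u} × Bool → ℚ
  | (HJ.x, true) => 1
  | (HJ.x, false) => 0
  | (HJ.y, _) => 1 / 2
  | (HJ.z, true) => 0
  | (HJ.z, false) => 1

/-- the weights of the vertices -/
def hsL : HV.{u} → ℚ
  | HV.f => 1
  | _ => 0

/-- the Hanna Neumann constants -/
def hsK (e : HJ.{u} × Bool) : ℚ := ((hsR 3 e.1 - 1 : ℕ) : ℚ)

theorem hsW_nonneg (e : HJ.{u} × Bool) : 0 ≤ hsW e := by
  obtain ⟨j, b⟩ := e
  cases j <;> cases b <;> norm_num [hsW]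

theorem hs_sum {B C : Finset (HJ.{u} × Bool)} (h : B ⊆ C) :
    ∑ e ∈ B, hsW e * hsK e ≤ ∑ e ∈ C, hsW e * hsK e :=
  Finset.sum_le_sum_of_subset_of_nonneg h fun e _ _ =>
    mul_nonneg (hsW_nonneg e) (Nat.cast_nonneg _)

/-- the vertex of an end -/
def hsV : HJ.{u} × Bool → HV.{u}
  | (j, true) => hsS j
  | (j, false) => hsT j

theorem hs_weights (i : HV.{u}) (B : Finset (HJ.{u} × Bool))
    (hB : ∀ e ∈ B, hsV e = i ∧ e ∉ ({(HJ.x, true), (HJ.z, false)} : Set (HJ.{u} × Bool))) :
    hsL i + ∑ e ∈ B, hsW e * hsK e ≤ 1 := by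
  cases i
  · have h0 : B = ∅ := by
      rw [Finset.eq_empty_iff_forall_notMem]
      rintro ⟨j, b⟩ he
      obtain ⟨h3, h4⟩ := hB _ he
      cases j <;> cases b
      · exact absurd h3 (by intro h; cases h)
      · exact h4 (Or.inl rfl)
      · exact absurd h3 (by intro h; cases h)
      · exact absurd h3 (by intro h; cases h)
      · exact h4 (Or.inr rfl)
      · exact absurd h3 (by intro h; cases h)
    subst h0
    simp [hsL]
  · have h0 : B ⊆ {(HJ.x, false), (HJ.y, true)} := by
      rintro ⟨j, b⟩ he
      obtain ⟨h3, h4⟩ := hB _ he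
      cases j <;> cases b
      · exact Finset.mem_insert_self _ _
      · exact absurd h3 (by intro h; cases h)
      · exact absurd h3 (by intro h; cases h)
      · exact Finset.mem_insert_of_mem (Finset.mem_singleton_self _)
      · exact absurd h3 (by intro h; cases h)
      · exact absurd h3 (by intro h; cases h)
    have h1 := hs_sum h0
    rw [Finset.sum_insert (by
      rw [Finset.mem_singleton]
      intro h
      cases h), Finset.sum_singleton] at h1
    norm_num [hsL, hsW, hsK, hsR] at h1 ⊢
    exact h1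
  · have h0 : B ⊆ {(HJ.z, true), (HJ.y, false)} := by
      rintro ⟨j, b⟩ he
      obtain ⟨h3, h4⟩ := hB _ he
      cases j <;> cases b
      · exact absurd h3 (by intro h; cases h)
      · exact absurd h3 (by intro h; cases h)
      · exact Finset.mem_insert_of_mem (Finset.mem_singleton_self _)
      · exact absurd h3 (by intro h; cases h)
      · exact absurd h3 (by intro h; cases h)
      · exact Finset.mem_insert_self _ _
    have h1 := hs_sum h0
    rw [Finset.sum_insert (by
      rw [Finset.mem_singleton]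
      intro h
      cases h), Finset.sum_singleton] at h1
    norm_num [hsL, hsW, hsK, hsR] at h1 ⊢
    exact h1

include f in
/-- Let `G` be a free group and let `A`, `B` be isomorphic subgroups of rank at most three. If the
difference of the two maps `H_1(A) → H_1(G)` is injective (equivalently the second homology of the
HNN extension is trivial) then the HNN extension is locally indicable. -/
theorem hnn_three_li (hq : q ≤ 3)
    (hH : ∀ x : Abelianization A, Abelianization.map A.subtype x =
      Abelianization.map (B.subtype.comp e.toMonoidHom) x → x = 1) :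
    LocallyIndicable (HNNExtension G A B e) := by
  have hA : Function.Injective (A.subtype.comp f.toMonoidHom) :=
    A.subtype_injective.comp f.injective
  have hB : Function.Injective (B.subtype.comp (e.toMonoidHom.comp f.toMonoidHom)) :=
    B.subtype_injective.comp (e.injective.comp f.injective)
  by_cases hCA : Compressed (A.subtype.comp f.toMonoidHom)
  · exact hnn_compressed_li A B e f (Or.inl hCA)
  by_cases hCB : Compressed (B.subtype.comp (e.toMonoidHom.comp f.toMonoidHom))
  · exact hnn_compressed_li A B e f (Or.inr hCB)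
  have hq3 : q = 3 := by
    by_contra hne
    exact hCA (compressed_of_le_two (by omega) hA)
  subst hq3
  unfold Compressed at hCA hCB
  push Not at hCA hCB
  obtain ⟨S, hS, hScard⟩ := hCA
  obtain ⟨S', hS', hScard'⟩ := hCB
  obtain ⟨μ, c₁, hμ, hf₁⟩ := exists_rank_two (by norm_num) hA (by omega) hS
  obtain ⟨μ', c₂, hμ', hf₂⟩ := exists_rank_two (by norm_num) hB (by omega) hS'
  have h₁ : Function.Injective c₁ := by
    intro x y hxy
    apply hA
    rw [← hf₁, ← hf₁, hxy]
  have h₂ : Function.Injective c₂ := by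
    intro x y hxy
    apply hB
    rw [← hf₂, ← hf₂, hxy]
  refine LocallyIndicable.of_injective (hsLift μ μ' c₁ c₂ hμ hμ' h₁ h₂ e f hf₁ hf₂)
    (Function.LeftInverse.injective (hsBack_lift μ μ' c₁ c₂ hμ hμ' h₁ h₂ e f hf₁ hf₂)) ?_
  refine (hsG μ μ' c₁ c₂ hμ hμ' h₁ h₂).li_of_weights (fun _ => Or.inl rfl)
    (E0 := {(HJ.x, true), (HJ.z, false)}) (K := hsK) ?_ ?_ (w := hsW) (lam := hsL) ?_
  · intro i T S0 hT hS0
    -- all members are at `f`
    have hi : i = HV.f := by
      obtain ⟨k, -⟩ := hT
      obtain ⟨k, hk, rfl⟩ := k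
      rcases hk with rfl | rfl
      · rfl
      · rfl
    subst hi
    have hq2 : ∀ k ∈ T, (hsG μ μ' c₁ c₂ hμ hμ' h₁ h₂).r k.1.1 = 2 := by
      rintro ⟨k, rfl | rfl, -⟩ - <;> rfl
    rw [Finset.sum_congr rfl hq2, Finset.sum_const, smul_eq_mul]
    obtain ⟨h1, h2, h3⟩ := pair_jc hH hμ hμ' hf₁ hf₂ S0 (P := ∃ k ∈ T, k.1 = (HJ.x, true))
      (Q := ∃ k ∈ T, k.1 = (HJ.z, false)) (by
        rintro ⟨⟨k, hk, hv⟩, hkT, rfl⟩
        exact hS0 _ hkT) (by
        rintro ⟨⟨k, hk, hv⟩, hkT, rfl⟩
        exact hS0 _ hkT)
    by_cases hT1 : T.card ≤ 1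
    · have h4 : 2 ≤ S0.card := by
        obtain ⟨k, hk⟩ := hT
        rcases k.2.1 with h | h
        · exact h1 ⟨k, hk, h⟩
        · exact h2 ⟨k, hk, h⟩
      omega
    · obtain ⟨k, hk, k', hk', hne⟩ := Finset.one_lt_card.1 (by omega : 1 < T.card)
      have h4 : 3 ≤ S0.card := by
        rcases k.2.1 with h | h <;> rcases k'.2.1 with h' | h'
        · exact absurd (Subtype.ext (h.trans h'.symm)) hne
        · exact h3 ⟨k, hk, h⟩ ⟨k', hk', h'⟩
        · exact h3 ⟨k', hk', h'⟩ ⟨k, hk, h⟩
        · exact absurd (Subtype.ext (Eq.trans h (Eq.symm h'))) hne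
      have hT2 : T.card ≤ 2 := by
        have h1 : T.card ≤ ({(HJ.x, true), (HJ.z, false)} : Finset (HJ.{u} × Bool)).card := by
          refine Finset.card_le_card_of_injOn
            (fun k => (k.1 : HJ.{u} × Bool)) ?_ Subtype.val_injective.injOn
          intro k _
          rcases k.2.1 with h | h
          · have h : (k.1 : HJ.{u} × Bool) = (HJ.x, true) := h
            simp only [h]
            exact Finset.mem_insert_self _ _
          · have h : (k.1 : HJ.{u} × Bool) = (HJ.z, false) := h
            simp only [h]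
            exact Finset.mem_insert_of_mem (Finset.mem_singleton_self _)
        exact h1.trans Finset.card_le_two
      omega
  · rintro ⟨j, b⟩ - -
    cases b
    · have := hnBound_rank.{u} ((hsG μ μ' c₁ c₂ hμ hμ' h₁ h₂).β j)
        ((hsB_injective μ' c₂ hμ' h₂ j))
      rwa [Fintype.card_fin] at this
    · have := hnBound_rank.{u} ((hsG μ μ' c₁ c₂ hμ hμ' h₁ h₂).α j)
        ((hsA_injective μ c₁ hμ h₁ j))
      rwa [Fintype.card_fin] at this
  · refine ⟨hsW_nonneg, ?_, ?_, ?_, ?_, ?_⟩
    · rintro i
      cases i <;> norm_num [hsL]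
    · intro j _
      cases j <;> norm_num [hsW]
    · intro e _ h
      exact absurd rfl h
    · rintro e (rfl | rfl)
      · exact le_rfl
      · exact le_rfl
    · intro i _ B hB
      refine hs_weights i B fun e he => ⟨?_, (hB e he).2⟩
      rw [← (hB e he).1]
      obtain ⟨j, b⟩ := e
      cases b <;> rfl

end

end Pool.Agent.LIA
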