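import Pool.Agent.Lib.GogLI.KMain
import Pool.Agent.Lib.GogLI.CEmb
import Pool.Agent.Lib.GogLI.CJc
import Pool.Agent.Lib.GogLI.CWt

/-!
# FMain : graphs of groups with weights on the covering forest are locally indicable (theorem T)

(helper81, problem MP_cf50d6_gt)
-/

set_option autoImplicit false

open scoped Classical

namespace Pool.Agent.LIA.GOG

universe u

theorem li_of_cover_weights (A : GOG.{u})
    (hA : ∀ i, A.R i = ∅ ∨ LocallyIndicable (PresentedGroup (A.R i)))
    {E0 : Set (A.cover.J × Bool)} (hJ : A.cover.JointlyCompressed E0) {K : A.cover.J × Bool → ℚ}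
    (hK : ∀ e, e ∉ E0 → A.cover.R (A.cover.vert e) = ∅ → HNBound.{u} (A.cover.emb e) (K e))
    {w : A.cover.J × Bool → ℚ} {lam : A.cover.I → ℚ} (hW : A.cover.Weights E0 K w lam) :
    LocallyIndicable A.Grp :=
  A.li_of_cover (A.cover.li_of_weights (fun i => hA i.2) hJ hK hW)

theorem li_of_treeWeights (A : GOG.{u})
    (hA : ∀ i, A.R i = ∅ ∨ LocallyIndicable (PresentedGroup (A.R i)))
    {E0 : Set (A.J × Bool)} (hJ : A.JointlyCompressed E0) {K : A.J × Bool → ℚ}
    (hK : ∀ e, e ∉ E0 → A.R (A.vert e) = ∅ → HNBound.{u} (A.emb e) (K e))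
    (hW : A.TreeWeights E0 K) : LocallyIndicable A.Grp := by
  obtain ⟨w, lam, hw⟩ := A.cover_weights hW
  refine A.li_of_cover (A.cover.li_of_weights (fun i => hA i.2) (A.cover_jc hJ) ?_ hw)
  rintro ⟨⟨g, j⟩, b⟩ he hR
  cases b
  · exact hK (j, false) he hR
  · exact hK (j, true) he hR

end Pool.Agent.LIA.GOG
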