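import Pool.Agent.Lib.MP_727cf8_al.Forest

/-!
# LDefs : weights on subsets of the vertices of a labelled graph

(helper81 after helper68, `Lib/MP_727cf8_al/Weights.lean`, where all types are in `Type`)
-/

set_option autoImplicit false

namespace Pool.Agent.LIA.LP

open Finset

variable {B V : Type*} [Fintype B] [Fintype V] [DecidableEq B] [DecidableEq V]

/-- the `b`-edges leaving the set `S` -/
def outT (E : B → Finset (V × V)) (b : B) (S : Finset V) : Finset (V × V) :=
  (E b).filter fun e => e.1 ∈ S

/-- the `b`-edges entering the set `S` -/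
def inT (E : B → Finset (V × V)) (b : B) (S : Finset V) : Finset (V × V) :=
  (E b).filter fun e => e.2 ∈ S

/-- the contribution of a vertex with fibre `S` to `-χ` -/
noncomputable def cost (E : B → Finset (V × V)) (S : Finset V) : ℝ :=
  (∑ b, if (outT E b S).Nonempty then (1 : ℝ) else 0) - if S.Nonempty then 1 else 0

/-- the balance condition -/
def Bal (E : B → Finset (V × V)) (n : Finset V → ℝ) : Prop :=
  ∀ b (T : Finset (V × V)), T.Nonempty →
    ∑ S, n S * (if outT E b S = T then (1 : ℝ) else 0) =
      ∑ S, n S * (if inT E b S = T then (1 : ℝ) else 0)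

/-- a set of disjoint nonempty sets of vertices compatible with the edges (the fibres of a quotient
graph of a part of the graph) -/
structure VPart (E : B → Finset (V × V)) (M : Finset (Finset V)) : Prop where
  uniq : ∀ S ∈ M, ∀ S' ∈ M, (S ∩ S').Nonempty → S = S'
  nonempty : ∀ S ∈ M, S.Nonempty
  out : ∀ b, ∀ S ∈ M, (outT E b S).Nonempty → ∃ S' ∈ M, inT E b S' = outT E b S
  inn : ∀ b, ∀ S ∈ M, (inT E b S).Nonempty → ∃ S' ∈ M, outT E b S' = inT E b S

end Pool.Agent.LIA.LP
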