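import Pool.Agent.Lib.GogLI.Defs
import Pool.Agent.Lib.GogLI.LDefs

/-!
# JDefs : the base graph of a finite family of subgroups of a free group, and the fibres

(helper81, problem MP_cf50d6_gt; paper MP_cf50d6_gt_paper81b.md, section 2)

`wd k z` (`k : κ`, `z : Fin (q k)`) are words. The vertices of the base graph are the centres `Sum.inl k` and the points
`Sum.inr ⟨k, z, p⟩`, `p = 0, ..., length (wd k z)`, of the petals.
-/

set_option autoImplicit false

open scoped Classical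

namespace Pool.Agent.LIA.JH

open LP

variable {κ X : Type*} {q : κ → ℕ}

/-- vertices of the base graph -/
abbrev BV (wd : ∀ k, Fin (q k) → List (X × Bool)) : Type _ :=
  κ ⊕ (Σ k, Σ z : Fin (q k), Fin ((wd k z).length + 1))

variable [Fintype κ]

/-- the labels which occur in the words -/
noncomputable def lets (wd : ∀ k, Fin (q k) → List (X × Bool)) : Finset X :=
  (Finset.univ : Finset (Σ k, Fin (q k))).biUnion fun y => (wd y.1 y.2).toFinset.image Prod.fst

/-- `(u, u')` is an edge of the base graph with the label `x` -/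
def BE (wd : ∀ k, Fin (q k) → List (X × Bool)) (x : X) (u u' : BV wd) : Prop :=
  ∃ (k : κ) (z : Fin (q k)) (p : Fin (wd k z).length),
    ((wd k z)[p] = (x, true) ∧ u = Sum.inr ⟨k, z, p.castSucc⟩ ∧ u' = Sum.inr ⟨k, z, p.succ⟩) ∨
    ((wd k z)[p] = (x, false) ∧ u = Sum.inr ⟨k, z, p.succ⟩ ∧ u' = Sum.inr ⟨k, z, p.castSucc⟩)

/-- the edges of the base graph -/
noncomputable def EE (wd : ∀ k, Fin (q k) → List (X × Bool)) (b : ↥(lets wd)) :
    Finset (BV wd × BV wd) := Finset.univ.filter fun e => BE wd b.1 e.1 e.2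

/-- admissible sets: if they contain an end of a petal, they contain the centre -/
def Adm (wd : ∀ k, Fin (q k) → List (X × Bool)) (S : Finset (BV wd)) : Prop :=
  ∀ (k : κ) (z : Fin (q k)), (Sum.inr ⟨k, z, 0⟩ ∈ S ∨ Sum.inr ⟨k, z, Fin.last _⟩ ∈ S) →
    Sum.inl k ∈ S

/-- the weights of the vertices of the base graph -/
noncomputable def pw (wd : ∀ k, Fin (q k) → List (X × Bool)) (u : BV wd) : ℝ :=
  Sum.elim (fun _ => -1) (fun y => if y.2.2 = 0 then 1 else 0) u

/-- the fibre of the vertex `x` of `Γ` -/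
noncomputable def St (wd : ∀ k, Fin (q k) → List (X × Bool)) {V : Type*} (Γ : LG V X)
    {T : κ → Type*} (P : ∀ k, LG (T k) (Fin (q k))) (a : ∀ k, T k → V) (x : V) : Finset (BV wd) :=
  Finset.univ.filter fun u =>
    Sum.elim (fun k => ∃ t : T k, a k t = x)
      (fun y : (Σ k, Σ z : Fin (q k), Fin ((wd k z).length + 1)) =>
        ∃ t t' : T y.1, (t, y.2.1, t') ∈ (P y.1).F ∧
          Γ.Walk (a y.1 t) ((wd y.1 y.2.1).take y.2.2) x) u

/-- the number of the vertices of `Γ` with the fibre `S` -/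
noncomputable def nst (wd : ∀ k, Fin (q k) → List (X × Bool)) {V : Type*} [Fintype V]
    (Γ : LG V X) {T : κ → Type*} (P : ∀ k, LG (T k) (Fin (q k))) (a : ∀ k, T k → V)
    (S : Finset (BV wd)) : ℝ :=
  if S = ∅ then 0 else ((Finset.univ.filter fun x => St wd Γ P a x = S).card : ℝ)

/-- the quotient graph of a compatible family `M` of sets of vertices of the base graph -/
noncomputable def QG (wd : ∀ k, Fin (q k) → List (X × Bool)) (M : Finset (Finset (BV wd)))
    (hM : VPart (EE wd) M) : LG {S // S ∈ M} X where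
  F := (Finset.univ : Finset ({S // S ∈ M} × ↥(lets wd) × {S // S ∈ M})).filter
      (fun e => (outT (EE wd) e.2.1 e.1.1).Nonempty ∧
        inT (EE wd) e.2.1 e.2.2.1 = outT (EE wd) e.2.1 e.1.1) |>.image
      fun e => (e.1, e.2.1.1, e.2.2)
  det := by
    intro u s v v' h h'
    obtain ⟨⟨u1, b, v1⟩, h1, h2⟩ := Finset.mem_image.1 h
    obtain ⟨⟨u2, b', v2⟩, h3, h4⟩ := Finset.mem_image.1 h'
    simp only [Prod.mk.injEq] at h2 h4
    obtain ⟨rfl, rfl, rfl⟩ := h2
    obtain ⟨rfl, h5, rfl⟩ := h4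
    obtain rfl := Subtype.ext h5
    obtain ⟨-, h6, h7⟩ := Finset.mem_filter.1 h1
    obtain ⟨-, -, h8⟩ := Finset.mem_filter.1 h3
    apply Subtype.ext
    apply hM.uniq _ v1.2 _ v2.2
    obtain ⟨e, he⟩ := h6
    have h9 := h7.symm ▸ he
    have h10 := h8.symm ▸ he
    simp only [inT, Finset.mem_filter] at h9 h10
    exact ⟨e.2, Finset.mem_inter.2 ⟨h9.2, h10.2⟩⟩
  cod := by
    intro u u' s v h h'
    obtain ⟨⟨u1, b, v1⟩, h1, h2⟩ := Finset.mem_image.1 h
    obtain ⟨⟨u2, b', v2⟩, h3, h4⟩ := Finset.mem_image.1 h'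
    simp only [Prod.mk.injEq] at h2 h4
    obtain ⟨rfl, rfl, rfl⟩ := h2
    obtain ⟨rfl, h5, rfl⟩ := h4
    obtain rfl := Subtype.ext h5
    obtain ⟨-, h6, h7⟩ := Finset.mem_filter.1 h1
    obtain ⟨-, -, h8⟩ := Finset.mem_filter.1 h3
    apply Subtype.ext
    apply hM.uniq _ u1.2 _ u2.2
    obtain ⟨e, he⟩ := h6
    have h9 : e ∈ outT (EE wd) b' u2.1 := h8 ▸ h7.symm ▸ he
    simp only [outT, Finset.mem_filter] at he h9
    exact ⟨e.1, Finset.mem_inter.2 ⟨he.2, h9.2⟩⟩

theorem mem_QG {wd : ∀ k, Fin (q k) → List (X × Bool)} {M : Finset (Finset (BV wd))}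
    {hM : VPart (EE wd) M} {u v : {S // S ∈ M}} {x : X} : (u, x, v) ∈ (QG wd M hM).F ↔
      ∃ h : x ∈ lets wd, (outT (EE wd) ⟨x, h⟩ u.1).Nonempty ∧
        inT (EE wd) ⟨x, h⟩ v.1 = outT (EE wd) ⟨x, h⟩ u.1 := by
  unfold QG
  simp only [Finset.mem_image, Finset.mem_filter, Finset.mem_univ, true_and, Prod.mk.injEq]
  constructor
  · rintro ⟨⟨u1, b, v1⟩, h1, rfl, rfl, rfl⟩
    exact ⟨b.2, h1⟩
  · rintro ⟨h, h1⟩
    exact ⟨⟨u, ⟨x, h⟩, v⟩, h1, rfl, rfl, rfl⟩

/-- the indices whose centres are in members of the component `C` of the quotient graph -/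
noncomputable def kk {wd : ∀ k, Fin (q k) → List (X × Bool)} {M : Finset (Finset (BV wd))}
    (C : Finset {S // S ∈ M}) : Finset κ :=
  Finset.univ.filter fun k => ∃ S ∈ C, Sum.inl k ∈ S.1

/-- the petals of `k` covered by `M` -/
noncomputable def zz {wd : ∀ k, Fin (q k) → List (X × Bool)} (M : Finset (Finset (BV wd)))
    (k : κ) : Finset (Fin (q k)) :=
  Finset.univ.filter fun z => ∃ S ∈ M, Sum.inr ⟨k, z, 0⟩ ∈ S

end Pool.Agent.LIA.JH
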