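import Pool.Agent.Lib.GogLI.JDefs

/-!
# JQa : counting vertices and edges of the quotient graph

`(QG wd M hM).F` is in bijection with the pairs `(b, S)`, `b ∈ lets wd`, `S ∈ M` with `outT (EE wd) b S` nonempty (by `hM.out` there is a
target `S'`, it is unique by `hM.uniq`: `(QG ..).det`). So `∑ S ∈ M, cost (EE wd) S = #F - #M` (all members of `M` are nonempty).
-/

set_option autoImplicit false

open scoped Classical

namespace Pool.Agent.LIA.JH

open LP

variable {κ X : Type*} {q : κ → ℕ} [Fintype κ]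

private noncomputable def PP (wd : ∀ k, Fin (q k) → List (X × Bool))
    (M : Finset (Finset (BV wd))) : Finset ({S // S ∈ M} × ↥(lets wd)) :=
  Finset.univ.filter fun e => (outT (EE wd) e.2 e.1.1).Nonempty

private theorem card_F (wd : ∀ k, Fin (q k) → List (X × Bool)) (M : Finset (Finset (BV wd)))
    (hM : VPart (EE wd) M) : (QG wd M hM).F.card = (PP wd M).card := by
  have h1 : ((QG wd M hM).F.image fun e => (e.1, e.2.1)).card = (QG wd M hM).F.card := by
    apply Finset.card_image_of_injOn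
    rintro ⟨u, x, v⟩ h ⟨u', x', v'⟩ h' h2
    simp only [Prod.mk.injEq] at h2
    obtain ⟨rfl, rfl⟩ := h2
    have h3 := (QG wd M hM).det h h'
    rw [h3]
  have h2 : ((PP wd M).image fun e => (e.1, e.2.1)).card = (PP wd M).card := by
    apply Finset.card_image_of_injOn
    rintro ⟨u, b⟩ _ ⟨u', b'⟩ _ h2
    simp only [Prod.mk.injEq] at h2
    obtain ⟨rfl, h3⟩ := h2
    rw [Subtype.ext h3]
  have h3 : ((QG wd M hM).F.image fun e => (e.1, e.2.1)) =
      ((PP wd M).image fun e => (e.1, e.2.1)) := by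
    ext ⟨u, x⟩
    simp only [Finset.mem_image, Prod.mk.injEq]
    constructor
    · rintro ⟨⟨u', x', v'⟩, h, rfl, rfl⟩
      obtain ⟨h4, h5, -⟩ := mem_QG.1 h
      refine ⟨(u', ⟨x', h4⟩), ?_, rfl, rfl⟩
      rw [PP, Finset.mem_filter]
      exact ⟨Finset.mem_univ _, h5⟩
    · rintro ⟨⟨u', b⟩, h, rfl, rfl⟩
      rw [PP, Finset.mem_filter] at h
      obtain ⟨S', hS', h4⟩ := hM.out b u'.1 u'.2 h.2
      exact ⟨(u', b.1, ⟨S', hS'⟩), mem_QG.2 ⟨b.2, h.2, h4⟩, rfl, rfl⟩
  rw [← h1, h3, h2]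

theorem sum_cost (wd : ∀ k, Fin (q k) → List (X × Bool)) (M : Finset (Finset (BV wd)))
    (hM : VPart (EE wd) M) :
    ∑ S ∈ M, cost (EE wd) S = ((QG wd M hM).F.card : ℝ) - M.card := by
  have h1 : ∑ S ∈ M, (if S.Nonempty then (1 : ℝ) else 0) = M.card := by
    rw [Finset.sum_congr rfl fun S hS => if_pos (hM.nonempty S hS), Finset.sum_const,
      nsmul_eq_mul, mul_one]
  have h2 : ((PP wd M).card : ℝ) =
      ∑ S ∈ M, ∑ b, (if (outT (EE wd) b S).Nonempty then (1 : ℝ) else 0) := by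
    rw [PP, Finset.card_filter]
    push_cast
    rw [Fintype.sum_prod_type]
    exact Finset.sum_coe_sort M fun S => ∑ b, (if (outT (EE wd) b S).Nonempty then (1 : ℝ) else 0)
  rw [card_F, h2, ← h1, ← Finset.sum_sub_distrib]
  rfl

end Pool.Agent.LIA.JH
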