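import Pool.Agent.Lib.GogLI.JDefs

/-!
# JQb : the petals in the quotient graph

Let `M` be a `VPart`. If `Sum.inr ⟨k, z, p⟩ ∈ S ∈ M` and `p'` is the next (previous) point of the petal, then some `S' ∈ M` contains
`Sum.inr ⟨k, z, p'⟩` and there is a step of `QG` from `S` to `S'` along the letter number `p` of `wd k z` (resp. back). Indeed, if the
letter is `(x, true)`, then `(⟨k,z,p⟩, ⟨k,z,p+1⟩) ∈ EE wd x`, so `outT (EE wd) x S` is nonempty (resp. `inT` for the converse direction), and `hM.out`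
(`hM.inn`) gives `S'`; similarly for `(x, false)` with the roles of `outT` and `inT` exchanged. (The letter `x` is in `lets wd`.)
So if one point of the petal is covered by `M`, all points are, and the word `wd k z` is readable in `QG` from the
member with the point `0` to the member with the last point (induction on `p`). For admissible members both
contain the centre `Sum.inl k`, so they are equal to the member `S` with the centre (`hM.uniq`).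
-/

set_option autoImplicit false

open scoped Classical

namespace Pool.Agent.LIA.JH

open LP

variable {κ X : Type*} {q : κ → ℕ} [Fintype κ]

private theorem jqb_lets {wd : ∀ k, Fin (q k) → List (X × Bool)} {k : κ} {z : Fin (q k)}
    {p : Fin (wd k z).length} {x : X} {b : Bool} (h : (wd k z)[p] = (x, b)) : x ∈ lets wd := by
  unfold lets
  rw [Finset.mem_biUnion]
  refine ⟨⟨k, z⟩, Finset.mem_univ _, ?_⟩
  rw [Finset.mem_image]
  refine ⟨(x, b), ?_, rfl⟩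
  rw [List.mem_toFinset, ← h]
  exact List.getElem_mem _

private theorem jqb_fwd {wd : ∀ k, Fin (q k) → List (X × Bool)} {M : Finset (Finset (BV wd))}
    (hM : VPart (EE wd) M) {k : κ} {z : Fin (q k)} (p : Fin (wd k z).length)
    (S : {S // S ∈ M}) (hp : Sum.inr ⟨k, z, p.castSucc⟩ ∈ S.1) :
    ∃ S' : {S // S ∈ M}, Sum.inr ⟨k, z, p.succ⟩ ∈ S'.1 ∧
      (QG wd M hM).Step S (wd k z)[p] S' := by
  rcases hl : (wd k z)[p] with ⟨x, _ | _⟩
  · have hx : x ∈ lets wd := jqb_lets hl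
    have he : ((Sum.inr ⟨k, z, p.succ⟩, Sum.inr ⟨k, z, p.castSucc⟩) : BV wd × BV wd) ∈
        EE wd ⟨x, hx⟩ := by
      unfold EE
      rw [Finset.mem_filter]
      exact ⟨Finset.mem_univ _, k, z, p, Or.inr ⟨hl, rfl, rfl⟩⟩
    have hi : ((Sum.inr ⟨k, z, p.succ⟩, Sum.inr ⟨k, z, p.castSucc⟩) : BV wd × BV wd) ∈
        inT (EE wd) ⟨x, hx⟩ S.1 := by
      unfold inT
      rw [Finset.mem_filter]
      exact ⟨he, hp⟩
    obtain ⟨S', hS', h1⟩ := hM.inn ⟨x, hx⟩ S.1 S.2 ⟨_, hi⟩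
    have ho := hi
    rw [← h1] at ho
    have ho' := ho
    unfold outT at ho
    rw [Finset.mem_filter] at ho
    refine ⟨⟨S', hS'⟩, ho.2, ?_⟩
    rw [LG.step_false, mem_QG]
    exact ⟨hx, ⟨_, ho'⟩, h1.symm⟩
  · have hx : x ∈ lets wd := jqb_lets hl
    have he : ((Sum.inr ⟨k, z, p.castSucc⟩, Sum.inr ⟨k, z, p.succ⟩) : BV wd × BV wd) ∈
        EE wd ⟨x, hx⟩ := by
      unfold EE
      rw [Finset.mem_filter]
      exact ⟨Finset.mem_univ _, k, z, p, Or.inl ⟨hl, rfl, rfl⟩⟩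
    have hi : ((Sum.inr ⟨k, z, p.castSucc⟩, Sum.inr ⟨k, z, p.succ⟩) : BV wd × BV wd) ∈
        outT (EE wd) ⟨x, hx⟩ S.1 := by
      unfold outT
      rw [Finset.mem_filter]
      exact ⟨he, hp⟩
    obtain ⟨S', hS', h1⟩ := hM.out ⟨x, hx⟩ S.1 S.2 ⟨_, hi⟩
    have ho := hi
    rw [← h1] at ho
    unfold inT at ho
    rw [Finset.mem_filter] at ho
    refine ⟨⟨S', hS'⟩, ho.2, ?_⟩
    rw [LG.step_true, mem_QG]
    exact ⟨hx, ⟨_, hi⟩, h1⟩

private theorem jqb_bwd {wd : ∀ k, Fin (q k) → List (X × Bool)} {M : Finset (Finset (BV wd))}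
    (hM : VPart (EE wd) M) {k : κ} {z : Fin (q k)} (p : Fin (wd k z).length)
    (S : {S // S ∈ M}) (hp : Sum.inr ⟨k, z, p.succ⟩ ∈ S.1) :
    ∃ S' : {S // S ∈ M}, Sum.inr ⟨k, z, p.castSucc⟩ ∈ S'.1 ∧
      (QG wd M hM).Step S' (wd k z)[p] S := by
  rcases hl : (wd k z)[p] with ⟨x, _ | _⟩
  · have hx : x ∈ lets wd := jqb_lets hl
    have he : ((Sum.inr ⟨k, z, p.succ⟩, Sum.inr ⟨k, z, p.castSucc⟩) : BV wd × BV wd) ∈
        EE wd ⟨x, hx⟩ := by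
      unfold EE
      rw [Finset.mem_filter]
      exact ⟨Finset.mem_univ _, k, z, p, Or.inr ⟨hl, rfl, rfl⟩⟩
    have hi : ((Sum.inr ⟨k, z, p.succ⟩, Sum.inr ⟨k, z, p.castSucc⟩) : BV wd × BV wd) ∈
        outT (EE wd) ⟨x, hx⟩ S.1 := by
      unfold outT
      rw [Finset.mem_filter]
      exact ⟨he, hp⟩
    obtain ⟨S', hS', h1⟩ := hM.out ⟨x, hx⟩ S.1 S.2 ⟨_, hi⟩
    have ho := hi
    rw [← h1] at ho
    unfold inT at ho
    rw [Finset.mem_filter] at ho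
    refine ⟨⟨S', hS'⟩, ho.2, ?_⟩
    rw [LG.step_false, mem_QG]
    exact ⟨hx, ⟨_, hi⟩, h1⟩
  · have hx : x ∈ lets wd := jqb_lets hl
    have he : ((Sum.inr ⟨k, z, p.castSucc⟩, Sum.inr ⟨k, z, p.succ⟩) : BV wd × BV wd) ∈
        EE wd ⟨x, hx⟩ := by
      unfold EE
      rw [Finset.mem_filter]
      exact ⟨Finset.mem_univ _, k, z, p, Or.inl ⟨hl, rfl, rfl⟩⟩
    have hi : ((Sum.inr ⟨k, z, p.castSucc⟩, Sum.inr ⟨k, z, p.succ⟩) : BV wd × BV wd) ∈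
        inT (EE wd) ⟨x, hx⟩ S.1 := by
      unfold inT
      rw [Finset.mem_filter]
      exact ⟨he, hp⟩
    obtain ⟨S', hS', h1⟩ := hM.inn ⟨x, hx⟩ S.1 S.2 ⟨_, hi⟩
    have ho := hi
    rw [← h1] at ho
    have ho' := ho
    unfold outT at ho
    rw [Finset.mem_filter] at ho
    refine ⟨⟨S', hS'⟩, ho.2, ?_⟩
    rw [LG.step_true, mem_QG]
    exact ⟨hx, ⟨_, ho'⟩, h1.symm⟩

private theorem jqb_down {wd : ∀ k, Fin (q k) → List (X × Bool)} {M : Finset (Finset (BV wd))}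
    (hM : VPart (EE wd) M) {k : κ} {z : Fin (q k)} (n : ℕ) :
    ∀ (hn : n < (wd k z).length + 1) (S : {S // S ∈ M}), Sum.inr ⟨k, z, ⟨n, hn⟩⟩ ∈ S.1 →
      ∃ S0 : {S // S ∈ M}, Sum.inr ⟨k, z, 0⟩ ∈ S0.1 ∧ (QG wd M hM).Conn S0 S := by
  induction n with
  | zero =>
    intro hn S hS
    exact ⟨S, hS, LG.conn_refl S⟩
  | succ n ih =>
    intro hn S hS
    obtain ⟨S', h1, h2⟩ := jqb_bwd hM ⟨n, Nat.lt_of_succ_lt_succ hn⟩ S hS
    obtain ⟨S0, h3, h4⟩ := ih (Nat.lt_of_succ_lt hn) S' h1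
    exact ⟨S0, h3, h4.trans h2.conn⟩

private theorem jqb_up {wd : ∀ k, Fin (q k) → List (X × Bool)} {M : Finset (Finset (BV wd))}
    (hM : VPart (EE wd) M) {k : κ} {z : Fin (q k)} {S0 : {S // S ∈ M}}
    (h0 : Sum.inr ⟨k, z, 0⟩ ∈ S0.1) (n : ℕ) :
    ∀ (hn : n < (wd k z).length + 1), ∃ S : {S // S ∈ M}, Sum.inr ⟨k, z, ⟨n, hn⟩⟩ ∈ S.1 ∧
      (QG wd M hM).Walk S0 ((wd k z).take n) S := by
  induction n with
  | zero =>
    intro hn
    exact ⟨S0, h0, by rw [List.take_zero]; exact rfl⟩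
  | succ n ih =>
    intro hn
    obtain ⟨S, h1, h2⟩ := ih (Nat.lt_of_succ_lt hn)
    obtain ⟨S', h3, h4⟩ := jqb_fwd hM ⟨n, Nat.lt_of_succ_lt_succ hn⟩ S h1
    refine ⟨S', h3, ?_⟩
    rw [List.take_succ_eq_append_getElem (Nat.lt_of_succ_lt_succ hn), LG.walk_append]
    exact ⟨S, h2, LG.walk_singleton.2 h4⟩

theorem petal {wd : ∀ k, Fin (q k) → List (X × Bool)} {M : Finset (Finset (BV wd))}
    (hM : VPart (EE wd) M) (hA : ∀ S ∈ M, Adm wd S) {k : κ} {z : Fin (q k)}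
    {p : Fin ((wd k z).length + 1)} {S : Finset (BV wd)} (hS : S ∈ M)
    (hp : Sum.inr ⟨k, z, p⟩ ∈ S) :
    ∃ S0 : {S // S ∈ M}, Sum.inl k ∈ S0.1 ∧ Sum.inr ⟨k, z, 0⟩ ∈ S0.1 ∧
      (QG wd M hM).Walk S0 (wd k z) S0 ∧ (QG wd M hM).Conn S0 ⟨S, hS⟩ := by
  obtain ⟨S0, h0, h1⟩ := jqb_down hM p.1 p.2 ⟨S, hS⟩ hp
  obtain ⟨S1, h2, h3⟩ := jqb_up hM h0 (wd k z).length (Nat.lt_succ_self _)
  have h4 : Sum.inl k ∈ S0.1 := hA S0.1 S0.2 k z (Or.inl h0)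
  have h5 : Sum.inl k ∈ S1.1 := hA S1.1 S1.2 k z (Or.inr h2)
  have h6 : S0 = S1 :=
    Subtype.ext (hM.uniq _ S0.2 _ S1.2 ⟨_, Finset.mem_inter.2 ⟨h4, h5⟩⟩)
  refine ⟨S0, h4, h0, ?_, h1⟩
  rw [List.take_length, ← h6] at h3
  exact h3

end Pool.Agent.LIA.JH
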