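import Pool.Agent.Lib.GogLI.JDefs

/-!
# JSt : the fibres are admissible and compatible with the edges of `Γ`

`St wd Γ P a x` contains `Sum.inl k` iff `x = a k t` for some `t`, and `Sum.inr ⟨k, z, p⟩` iff there is an edge `(t, z, t')` of `P k` such that
`(wd k z).take p` is readable from `a k t` to `x`.
* `st_adm`: for `p = 0` the walk is empty, so `x = a k t`; for `p = last` it is the whole word, so `x = a k t'` by `walk_det` and `hw`.
* `st_out`: let `(u, u') ∈ EE wd b` with `u ∈ St x` (this is `outT (EE wd) b (St x)` nonempty). By definition of `BE`, `u` and `u'` are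
  neighbouring points `p`, `p + 1` (in one order) of a petal `(k, z)`; the edge `(t, z, t')` of `P k` for `u` and `hw` give: the walk with the word
  `wd k z` starting at `a k t` passes through `x` at the time of `u`, and at the time of `u'` through a vertex `y` with `(x, b, y) ∈ Γ.F`
  (`take (p+1) = take p ++ [letter]`, `walk_append`, `walk_det`). So `u' ∈ St y`. As `Γ` is folded, `y` is the same for all such pairs, so
  `outT (EE wd) b (St x) ⊆ inT (EE wd) b (St y)` for the unique `y` with `(x, b, y) ∈ Γ.F`; the converse inclusion is proved in the same way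
  (from `y` back to `x`).
* `st_in` is symmetric.
-/

set_option autoImplicit false

open scoped Classical

namespace Pool.Agent.LIA.JH

open LP

variable {κ X : Type*} {q : κ → ℕ} [Fintype κ]

private theorem jst_inl {wd : ∀ k, Fin (q k) → List (X × Bool)} {V : Type*} {Γ : LG V X}
    {T : κ → Type*} {P : ∀ k, LG (T k) (Fin (q k))} {a : ∀ k, T k → V} (x : V) (k : κ) :
    (Sum.inl k : BV wd) ∈ St wd Γ P a x ↔ ∃ t : T k, a k t = x := by
  unfold St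
  rw [Finset.mem_filter]
  exact ⟨fun h => h.2, fun h => ⟨Finset.mem_univ _, h⟩⟩

private theorem jst_inr {wd : ∀ k, Fin (q k) → List (X × Bool)} {V : Type*} {Γ : LG V X}
    {T : κ → Type*} {P : ∀ k, LG (T k) (Fin (q k))} {a : ∀ k, T k → V} (x : V) (k : κ)
    (z : Fin (q k)) (p : Fin ((wd k z).length + 1)) :
    (Sum.inr ⟨k, z, p⟩ : BV wd) ∈ St wd Γ P a x ↔ ∃ t t' : T k, (t, z, t') ∈ (P k).F ∧
      Γ.Walk (a k t) ((wd k z).take p) x := by
  unfold St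
  rw [Finset.mem_filter]
  exact ⟨fun h => h.2, fun h => ⟨Finset.mem_univ _, h⟩⟩

omit [Fintype κ] in
private theorem jst_two {V : Type*} (Γ : LG V X) {u w : V} {L : List (X × Bool)}
    (p : Fin L.length) (h : Γ.Walk u L w) : ∃ x0 x1, Γ.Walk u (L.take p.1) x0 ∧
      Γ.Step x0 L[p] x1 ∧ Γ.Walk u (L.take (p.1 + 1)) x1 := by
  have h2 : Γ.Walk u (L.take (p.1 + 1) ++ L.drop (p.1 + 1)) w := by
    rw [List.take_append_drop]
    exact h
  rw [LG.walk_append] at h2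
  obtain ⟨x1, h3, _⟩ := h2
  have h4 : Γ.Walk u (L.take p.1 ++ [L[p]]) x1 := by
    have e : L.take p.1 ++ [L[p]] = L.take (p.1 + 1) := List.take_concat_get' L p.1 p.2
    rw [e]
    exact h3
  rw [LG.walk_append] at h4
  obtain ⟨x0, h5, h6⟩ := h4
  rw [LG.walk_singleton] at h6
  exact ⟨x0, x1, h5, h6, h3⟩

private theorem jst_fwd {wd : ∀ k, Fin (q k) → List (X × Bool)} {V : Type*} {Γ : LG V X}
    {T : κ → Type*} {P : ∀ k, LG (T k) (Fin (q k))} {a : ∀ k, T k → V}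
    (hw : ∀ k t z t', (t, z, t') ∈ (P k).F → Γ.Walk (a k t) (wd k z) (a k t'))
    {k : κ} {z : Fin (q k)} (p : Fin (wd k z).length) {x : V}
    (h : (Sum.inr ⟨k, z, p.castSucc⟩ : BV wd) ∈ St wd Γ P a x) :
    ∃ y, Γ.Step x (wd k z)[p] y ∧ (Sum.inr ⟨k, z, p.succ⟩ : BV wd) ∈ St wd Γ P a y := by
  rw [jst_inr] at h
  obtain ⟨t, t', h1, h2⟩ := h
  obtain ⟨x0, x1, h3, h4, h5⟩ := jst_two Γ p (hw k t z t' h1)
  have h6 : x = x0 := LG.walk_det h2 h3
  subst h6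
  exact ⟨x1, h4, (jst_inr _ _ _ _).2 ⟨t, t', h1, h5⟩⟩

private theorem jst_bwd {wd : ∀ k, Fin (q k) → List (X × Bool)} {V : Type*} {Γ : LG V X}
    {T : κ → Type*} {P : ∀ k, LG (T k) (Fin (q k))} {a : ∀ k, T k → V}
    (hw : ∀ k t z t', (t, z, t') ∈ (P k).F → Γ.Walk (a k t) (wd k z) (a k t'))
    {k : κ} {z : Fin (q k)} (p : Fin (wd k z).length) {y : V}
    (h : (Sum.inr ⟨k, z, p.succ⟩ : BV wd) ∈ St wd Γ P a y) :
    ∃ x, Γ.Step x (wd k z)[p] y ∧ (Sum.inr ⟨k, z, p.castSucc⟩ : BV wd) ∈ St wd Γ P a x := by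
  rw [jst_inr] at h
  obtain ⟨t, t', h1, h2⟩ := h
  obtain ⟨x0, x1, h3, h4, h5⟩ := jst_two Γ p (hw k t z t' h1)
  have h6 : y = x1 := LG.walk_det h2 h5
  subst h6
  exact ⟨x0, h4, (jst_inr _ _ _ _).2 ⟨t, t', h1, h3⟩⟩

private theorem jst_one {wd : ∀ k, Fin (q k) → List (X × Bool)} {V : Type*} {Γ : LG V X}
    {T : κ → Type*} {P : ∀ k, LG (T k) (Fin (q k))} {a : ∀ k, T k → V}
    (hw : ∀ k t z t', (t, z, t') ∈ (P k).F → Γ.Walk (a k t) (wd k z) (a k t'))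
    {s : X} {u u' : BV wd} (hb : BE wd s u u') {x : V} (h : u ∈ St wd Γ P a x) :
    ∃ y, (x, s, y) ∈ Γ.F ∧ u' ∈ St wd Γ P a y := by
  obtain ⟨k, z, p, ⟨e, rfl, rfl⟩ | ⟨e, rfl, rfl⟩⟩ := hb
  · obtain ⟨y, h1, h2⟩ := jst_fwd hw p h
    rw [e, LG.step_true] at h1
    exact ⟨y, h1, h2⟩
  · obtain ⟨y, h1, h2⟩ := jst_bwd hw p h
    rw [e, LG.step_false] at h1
    exact ⟨y, h1, h2⟩

private theorem jst_rev {wd : ∀ k, Fin (q k) → List (X × Bool)} {V : Type*} {Γ : LG V X}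
    {T : κ → Type*} {P : ∀ k, LG (T k) (Fin (q k))} {a : ∀ k, T k → V}
    (hw : ∀ k t z t', (t, z, t') ∈ (P k).F → Γ.Walk (a k t) (wd k z) (a k t'))
    {s : X} {u u' : BV wd} (hb : BE wd s u u') {y : V} (h : u' ∈ St wd Γ P a y) :
    ∃ x, (x, s, y) ∈ Γ.F ∧ u ∈ St wd Γ P a x := by
  obtain ⟨k, z, p, ⟨e, rfl, rfl⟩ | ⟨e, rfl, rfl⟩⟩ := hb
  · obtain ⟨x, h1, h2⟩ := jst_bwd hw p h
    rw [e, LG.step_true] at h1
    exact ⟨x, h1, h2⟩
  · obtain ⟨x, h1, h2⟩ := jst_fwd hw p h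
    rw [e, LG.step_false] at h1
    exact ⟨x, h1, h2⟩

private theorem jst_EE {wd : ∀ k, Fin (q k) → List (X × Bool)} {b : ↥(lets wd)}
    {e : BV wd × BV wd} : e ∈ EE wd b ↔ BE wd b.1 e.1 e.2 := by
  unfold EE
  rw [Finset.mem_filter]
  exact ⟨fun h => h.2, fun h => ⟨Finset.mem_univ _, h⟩⟩

private theorem jst_eq {wd : ∀ k, Fin (q k) → List (X × Bool)} {V : Type*} {Γ : LG V X}
    {T : κ → Type*} {P : ∀ k, LG (T k) (Fin (q k))} {a : ∀ k, T k → V}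
    (hw : ∀ k t z t', (t, z, t') ∈ (P k).F → Γ.Walk (a k t) (wd k z) (a k t'))
    (b : ↥(lets wd)) {x y : V} (h : (x, b.1, y) ∈ Γ.F) :
    inT (EE wd) b (St wd Γ P a y) = outT (EE wd) b (St wd Γ P a x) := by
  ext e
  unfold inT outT
  rw [Finset.mem_filter, Finset.mem_filter]
  constructor
  · rintro ⟨h1, h2⟩
    obtain ⟨x', h3, h4⟩ := jst_rev hw (jst_EE.1 h1) h2
    rw [Γ.cod h3 h] at h4
    exact ⟨h1, h4⟩
  · rintro ⟨h1, h2⟩
    obtain ⟨y', h3, h4⟩ := jst_one hw (jst_EE.1 h1) h2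
    rw [Γ.det h3 h] at h4
    exact ⟨h1, h4⟩

theorem st_adm {wd : ∀ k, Fin (q k) → List (X × Bool)} {V : Type*} {Γ : LG V X}
    {T : κ → Type*} {P : ∀ k, LG (T k) (Fin (q k))} {a : ∀ k, T k → V}
    (hw : ∀ k t z t', (t, z, t') ∈ (P k).F → Γ.Walk (a k t) (wd k z) (a k t')) (x : V) :
    Adm wd (St wd Γ P a x) := by
  rintro k z (h | h)
  · rw [jst_inr] at h
    obtain ⟨t, t', _, h2⟩ := h
    rw [jst_inl]
    exact ⟨t, h2⟩
  · rw [jst_inr] at h
    obtain ⟨t, t', h1, h2⟩ := h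
    have e : (wd k z).take (Fin.last (wd k z).length).1 = wd k z := List.take_length
    rw [e] at h2
    rw [jst_inl]
    exact ⟨t', LG.walk_det (hw k t z t' h1) h2⟩

theorem st_out {wd : ∀ k, Fin (q k) → List (X × Bool)} {V : Type*} {Γ : LG V X}
    {T : κ → Type*} {P : ∀ k, LG (T k) (Fin (q k))} {a : ∀ k, T k → V}
    (hw : ∀ k t z t', (t, z, t') ∈ (P k).F → Γ.Walk (a k t) (wd k z) (a k t'))
    (b : ↥(lets wd)) (x : V) (h : (outT (EE wd) b (St wd Γ P a x)).Nonempty) :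
    ∃ y, (x, b.1, y) ∈ Γ.F ∧
      inT (EE wd) b (St wd Γ P a y) = outT (EE wd) b (St wd Γ P a x) := by
  obtain ⟨e, he⟩ := h
  unfold outT at he
  rw [Finset.mem_filter] at he
  obtain ⟨y, h1, _⟩ := jst_one hw (jst_EE.1 he.1) he.2
  exact ⟨y, h1, jst_eq hw b h1⟩

theorem st_in {wd : ∀ k, Fin (q k) → List (X × Bool)} {V : Type*} {Γ : LG V X}
    {T : κ → Type*} {P : ∀ k, LG (T k) (Fin (q k))} {a : ∀ k, T k → V}
    (hw : ∀ k t z t', (t, z, t') ∈ (P k).F → Γ.Walk (a k t) (wd k z) (a k t'))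
    (b : ↥(lets wd)) (y : V) (h : (inT (EE wd) b (St wd Γ P a y)).Nonempty) :
    ∃ x, (x, b.1, y) ∈ Γ.F ∧
      inT (EE wd) b (St wd Γ P a y) = outT (EE wd) b (St wd Γ P a x) := by
  obtain ⟨e, he⟩ := h
  unfold inT at he
  rw [Finset.mem_filter] at he
  obtain ⟨x, h1, _⟩ := jst_rev hw (jst_EE.1 he.1) he.2
  exact ⟨x, h1, jst_eq hw b h1⟩

end Pool.Agent.LIA.JH
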