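import Pool.Agent.Lib.GogLI.KDefs

/-!
# KCount : the count of the closed relator walks

Linear map `R` from `(∀ i : I0, Zc (GG Γ i) (A.R i)) × (∀ j : J0, TT Γ j → ℚ)` to `(Σ j : J0, ↥(PP Γ j).F) → ℚ`: for `(c, cJ)` let `C` be the
cochain on `V × ((Σ i, A.X i) ⊕ A.J) × V` with `C (u, inl ⟨i, x⟩, v) = (GG Γ i).ext0 (c i) (u, x, v)` if `i ∈ I0`, else 0, and
`C (u, inr j, v) = cJ j ⟨(u, v), h⟩` if `j ∈ J0` and `h : (u, inr j, v) ∈ Γ.F`, else 0. `R (c, cJ) (j, (t, z, t')) = Γ.trSum C t.1.1 (A.toGFG.relw ⟨j, z⟩)`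
(linear: `trSum_add`, `trSum_smul`).
Kernel: if `R (c, cJ) = 0`, then `C` has sum zero along all closed relator walks: for `relz (inr ⟨j, z⟩)` closed at `v`: `GFG.walk_relw` gives
vertices `v1 v2 v3`, `(v, v1)` and `(v3, v2)` are in `TT Γ j`, the edge of `PP Γ j` (`mem_PP`), `j ∈ J0` by `hJ`. For `relz (inl ⟨i, ρ⟩)`: if
`ρ.toWord = []` the sum is 0; otherwise `i ∈ I0` (the first letter is a label of an edge), and by `LG.walk_pull` the walk is a
closed walk of `GG Γ i` with the word `ρ.toWord`; the sums of `C` along the mapped word in `Γ` and of `ext0 (c i)` along `ρ.toWord` in `GG Γ i` are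
equal (induction on the word), so it is 0 as `c i ∈ Zc`. So `hacy` gives `h : V → ℚ` with `C = dh` on `Γ.F`.
So the kernel of `R` is mapped injectively (by `(c, cJ) ↦ C` restricted to `Γ.F`; `C` determines `c i` and `cJ`) into the range of the
coboundary map `(V → ℚ) → (↥Γ.F → ℚ)`, whose kernel contains the constants: dimension at most `card V - 1` (compare `TCard_dim` in
`Lib/TwLI/TCard.lean`). Rank plus nullity: `LinearMap.finrank_range_add_finrank_ker`, `Module.finrank_pi`, `Module.finrank_pi_fintype`,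
`Module.finrank_prod`.
-/

set_option autoImplicit false

open scoped Classical

namespace Pool.Agent.LIA.GOG

universe u

variable (A : GOG.{u})

/-- dimension count -/
private theorem kc_dim {V : Type*} [Fintype V] {E P D : Type*} [Fintype E] [Fintype P]
    [AddCommGroup D] [Module ℚ D] [Module.Finite ℚ D]
    (R : D →ₗ[ℚ] (P → ℚ)) (N : D →ₗ[ℚ] (E → ℚ)) (hN : Function.Injective N)
    (s t : E → V) (o : V)
    (h : ∀ d, R d = 0 → ∃ f : V → ℚ, ∀ e, N d e = f (t e) - f (s e)) :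
    Module.finrank ℚ D + 1 ≤ Fintype.card V + Fintype.card P := by
  let δ : (V → ℚ) →ₗ[ℚ] (E → ℚ) :=
    { toFun := fun f e => f (t e) - f (s e)
      map_add' := by
        intro f g
        ext e
        simp only [Pi.add_apply]
        ring
      map_smul' := by
        intro a f
        ext e
        simp only [Pi.smul_apply, smul_eq_mul, RingHom.id_apply]
        ring }
  have h1 := LinearMap.finrank_range_add_finrank_ker R
  have h2 := LinearMap.finrank_range_add_finrank_ker δ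
  rw [Module.finrank_pi] at h2
  have h3 : Module.finrank ℚ (LinearMap.range R) ≤ Fintype.card P := by
    have := Submodule.finrank_le (LinearMap.range R)
    rwa [Module.finrank_pi] at this
  have h4 : Module.finrank ℚ (LinearMap.ker R) ≤ Module.finrank ℚ (LinearMap.range δ) := by
    rw [(Submodule.equivMapOfInjective N hN (LinearMap.ker R)).finrank_eq]
    apply Submodule.finrank_mono
    rintro c ⟨d, hd, rfl⟩
    obtain ⟨f, hf⟩ := h d (LinearMap.mem_ker.1 hd)
    refine ⟨f, ?_⟩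
    ext e
    exact (hf e).symm
  have h5 : 0 < Module.finrank ℚ (LinearMap.ker δ) := by
    rw [Module.finrank_pos_iff]
    refine ⟨⟨⟨fun _ => 1, ?_⟩, 0, ?_⟩⟩
    · rw [LinearMap.mem_ker]
      ext e
      simp [δ]
    · intro h0
      have h6 := congrArg (fun z : LinearMap.ker δ => z.1 o) h0
      simp at h6
  omega

/-- the sum along a word as a functional -/
private noncomputable def kc_tr {V S : Type*} (Γ : LG V S) (u : V) (L : List (S × Bool)) :
    (V × S × V → ℚ) →ₗ[ℚ] ℚ where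
  toFun c := Γ.trSum c u L
  map_add' := by
    intro a b
    exact LG.trSum_add Γ a b u L
  map_smul' := by
    intro r a
    exact LG.trSum_smul Γ r a u L

private theorem kc_pull {V S T : Type*} (Γ : LG V T) (g : S → T) (hg : Function.Injective g)
    (F : V × T × V → ℚ) (L : List (S × Bool)) (u : V) :
    (Γ.pull g hg).trSum (fun e => F (e.1, g e.2.1, e.2.2)) u L =
      Γ.trSum F u (L.map fun x => (g x.1, x.2)) := by
  induction L generalizing u with
  | nil => simp [LG.trSum_nil]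
  | cons l L ih =>
    have hst : ∀ v, (Γ.pull g hg).Step u l v ↔ Γ.Step u (g l.1, l.2) v := by
      intro v
      obtain ⟨s, b⟩ := l
      cases b
      · simp only [LG.step_false, LG.mem_pull]
      · simp only [LG.step_true, LG.mem_pull]
    by_cases h : ∃ v, (Γ.pull g hg).Step u l v
    · obtain ⟨v, hv⟩ := h
      rw [List.map_cons, LG.trSum_cons _ _ _ hv, LG.trSum_cons _ _ _ ((hst v).1 hv), ih]
    · have h' : ¬ ∃ v, Γ.Step u (g l.1, l.2) v := by
        rintro ⟨v, hv⟩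
        exact h ⟨v, (hst v).2 hv⟩
      rw [List.map_cons, LG.trSum, dif_neg h, LG.trSum, dif_neg h']

/-- the cochain of a pair of families -/
private noncomputable def kc_C {V : Type u} [Fintype V] (Γ : LG V ((Σ i, A.X i) ⊕ A.J))
    (I0 : Finset A.I) (J0 : Finset A.J) :
    ((∀ i : ↥I0, ↥((A.toGFG.GG Γ i.1).Zc (A.R i.1))) × (∀ j : ↥J0, A.toGFG.TT Γ j.1 → ℚ)) →ₗ[ℚ]
      (V × ((Σ i, A.X i) ⊕ A.J) × V → ℚ) where
  toFun d := fun e =>
    match e with
    | (u, Sum.inl p, v) =>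
      if hi : p.1 ∈ I0 then (A.toGFG.GG Γ p.1).ext0 (d.1 ⟨p.1, hi⟩).1 (u, p.2, v) else 0
    | (u, Sum.inr j, v) =>
      if hj : j ∈ J0 then
        (if h : (u, Sum.inr j, v) ∈ Γ.F then d.2 ⟨j, hj⟩ ⟨(u, v), h⟩ else 0) else 0
  map_add' := by
    intro a b
    funext e
    obtain ⟨u, s, v⟩ := e
    rcases s with p | j
    · by_cases hi : p.1 ∈ I0
      · simp only [hi, dif_pos, Pi.add_apply, Prod.fst_add, Submodule.coe_add]
        rw [LG.ext0_add]
      · simp only [hi, dif_neg, not_false_iff, Pi.add_apply, add_zero]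
    · by_cases hj : j ∈ J0
      · by_cases h : (u, Sum.inr j, v) ∈ Γ.F
        · simp only [hj, h, dif_pos, Pi.add_apply, Prod.snd_add]
        · simp only [hj, h, dif_pos, dif_neg, not_false_iff, Pi.add_apply, add_zero]
      · simp only [hj, dif_neg, not_false_iff, Pi.add_apply, add_zero]
  map_smul' := by
    intro r a
    funext e
    obtain ⟨u, s, v⟩ := e
    rcases s with p | j
    · by_cases hi : p.1 ∈ I0
      · simp only [hi, dif_pos, Pi.smul_apply, Prod.smul_fst, Submodule.coe_smul,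
          RingHom.id_apply, smul_eq_mul]
        rw [LG.ext0_smul]
      · simp only [hi, dif_neg, not_false_iff, Pi.smul_apply, RingHom.id_apply, smul_zero]
    · by_cases hj : j ∈ J0
      · by_cases h : (u, Sum.inr j, v) ∈ Γ.F
        · simp only [hj, h, dif_pos, Pi.smul_apply, Prod.smul_snd, RingHom.id_apply]
        · simp only [hj, h, dif_pos, dif_neg, not_false_iff, Pi.smul_apply, RingHom.id_apply,
            smul_zero]
      · simp only [hj, dif_neg, not_false_iff, Pi.smul_apply, RingHom.id_apply, smul_zero]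

private theorem kc_C_inl {V : Type u} [Fintype V] (Γ : LG V ((Σ i, A.X i) ⊕ A.J))
    (I0 : Finset A.I) (J0 : Finset A.J)
    (d : (∀ i : ↥I0, ↥((A.toGFG.GG Γ i.1).Zc (A.R i.1))) × (∀ j : ↥J0, A.toGFG.TT Γ j.1 → ℚ))
    (u v : V) (i : A.I) (hi : i ∈ I0) (x : A.X i) :
    kc_C A Γ I0 J0 d (u, Sum.inl ⟨i, x⟩, v) =
      (A.toGFG.GG Γ i).ext0 (d.1 ⟨i, hi⟩).1 (u, x, v) := by
  change (if hi : i ∈ I0 then (A.toGFG.GG Γ i).ext0 (d.1 ⟨i, hi⟩).1 (u, x, v) else 0) = _
  rw [dif_pos hi]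

private theorem kc_C_inr {V : Type u} [Fintype V] (Γ : LG V ((Σ i, A.X i) ⊕ A.J))
    (I0 : Finset A.I) (J0 : Finset A.J)
    (d : (∀ i : ↥I0, ↥((A.toGFG.GG Γ i.1).Zc (A.R i.1))) × (∀ j : ↥J0, A.toGFG.TT Γ j.1 → ℚ))
    (u v : V) (j : A.J) (hj : j ∈ J0) (h : (u, Sum.inr j, v) ∈ Γ.F) :
    kc_C A Γ I0 J0 d (u, Sum.inr j, v) = d.2 ⟨j, hj⟩ ⟨(u, v), h⟩ := by
  change (if hj : j ∈ J0 then
        (if h : (u, Sum.inr j, v) ∈ Γ.F then d.2 ⟨j, hj⟩ ⟨(u, v), h⟩ else 0) else 0) = _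
  rw [dif_pos hj, dif_pos h]

theorem count {V : Type u} [Fintype V] (Γ : LG V ((Σ i, A.X i) ⊕ A.J)) (o : V)
    (hacy : Γ.Acy A.relz) (I0 : Finset A.I) (J0 : Finset A.J)
    (hJ : ∀ u j v, (u, Sum.inr j, v) ∈ Γ.F → j ∈ J0)
    (hI : ∀ u i x v, (u, Sum.inl ⟨i, x⟩, v) ∈ Γ.F → i ∈ I0) :
    ∑ i ∈ I0, Module.finrank ℚ ((A.toGFG.GG Γ i).Zc (A.R i)) +
      ∑ j ∈ J0, Fintype.card (A.toGFG.TT Γ j) + 1 ≤
      Fintype.card V + ∑ j ∈ J0, (A.toGFG.PP Γ j).F.card := by
  have key := kc_dim (V := V) (E := ↥Γ.F) (P := Σ j : ↥J0, ↥(A.toGFG.PP Γ j.1).F)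
    (D := (∀ i : ↥I0, ↥((A.toGFG.GG Γ i.1).Zc (A.R i.1))) × (∀ j : ↥J0, A.toGFG.TT Γ j.1 → ℚ))
    (LinearMap.pi fun p => (kc_tr Γ p.2.1.1.1.1 (A.toGFG.relw ⟨p.1.1, p.2.1.2.1⟩)).comp
      (kc_C A Γ I0 J0))
    ((LinearMap.funLeft ℚ ℚ (Subtype.val : ↥Γ.F → _)).comp (kc_C A Γ I0 J0)) ?_
    (fun e => e.1.1) (fun e => e.1.2.2) o ?_
  · rw [Module.finrank_prod, Module.finrank_pi_fintype, Module.finrank_pi_fintype,
      Fintype.card_sigma] at key
    simp only [Module.finrank_pi, Fintype.card_coe] at key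
    rw [Finset.sum_coe_sort I0 (fun i => Module.finrank ℚ ↥((A.toGFG.GG Γ i).Zc (A.R i))),
      Finset.sum_coe_sort J0 (fun j => Fintype.card (A.toGFG.TT Γ j)),
      Finset.sum_coe_sort J0 (fun j => (A.toGFG.PP Γ j).F.card)] at key
    exact key
  · rw [injective_iff_map_eq_zero]
    intro d hd
    have hd' : ∀ e, e ∈ Γ.F → kc_C A Γ I0 J0 d e = 0 := fun e he => congrFun hd ⟨e, he⟩
    refine Prod.ext ?_ ?_
    · funext i
      refine Subtype.ext ?_
      funext e
      obtain ⟨⟨u, x, v⟩, he⟩ := e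
      have h1 := hd' _ ((LG.mem_pull (hg := A.toGFG.inl_inj i.1)).1 he)
      rw [kc_C_inl A Γ I0 J0 d u v i.1 i.2 x, LG.ext0, dif_pos he] at h1
      exact h1
    · funext j
      funext t
      obtain ⟨⟨u, v⟩, ht⟩ := t
      have h1 := hd' _ ht
      rw [kc_C_inr A Γ I0 J0 d u v j.1 j.2 ht] at h1
      exact h1
  · intro d hd
    have hz : ∀ v z, Γ.Walk v (A.relz z) v →
        Γ.trSum (kc_C A Γ I0 J0 d) v (A.relz z) = 0 := by
      intro v z hw
      rcases z with p | p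
      · obtain ⟨i, ρ, hρ⟩ := p
        have hw' : Γ.Walk v (ρ.toWord.map fun l => (Sum.inl ⟨i, l.1⟩, l.2)) v := hw
        change Γ.trSum (kc_C A Γ I0 J0 d) v (ρ.toWord.map fun l => (Sum.inl ⟨i, l.1⟩, l.2)) = 0
        by_cases hi : i ∈ I0
        · have h1 := kc_pull Γ (fun x : A.X i => (Sum.inl ⟨i, x⟩ : (Σ i, A.X i) ⊕ A.J))
            (A.toGFG.inl_inj i) (kc_C A Γ I0 J0 d) ρ.toWord v
          rw [← h1]
          have h2 : (fun e : V × A.X i × V => kc_C A Γ I0 J0 d (e.1, Sum.inl ⟨i, e.2.1⟩, e.2.2)) =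
              (A.toGFG.GG Γ i).ext0 (d.1 ⟨i, hi⟩).1 := by
            funext e
            exact kc_C_inl A Γ I0 J0 d e.1 e.2.2 i hi e.2.1
          rw [h2]
          exact (d.1 ⟨i, hi⟩).2 ρ hρ v
            ((LG.walk_pull (hg := A.toGFG.inl_inj i)).2 hw')
        · rcases hL : ρ.toWord with _ | ⟨l, L⟩
          · exact LG.trSum_nil _ _ _
          · exfalso
            rw [hL, List.map_cons, LG.walk_cons] at hw'
            obtain ⟨w, hw1, -⟩ := hw'
            obtain ⟨x, b⟩ := l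
            cases b
            · rw [LG.step_false] at hw1
              exact hi (hI _ _ _ _ hw1)
            · rw [LG.step_true] at hw1
              exact hi (hI _ _ _ _ hw1)
      · obtain ⟨j, z⟩ := p
        obtain ⟨v1, v2, v3, h1, h2, h3, h4⟩ := A.toGFG.walk_relw hw
        exact congrFun hd ⟨⟨j, hJ _ _ _ h1⟩, ⟨(⟨(v, v1), h1⟩, z, ⟨(v3, v2), h2⟩),
          A.toGFG.mem_PP.2 ⟨h4, h3⟩⟩⟩
    obtain ⟨h, hh⟩ := hacy (kc_C A Γ I0 J0 d) hz
    refine ⟨h, ?_⟩
    rintro ⟨⟨u, s, v⟩, he⟩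
    exact hh u s v he

end Pool.Agent.LIA.GOG
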