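import Pool.Agent.Lib.GogLI.Defs

/-!
# KDefs : definitions for the main argument

(helper81, problem MP_cf50d6_gt; paper MP_cf50d6_gt_paper81b.md, section 3)
-/

set_option autoImplicit false

open scoped Classical

namespace Pool.Agent.LIA

universe u

namespace LG

variable {V S : Type*}

/-- extension by zero of a function on the edges -/
noncomputable def ext0 (Γ : LG V S) (c : ↥Γ.F → ℚ) (e : V × S × V) : ℚ :=
  if h : e ∈ Γ.F then c ⟨e, h⟩ else 0

theorem ext0_add (Γ : LG V S) (c d : ↥Γ.F → ℚ) :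
    Γ.ext0 (c + d) = fun e => Γ.ext0 c e + Γ.ext0 d e := by
  funext e
  by_cases he : e ∈ Γ.F
  · simp [ext0, he]
  · simp [ext0, he]

theorem ext0_smul (Γ : LG V S) (r : ℚ) (c : ↥Γ.F → ℚ) :
    Γ.ext0 (r • c) = fun e => r * Γ.ext0 c e := by
  funext e
  by_cases he : e ∈ Γ.F
  · simp [ext0, he]
  · simp [ext0, he]

/-- the cochains on the edges with sum zero along all closed walks whose word is in `R` -/
noncomputable def Zc (Γ : LG V S) (R : Set (FreeGroup S)) : Submodule ℚ (↥Γ.F → ℚ) where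
  carrier := {c | ∀ ρ ∈ R, ∀ v, Γ.Walk v ρ.toWord v → Γ.trSum (Γ.ext0 c) v ρ.toWord = 0}
  add_mem' := by
    intro c d hc hd ρ hρ v hv
    rw [ext0_add, trSum_add, hc ρ hρ v hv, hd ρ hρ v hv, add_zero]
  zero_mem' := by
    intro ρ hρ v hv
    have h : Γ.ext0 (0 : ↥Γ.F → ℚ) = fun e => 0 * Γ.ext0 (0 : ↥Γ.F → ℚ) e := by
      funext e
      by_cases he : e ∈ Γ.F
      · simp [ext0, he]
      · simp [ext0, he]
    rw [h, trSum_smul, zero_mul]
  smul_mem' := by
    intro r c hc ρ hρ v hv
    rw [ext0_smul, trSum_smul, hc ρ hρ v hv, mul_zero]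

/-- the values `f` of the letters have a potential on the component `C` -/
def PotIn {Q : Type*} [Group Q] (Γ : LG V S) (f : S → Q) (C : Finset V) : Prop :=
  ∃ φ : V → Q, ∀ u s v, (u, s, v) ∈ Γ.F → u ∈ C → φ v = φ u * f s

end LG

namespace GOG

variable (A : GOG.{u})

/-- the graph of the free groups on the generators of the vertex groups -/
abbrev toGFG : GFG.{u} where
  I := A.I
  J := A.J
  X := A.X
  s := A.s
  t := A.t
  r := A.r
  α := A.α
  β := A.β
  hα := fun j => Function.Injective.of_comp (f := PresentedGroup.mk (A.R (A.s j)))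
    (g := A.α j) (A.hα j)
  hβ := fun j => Function.Injective.of_comp (f := PresentedGroup.mk (A.R (A.t j)))
    (g := A.β j) (A.hβ j)

/-- the relators as words -/
noncomputable def relz : (Σ i, ↥(A.R i)) ⊕ (Σ j, Fin (A.r j)) →
    List (((Σ i, A.X i) ⊕ A.J) × Bool)
  | Sum.inl p => p.2.1.toWord.map fun l => (Sum.inl ⟨p.1, l.1⟩, l.2)
  | Sum.inr p => A.toGFG.relw p

/-- the good components of the graph of the vertex group `i` -/
noncomputable def good {V : Type u} [Fintype V] (Γ : LG V ((Σ i, A.X i) ⊕ A.J)) (i : A.I) :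
    Finset (Finset V) :=
  (A.toGFG.GG Γ i).comps.filter fun C =>
    (A.toGFG.GG Γ i).PotIn (fun x => (PresentedGroup.of x : PresentedGroup (A.R i))) C

end GOG

end Pool.Agent.LIA
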