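import Pool.Agent.Lib.GogLI.KDefs

/-!
# KFree : the free case

`Γ.Zc ∅ = ⊤`, so `finrank = card ↥Γ.F = Γ.F.card`. `LG.card_eq : Γ.F.card + Γ.tr = card V + Γ.rr`, and `Γ.tr` is the number of the components
with `Γ.Pot C`; such a component has `PotIn` (compose the potential with `FreeGroup.lift f`).
-/

set_option autoImplicit false

open scoped Classical

namespace Pool.Agent.LIA.LG

private theorem zc_empty {V S : Type*} (Γ : LG V S) : Γ.Zc (∅ : Set (FreeGroup S)) = ⊤ := by
  rw [eq_top_iff]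
  intro c _
  show ∀ ρ ∈ (∅ : Set (FreeGroup S)), _
  intro ρ hρ
  exact absurd hρ (Set.notMem_empty ρ)

private theorem potIn_of_pot {V S Q : Type*} [Group Q] (Γ : LG V S) (f : S → Q) {C : Finset V}
    (h : Γ.Pot C) : Γ.PotIn f C := by
  obtain ⟨φ, hφ⟩ := h
  refine ⟨fun v => FreeGroup.lift f (φ v), ?_⟩
  intro u s v he hu
  show FreeGroup.lift f (φ v) = FreeGroup.lift f (φ u) * f s
  rw [hφ u s v he hu, map_mul, FreeGroup.lift_apply_of]

theorem card_add_rr_le {V S Q : Type*} [Fintype V] [Group Q] (Γ : LG V S) (f : S → Q) :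
    Fintype.card V + Γ.rr ≤
      Module.finrank ℚ (Γ.Zc ∅) + (Γ.comps.filter fun C => Γ.PotIn f C).card := by
  rw [zc_empty, finrank_top, Module.finrank_fintype_fun_eq_card, Fintype.card_coe]
  have h1 := card_eq Γ
  have h2 : Γ.tr ≤ (Γ.comps.filter fun C => Γ.PotIn f C).card := by
    rw [tr]
    refine Finset.card_le_card ?_
    intro C hC
    rw [Finset.mem_filter] at hC ⊢
    exact ⟨hC.1, potIn_of_pot Γ f hC.2⟩
  omega

end Pool.Agent.LIA.LG
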