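import Pool.Agent.Lib.GogLI.NDefs

/-!
# Na : connected edges have connected ends

An edge `(t, z, t')` of `PP Γ j` gives a walk of `GG Γ (s j)` from `t.1.1` to `t'.1.1` and one of `GG Γ (t j)` from `t.1.2` to `t'.1.2` (`GFG.mem_PP`,
`LG.walk_pull`, unfold `wA`, `wB`). `LG.Conn.induction`. `ns_comp`, `nt_comp`: `rep` of the component of `t` is connected with `t`
(`rep_mem`, `LG.mem_comp`), so the components of the ends are equal (`LG.comp_eq_iff`).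
-/

set_option autoImplicit false

open scoped Classical

namespace Pool.Agent.LIA.GOG

universe u

variable (A : GOG.{u}) {V : Type u} [Fintype V] (Γ : LG V ((Σ i, A.X i) ⊕ A.J))
  {I0 : Finset A.I} {J0 : Finset A.J}

theorem conn_s {j : A.J} {t t' : A.toGFG.TT Γ j} (h : (A.toGFG.PP Γ j).Conn t t') :
    (A.toGFG.GG Γ (A.s j)).Conn t.1.1 t'.1.1 := by
  have key : ∀ (a : A.toGFG.TT Γ j) (z : Fin (A.r j)) (b : A.toGFG.TT Γ j),
      (a, z, b) ∈ (A.toGFG.PP Γ j).F → (A.toGFG.GG Γ (A.s j)).Conn a.1.1 b.1.1 := by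
    intro a z b hab
    refine ⟨(A.toGFG.α j (FreeGroup.of z)).toWord, ?_⟩
    unfold GFG.GG
    rw [LG.walk_pull]
    exact ((A.toGFG.mem_PP).1 hab).1
  refine LG.Conn.induction (p := fun x : A.toGFG.TT Γ j => (A.toGFG.GG Γ (A.s j)).Conn t.1.1 x.1.1)
    (LG.conn_refl _) ?_ h
  rintro a ⟨z, b⟩ c ha hac
  cases b
  · rw [LG.step_false] at hac
    exact ha.trans (key _ _ _ hac).symm
  · rw [LG.step_true] at hac
    exact ha.trans (key _ _ _ hac)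

theorem conn_t {j : A.J} {t t' : A.toGFG.TT Γ j} (h : (A.toGFG.PP Γ j).Conn t t') :
    (A.toGFG.GG Γ (A.t j)).Conn t.1.2 t'.1.2 := by
  have key : ∀ (a : A.toGFG.TT Γ j) (z : Fin (A.r j)) (b : A.toGFG.TT Γ j),
      (a, z, b) ∈ (A.toGFG.PP Γ j).F → (A.toGFG.GG Γ (A.t j)).Conn a.1.2 b.1.2 := by
    intro a z b hab
    refine ⟨(A.toGFG.β j (FreeGroup.of z)).toWord, ?_⟩
    unfold GFG.GG
    rw [LG.walk_pull]
    exact ((A.toGFG.mem_PP).1 hab).2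
  refine LG.Conn.induction (p := fun x : A.toGFG.TT Γ j => (A.toGFG.GG Γ (A.t j)).Conn t.1.2 x.1.2)
    (LG.conn_refl _) ?_ h
  rintro a ⟨z, b⟩ c ha hac
  cases b
  · rw [LG.step_false] at hac
    exact ha.trans (key _ _ _ hac).symm
  · rw [LG.step_true] at hac
    exact ha.trans (key _ _ _ hac)

theorem ns_comp (hs : ∀ j ∈ J0, A.s j ∈ I0) (j : ↥J0) (t : A.toGFG.TT Γ j.1) :
    A.ns Γ hs (Sum.inr ⟨j, ⟨(A.toGFG.PP Γ j.1).comp t, LG.comp_mem_comps t⟩⟩) =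
      Sum.inr ⟨⟨A.s j.1, hs _ j.2⟩,
        ⟨(A.toGFG.GG Γ (A.s j.1)).comp t.1.1, LG.comp_mem_comps _⟩⟩ := by
  have h1 := A.rep_mem Γ J0 ⟨j, ⟨(A.toGFG.PP Γ j.1).comp t, LG.comp_mem_comps t⟩⟩
  have h2 := A.conn_s Γ (LG.mem_comp.1 h1)
  have h3 := LG.comp_eq_iff.2 h2
  show Sum.inr (Sigma.mk _ _) = Sum.inr (Sigma.mk _ _)
  congr 2
  exact Subtype.ext h3.symm

theorem nt_comp (ht : ∀ j ∈ J0, A.t j ∈ I0) (j : ↥J0) (t : A.toGFG.TT Γ j.1) :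
    A.nt Γ ht (Sum.inr ⟨j, ⟨(A.toGFG.PP Γ j.1).comp t, LG.comp_mem_comps t⟩⟩) =
      Sum.inr ⟨⟨A.t j.1, ht _ j.2⟩,
        ⟨(A.toGFG.GG Γ (A.t j.1)).comp t.1.2, LG.comp_mem_comps _⟩⟩ := by
  have h1 := A.rep_mem Γ J0 ⟨j, ⟨(A.toGFG.PP Γ j.1).comp t, LG.comp_mem_comps t⟩⟩
  have h2 := A.conn_t Γ (LG.mem_comp.1 h1)
  have h3 := LG.comp_eq_iff.2 h2
  show Sum.inr (Sigma.mk _ _) = Sum.inr (Sigma.mk _ _)
  congr 2
  exact Subtype.ext h3.symm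

end Pool.Agent.LIA.GOG
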