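import Pool.Agent.Lib.GogLI.KRel
import Pool.Agent.Lib.GogLI.Na

/-!
# Nd : potentials of the vertex graphs in the group

`pots`: for `i` put the potentials of the components together (`A.good`, `LG.PotIn`; choose one for every component, `Φ v` = the value at
`v` of the potential of the component of `v`) and map them by `exists_vmap` to `A.Grp`. Along walks of `GG Γ i`: induction on the word.
`gam`: `γ t = Φ (s j) t.1.1 * of (inr j) * (Φ (t j) t.1.2)⁻¹` is constant on the components of `PP Γ j`: for an edge `(t, z, t')` the walks with the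
words of `α(z)`, `β(z)` (`mem_PP`, `walk_pull`) and `edge_rel j (of z)` (as `hγe` in `exists_potential`, `Lib/MP_cf50d6_gt/Fin.lean`); then
`LG.Conn.induction`.
-/

set_option autoImplicit false

open scoped Classical

namespace Pool.Agent.LIA.GOG

universe u

variable (A : GOG.{u}) {V : Type u} [Fintype V] (Γ : LG V ((Σ i, A.X i) ⊕ A.J))
  {I0 : Finset A.I} {J0 : Finset A.J}

/-- potentials along walks, one potential for each component -/
private theorem nd_walk {S Q : Type*} [Group Q] {Δ : LG V S} {f : FreeGroup S →* Q}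
    {φ : Finset V → V → Q}
    (hφ : ∀ C ∈ Δ.comps, ∀ u s v, (u, s, v) ∈ Δ.F → u ∈ C → φ C v = φ C u * f (FreeGroup.of s))
    {u v : V} {L : List (S × Bool)} (h : Δ.Walk u L v) :
    φ (Δ.comp v) v = φ (Δ.comp u) u * f (FreeGroup.mk L) := by
  induction L generalizing u with
  | nil =>
    obtain rfl := LG.walk_nil.1 h
    rw [← FreeGroup.one_eq_mk, map_one, mul_one]
  | cons l L ih =>
    obtain ⟨x, hx, hL⟩ := h
    have h1 : φ (Δ.comp x) x = φ (Δ.comp u) u * f (lv l) := by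
      have hc : Δ.comp u = Δ.comp x := LG.comp_eq_iff.2 hx.conn
      rw [← hc]
      obtain ⟨s, b⟩ := l
      cases b
      · rw [LG.step_false] at hx
        have hxC : x ∈ Δ.comp u := by
          rw [hc]
          exact LG.self_mem_comp x
        rw [hφ _ (LG.comp_mem_comps u) _ _ _ hx hxC]
        simp
      · rw [LG.step_true] at hx
        rw [hφ _ (LG.comp_mem_comps u) _ _ _ hx (LG.self_mem_comp u)]
        simp
    rw [ih hL, h1, mk_cons, map_mul, mul_assoc]

theorem pots (hg : ∀ i ∈ I0, ∀ C ∈ (A.toGFG.GG Γ i).comps, C ∈ A.good Γ i) :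
    ∃ Φ : A.I → V → A.Grp, ∀ i ∈ I0, ∀ u (L : List (A.X i × Bool)) v,
      (A.toGFG.GG Γ i).Walk u L v → Φ i v = Φ i u * PresentedGroup.mk A.rels
        (FreeGroup.map (fun x => Sum.inl ⟨i, x⟩) (FreeGroup.mk L)) := by
  have h1 : ∀ i, ∃ φ : Finset V → V → PresentedGroup (A.R i), i ∈ I0 →
      ∀ C ∈ (A.toGFG.GG Γ i).comps, ∀ u s v, (u, s, v) ∈ (A.toGFG.GG Γ i).F → u ∈ C →
        φ C v = φ C u * PresentedGroup.of s := by
    intro i
    by_cases hi : i ∈ I0
    · have h2 : ∀ C : Finset V, ∃ φ : V → PresentedGroup (A.R i),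
          C ∈ (A.toGFG.GG Γ i).comps → ∀ u s v, (u, s, v) ∈ (A.toGFG.GG Γ i).F → u ∈ C →
            φ v = φ u * PresentedGroup.of s := by
        intro C
        by_cases hC : C ∈ (A.toGFG.GG Γ i).comps
        · obtain ⟨φ, hφ⟩ := (Finset.mem_filter.1 (hg i hi C hC)).2
          exact ⟨φ, fun _ => hφ⟩
        · exact ⟨fun _ => 1, fun h => absurd h hC⟩
      choose φ hφ using h2
      exact ⟨φ, fun _ C hC => hφ C hC⟩
    · exact ⟨fun _ _ => 1, fun h => absurd h hi⟩
  choose φ hφ using h1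
  have h2 := fun i => A.exists_vmap i
  choose f hf using h2
  refine ⟨fun i v => f i (φ i ((A.toGFG.GG Γ i).comp v) v), fun i hi u L v h => ?_⟩
  have h3 := nd_walk (Δ := A.toGFG.GG Γ i) (f := PresentedGroup.mk (A.R i)) (φ := φ i)
    (fun C hC u s v he hu => hφ i hi C hC u s v he hu) h
  change f i (φ i ((A.toGFG.GG Γ i).comp v) v) = _
  rw [h3, map_mul, hf]

theorem gam {Φ : A.I → V → A.Grp} (hΦ : ∀ i ∈ I0, ∀ u (L : List (A.X i × Bool)) v,
      (A.toGFG.GG Γ i).Walk u L v → Φ i v = Φ i u * PresentedGroup.mk A.rels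
        (FreeGroup.map (fun x => Sum.inl ⟨i, x⟩) (FreeGroup.mk L)))
    {j : A.J} (hs : A.s j ∈ I0) (ht : A.t j ∈ I0) {t t' : A.toGFG.TT Γ j}
    (h : (A.toGFG.PP Γ j).Conn t t') :
    Φ (A.s j) t.1.1 * PresentedGroup.of (Sum.inr j) * (Φ (A.t j) t.1.2)⁻¹ =
      Φ (A.s j) t'.1.1 * PresentedGroup.of (Sum.inr j) * (Φ (A.t j) t'.1.2)⁻¹ := by
  have he : ∀ t z t', (t, z, t') ∈ (A.toGFG.PP Γ j).F →
      Φ (A.s j) t.1.1 * PresentedGroup.of (Sum.inr j) * (Φ (A.t j) t.1.2)⁻¹ =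
      Φ (A.s j) t'.1.1 * PresentedGroup.of (Sum.inr j) * (Φ (A.t j) t'.1.2)⁻¹ := by
    intro t z t' h
    rw [GFG.mem_PP] at h
    have h1 := hΦ (A.s j) hs t.1.1 (A.α j (FreeGroup.of z)).toWord t'.1.1
      (LG.walk_pull.2 h.1)
    have h2 := hΦ (A.t j) ht t.1.2 (A.β j (FreeGroup.of z)).toWord t'.1.2
      (LG.walk_pull.2 h.2)
    rw [FreeGroup.mk_toWord] at h1 h2
    have h3 := A.edge_rel j (FreeGroup.of z)
    rw [h1, h2, mul_inv_rev]
    set a := PresentedGroup.mk A.rels (FreeGroup.map (fun x => Sum.inl ⟨A.s j, x⟩)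
      (A.α j (FreeGroup.of z))) with ha
    set b := PresentedGroup.mk A.rels (FreeGroup.map (fun x => Sum.inl ⟨A.t j, x⟩)
      (A.β j (FreeGroup.of z))) with hb
    calc Φ (A.s j) t.1.1 * PresentedGroup.of (Sum.inr j) * (Φ (A.t j) t.1.2)⁻¹
        = Φ (A.s j) t.1.1 * (PresentedGroup.of (Sum.inr j) * b) * b⁻¹ *
            (Φ (A.t j) t.1.2)⁻¹ := by group
      _ = Φ (A.s j) t.1.1 * (a * PresentedGroup.of (Sum.inr j)) * b⁻¹ *
            (Φ (A.t j) t.1.2)⁻¹ := by rw [h3]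
      _ = _ := by group
  refine LG.Conn.induction (p := fun x =>
    Φ (A.s j) t.1.1 * PresentedGroup.of (Sum.inr j) * (Φ (A.t j) t.1.2)⁻¹ =
      Φ (A.s j) x.1.1 * PresentedGroup.of (Sum.inr j) * (Φ (A.t j) x.1.2)⁻¹) rfl ?_ h
  intro x l y hx hxy
  obtain ⟨z, c⟩ := l
  cases c
  · rw [LG.step_false] at hxy
    exact hx.trans (he _ _ _ hxy).symm
  · rw [LG.step_true] at hxy
    exact hx.trans (he _ _ _ hxy)

end Pool.Agent.LIA.GOG
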