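import Pool.Agent.Lib.GogLI.Nc
import Pool.Agent.Lib.GogLI.Nd

/-!
# KGlue : the potential

`all_good` gives that all components are good and that the nerve is a tree, `pots` the potentials `Φ i`. `gl_potential` (for `A.ns Γ hs`,
`A.nt Γ ht`, `nerve_conn`) with `g (inl (v, i)) = (Φ i v)⁻¹` and `g (inr x) = Φ (s j) u * of (inr j) * (Φ (t j) v)⁻¹`, `(u, v) = (A.rep Γ J0 x).1`,
gives `h : A.NQ Γ I0 → A.Grp`; `φ v = h (inl v)`. So `h (inr ⟨i, comp v⟩) = φ v * (Φ i v)⁻¹`, i.e. `φ v = h (inr ⟨i, comp v⟩) * Φ i v` for all `i ∈ I0`. For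
`(u, inl ⟨i, x⟩, v) ∈ Γ.F` the components are equal and `Φ i v = Φ i u * of (inl ⟨i, x⟩)` (walk with one letter). For `(u, inr j, v) ∈ Γ.F`, `t = ⟨(u, v), _⟩`:
the edge `inr ⟨j, comp t⟩` of the nerve, `ns_comp`, `nt_comp`, and `gam` (for `rep` and `t`):
`φ v = h (inr ⟨t j, comp v⟩) * Φ (t j) v = h (inr ⟨s j, comp u⟩) * (Φ (s j) u * of (inr j) * (Φ (t j) v)⁻¹) * Φ (t j) v = φ u * of (inr j)`.
-/

/-!
# KGlue : the potential

`all_good` gives that all components are good and that the nerve is a tree, `pots` the potentials `Φ i`. `gl_potential` (for `A.ns Γ hs`,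
`A.nt Γ ht`, `nerve_conn`) with `g (inl (v, i)) = (Φ i v)⁻¹` and `g (inr x) = Φ (s j) u * of (inr j) * (Φ (t j) v)⁻¹`, `(u, v) = (A.rep Γ J0 x).1`,
gives `h : A.NQ Γ I0 → A.Grp`; `φ v = h (inl v)`. So `h (inr ⟨i, comp v⟩) = φ v * (Φ i v)⁻¹`, i.e. `φ v = h (inr ⟨i, comp v⟩) * Φ i v` for all `i ∈ I0`. For
`(u, inl ⟨i, x⟩, v) ∈ Γ.F` the components are equal and `Φ i v = Φ i u * of (inl ⟨i, x⟩)` (walk with one letter). For `(u, inr j, v) ∈ Γ.F`, `t = ⟨(u, v), _⟩`: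
the edge `inr ⟨j, comp t⟩` of the nerve, `ns_comp`, `nt_comp`, and `gam` (for `rep` and `t`):
`φ v = h (inr ⟨t j, comp v⟩) * Φ (t j) v = h (inr ⟨s j, comp u⟩) * (Φ (s j) u * of (inr j) * (Φ (t j) v)⁻¹) * Φ (t j) v = φ u * of (inr j)`.
-/

set_option autoImplicit false

open scoped Classical

namespace Pool.Agent.LIA.GOG

universe u

variable (A : GOG.{u})

theorem glue {V : Type u} [Fintype V] (Γ : LG V ((Σ i, A.X i) ⊕ A.J)) (o : V)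
    (hc : ∀ x, Γ.Conn o x) (I0 : Finset A.I) (J0 : Finset A.J)
    (hJ : ∀ u j v, (u, Sum.inr j, v) ∈ Γ.F → j ∈ J0)
    (hI : ∀ u i x v, (u, Sum.inl ⟨i, x⟩, v) ∈ Γ.F → i ∈ I0)
    (hs : ∀ j ∈ J0, A.s j ∈ I0) (ht : ∀ j ∈ J0, A.t j ∈ I0)
    (hT : Fintype.card V * I0.card + ∑ j ∈ J0, (A.toGFG.PP Γ j).tr + 1 ≤
      Fintype.card V + ∑ i ∈ I0, (A.good Γ i).card) :
    ∃ φ : V → A.Grp, ∀ u s v, (u, s, v) ∈ Γ.F → φ v = φ u * PresentedGroup.of s := by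
  obtain ⟨hg, hcard⟩ := A.all_good Γ hc hJ hI hs ht hT
  obtain ⟨Φ, hΦ⟩ := A.pots Γ hg
  obtain ⟨h, hh⟩ := gl_potential (A.ns Γ hs) (A.nt Γ ht) (A.nerve_conn Γ hc hJ hI hs ht) hcard
    (Sum.elim (fun p : V × ↥I0 => (Φ p.2.1 p.1)⁻¹)
      (fun x : (Σ j : ↥J0, {D // D ∈ (A.toGFG.PP Γ j.1).comps}) =>
        Φ (A.s x.1.1) (A.rep Γ J0 x).1.1 * PresentedGroup.of (Sum.inr x.1.1) *
          (Φ (A.t x.1.1) (A.rep Γ J0 x).1.2)⁻¹))
  have key : ∀ (i : A.I) (hi : i ∈ I0) (v : V),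
      h (Sum.inr ⟨⟨i, hi⟩, ⟨(A.toGFG.GG Γ i).comp v, LG.comp_mem_comps _⟩⟩) =
        h (Sum.inl v) * (Φ i v)⁻¹ := fun i hi v => hh (Sum.inl (v, ⟨i, hi⟩))
  refine ⟨fun v => h (Sum.inl v), ?_⟩
  intro u s v he
  show h (Sum.inl v) = h (Sum.inl u) * PresentedGroup.of s
  rcases s with ⟨i, x⟩ | j
  · have hi := hI u i x v he
    have hw : (A.toGFG.GG Γ i).Walk u [(x, true)] v :=
      LG.walk_singleton.2 (LG.step_true.2 (LG.mem_pull.2 he))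
    have h1 := hΦ i hi u _ v hw
    have h2 : (A.toGFG.GG Γ i).comp u = (A.toGFG.GG Γ i).comp v :=
      LG.comp_eq_iff.2 ⟨_, hw⟩
    have h3 := key i hi u
    have h4 := key i hi v
    have h5 : (⟨(A.toGFG.GG Γ i).comp u, LG.comp_mem_comps _⟩ :
        {C // C ∈ (A.toGFG.GG Γ i).comps}) = ⟨(A.toGFG.GG Γ i).comp v, LG.comp_mem_comps _⟩ :=
      Subtype.ext h2
    rw [h5, h4] at h3
    have h6 : PresentedGroup.mk A.rels (FreeGroup.map (fun x => Sum.inl ⟨i, x⟩)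
        (FreeGroup.mk [(x, true)])) = PresentedGroup.of (Sum.inl ⟨i, x⟩) := rfl
    rw [h6] at h1
    rw [h1] at h3
    calc h (Sum.inl v) = h (Sum.inl v) * (Φ i u * PresentedGroup.of (Sum.inl ⟨i, x⟩))⁻¹ *
        (Φ i u * PresentedGroup.of (Sum.inl ⟨i, x⟩)) := by group
      _ = _ := by rw [h3]; group
  · have hj := hJ u j v he
    let t : A.toGFG.TT Γ j := ⟨(u, v), he⟩
    have h1 := hh (Sum.inr ⟨⟨j, hj⟩, ⟨(A.toGFG.PP Γ j).comp t, LG.comp_mem_comps t⟩⟩)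
    have hns := A.ns_comp Γ hs ⟨j, hj⟩ t
    have hnt := A.nt_comp Γ ht ⟨j, hj⟩ t
    rw [hns, hnt] at h1
    have h3 := key (A.s j) (hs j hj) u
    have h4 := key (A.t j) (ht j hj) v
    have h2 : (A.toGFG.PP Γ j).Conn (A.rep Γ J0 ⟨⟨j, hj⟩,
        ⟨(A.toGFG.PP Γ j).comp t, LG.comp_mem_comps t⟩⟩) t :=
      LG.Conn.symm (LG.mem_comp.1 (A.rep_mem Γ J0 ⟨⟨j, hj⟩,
        ⟨(A.toGFG.PP Γ j).comp t, LG.comp_mem_comps t⟩⟩))
    have h5 := A.gam Γ hΦ (hs j hj) (ht j hj) h2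
    have h6 : h (Sum.inl v) * (Φ (A.t j) v)⁻¹ = h (Sum.inl u) * (Φ (A.s j) u)⁻¹ *
        (Φ (A.s j) u * PresentedGroup.of (Sum.inr j) * (Φ (A.t j) v)⁻¹) := by
      rw [← h3, ← h4]
      refine h1.trans ?_
      congr 1
    calc h (Sum.inl v) = h (Sum.inl v) * (Φ (A.t j) v)⁻¹ * Φ (A.t j) v := by group
      _ = _ := by rw [h6]; group

end Pool.Agent.LIA.GOG
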