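import Pool.Agent.Lib.GogLI.KDefs
import Pool.Agent.Lib.TwLI.VPot

/-!
# KNf : components without potential in a locally indicable group

`Γ.comps` is the set of all components, `N` the set of those without potential (`¬ PotIn f C`).
1. For `C ∈ N` there is `c ∈ Γ.Zc R` which is zero on the edges outside `C` and is not a coboundary on the edges of `C`: let `ΓC` be the graph
   with the edges `Γ.edges C`. By `LG.li_pot` for `ΓC` and `θ e = f e.2.1` (a potential of `ΓC` is a potential of `Γ` on `C`) there is a cochain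
   `c` with `ΓC.Ind θ c` which is not a coboundary on `ΓC`. Take it on the edges of `C` and zero on the others. Sum along a
   closed walk `v, ρ.toWord, v`, `ρ ∈ R`: if `v ∈ C` the walk is in `ΓC`, its value is `FreeGroup.lift f (mk ρ.toWord) = 1` (`wv_label` in
   `Lib/TwLI/VInd.lean`), so the sum is zero by `Ind.trSum_eq_zero` (the sums in `ΓC` and `Γ` agree); if `v ∉ C` the walk does not meet
   `C` and the sum is zero.
2. The linear map `Ψ : (V → ℚ) × (N → ℚ) → Zc`, `(h, a) ↦ dh + ∑ a C • c C` (`dh (u, s, v) = h v - h u`, in `Zc` by telescoping: a lemma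
   `trSum_coboundary` is in `Lib/TwLI/VPot.lean` or `Lib/MP_cf50d6_gt/Tr.lean`, private perhaps). Its kernel: on the edges of `C ∈ N` we get
   `a C • c C = d(-h)`, so `a C = 0`; so `dh = 0` and `h` is constant on the components: the kernel is mapped injectively into
   `(Γ.comps → ℚ)` by the values of `h` at chosen points of the components. Rank plus nullity:
   `card V + N.card ≤ finrank Zc + Γ.comps.card`, and `Γ.comps.card = N.card + (the number of the others)`.
-/

set_option autoImplicit false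

open scoped Classical

namespace Pool.Agent.LIA.LG

private theorem knf_cochain {V S Q : Type*} [Fintype V] [Group Q] (hQ : LocallyIndicable Q)
    (Γ : LG V S) (f : S → Q) (R : Set (FreeGroup S)) (hf : ∀ ρ ∈ R, FreeGroup.lift f ρ = 1)
    {C : Finset V} (hC : C ∈ Γ.comps) (hP : ¬ Γ.PotIn f C) :
    ∃ c : V × S × V → ℚ, (∀ u s v, u ∉ C → c (u, s, v) = 0) ∧
      (∀ ρ ∈ R, ∀ v, Γ.Walk v ρ.toWord v → Γ.trSum c v ρ.toWord = 0) ∧
      ¬ ∃ h : V → ℚ, ∀ u s v, (u, s, v) ∈ Γ.F → u ∈ C → c (u, s, v) = h v - h u := by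
  let Γ' : LG V S := ⟨Γ.edges C, fun h h' => Γ.det (mem_edges.1 h).1 (mem_edges.1 h').1,
    fun h h' => Γ.cod (mem_edges.1 h).1 (mem_edges.1 h').1⟩
  have hF' : ∀ u s v, (u, s, v) ∈ Γ'.F ↔ (u, s, v) ∈ Γ.F ∧ u ∈ C := fun u s v => mem_edges
  have h1 : ∃ c : V × S × V → ℚ, Γ'.Ind (fun e => f e.2.1) c ∧
      ¬ ∃ h : V → ℚ, ∀ u s v, (u, s, v) ∈ Γ'.F → c (u, s, v) = h v - h u := by
    by_contra hcon
    apply hP
    obtain ⟨h, hh⟩ := li_pot hQ Γ' (fun e => f e.2.1) (fun c hc => by
      by_contra h0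
      exact hcon ⟨c, hc, h0⟩)
    exact ⟨h, fun u s v hu huC => hh u s v ((hF' u s v).2 ⟨hu, huC⟩)⟩
  obtain ⟨c, hc, hn⟩ := h1
  let c' : V × S × V → ℚ := fun e => if e.1 ∈ C then c e else 0
  have hc1 : ∀ u s v, u ∈ C → c' (u, s, v) = c (u, s, v) := fun u s v hu => if_pos hu
  have hc0 : ∀ u s v, u ∉ C → c' (u, s, v) = 0 := fun u s v hu => if_neg hu
  have hInd : Γ.Ind (fun e => f e.2.1) c' := by
    obtain ⟨C0, D, ψ, g, ha, hb, hd⟩ := hc
    refine ⟨{x | x ∈ C0 ∧ x ∈ C}, D, ψ, g, ?_, ?_, ?_⟩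
    · intro u s v h
      have h1 := mem_of_edge hC h
      constructor
      · rintro ⟨h2, h3⟩
        exact ⟨(ha u s v ((hF' u s v).2 ⟨h, h3⟩)).1 h2, h1.1 h3⟩
      · rintro ⟨h2, h3⟩
        have h4 := h1.2 h3
        exact ⟨(ha u s v ((hF' u s v).2 ⟨h, h4⟩)).2 h2, h4⟩
    · rintro u s v h ⟨h2, h3⟩
      rw [hc1 u s v h3]
      exact hb u s v ((hF' u s v).2 ⟨h, h3⟩) h2
    · intro u s v h h2
      by_cases h3 : u ∈ C
      · rw [hc1 u s v h3]
        exact hd u s v ((hF' u s v).2 ⟨h, h3⟩) fun h4 => h2 ⟨h4, h3⟩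
      · exact hc0 u s v h3
  refine ⟨c', hc0, ?_, ?_⟩
  · intro ρ hρ v hv
    have h2 := wv_label f hv
    rw [FreeGroup.mk_toWord, hf ρ hρ] at h2
    exact hInd.trSum_eq_zero h2
  · rintro ⟨h, hh⟩
    apply hn
    refine ⟨h, fun u s v hu => ?_⟩
    obtain ⟨h2, h3⟩ := (hF' u s v).1 hu
    rw [← hc1 u s v h3]
    exact hh u s v h2 h3

/-- the sum along a word of a cochain which is restricted and extended -/
private theorem knf_ext0 {V S : Type*} (Γ : LG V S) (c : V × S × V → ℚ) (v : V)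
    (L : List (S × Bool)) : Γ.trSum (Γ.ext0 fun e => c e.1) v L = Γ.trSum c v L := by
  refine trSum_congr Γ _ _ Set.univ (fun _ _ _ _ _ => Set.mem_univ _) ?_ v L (Set.mem_univ _)
  intro u s v h _
  exact dif_pos h

theorem card_le_zc {V S Q : Type*} [Fintype V] [Group Q] (hQ : LocallyIndicable Q)
    (Γ : LG V S) (f : S → Q) (R : Set (FreeGroup S)) (hf : ∀ ρ ∈ R, FreeGroup.lift f ρ = 1) :
    Fintype.card V ≤ Module.finrank ℚ (Γ.Zc R) + (Γ.comps.filter fun C => Γ.PotIn f C).card := by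
  let N : Finset (Finset V) := Γ.comps.filter fun C => ¬ Γ.PotIn f C
  have hN : ∀ C : ↥N, ∃ c : V × S × V → ℚ, (∀ u s v, u ∉ C.1 → c (u, s, v) = 0) ∧
      (∀ ρ ∈ R, ∀ v, Γ.Walk v ρ.toWord v → Γ.trSum c v ρ.toWord = 0) ∧
      ¬ ∃ h : V → ℚ, ∀ u s v, (u, s, v) ∈ Γ.F → u ∈ C.1 → c (u, s, v) = h v - h u := by
    intro C
    obtain ⟨h1, h2⟩ := Finset.mem_filter.1 C.2
    exact knf_cochain hQ Γ f R hf h1 h2
  choose c hc0 hcR hcn using hN
  -- the linear map
  let Ψ : ((V → ℚ) × (↥N → ℚ)) →ₗ[ℚ] (↥Γ.F → ℚ) :=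
    { toFun := fun x e => (x.1 e.1.2.2 - x.1 e.1.1) + ∑ C : ↥N, x.2 C * c C e.1
      map_add' := by
        intro x y
        funext e
        simp only [Prod.fst_add, Prod.snd_add, Pi.add_apply, add_mul, Finset.sum_add_distrib]
        ring
      map_smul' := by
        intro r x
        funext e
        simp only [Prod.smul_fst, Prod.smul_snd, Pi.smul_apply, smul_eq_mul, RingHom.id_apply,
          mul_add, Finset.mul_sum, mul_sub, mul_assoc] }
  have hΨ : ∀ x e, Ψ x e = (x.1 e.1.2.2 - x.1 e.1.1) + ∑ C : ↥N, x.2 C * c C e.1 :=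
    fun _ _ => rfl
  have hrange : LinearMap.range Ψ ≤ Γ.Zc R := by
    rintro _ ⟨x, rfl⟩
    intro ρ hρ v hv
    let F : V × S × V → ℚ := fun e => (x.1 e.2.2 - x.1 e.1) + ∑ C : ↥N, x.2 C * c C e
    have h1 : Ψ x = fun e : ↥Γ.F => F e.1 := rfl
    rw [h1, knf_ext0]
    have h2 : ∀ T : Finset ↥N, Γ.trSum (fun e => (x.1 e.2.2 - x.1 e.1) +
        ∑ C ∈ T, x.2 C * c C e) v ρ.toWord = 0 := by
      intro T
      induction T using Finset.induction_on with
      | empty =>
        simp only [Finset.sum_empty, add_zero]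
        rw [trSum_coboundary Γ (fun e => x.1 e.2.2 - x.1 e.1) x.1 Set.univ
          (fun _ _ _ _ _ => Set.mem_univ _) (fun _ _ _ _ _ => rfl) (Set.mem_univ _) hv, sub_self]
      | insert C T hCT ih =>
        have h3 : (fun e : V × S × V => (x.1 e.2.2 - x.1 e.1) +
            ∑ C ∈ insert C T, x.2 C * c C e) = fun e => ((x.1 e.2.2 - x.1 e.1) +
            ∑ C ∈ T, x.2 C * c C e) + x.2 C * c C e := by
          funext e
          rw [Finset.sum_insert hCT]
          ring
        rw [h3, trSum_add, ih, trSum_smul, hcR C ρ hρ v hv, mul_zero, add_zero]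
    exact h2 Finset.univ
  -- the kernel
  have hker : ∀ x, Ψ x = 0 → x.2 = 0 ∧ ∀ u s v, (u, s, v) ∈ Γ.F → x.1 v = x.1 u := by
    intro x hx
    have h1 : ∀ u s v (h : (u, s, v) ∈ Γ.F),
        (x.1 v - x.1 u) + ∑ C : ↥N, x.2 C * c C (u, s, v) = 0 := by
      intro u s v h
      have := congrFun hx ⟨(u, s, v), h⟩
      rw [hΨ] at this
      exact this
    have h2 : x.2 = 0 := by
      funext C
      by_contra hne
      have hne' : x.2 C ≠ 0 := hne
      apply hcn C
      refine ⟨fun v => - x.1 v / x.2 C, fun u s v h hu => ?_⟩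
      have h3 := h1 u s v h
      have hCc : C.1 ∈ Γ.comps := (Finset.mem_filter.1 C.2).1
      rw [Finset.sum_eq_single C] at h3
      · field_simp
        linarith
      · intro C' _ hC'
        have h4 : u ∉ C'.1 := by
          intro h5
          apply hC'
          apply Subtype.ext
          rw [eq_comp_of_mem hCc hu, eq_comp_of_mem (Finset.mem_filter.1 C'.2).1 h5]
        rw [hc0 C' u s v h4, mul_zero]
      · intro h4
        exact (h4 (Finset.mem_univ _)).elim
    refine ⟨h2, fun u s v h => ?_⟩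
    have h3 := h1 u s v h
    rw [h2] at h3
    simp only [Pi.zero_apply, zero_mul, Finset.sum_const_zero, add_zero] at h3
    linarith
  have hconst : ∀ x, Ψ x = 0 → ∀ u v, Γ.Conn u v → x.1 v = x.1 u := by
    intro x hx u v huv
    refine Conn.induction (p := fun w => x.1 w = x.1 u) rfl ?_ huv
    rintro a ⟨s, b⟩ w ha hs
    cases b
    · rw [step_false] at hs
      have := (hker x hx).2 _ _ _ hs
      show x.1 w = x.1 u
      rw [← ha, this]
    · rw [step_true] at hs
      have := (hker x hx).2 _ _ _ hs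
      show x.1 w = x.1 u
      rw [← ha, this]
  have hne : ∀ C : ↥Γ.comps, C.1.Nonempty := fun C => nonempty_of_mem_comps C.2
  let Θ : ((V → ℚ) × (↥N → ℚ)) →ₗ[ℚ] (↥Γ.comps → ℚ) :=
    { toFun := fun x C => x.1 (hne C).choose
      map_add' := fun _ _ => rfl
      map_smul' := fun _ _ => rfl }
  have hΘ : Function.Injective (Θ.comp (LinearMap.ker Ψ).subtype) := by
    rw [← LinearMap.ker_eq_bot, LinearMap.ker_eq_bot']
    rintro ⟨x, hx⟩ h
    have hx' : Ψ x = 0 := LinearMap.mem_ker.1 hx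
    apply Subtype.ext
    show x = 0
    have h1 : x.1 = 0 := by
      funext v
      have h2 := congrFun h ⟨Γ.comp v, comp_mem_comps v⟩
      have h3 : x.1 (hne ⟨Γ.comp v, comp_mem_comps v⟩).choose = 0 := h2
      have h4 : Γ.Conn v (hne ⟨Γ.comp v, comp_mem_comps v⟩).choose :=
        mem_comp.1 (hne ⟨Γ.comp v, comp_mem_comps v⟩).choose_spec
      rw [hconst x hx' _ _ h4] at h3
      exact h3
    exact Prod.ext h1 (hker x hx').1
  have e1 : Module.finrank ℚ (LinearMap.ker Ψ) ≤ Γ.comps.card := by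
    have := LinearMap.finrank_le_finrank_of_injective hΘ
    rw [Module.finrank_fintype_fun_eq_card, Fintype.card_coe] at this
    exact this
  have e2 : Module.finrank ℚ (LinearMap.range Ψ) ≤ Module.finrank ℚ (Γ.Zc R) :=
    Submodule.finrank_mono hrange
  have e3 := LinearMap.finrank_range_add_finrank_ker Ψ
  rw [Module.finrank_prod, Module.finrank_fintype_fun_eq_card, Module.finrank_fintype_fun_eq_card,
    Fintype.card_coe] at e3
  have e4 : (Γ.comps.filter fun C => Γ.PotIn f C).card + N.card = Γ.comps.card :=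
    Finset.card_filter_add_card_filter_not _
  omega

end Pool.Agent.LIA.LG
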