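import Pool.Agent.Lib.GogLI.KCount
import Pool.Agent.Lib.GogLI.KNf
import Pool.Agent.Lib.GogLI.KFree
import Pool.Agent.Lib.GogLI.KGlue

/-!
# KKey : the main argument for one finite graph

`I0`, `J0` : the finite sets of the used vertices and edges as in `GFG.key`. Then
`∑ z_i + ∑ |TT j| + 1 ≤ |V| + ∑ |(PP j).F|` (`count`), `|V| ≤ z_i + good_i` (`LG.card_le_zc`) if the vertex group is locally indicable,
`|V| + rr (GG i) ≤ z_i + good_i` (`LG.card_add_rr_le`) if `A.R i = ∅`, `|(PP j).F| + tr j = |TT j| + rr j` (`LG.card_eq`) and `hrr`. So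
`|V| |I0| + ∑ tr j + 1 ≤ |V| + ∑ good_i`, and `glue` applies.
-/

set_option autoImplicit false

open scoped Classical

namespace Pool.Agent.LIA.GOG

universe u

variable (A : GOG.{u})

theorem key (hA : ∀ i, A.R i = ∅ ∨ LocallyIndicable (PresentedGroup (A.R i)))
    {V : Type u} [Fintype V] (Γ : LG V ((Σ i, A.X i) ⊕ A.J)) (o : V)
    (hc : ∀ x, Γ.Conn o x) (hacy : Γ.Acy A.relz)
    (hrr : ∀ (I0 : Finset A.I) (J0 : Finset A.J), (∀ j ∈ J0, A.s j ∈ I0) →
      (∀ j ∈ J0, A.t j ∈ I0) → ∑ j ∈ J0, (A.toGFG.PP Γ j).rr ≤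
        ∑ i ∈ I0 with A.R i = ∅, (A.toGFG.GG Γ i).rr) :
    ∃ φ : V → A.Grp, ∀ u s v, (u, s, v) ∈ Γ.F → φ v = φ u * PresentedGroup.of s := by
  let J0 : Finset A.J := Γ.F.biUnion fun e => Sum.elim (fun _ => ∅) (fun j => {j}) e.2.1
  let I0 : Finset A.I := (Γ.F.biUnion fun e => Sum.elim (fun x => {x.1}) (fun _ => ∅) e.2.1) ∪
    J0.image A.s ∪ J0.image A.t
  have hJ : ∀ u j v, (u, Sum.inr j, v) ∈ Γ.F → j ∈ J0 := by
    intro u j v h
    exact Finset.mem_biUnion.2 ⟨_, h, by simp⟩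
  have hI : ∀ u i x v, (u, Sum.inl ⟨i, x⟩, v) ∈ Γ.F → i ∈ I0 := by
    intro u i x v h
    refine Finset.mem_union_left _ (Finset.mem_union_left _ ?_)
    exact Finset.mem_biUnion.2 ⟨_, h, by simp⟩
  have hs : ∀ j ∈ J0, A.s j ∈ I0 := fun j hj =>
    Finset.mem_union_left _ (Finset.mem_union_right _ (Finset.mem_image_of_mem _ hj))
  have ht : ∀ j ∈ J0, A.t j ∈ I0 := fun j hj =>
    Finset.mem_union_right _ (Finset.mem_image_of_mem _ hj)
  refine A.glue Γ o hc I0 J0 hJ hI hs ht ?_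
  have h1 := A.count Γ o hacy I0 J0 hJ hI
  have h2 : ∑ j ∈ J0, ((A.toGFG.PP Γ j).F.card + (A.toGFG.PP Γ j).tr) =
      ∑ j ∈ J0, (Fintype.card (A.toGFG.TT Γ j) + (A.toGFG.PP Γ j).rr) :=
    Finset.sum_congr rfl fun j _ => LG.card_eq _
  rw [Finset.sum_add_distrib, Finset.sum_add_distrib] at h2
  have h3 : ∑ i ∈ I0, (Fintype.card V + if A.R i = ∅ then (A.toGFG.GG Γ i).rr else 0) ≤
      ∑ i ∈ I0, (Module.finrank ℚ ((A.toGFG.GG Γ i).Zc (A.R i)) + (A.good Γ i).card) := by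
    refine Finset.sum_le_sum fun i _ => ?_
    by_cases hi : A.R i = ∅
    · rw [if_pos hi]
      have h4 := LG.card_add_rr_le (A.toGFG.GG Γ i)
        (fun x => (PresentedGroup.of x : PresentedGroup (A.R i)))
      rw [← hi] at h4
      exact h4
    · rw [if_neg hi, add_zero]
      refine LG.card_le_zc ((hA i).resolve_left hi) (A.toGFG.GG Γ i) _ _ fun ρ hρ => ?_
      have h5 : FreeGroup.lift (fun x => (PresentedGroup.of x : PresentedGroup (A.R i))) =
          PresentedGroup.mk (A.R i) := by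
        ext x
        simp [PresentedGroup.of]
      rw [h5]
      exact PresentedGroup.one_of_mem hρ
  rw [Finset.sum_add_distrib, Finset.sum_add_distrib, Finset.sum_const, smul_eq_mul,
    ← Finset.sum_filter] at h3
  have h4 := hrr I0 J0 hs ht
  rw [mul_comm I0.card] at h3
  omega

end Pool.Agent.LIA.GOG
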