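import Pool.Agent.Lib.GogLI.SEnds
import Pool.Agent.Lib.GogLI.SRank

/-!
# SSum : the inequality of the reduced ranks

Let `rr j = ((A.toGFG.PP Γ j).rr : ℚ)`, `ρ i = ((A.toGFG.GG Γ i).rr : ℚ)`, `E = J0 ×ˢ (univ : Finset Bool)`.
`∑ j ∈ J0, rr j ≤ ∑ j ∈ J0, (w (j, true) + w (j, false)) * rr j = ∑ e ∈ E, w e * rr e.1` (if `A.r j ≤ 1`, then `rr j = 0` by
`LG.rr_eq_zero`). For `e` with `A.R (A.vert e) ≠ ∅` the term is zero
(`w e = 0` if `2 ≤ A.r e.1`, otherwise `rr e.1 = 0` by `LG.rr_eq_zero`). Sort the others by `i = A.vert e ∈ I0`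
(`Finset.sum_fiberwise_of_maps_to`), `A.R i = ∅`. At the vertex `i`: the ends in `E0` contribute at most
`lam i * ∑ rr e.1 ≤ lam i * ρ i` (`ends_le`), every other end at most `w e * K e * ρ i` (`GFG.PP_le_a`, `GFG.PP_le_b` for
`e = (j, true)`, `(j, false)`; `A.emb e` is `A.α j`, `A.β j`); altogether at most `(lam i + ∑ w e * K e) * ρ i ≤ ρ i`. (Compare
`Lib/TwLI/WSum.lean`.)
-/

set_option autoImplicit false

open scoped Classical

namespace Pool.Agent.LIA.GOG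

universe u

variable (A : GOG.{u})

private theorem end_le {V : Type u} [Fintype V] (Γ : LG V ((Σ i, A.X i) ⊕ A.J))
    {K : A.J × Bool → ℚ} :
    ∀ e : A.J × Bool, HNBound.{u} (A.emb e) (K e) →
      ((A.toGFG.PP Γ e.1).rr : ℚ) ≤ K e * ((A.toGFG.GG Γ (A.vert e)).rr : ℚ) := by
  rintro ⟨j, b⟩ h
  cases b
  · exact A.toGFG.PP_le_b Γ j h
  · exact A.toGFG.PP_le_a Γ j h

theorem sum_rr_le {V : Type u} [Fintype V] (Γ : LG V ((Σ i, A.X i) ⊕ A.J))
    {E0 : Set (A.J × Bool)} (hJ : A.JointlyCompressed E0) {K : A.J × Bool → ℚ}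
    (hK : ∀ e, e ∉ E0 → A.R (A.vert e) = ∅ → HNBound.{u} (A.emb e) (K e))
    {w : A.J × Bool → ℚ} {lam : A.I → ℚ} (hW : A.Weights E0 K w lam)
    (I0 : Finset A.I) (J0 : Finset A.J) (hs : ∀ j ∈ J0, A.s j ∈ I0) (ht : ∀ j ∈ J0, A.t j ∈ I0) :
    ∑ j ∈ J0, (A.toGFG.PP Γ j).rr ≤ ∑ i ∈ I0 with A.R i = ∅, (A.toGFG.GG Γ i).rr := by
  obtain ⟨hw0, hl0, hw1, hwR, hwl, hB⟩ := hW
  set rr : A.J → ℚ := fun j => ((A.toGFG.PP Γ j).rr : ℚ) with hrr
  set ρ : A.I → ℚ := fun i => ((A.toGFG.GG Γ i).rr : ℚ) with hρ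
  have hrr0 : ∀ j, 0 ≤ rr j := fun j => Nat.cast_nonneg _
  have hρ0 : ∀ i, 0 ≤ ρ i := fun i => Nat.cast_nonneg _
  have hrz : ∀ j, A.r j ≤ 1 → rr j = 0 := by
    intro j hj
    simp only [hrr]
    rw [LG.rr_eq_zero hj, Nat.cast_zero]
  set E : Finset (A.J × Bool) := J0 ×ˢ (Finset.univ : Finset Bool) with hE
  have h1 : ∑ j ∈ J0, rr j ≤ ∑ e ∈ E, w e * rr e.1 := by
    rw [hE, Finset.sum_product]
    refine Finset.sum_le_sum fun j _ => ?_
    rw [Fintype.sum_bool]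
    by_cases hj : 2 ≤ A.r j
    · have h := mul_le_mul_of_nonneg_right (hw1 j hj) (hrr0 j)
      rw [one_mul, add_mul] at h
      exact h
    · simp only [hrz j (by omega), mul_zero, add_zero, le_refl]
  have hmaps : ∀ e ∈ E, A.vert e ∈ I0 := by
    rintro ⟨j, b⟩ he
    have hj : j ∈ J0 := (Finset.mem_product.1 he).1
    cases b
    · exact ht j hj
    · exact hs j hj
  have h2 : ∑ e ∈ E, w e * rr e.1 =
      ∑ i ∈ I0, ∑ e ∈ E with A.vert e = i, w e * rr e.1 :=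
    (Finset.sum_fiberwise_of_maps_to hmaps _).symm
  have h3 : ∀ i ∈ I0, ∑ e ∈ E with A.vert e = i, w e * rr e.1 ≤
      if A.R i = ∅ then ρ i else 0 := by
    intro i _
    split_ifs with hi
    · rw [← Finset.sum_filter_add_sum_filter_not (E.filter fun e => A.vert e = i)
        (fun e => e ∈ E0), Finset.filter_filter, Finset.filter_filter]
      have e1 : ∑ e ∈ E with A.vert e = i ∧ e ∈ E0, w e * rr e.1 ≤
          lam i * ∑ e ∈ E with A.vert e = i ∧ e ∈ E0, rr e.1 := by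
        rw [Finset.mul_sum]
        refine Finset.sum_le_sum fun e he => ?_
        obtain ⟨_, he1, he2⟩ := Finset.mem_filter.1 he
        refine mul_le_mul_of_nonneg_right ?_ (hrr0 _)
        rw [← he1]
        exact hwl e he2
      have e2 : ∑ e ∈ E with A.vert e = i ∧ e ∈ E0, rr e.1 ≤ ρ i := by
        have h := A.ends_le Γ hJ i (E.filter fun e => A.vert e = i ∧ e ∈ E0)
          (fun e he => ⟨(Finset.mem_filter.1 he).2.2, (Finset.mem_filter.1 he).2.1⟩)
        simp only [hrr, hρ]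
        exact_mod_cast h
      have e3 : ∑ e ∈ E with A.vert e = i ∧ e ∉ E0, w e * rr e.1 ≤
          (∑ e ∈ E with A.vert e = i ∧ e ∉ E0, w e * K e) * ρ i := by
        rw [Finset.sum_mul]
        refine Finset.sum_le_sum fun e he => ?_
        obtain ⟨_, he1, he2⟩ := Finset.mem_filter.1 he
        have h := mul_le_mul_of_nonneg_left (A.end_le Γ e (hK e he2 (by rw [he1]; exact hi)))
          (hw0 e)
        rw [he1, ← mul_assoc] at h
        exact h
      have e4 := hB i hi (E.filter fun e => A.vert e = i ∧ e ∉ E0)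
        (fun e he => (Finset.mem_filter.1 he).2)
      have e5 := mul_le_mul_of_nonneg_right e4 (hρ0 i)
      rw [one_mul, add_mul] at e5
      have e6 := mul_le_mul_of_nonneg_left e2 (hl0 i)
      linarith
    · refine le_of_eq (Finset.sum_eq_zero fun e he => ?_)
      obtain ⟨_, he1⟩ := Finset.mem_filter.1 he
      by_cases hr : 2 ≤ A.r e.1
      · rw [hwR e hr (by rw [he1]; exact hi), zero_mul]
      · rw [hrz e.1 (by omega), mul_zero]
  have h4 : ∑ j ∈ J0, rr j ≤ ∑ i ∈ I0 with A.R i = ∅, ρ i := by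
    rw [Finset.sum_filter]
    exact h1.trans (h2.le.trans (Finset.sum_le_sum h3))
  simp only [hrr, hρ] at h4
  exact_mod_cast h4

end Pool.Agent.LIA.GOG
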