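import Pool.Agent.Lib.GogLI.KKey
import Pool.Agent.Lib.GogLI.SSum
import Pool.Agent.Lib.TwLI.TEx

/-!
# KMain : graphs of groups with weights are locally indicable (theorem MW)

(helper81, problem MP_cf50d6_gt; paper MP_cf50d6_gt_paper81b.md, section 3)
-/

set_option autoImplicit false

open scoped Classical

namespace Pool.Agent.LIA

universe u

/-- a homomorphism to the rationals from a finitely generated group without homomorphisms onto the
integers is trivial -/
theorem hom_rat_trivial {H : Type*} [Group H] (hH : Group.FG H)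
    (hno : ¬ ∃ f : H →* Multiplicative ℤ, Function.Surjective f)
    (f : H →* Multiplicative ℚ) : ∀ h, f h = 1 := by
  by_contra hcon
  push Not at hcon
  obtain ⟨h1, hh1⟩ := hcon
  obtain ⟨T, hT⟩ := Group.fg_def.1 hH
  set D : ℤ := ∏ t ∈ T, ((f t).toAdd.den : ℤ) with hD
  have hD0 : D ≠ 0 := by
    rw [hD]
    exact Finset.prod_ne_zero_iff.2 fun t _ => by exact_mod_cast (f t).toAdd.den_nz
  have hint : ∀ h : H, ∃ m : ℤ, (D : ℚ) * (f h).toAdd = m := by
    intro h
    have hmem : h ∈ Subgroup.closure (T : Set H) := by rw [hT]; trivial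
    induction hmem using Subgroup.closure_induction with
    | mem x hx =>
      have h1 : ((f x).toAdd.den : ℤ) ∣ D := Finset.dvd_prod_of_mem _ hx
      obtain ⟨c, hc⟩ := h1
      refine ⟨c * (f x).toAdd.num, ?_⟩
      rw [hc]
      push_cast
      have h2 : ((f x).toAdd.den : ℚ) * (f x).toAdd = (f x).toAdd.num := by
        rw [mul_comm]
        exact Rat.mul_den_eq_num _
      calc ((f x).toAdd.den : ℚ) * (c : ℚ) * (f x).toAdd
          = c * (((f x).toAdd.den : ℚ) * (f x).toAdd) := by ring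
        _ = c * ((f x).toAdd.num : ℚ) := by rw [h2]
    | one => exact ⟨0, by simp⟩
    | mul x y _ _ hx hy =>
      obtain ⟨a, ha⟩ := hx
      obtain ⟨b, hb⟩ := hy
      refine ⟨a + b, ?_⟩
      rw [map_mul, toAdd_mul, mul_add, ha, hb]
      push_cast
      rfl
    | inv x _ hx =>
      obtain ⟨a, ha⟩ := hx
      refine ⟨-a, ?_⟩
      rw [map_inv, toAdd_inv, mul_neg, ha]
      push_cast
      rfl
  -- the subgroup of all values
  let K : AddSubgroup ℤ :=
    { carrier := {m | ∃ h : H, (D : ℚ) * (f h).toAdd = m}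
      zero_mem' := ⟨1, by simp⟩
      add_mem' := by
        rintro a b ⟨x, hx⟩ ⟨y, hy⟩
        refine ⟨x * y, ?_⟩
        rw [map_mul, toAdd_mul, mul_add, hx, hy]
        push_cast
        rfl
      neg_mem' := by
        rintro a ⟨x, hx⟩
        refine ⟨x⁻¹, ?_⟩
        rw [map_inv, toAdd_inv, mul_neg, hx]
        push_cast
        rfl }
  obtain ⟨a, ha⟩ := Int.subgroup_cyclic K
  have ha' : K = AddSubgroup.zmultiples a := by
    rw [ha, AddSubgroup.zmultiples_eq_closure]
  have haK : a ∈ K := by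
    rw [ha']
    exact AddSubgroup.mem_zmultiples a
  have hk : ∀ h : H, ∃ k : ℤ, (D : ℚ) * (f h).toAdd = k * a := by
    intro h
    obtain ⟨m, hm⟩ := hint h
    have h2 : m ∈ K := ⟨h, hm⟩
    rw [ha', AddSubgroup.mem_zmultiples_iff] at h2
    obtain ⟨k, hk⟩ := h2
    refine ⟨k, ?_⟩
    rw [hm, ← hk]
    simp
  have ha0 : a ≠ 0 := by
    rintro rfl
    obtain ⟨k, hk⟩ := hk h1
    rw [Int.cast_zero, mul_zero] at hk
    rcases mul_eq_zero.1 hk with h3 | h3
    · exact hD0 (by exact_mod_cast h3)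
    · exact hh1 (by simpa using h3)
  have haQ : (a : ℚ) ≠ 0 := by exact_mod_cast ha0
  choose k hk using hk
  apply hno
  refine ⟨MonoidHom.mk' (fun h => Multiplicative.ofAdd (k h)) ?_, ?_⟩
  · intro x y
    rw [← ofAdd_add]
    congr 1
    have h3 := hk (x * y)
    rw [map_mul, toAdd_mul, mul_add, hk x, hk y, ← add_mul] at h3
    have h4 := mul_right_cancel₀ haQ h3
    exact_mod_cast h4.symm
  · obtain ⟨h0, hh0⟩ := haK
    intro m
    refine ⟨h0 ^ m.toAdd, ?_⟩
    change Multiplicative.ofAdd (k (h0 ^ m.toAdd)) = m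
    have h3 := hk (h0 ^ m.toAdd)
    rw [map_zpow, toAdd_zpow, zsmul_eq_mul] at h3
    have h4 : (k (h0 ^ m.toAdd) : ℚ) * a = (m.toAdd : ℚ) * a := by
      rw [← h3, ← hh0]
      ring
    have h5 := mul_right_cancel₀ haQ h4
    have h6 : k (h0 ^ m.toAdd) = m.toAdd := by exact_mod_cast h5
    rw [h6]
    rfl

private theorem kmain_mk_toWord {S : Type*} (inst : DecidableEq S) (x : FreeGroup S) :
    FreeGroup.mk (@FreeGroup.toWord S inst x) = x := @FreeGroup.mk_toWord S inst x

theorem GOG.li_of_weights (A : GOG.{u})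
    (hA : ∀ i, A.R i = ∅ ∨ LocallyIndicable (PresentedGroup (A.R i)))
    {E0 : Set (A.J × Bool)} (hJ : A.JointlyCompressed E0) {K : A.J × Bool → ℚ}
    (hK : ∀ e, e ∉ E0 → A.R (A.vert e) = ∅ → HNBound.{u} (A.emb e) (K e))
    {w : A.J × Bool → ℚ} {lam : A.I → ℚ} (hW : A.Weights E0 K w lam) :
    LocallyIndicable A.Grp := by
  intro H hH hne
  by_contra hno
  obtain ⟨T, hT⟩ := id hH
  let e := T.equivFin
  choose k hk using fun j : Fin T.card =>
    PresentedGroup.mk_surjective A.rels ((e.symm j : A.Grp))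
  have hy : Subgroup.closure (Set.range fun j => PresentedGroup.mk A.rels (k j)) = H := by
    rw [← hT]
    congr 1
    ext x
    constructor
    · rintro ⟨j, rfl⟩
      change PresentedGroup.mk A.rels (k j) ∈ (T : Set A.Grp)
      rw [hk]
      exact (e.symm j).2
    · intro hx
      refine ⟨e ⟨x, hx⟩, ?_⟩
      change PresentedGroup.mk A.rels (k (e ⟨x, hx⟩)) = x
      rw [hk]
      simp
  have hHfg : Group.FG H := by
    rw [Group.fg_iff_subgroup_fg]
    exact hH
  have hnoR : ∀ f : Subgroup.closure (Set.range fun j => PresentedGroup.mk A.rels (k j)) →*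
      Multiplicative ℚ, ∀ h, f h = 1 := by
    rw [hy]
    exact fun f => hom_rat_trivial hHfg hno f
  obtain ⟨W, _, Δ, o, hc, hAcy, hw⟩ := exists_graph_acy (PresentedGroup.mk A.rels) A.relz
    (by
      rw [← A.rels_eq]
      intro x hx
      exact PresentedGroup.mk_eq_one_iff.1 hx) k hnoR
  obtain ⟨φ, hφ⟩ := A.key hA Δ o hc hAcy fun I0 J0 hs ht => A.sum_rr_le Δ hJ hK hW I0 J0 hs ht
  have h1 : ∀ (L : List (((Σ i, A.X i) ⊕ A.J) × Bool)) (u v : W), Δ.Walk u L v →
      φ v = φ u * PresentedGroup.mk A.rels (FreeGroup.mk L) := by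
    intro L
    induction L with
    | nil =>
      intro u v h
      obtain rfl := h
      rw [← FreeGroup.one_eq_mk, map_one, mul_one]
    | cons l L ih =>
      intro u v h
      obtain ⟨c, h1, h2⟩ := h
      rw [ih c v h2, mk_cons, map_mul, ← mul_assoc]
      congr 1
      obtain ⟨s, b⟩ := l
      cases b
      · rw [LG.step_false] at h1
        rw [lv_false, map_inv, eq_mul_inv_iff_mul_eq]
        exact (hφ _ _ _ h1).symm
      · rw [LG.step_true] at h1
        exact hφ _ _ _ h1
  apply hne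
  rw [← hy, Subgroup.closure_eq_bot_iff]
  rintro _ ⟨j, rfl⟩
  have h2 := h1 _ o o (hw j)
  rw [kmain_mk_toWord] at h2
  exact left_eq_mul.1 h2

end Pool.Agent.LIA
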