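import Pool.Agent.Lib.GogLI.KDefs

/-!
# KPot : an edge component at a good vertex component is a tree

Let `D ∈ (PP Γ j).comps`, `t ∈ D`, and suppose that the component of `t.1.1` in `GG Γ (s j)` is good: it has a potential `φ` with values in
the vertex group `G_i = PresentedGroup (A.R i)`, `i = s j`. For a closed walk `L` of `PP Γ j` at `t' ∈ D` there is a closed walk `M` of
`GG Γ i` at `t'.1.1` with `mk M = A.α j (mk L)` (as `fin_walk_map` in `Lib/MP_cf50d6_gt/Fin.lean`, private: induction on `L`, with `mem_PP`,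
`LG.walk_pull`). The value of `M` in `G_i` is 1 because of the potential, i.e. `PresentedGroup.mk (A.R i) (A.α j (mk L)) = 1`, so `mk L = 1` by
`A.hα`. So all closed walks in `D` have the value 1, and `(PP Γ j).Pot D` (as `fin_pot_of_closed` there: base point, walks to all
points of `D`, potential = value of the walk). Same for the other end.
-/

set_option autoImplicit false

open scoped Classical

namespace Pool.Agent.LIA

namespace LG

private theorem kpot_toWord {S : Type*} (g : FreeGroup S) : FreeGroup.mk g.toWord = g :=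
  FreeGroup.mk_toWord

private theorem kpot_invRev {S : Type*} (L : List (S × Bool)) :
    FreeGroup.mk (FreeGroup.invRev L) = (FreeGroup.mk L)⁻¹ := by
  rw [FreeGroup.inv_mk]

variable {V S : Type*} {Γ : LG V S}

private theorem kpot_walk {Q : Type*} [Group Q] [Fintype V] {C : Finset V} (hC : C ∈ Γ.comps)
    {f : S → Q} {φ : V → Q} (hφ : ∀ u s v, (u, s, v) ∈ Γ.F → u ∈ C → φ v = φ u * f s) {u v : V}
    {L : List (S × Bool)} (hu : u ∈ C) (h : Γ.Walk u L v) :
    φ v = φ u * FreeGroup.lift f (FreeGroup.mk L) := by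
  induction L generalizing u with
  | nil =>
    obtain rfl := walk_nil.1 h
    rw [← FreeGroup.one_eq_mk, map_one, mul_one]
  | cons l L ih =>
    obtain ⟨x, hx, hL⟩ := h
    have hxC := mem_of_step hC hu hx
    have h1 : φ x = φ u * FreeGroup.lift f (lv l) := by
      obtain ⟨s, b⟩ := l
      cases b
      · rw [step_false] at hx
        rw [hφ _ _ _ hx hxC]
        simp
      · rw [step_true] at hx
        rw [hφ _ _ _ hx hu]
        simp
    rw [ih hxC hL, h1, mk_cons, map_mul, mul_assoc]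

private theorem kpot_of_closed [Fintype V] {C : Finset V} (hC : C ∈ Γ.comps)
    (h : ∀ v ∈ C, ∀ L, Γ.Walk v L v → FreeGroup.mk L = 1) : Γ.Pot C := by
  obtain ⟨o, ho⟩ := nonempty_of_mem_comps hC
  have h1 : ∀ x : V, ∃ L : List (S × Bool), x ∈ C → Γ.Walk o L x := by
    intro x
    by_cases hx : x ∈ C
    · obtain ⟨L, hL⟩ := conn_of_mem_comps hC ho hx
      exact ⟨L, fun _ => hL⟩
    · exact ⟨[], fun h => absurd h hx⟩
  choose L hL using h1
  refine ⟨fun x => FreeGroup.mk (L x), fun u s v he hu => ?_⟩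
  have hv : v ∈ C := (mem_of_edge hC he).1 hu
  have h2 : Γ.Walk o (L u ++ ([(s, true)] ++ FreeGroup.invRev (L v))) o := by
    rw [walk_append]
    refine ⟨u, hL u hu, ?_⟩
    rw [walk_append]
    exact ⟨v, walk_singleton.2 (step_true.2 he), walk_symm (hL v hv)⟩
  have h3 := h o ho _ h2
  rw [mk_append, mk_append, kpot_invRev] at h3
  have h4 : FreeGroup.mk (L u) * FreeGroup.of s * (FreeGroup.mk (L v))⁻¹ = 1 := by
    rw [mul_assoc]
    exact h3
  exact (mul_inv_eq_one.1 h4).symm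

/-- image of a walk -/
private theorem kpot_map {Ω T X Z : Type*} {Γ : LG Ω X} {P : LG T Z} {a : T → Ω}
    {α : FreeGroup Z →* FreeGroup X}
    (ha : ∀ t z t', (t, z, t') ∈ P.F → Γ.Walk (a t) (α (FreeGroup.of z)).toWord (a t'))
    {t t' : T} {L : List (Z × Bool)} (h : P.Walk t L t') :
    ∃ M, Γ.Walk (a t) M (a t') ∧ FreeGroup.mk M = α (FreeGroup.mk L) := by
  induction L generalizing t with
  | nil =>
    obtain rfl := walk_nil.1 h
    exact ⟨[], rfl, by rw [← FreeGroup.one_eq_mk, ← FreeGroup.one_eq_mk, map_one]⟩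
  | cons l L ih =>
    obtain ⟨x, hx, hL⟩ := h
    obtain ⟨M, hM, hM'⟩ := ih hL
    obtain ⟨z, b⟩ := l
    cases b
    · rw [step_false] at hx
      refine ⟨FreeGroup.invRev (α (FreeGroup.of z)).toWord ++ M, ?_, ?_⟩
      · exact walk_append.2 ⟨_, walk_symm (ha _ _ _ hx), hM⟩
      · rw [mk_append, kpot_invRev, kpot_toWord, hM', mk_cons, map_mul, lv_false, map_inv]
    · rw [step_true] at hx
      refine ⟨(α (FreeGroup.of z)).toWord ++ M, ?_, ?_⟩
      · exact walk_append.2 ⟨_, ha _ _ _ hx, hM⟩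
      · rw [mk_append, kpot_toWord, hM', mk_cons, map_mul, lv_true]

private theorem kpot_gen {Ω T X Z : Type*} [Fintype Ω] [Fintype T] {Γ : LG Ω X} {P : LG T Z}
    {a : T → Ω} {α : FreeGroup Z →* FreeGroup X} {Q : Type*} [Group Q] {f : X → Q}
    (hα : Function.Injective ((FreeGroup.lift f).comp α))
    (ha : ∀ t z t', (t, z, t') ∈ P.F → Γ.Walk (a t) (α (FreeGroup.of z)).toWord (a t'))
    {D : Finset T} (hD : D ∈ P.comps) {t : T} (ht : t ∈ D) (h : Γ.PotIn f (Γ.comp (a t))) :
    P.Pot D := by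
  obtain ⟨φ, hφ⟩ := h
  refine kpot_of_closed hD fun x hx L hL => ?_
  obtain ⟨M, hM, hM'⟩ := kpot_map ha hL
  have hxC : a x ∈ Γ.comp (a t) := by
    obtain ⟨L', hL'⟩ := conn_of_mem_comps hD ht hx
    obtain ⟨M', hM'', -⟩ := kpot_map ha hL'
    exact mem_comp.2 ⟨M', hM''⟩
  have h1 := kpot_walk (comp_mem_comps (a t)) hφ hxC hM
  have h2 : FreeGroup.lift f (FreeGroup.mk M) = 1 := by
    have := congrArg (fun y => (φ (a x))⁻¹ * y) h1
    simpa using this.symm
  rw [hM'] at h2
  apply hα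
  rw [MonoidHom.comp_apply, h2, map_one]

end LG

end Pool.Agent.LIA

namespace Pool.Agent.LIA.GOG

universe u

variable (A : GOG.{u})

private theorem kpot_lift {X : Type*} (R : Set (FreeGroup X)) :
    FreeGroup.lift (fun x => (PresentedGroup.of x : PresentedGroup R)) = PresentedGroup.mk R := by
  apply FreeGroup.ext_hom
  intro x
  rw [FreeGroup.lift_apply_of]
  rfl

theorem pot_of_good_s {V : Type u} [Fintype V] (Γ : LG V ((Σ i, A.X i) ⊕ A.J)) (j : A.J)
    {D : Finset (A.toGFG.TT Γ j)} (hD : D ∈ (A.toGFG.PP Γ j).comps) {t : A.toGFG.TT Γ j}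
    (ht : t ∈ D) (h : (A.toGFG.GG Γ (A.s j)).comp t.1.1 ∈ A.good Γ (A.s j)) :
    (A.toGFG.PP Γ j).Pot D := by
  refine LG.kpot_gen (Γ := A.toGFG.GG Γ (A.s j)) (a := fun t => t.1.1) (α := A.α j)
    (f := fun x => (PresentedGroup.of x : PresentedGroup (A.R (A.s j)))) ?_ ?_ hD ht
    (Finset.mem_filter.1 h).2
  · rw [kpot_lift]
    exact A.hα j
  · intro t z t' h1
    rw [GFG.mem_PP] at h1
    exact LG.walk_pull.2 h1.1

theorem pot_of_good_t {V : Type u} [Fintype V] (Γ : LG V ((Σ i, A.X i) ⊕ A.J)) (j : A.J)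
    {D : Finset (A.toGFG.TT Γ j)} (hD : D ∈ (A.toGFG.PP Γ j).comps) {t : A.toGFG.TT Γ j}
    (ht : t ∈ D) (h : (A.toGFG.GG Γ (A.t j)).comp t.1.2 ∈ A.good Γ (A.t j)) :
    (A.toGFG.PP Γ j).Pot D := by
  refine LG.kpot_gen (Γ := A.toGFG.GG Γ (A.t j)) (a := fun t => t.1.2) (α := A.β j)
    (f := fun x => (PresentedGroup.of x : PresentedGroup (A.R (A.t j)))) ?_ ?_ hD ht
    (Finset.mem_filter.1 h).2
  · rw [kpot_lift]
    exact A.hβ j
  · intro t z t' h1
    rw [GFG.mem_PP] at h1
    exact LG.walk_pull.2 h1.2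

end Pool.Agent.LIA.GOG
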