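import Pool.Agent.Lib.GogLI.KDefs

/-!
# KRel : the relators

* `rels_eq`: `A.rels` is the range of `fun z => FreeGroup.mk (A.relz z)`: for `Sum.inl ⟨i, ρ⟩`,
  `mk (ρ.toWord.map ..) = FreeGroup.map (fun x => Sum.inl ⟨i, x⟩) ρ` (`FreeGroup.map.mk`, `FreeGroup.mk_toWord`); for `Sum.inr p`
  `GFG.mk_relw` (as in `GFG.rels_eq` in `Lib/MP_cf50d6_gt/Main.lean`).
* `edge_rel`: `GFG.rel_eq` with `A.rels` instead of `A.toGFG.rels` (same proof, `PresentedGroup.one_of_mem`).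
* `vmap`: the homomorphism from the vertex group (`PresentedGroup.toGroup`; the relators of the vertex group are mapped to
  relators).
-/

set_option autoImplicit false

open scoped Classical

namespace Pool.Agent.LIA.GOG

universe u

variable (A : GOG.{u})

theorem rels_eq : A.rels = Set.range fun z => FreeGroup.mk (A.relz z) := by
  have hl : ∀ (i : A.I) (ρ : FreeGroup (A.X i)),
      FreeGroup.mk (ρ.toWord.map fun l => ((Sum.inl ⟨i, l.1⟩ : (Σ i, A.X i) ⊕ A.J), l.2)) =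
        FreeGroup.map (fun x => (Sum.inl ⟨i, x⟩ : (Σ i, A.X i) ⊕ A.J)) ρ := by
    intro i ρ
    conv_rhs => rw [← FreeGroup.mk_toWord (x := ρ)]
    rw [FreeGroup.map.mk]
  ext w
  constructor
  · rintro (h | ⟨p, rfl⟩)
    · rw [Set.mem_iUnion] at h
      obtain ⟨i, ρ, hρ, rfl⟩ := h
      exact ⟨Sum.inl ⟨i, ⟨ρ, hρ⟩⟩, hl i ρ⟩
    · exact ⟨Sum.inr p, A.toGFG.mk_relw p⟩
  · rintro ⟨z, rfl⟩
    cases z with
    | inl p =>
      left
      rw [Set.mem_iUnion]
      exact ⟨p.1, p.2.1, p.2.2, (hl p.1 p.2.1).symm⟩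
    | inr p =>
      right
      exact ⟨p, (A.toGFG.mk_relw p).symm⟩

theorem edge_rel (j : A.J) (g : FreeGroup (Fin (A.r j))) :
    PresentedGroup.of (rels := A.rels) (Sum.inr j) * PresentedGroup.mk A.rels (FreeGroup.map
      (fun x => Sum.inl ⟨A.t j, x⟩) (A.β j g)) =
    PresentedGroup.mk A.rels (FreeGroup.map (fun x => Sum.inl ⟨A.s j, x⟩) (A.α j g)) *
      PresentedGroup.of (Sum.inr j) := by
  have h0 : ∀ z : Fin (A.r j),
      PresentedGroup.of (rels := A.rels) (Sum.inr j) * PresentedGroup.mk A.rels (FreeGroup.map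
        (fun x => Sum.inl ⟨A.t j, x⟩) (A.β j (FreeGroup.of z))) =
      PresentedGroup.mk A.rels (FreeGroup.map
        (fun x => Sum.inl ⟨A.s j, x⟩) (A.α j (FreeGroup.of z))) *
        PresentedGroup.of (Sum.inr j) := by
    intro z
    have h : PresentedGroup.mk A.rels (FreeGroup.of (Sum.inr j) *
        FreeGroup.map (fun x => Sum.inl ⟨A.t j, x⟩) (A.β j (FreeGroup.of z)) *
        (FreeGroup.of (Sum.inr j))⁻¹ *
        (FreeGroup.map (fun x => Sum.inl ⟨A.s j, x⟩) (A.α j (FreeGroup.of z)))⁻¹) = 1 :=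
      PresentedGroup.one_of_mem (Or.inr ⟨⟨j, z⟩, rfl⟩)
    rw [map_mul, map_mul, map_mul, map_inv, map_inv, mul_inv_eq_one, mul_inv_eq_iff_eq_mul] at h
    exact h
  let tt : A.Grp := PresentedGroup.of (rels := A.rels) (Sum.inr j)
  let fB : FreeGroup (Fin (A.r j)) →* A.Grp := (PresentedGroup.mk A.rels).comp
    ((FreeGroup.map (fun x => (Sum.inl ⟨A.t j, x⟩ : (Σ i, A.X i) ⊕ A.J))).comp (A.β j))
  let fA : FreeGroup (Fin (A.r j)) →* A.Grp := (PresentedGroup.mk A.rels).comp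
    ((FreeGroup.map (fun x => (Sum.inl ⟨A.s j, x⟩ : (Σ i, A.X i) ⊕ A.J))).comp (A.α j))
  have h : (MulAut.conj tt).toMonoidHom.comp fB = fA := by
    apply FreeGroup.ext_hom
    intro z
    show tt * fB (FreeGroup.of z) * tt⁻¹ = fA (FreeGroup.of z)
    rw [mul_inv_eq_iff_eq_mul]
    exact h0 z
  have h3 : tt * fB g * tt⁻¹ = fA g := DFunLike.congr_fun h g
  rw [mul_inv_eq_iff_eq_mul] at h3
  exact h3

theorem exists_vmap (i : A.I) : ∃ f : PresentedGroup (A.R i) →* A.Grp,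
    ∀ w, f (PresentedGroup.mk (A.R i) w) =
      PresentedGroup.mk A.rels (FreeGroup.map (fun x => Sum.inl ⟨i, x⟩) w) := by
  have hh : FreeGroup.lift (fun x => PresentedGroup.of (rels := A.rels) (Sum.inl ⟨i, x⟩)) =
      (PresentedGroup.mk A.rels).comp
        (FreeGroup.map (fun x => (Sum.inl ⟨i, x⟩ : (Σ i, A.X i) ⊕ A.J))) := by
    apply FreeGroup.ext_hom
    intro x
    rw [FreeGroup.lift_apply_of, MonoidHom.comp_apply, FreeGroup.map.of]
    rfl
  refine ⟨PresentedGroup.toGroup (f := fun x => PresentedGroup.of (rels := A.rels)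
    (Sum.inl ⟨i, x⟩)) ?_, ?_⟩
  · intro ρ hρ
    rw [hh, MonoidHom.comp_apply]
    refine PresentedGroup.one_of_mem (Or.inl ?_)
    rw [Set.mem_iUnion]
    exact ⟨i, ρ, hρ, rfl⟩
  · intro w
    have h2 : FreeGroup.lift (fun x => PresentedGroup.of (rels := A.rels) (Sum.inl ⟨i, x⟩)) w =
      PresentedGroup.mk A.rels (FreeGroup.map (fun x => Sum.inl ⟨i, x⟩) w) := by
      rw [hh, MonoidHom.comp_apply]
    exact h2

end Pool.Agent.LIA.GOG
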