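import Pool.Agent.Lib.GogLI.LDefs

/-!
# LDir : the uncrossing direction, with admissible sets

Copy of `exists_direction` in `Lib/MP_727cf8_al/Weights.lean` (helper68; `forest_lemma` of `Lib/MP_727cf8_al/Forest.lean` is
already stated for `Type*`, it is in the namespace `Pool.Agent.Lib.MP_727cf8_al`), with `Type*` instead of `Type`, and with one
more conclusion: `∀ S, y S ≠ 0 → Adm S`. Proof of the new clause: if `y S ≠ 0`, then `S ≠ ∅` and some `p ∈ P` has
`term (indicator of S) p ≠ 0`, so `S` is one of `p.1.1 ∩ p.2.1`, `p.1.1 ∪ p.2.1`, `p.1.1`, `p.2.1`; the sets `p.1.1`, `p.2.1` have `0 < N _`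
(they are first components of elements of `Σ S, Fin (N S)`), so they are admissible, and `hA` gives the other two.
The auxiliary lemmas (`outT_empty`, `outT_inter`, ..., `ind_eq`, `sq_card_eq`, `ind_nonempty`, `cost_empty`) have to be copied, too;
please leave `outT_empty`, `inT_empty`, `outT_inter`, `inT_inter`, `outT_union`, `inT_union`, `outT_mono`, `inT_mono`, `cost_empty` public
(not private).
-/

set_option autoImplicit false

namespace Pool.Agent.LIA.LP

open Finset

variable {B V : Type*} [Fintype B] [Fintype V] [DecidableEq B] [DecidableEq V]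

section aux

variable {E : B → Finset (V × V)}

omit [Fintype B] [Fintype V] [DecidableEq B] in
lemma outT_empty (b : B) : outT E b ∅ = ∅ := by simp [outT]

omit [Fintype B] [Fintype V] [DecidableEq B] in
lemma inT_empty (b : B) : inT E b ∅ = ∅ := by simp [inT]

omit [Fintype B] [Fintype V] [DecidableEq B] in
lemma outT_inter (b : B) (S S' : Finset V) : outT E b (S ∩ S') = outT E b S ∩ outT E b S' := by
  ext e
  simp only [outT, mem_filter, mem_inter]
  tauto

omit [Fintype B] [Fintype V] [DecidableEq B] in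
lemma inT_inter (b : B) (S S' : Finset V) : inT E b (S ∩ S') = inT E b S ∩ inT E b S' := by
  ext e
  simp only [inT, mem_filter, mem_inter]
  tauto

omit [Fintype B] [Fintype V] [DecidableEq B] in
lemma outT_union (b : B) (S S' : Finset V) : outT E b (S ∪ S') = outT E b S ∪ outT E b S' := by
  ext e
  simp only [outT, mem_filter, mem_union]
  tauto

omit [Fintype B] [Fintype V] [DecidableEq B] in
lemma inT_union (b : B) (S S' : Finset V) : inT E b (S ∪ S') = inT E b S ∪ inT E b S' := by
  ext e
  simp only [inT, mem_filter, mem_union]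
  tauto

omit [Fintype V] [DecidableEq B] [Fintype B] in
lemma outT_mono (b : B) {S S' : Finset V} (h : S ⊆ S') : outT E b S ⊆ outT E b S' := by
  intro e he
  rw [outT, mem_filter] at he ⊢
  exact ⟨he.1, h he.2⟩

omit [Fintype V] [DecidableEq B] [Fintype B] in
lemma inT_mono (b : B) {S S' : Finset V} (h : S ⊆ S') : inT E b S ⊆ inT E b S' := by
  intro e he
  rw [inT, mem_filter] at he ⊢
  exact ⟨he.1, h he.2⟩

omit [Fintype V] [DecidableEq B] in
lemma cost_empty : cost E ∅ = 0 := by
  simp [cost, outT_empty]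

/-- indicator computations -/
private lemma ind_eq {α : Type*} [DecidableEq α] {A A' T : Finset α} (hT : T.Nonempty)
    (h : ¬ (A.Nonempty ∧ A'.Nonempty)) :
    (if A ∩ A' = T then (1 : ℝ) else 0) + (if A ∪ A' = T then (1 : ℝ) else 0) -
      (if A = T then (1 : ℝ) else 0) - (if A' = T then (1 : ℝ) else 0) = 0 := by
  have hT0 : ¬ (∅ : Finset α) = T := fun h => by rw [← h] at hT; exact not_nonempty_empty hT
  by_cases hA : A.Nonempty
  · have hA' : A' = ∅ := by
      by_contra h'
      exact h ⟨hA, nonempty_iff_ne_empty.2 h'⟩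
    subst hA'
    simp [hT0]
  · rw [not_nonempty_iff_eq_empty] at hA
    subst hA
    simp [hT0]

private lemma sq_card_eq {α : Type*} [DecidableEq α] (A A' : Finset α) :
    ((A ∩ A').card : ℝ) ^ 2 + ((A ∪ A').card : ℝ) ^ 2 - (A.card : ℝ) ^ 2 - (A'.card : ℝ) ^ 2 =
      2 * ((A \ A').card : ℝ) * ((A' \ A).card : ℝ) := by
  have h1 : ((A \ A').card : ℝ) + ((A ∩ A').card : ℝ) = A.card := by
    exact_mod_cast card_sdiff_add_card_inter A A'
  have h2 : ((A' \ A).card : ℝ) + ((A ∩ A').card : ℝ) = A'.card := by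
    have := card_sdiff_add_card_inter A' A
    rw [inter_comm A' A] at this
    exact_mod_cast this
  have h3 : ((A ∪ A').card : ℝ) = (A \ A').card + (A' \ A).card + (A ∩ A').card := by
    have h4 : (A ∪ A').card + (A ∩ A').card = A.card + A'.card := card_union_add_card_inter A A'
    have h5 : ((A ∪ A').card : ℝ) + ((A ∩ A').card : ℝ) = A.card + A'.card := by exact_mod_cast h4
    linarith
  rw [h3, ← h1, ← h2]
  ring

private lemma ind_nonempty {α : Type*} [DecidableEq α] (A A' : Finset α) :
    (if (A ∩ A').Nonempty then (1 : ℝ) else 0) + (if (A ∪ A').Nonempty then (1 : ℝ) else 0) -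
      (if A.Nonempty then (1 : ℝ) else 0) - (if A'.Nonempty then (1 : ℝ) else 0) =
      - (if A.Nonempty ∧ A'.Nonempty ∧ ¬ (A ∩ A').Nonempty then (1 : ℝ) else 0) := by
  by_cases hA : A.Nonempty <;> by_cases hA' : A'.Nonempty <;> by_cases h : (A ∩ A').Nonempty
  · simp [hA, hA', h]
  · simp [hA, hA', h]
  · exact absurd (h.mono inter_subset_right) hA'
  · simp [hA, hA', h]
  · exact absurd (h.mono inter_subset_left) hA
  · simp [hA, hA', h]
  · exact absurd (h.mono inter_subset_left) hA
  · simp [hA, hA', h]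

end aux

theorem exists_direction {E : B → Finset (V × V)} (Adm : Finset V → Prop)
    (hA : ∀ S S', Adm S → Adm S' → Adm (S ∩ S') ∧ Adm (S ∪ S'))
    (N : Finset V → ℕ) (hN0 : N ∅ = 0) (hNA : ∀ S, 0 < N S → Adm S)
    (hbal : ∀ b (T : Finset (V × V)), T.Nonempty →
      ∑ S, N S * (if outT E b S = T then 1 else 0) = ∑ S, N S * (if inT E b S = T then 1 else 0))
    {S₁ S₂ : Finset V} (h₁ : 0 < N S₁) (h₂ : 0 < N S₂) (hint : (S₁ ∩ S₂).Nonempty)
    (hn₁ : ¬ S₁ ⊆ S₂) (hn₂ : ¬ S₂ ⊆ S₁) :
    ∃ y : Finset V → ℝ, y ∅ = 0 ∧ Bal E y ∧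
      (∀ u, ∑ S, y S * (if u ∈ S then (1 : ℝ) else 0) = 0) ∧ (∀ S, y S < 0 → 0 < N S) ∧
      (∀ S, y S ≠ 0 → Adm S) ∧
      ∑ S, y S * cost E S ≤ 0 ∧ 0 < ∑ S, y S * (S.card : ℝ) ^ 2 := by
  classical
  let W := Σ S : Finset V, Fin (N S)
  have hWne : ∀ w : W, w.1.Nonempty := by
    rintro ⟨S, i⟩
    rw [nonempty_iff_ne_empty]
    rintro rfl
    rw [hN0] at i
    exact i.elim0
  -- the matching
  have hcard : ∀ (φ : Finset V → Prop) [DecidablePred φ],
      Fintype.card {w : W // φ w.1} = ∑ S, N S * (if φ S then 1 else 0) := by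
    intro φ _
    rw [Fintype.card_subtype, card_filter, Fintype.sum_sigma]
    apply sum_congr rfl
    intro S _
    by_cases hφ : φ S <;> simp [hφ]
  have hmatch : ∀ b, ∃ g : W → W, Set.BijOn g {w | (outT E b w.1).Nonempty}
      {w | (inT E b w.1).Nonempty} ∧
      ∀ w : W, (outT E b w.1).Nonempty → inT E b (g w).1 = outT E b w.1 := by
    intro b
    have e : ∀ T : Finset (V × V), {a : {w : W // (outT E b w.1).Nonempty} // outT E b a.1.1 = T} ≃
        {a : {w : W // (inT E b w.1).Nonempty} // inT E b a.1.1 = T} := by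
      intro T
      apply Fintype.equivOfCardEq
      by_cases hT : T.Nonempty
      · have c1 : Fintype.card {a : {w : W // (outT E b w.1).Nonempty} // outT E b a.1.1 = T} =
            Fintype.card {w : W // outT E b w.1 = T} :=
          Fintype.card_congr
            { toFun := fun a => ⟨a.1.1, a.2⟩
              invFun := fun w => ⟨⟨w.1, by rw [w.2]; exact hT⟩, w.2⟩
              left_inv := fun a => rfl
              right_inv := fun a => rfl }
        have c2 : Fintype.card {a : {w : W // (inT E b w.1).Nonempty} // inT E b a.1.1 = T} =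
            Fintype.card {w : W // inT E b w.1 = T} :=
          Fintype.card_congr
            { toFun := fun a => ⟨a.1.1, a.2⟩
              invFun := fun w => ⟨⟨w.1, by rw [w.2]; exact hT⟩, w.2⟩
              left_inv := fun a => rfl
              right_inv := fun a => rfl }
        rw [c1, c2, hcard (fun S => outT E b S = T), hcard (fun S => inT E b S = T)]
        exact hbal b T hT
      · have i1 : IsEmpty {a : {w : W // (outT E b w.1).Nonempty} // outT E b a.1.1 = T} :=
          ⟨fun a => hT (a.2 ▸ a.1.2)⟩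
        have i2 : IsEmpty {a : {w : W // (inT E b w.1).Nonempty} // inT E b a.1.1 = T} :=
          ⟨fun a => hT (a.2 ▸ a.1.2)⟩
        rw [Fintype.card_eq_zero, Fintype.card_eq_zero]
    let f := Equiv.ofFiberEquiv e
    have hf : ∀ a, inT E b (f a).1.1 = outT E b a.1.1 := fun a => Equiv.ofFiberEquiv_map e a
    refine ⟨fun w => if hw : (outT E b w.1).Nonempty then (f ⟨w, hw⟩).1 else w, ⟨?_, ?_, ?_⟩, ?_⟩
    · intro w hw
      have hw' : (outT E b w.1).Nonempty := hw
      simp only [hw', dif_pos]
      exact (f ⟨w, hw'⟩).2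
    · intro w hw w' hw' h
      have h1 : (outT E b w.1).Nonempty := hw
      have h2 : (outT E b w'.1).Nonempty := hw'
      simp only [h1, h2, dif_pos] at h
      have := f.injective (Subtype.ext h)
      exact congrArg Subtype.val this
    · intro w hw
      have h1 : (inT E b w.1).Nonempty := hw
      refine ⟨(f.symm ⟨w, h1⟩).1, (f.symm ⟨w, h1⟩).2, ?_⟩
      have h2 := (f.symm ⟨w, h1⟩).2
      simp only [h2, dif_pos]
      simp
    · intro w hw
      simp only [hw, dif_pos]
      exact hf ⟨w, hw⟩
  choose g hg hgT using hmatch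
  -- the component
  let w₁ : W := ⟨S₁, ⟨0, h₁⟩⟩
  let w₂ : W := ⟨S₂, ⟨0, h₂⟩⟩
  let Adj : W × W → W × W → Prop := fun p q =>
    ∃ b, (outT E b p.1.1).Nonempty ∧ (outT E b p.2.1).Nonempty ∧ q = (g b p.1, g b p.2)
  let P : Finset (W × W) := univ.filter fun p => Relation.EqvGen Adj (w₁, w₂) p
  have hPmem : ∀ p, p ∈ P ↔ Relation.EqvGen Adj (w₁, w₂) p := fun p => by simp [P]
  have hp0 : (w₁, w₂) ∈ P := (hPmem _).2 (Relation.EqvGen.refl _)
  have hPstep : ∀ b p, (outT E b p.1.1).Nonempty → (outT E b p.2.1).Nonempty →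
      (p ∈ P ↔ (g b p.1, g b p.2) ∈ P) := by
    intro b p h1 h2
    rw [hPmem, hPmem]
    have hadj : Relation.EqvGen Adj p (g b p.1, g b p.2) := Relation.EqvGen.rel _ _ ⟨b, h1, h2, rfl⟩
    exact ⟨fun h => Relation.EqvGen.trans _ _ _ h hadj,
      fun h => Relation.EqvGen.trans _ _ _ h (Relation.EqvGen.symm _ _ hadj)⟩
  -- the direction
  let term : (Finset V → ℝ) → W × W → ℝ := fun φ p =>
    φ (p.1.1 ∩ p.2.1) + φ (p.1.1 ∪ p.2.1) - φ p.1.1 - φ p.2.1
  let y : Finset V → ℝ := fun S => if S = ∅ then 0 else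
    ∑ p ∈ P, term (fun S' => if S' = S then (1 : ℝ) else 0) p
  have hstar : ∀ φ : Finset V → ℝ, φ ∅ = 0 → ∑ S, y S * φ S = ∑ p ∈ P, term φ p := by
    intro φ hφ
    have h1 : ∀ S, y S * φ S =
        ∑ p ∈ P, term (fun S' => if S' = S then (1 : ℝ) else 0) p * φ S := by
      intro S
      by_cases hS : S = ∅
      · subst hS
        simp [hφ]
      · simp only [y, if_neg hS, sum_mul]
    rw [sum_congr rfl fun S _ => h1 S, sum_comm]
    apply sum_congr rfl
    intro p _
    simp only [term, sub_mul, add_mul, ite_mul, one_mul, zero_mul, sum_sub_distrib,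
      sum_add_distrib, sum_ite_eq, mem_univ, if_true]
  refine ⟨y, by simp [y], ?_, ?_, ?_, ?_, ?_, ?_⟩
  · -- balance
    intro b T hT
    have hT0 : ¬ (∅ : Finset (V × V)) = T := fun h => by
      rw [← h] at hT; exact not_nonempty_empty hT
    rw [hstar (fun S => if outT E b S = T then (1 : ℝ) else 0) (by simp [outT_empty, hT0]),
      hstar (fun S => if inT E b S = T then (1 : ℝ) else 0) (by simp [inT_empty, hT0])]
    have hA : ∑ p ∈ P, term (fun S => if outT E b S = T then (1 : ℝ) else 0) p =
        ∑ p ∈ P.filter (fun p => (outT E b p.1.1).Nonempty ∧ (outT E b p.2.1).Nonempty),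
          term (fun S => if outT E b S = T then (1 : ℝ) else 0) p := by
      symm
      apply sum_subset (filter_subset _ _)
      intro p hp hp'
      have : ¬ ((outT E b p.1.1).Nonempty ∧ (outT E b p.2.1).Nonempty) := fun h =>
        hp' (mem_filter.2 ⟨hp, h⟩)
      simp only [term, outT_inter, outT_union]
      exact ind_eq hT this
    have hC : ∑ p ∈ P, term (fun S => if inT E b S = T then (1 : ℝ) else 0) p =
        ∑ p ∈ P.filter (fun p => (inT E b p.1.1).Nonempty ∧ (inT E b p.2.1).Nonempty),
          term (fun S => if inT E b S = T then (1 : ℝ) else 0) p := by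
      symm
      apply sum_subset (filter_subset _ _)
      intro p hp hp'
      have : ¬ ((inT E b p.1.1).Nonempty ∧ (inT E b p.2.1).Nonempty) := fun h =>
        hp' (mem_filter.2 ⟨hp, h⟩)
      simp only [term, inT_inter, inT_union]
      exact ind_eq hT this
    rw [hA, hC]
    apply sum_nbij (fun p => (g b p.1, g b p.2))
    · intro p hp
      rw [mem_filter] at hp ⊢
      exact ⟨(hPstep b p hp.2.1 hp.2.2).1 hp.1, (hg b).mapsTo hp.2.1, (hg b).mapsTo hp.2.2⟩
    · intro p hp q hq h
      rw [mem_coe, mem_filter] at hp hq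
      have e1 := (hg b).injOn hp.2.1 hq.2.1 (congrArg Prod.fst h)
      have e2 := (hg b).injOn hp.2.2 hq.2.2 (congrArg Prod.snd h)
      exact Prod.ext e1 e2
    · intro q hq
      rw [mem_coe, mem_filter] at hq
      obtain ⟨a, ha, ha'⟩ := (hg b).surjOn hq.2.1
      obtain ⟨c, hc, hc'⟩ := (hg b).surjOn hq.2.2
      have hq' : (g b a, g b c) = q := Prod.ext ha' hc'
      refine ⟨(a, c), ?_, hq'⟩
      rw [mem_coe, mem_filter]
      refine ⟨(hPstep b (a, c) ha hc).2 ?_, ha, hc⟩
      show (g b a, g b c) ∈ P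
      rw [hq']
      exact hq.1
    · intro p hp
      rw [mem_filter] at hp
      simp only [term, outT_inter, outT_union, inT_inter, inT_union, hgT b p.1 hp.2.1,
        hgT b p.2 hp.2.2]
  · -- multiplicity
    intro u
    rw [hstar (fun S => if u ∈ S then (1 : ℝ) else 0) (by simp)]
    apply sum_eq_zero
    intro p _
    simp only [term, mem_inter, mem_union]
    by_cases h1 : u ∈ p.1.1 <;> by_cases h2 : u ∈ p.2.1 <;> simp [h1, h2]
  · -- negative values
    intro S hS
    by_contra hNS
    have hNS0 : N S = 0 := by omega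
    have hne : ∀ w : W, ¬ w.1 = S := by
      rintro ⟨S', i⟩ h
      simp only at h
      subst h
      rw [hNS0] at i
      exact i.elim0
    have : 0 ≤ y S := by
      simp only [y]
      split_ifs
      · exact le_rfl
      · apply sum_nonneg
        intro p _
        simp only [term, hne, if_false, sub_zero]
        positivity
    linarith
  · -- admissibility
    intro S hS
    have hadm : ∀ w : W, Adm w.1 := by
      rintro ⟨S', i⟩
      exact hNA S' (Fin.pos i)
    have hS0 : S ≠ ∅ := by
      intro h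
      exact hS (by simp [y, h])
    have hex : ∃ p ∈ P, term (fun S' => if S' = S then (1 : ℝ) else 0) p ≠ 0 := by
      by_contra hno
      apply hS
      simp only [y, if_neg hS0]
      apply sum_eq_zero
      intro p hp
      by_contra hne
      exact hno ⟨p, hp, hne⟩
    obtain ⟨p, _, hp⟩ := hex
    by_contra hAdm
    apply hp
    have e1 : ¬ p.1.1 ∩ p.2.1 = S := fun h => hAdm (h ▸ (hA _ _ (hadm p.1) (hadm p.2)).1)
    have e2 : ¬ p.1.1 ∪ p.2.1 = S := fun h => hAdm (h ▸ (hA _ _ (hadm p.1) (hadm p.2)).2)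
    have e3 : ¬ p.1.1 = S := fun h => hAdm (h ▸ hadm p.1)
    have e4 : ¬ p.2.1 = S := fun h => hAdm (h ▸ hadm p.2)
    simp only [term, e1, e2, e3, e4, if_false, add_zero, sub_zero]
  · -- cost
    rw [hstar _ cost_empty]
    -- edges and vertices of the component
    let I : Finset (W × W) := P.filter fun p => (p.1.1 ∩ p.2.1).Nonempty
    let D : Finset (B × (W × W)) := (univ ×ˢ P).filter fun e =>
      (outT E e.1 e.2.1.1).Nonempty ∧ (outT E e.1 e.2.2.1).Nonempty
    have hforest := Pool.Agent.Lib.MP_727cf8_al.forest_lemma P D (fun e => e.2) (fun e => (g e.1 e.2.1, g e.1 e.2.2))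
      (by
        intro e he
        rw [mem_filter, mem_product] at he
        exact he.1.2)
      (by
        intro e he
        rw [mem_filter, mem_product] at he
        exact (hPstep e.1 e.2 he.2.1 he.2.2).1 he.1.2)
      I (filter_subset _ _) (by
        intro I' hII' hI'P hcl
        apply Subset.antisymm hI'P
        have key : ∀ p q, Relation.EqvGen Adj p q → Relation.EqvGen Adj (w₁, w₂) p →
            (p ∈ I' ↔ q ∈ I') := by
          intro p q hpq
          induction hpq with
          | rel p q h =>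
            intro h0
            obtain ⟨b, hb1, hb2, rfl⟩ := h
            exact hcl (b, p) (by
              rw [mem_filter, mem_product]
              exact ⟨⟨mem_univ _, (hPmem _).2 h0⟩, hb1, hb2⟩)
          | refl p => intro _; exact Iff.rfl
          | symm p q h ih =>
            intro h0
            exact (ih (Relation.EqvGen.trans _ _ _ h0 (Relation.EqvGen.symm _ _ h))).symm
          | trans p q r h1 h2 ih1 ih2 =>
            intro h0
            exact (ih1 h0).trans (ih2 (Relation.EqvGen.trans _ _ _ h0 h1))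
        intro p hp
        refine (key (w₁, w₂) p ((hPmem p).1 hp) (Relation.EqvGen.refl _)).1 (hII' ?_)
        exact mem_filter.2 ⟨hp0, hint⟩)
    have hvert : (((P \ I).card : ℕ) : ℝ) =
        ∑ p ∈ P, if ¬ (p.1.1 ∩ p.2.1).Nonempty then (1 : ℝ) else 0 := by
      have : P \ I = P.filter fun p => ¬ (p.1.1 ∩ p.2.1).Nonempty := by
        ext p
        simp only [I, mem_sdiff, mem_filter]
        tauto
      rw [this, card_filter]
      push_cast
      rfl
    have hedge : (((D.filter fun e => ¬ (e.2 ∈ I ∧ (g e.1 e.2.1, g e.1 e.2.2) ∈ I)).card : ℕ) : ℝ) ≤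
        ∑ p ∈ P, ∑ b, if (outT E b p.1.1).Nonempty ∧ (outT E b p.2.1).Nonempty ∧
          ¬ (outT E b p.1.1 ∩ outT E b p.2.1).Nonempty then (1 : ℝ) else 0 := by
      have h1 : (D.filter fun e => ¬ (e.2 ∈ I ∧ (g e.1 e.2.1, g e.1 e.2.2) ∈ I)) ⊆
          (univ ×ˢ P).filter fun e => (outT E e.1 e.2.1.1).Nonempty ∧
            (outT E e.1 e.2.2.1).Nonempty ∧
            ¬ (outT E e.1 e.2.1.1 ∩ outT E e.1 e.2.2.1).Nonempty := by
        intro e he
        rw [mem_filter] at he
        obtain ⟨heD, he2⟩ := he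
        rw [mem_filter, mem_product] at heD
        obtain ⟨⟨-, heP⟩, ho1, ho2⟩ := heD
        rw [mem_filter, mem_product]
        refine ⟨⟨mem_univ _, heP⟩, ho1, ho2, ?_⟩
        intro hne
        apply he2
        refine ⟨mem_filter.2 ⟨heP, ?_⟩, mem_filter.2 ⟨(hPstep e.1 e.2 ho1 ho2).1 heP, ?_⟩⟩
        · rw [← outT_inter] at hne
          obtain ⟨x, hx⟩ := hne
          rw [outT, mem_filter] at hx
          exact ⟨x.1, hx.2⟩
        · rw [← hgT e.1 e.2.1 ho1, ← hgT e.1 e.2.2 ho2, ← inT_inter] at hne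
          obtain ⟨x, hx⟩ := hne
          rw [inT, mem_filter] at hx
          exact ⟨x.2, hx.2⟩
      have h2 := card_le_card h1
      have h3 : (((univ ×ˢ P).filter fun e : B × (W × W) => (outT E e.1 e.2.1.1).Nonempty ∧
            (outT E e.1 e.2.2.1).Nonempty ∧
            ¬ (outT E e.1 e.2.1.1 ∩ outT E e.1 e.2.2.1).Nonempty).card : ℝ) =
            ∑ p ∈ P, ∑ b, if (outT E b p.1.1).Nonempty ∧ (outT E b p.2.1).Nonempty ∧
          ¬ (outT E b p.1.1 ∩ outT E b p.2.1).Nonempty then (1 : ℝ) else 0 := by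
        rw [card_filter, sum_product, sum_comm]
        push_cast
        rfl
      rw [← h3]
      exact_mod_cast h2
    have hterm : ∀ p ∈ P, term (cost E) p =
        (if ¬ (p.1.1 ∩ p.2.1).Nonempty then (1 : ℝ) else 0) -
        ∑ b, if (outT E b p.1.1).Nonempty ∧ (outT E b p.2.1).Nonempty ∧
          ¬ (outT E b p.1.1 ∩ outT E b p.2.1).Nonempty then (1 : ℝ) else 0 := by
      intro p _
      have hs : ∀ b, (if (outT E b (p.1.1 ∩ p.2.1)).Nonempty then (1 : ℝ) else 0) +
          (if (outT E b (p.1.1 ∪ p.2.1)).Nonempty then (1 : ℝ) else 0) -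
          (if (outT E b p.1.1).Nonempty then (1 : ℝ) else 0) -
          (if (outT E b p.2.1).Nonempty then (1 : ℝ) else 0) =
          - (if (outT E b p.1.1).Nonempty ∧ (outT E b p.2.1).Nonempty ∧
          ¬ (outT E b p.1.1 ∩ outT E b p.2.1).Nonempty then (1 : ℝ) else 0) := by
        intro b
        rw [outT_inter, outT_union]
        exact ind_nonempty _ _
      have hs2 := sum_congr (rfl : (univ : Finset B) = univ) fun b _ => hs b
      rw [sum_sub_distrib, sum_sub_distrib, sum_add_distrib, sum_neg_distrib] at hs2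
      have hv := ind_nonempty p.1.1 p.2.1
      have hv2 : (if p.1.1.Nonempty ∧ p.2.1.Nonempty ∧ ¬ (p.1.1 ∩ p.2.1).Nonempty then (1 : ℝ)
          else 0) = if ¬ (p.1.1 ∩ p.2.1).Nonempty then (1 : ℝ) else 0 := by
        simp only [hWne p.1, hWne p.2, true_and]
      rw [hv2] at hv
      simp only [term, cost]
      linarith
    rw [sum_congr rfl hterm, sum_sub_distrib, ← hvert]
    have hf' : (((P \ I).card : ℕ) : ℝ) ≤
        (((D.filter fun e => ¬ (e.2 ∈ I ∧ (g e.1 e.2.1, g e.1 e.2.2) ∈ I)).card : ℕ) : ℝ) := by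
      exact_mod_cast hforest
    linarith
  · -- convexity gain
    rw [hstar (fun S => (S.card : ℝ) ^ 2) (by simp)]
    have hnn : ∀ p ∈ P, 0 ≤ term (fun S => (S.card : ℝ) ^ 2) p := by
      intro p _
      simp only [term]
      rw [sq_card_eq]
      positivity
    refine lt_of_lt_of_le ?_ (single_le_sum hnn hp0)
    simp only [term]
    rw [sq_card_eq]
    have h1 : 0 < ((w₁.1 \ w₂.1).card : ℝ) := by
      have : (S₁ \ S₂).Nonempty := by
        rw [nonempty_iff_ne_empty, Ne, sdiff_eq_empty_iff_subset]; exact hn₁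
      exact_mod_cast this.card_pos
    have h2 : 0 < ((w₂.1 \ w₁.1).card : ℝ) := by
      have : (S₂ \ S₁).Nonempty := by
        rw [nonempty_iff_ne_empty, Ne, sdiff_eq_empty_iff_subset]; exact hn₂
      exact_mod_cast this.card_pos
    positivity

end Pool.Agent.LIA.LP
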