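import Pool.Agent.Lib.GogLI.LDefs

/-!
# LPeel : peeling off the maximal members of a laminar support, partial quotients

Like `peel` in `Lib/MP_727cf8_al/LP.lean` (helper68); the changes:
* there is no condition on the multiplicities, the quotients `M` need not cover `V` (`VPart` has no clause `cover`);
* `hM` compares `∑ S ∈ M, cost E S` with `∑ S ∈ M, ∑ u ∈ S, p u`, for `M` with admissible members;
* the induction on the size of the support: if all `n S = 0` both sides are zero. Otherwise let `M` be the set of the maximal
  members of the support `supp = {S | 0 < n S}`; it is a `VPart` (proofs of `uniq`, `nonempty`, `out`, `inn` as in `hvalid` there),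
  its members are admissible; `n' = n - ε 1_M` with `ε = min_M n`; `n'` has smaller support, is balanced (`VPart.bal`: copy of
  `ValidPart.bal`, which does not use `cover`), and
  `∑ n S * (cost E S - p S) = ∑ n' S * (cost E S - p S) + ε * ∑ S ∈ M, (cost E S - p S)`, `p S = ∑ u ∈ S, p u`.
Needs `outT_mono`, `inT_mono` (monotonicity in `S`; prove them privately here).
-/

set_option autoImplicit false
set_option linter.unusedSectionVars false

namespace Pool.Agent.LIA.LP

open Finset

variable {B V : Type*} [Fintype B] [Fintype V] [DecidableEq B] [DecidableEq V]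

omit [Fintype V] [DecidableEq B] [Fintype B] in
private lemma outT_mono {E : B → Finset (V × V)} (b : B) {S S' : Finset V} (h : S ⊆ S') : outT E b S ⊆ outT E b S' := by
  intro e he
  rw [outT, mem_filter] at he ⊢
  exact ⟨he.1, h he.2⟩

omit [Fintype V] [DecidableEq B] [Fintype B] in
private lemma inT_mono {E : B → Finset (V × V)} (b : B) {S S' : Finset V} (h : S ⊆ S') : inT E b S ⊆ inT E b S' := by
  intro e he
  rw [inT, mem_filter] at he ⊢
  exact ⟨he.1, h he.2⟩

theorem VPart.bal {E : B → Finset (V × V)} {M : Finset (Finset V)} (hM : VPart E M) :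
    Bal E (fun S => if S ∈ M then (1 : ℝ) else 0) := by
  intro b T hT
  have h1 : ∑ S, (if S ∈ M then (1 : ℝ) else 0) * (if outT E b S = T then (1 : ℝ) else 0) =
      ((M.filter fun S => outT E b S = T).card : ℝ) := by
    rw [card_filter]
    push_cast
    rw [← sum_filter_add_sum_filter_not univ (fun S => S ∈ M)]
    have e1 : (univ.filter fun S => S ∈ M) = M := by ext; simp
    rw [e1]
    have e2 : ∑ S ∈ univ.filter (fun S => S ∉ M),
        (if S ∈ M then (1 : ℝ) else 0) * (if outT E b S = T then (1 : ℝ) else 0) = 0 := by
      apply sum_eq_zero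
      intro S hS
      rw [mem_filter] at hS
      simp [hS.2]
    rw [e2, add_zero]
    apply sum_congr rfl
    intro S hS
    simp [hS]
  have h2 : ∑ S, (if S ∈ M then (1 : ℝ) else 0) * (if inT E b S = T then (1 : ℝ) else 0) =
      ((M.filter fun S => inT E b S = T).card : ℝ) := by
    rw [card_filter]
    push_cast
    rw [← sum_filter_add_sum_filter_not univ (fun S => S ∈ M)]
    have e1 : (univ.filter fun S => S ∈ M) = M := by ext; simp
    rw [e1]
    have e2 : ∑ S ∈ univ.filter (fun S => S ∉ M),
        (if S ∈ M then (1 : ℝ) else 0) * (if inT E b S = T then (1 : ℝ) else 0) = 0 := by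
      apply sum_eq_zero
      intro S hS
      rw [mem_filter] at hS
      simp [hS.2]
    rw [e2, add_zero]
    apply sum_congr rfl
    intro S hS
    simp [hS]
  rw [h1, h2]
  obtain ⟨e, he⟩ := hT
  have c1 : (M.filter fun S => outT E b S = T).card ≤ 1 := by
    rw [card_le_one]
    intro S hS S' hS'
    rw [mem_filter] at hS hS'
    apply hM.uniq S hS.1 S' hS'.1
    rw [← hS.2] at he
    have he' := he
    rw [hS.2, ← hS'.2] at he'
    rw [outT, mem_filter] at he he'
    exact ⟨e.1, mem_inter.2 ⟨he.2, he'.2⟩⟩
  have c2 : (M.filter fun S => inT E b S = T).card ≤ 1 := by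
    rw [card_le_one]
    intro S hS S' hS'
    rw [mem_filter] at hS hS'
    apply hM.uniq S hS.1 S' hS'.1
    rw [← hS.2] at he
    have he' := he
    rw [hS.2, ← hS'.2] at he'
    rw [inT, mem_filter] at he he'
    exact ⟨e.2, mem_inter.2 ⟨he.2, he'.2⟩⟩
  have c3 : 0 < (M.filter fun S => outT E b S = T).card ↔
      0 < (M.filter fun S => inT E b S = T).card := by
    rw [card_pos, card_pos]
    constructor
    · rintro ⟨S, hS⟩
      rw [mem_filter] at hS
      obtain ⟨S', hS', h⟩ := hM.out b S hS.1 (by rw [hS.2]; exact ⟨e, he⟩)
      exact ⟨S', mem_filter.2 ⟨hS', h.trans hS.2⟩⟩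
    · rintro ⟨S, hS⟩
      rw [mem_filter] at hS
      obtain ⟨S', hS', h⟩ := hM.inn b S hS.1 (by rw [hS.2]; exact ⟨e, he⟩)
      exact ⟨S', mem_filter.2 ⟨hS', h.trans hS.2⟩⟩
  have : (M.filter fun S => outT E b S = T).card = (M.filter fun S => inT E b S = T).card := by
    omega
  rw [this]

theorem peel {E : B → Finset (V × V)} (Adm : Finset V → Prop) (p : V → ℝ)
    (hM : ∀ M, VPart E M → (∀ S ∈ M, Adm S) → ∑ S ∈ M, ∑ u ∈ S, p u ≤ ∑ S ∈ M, cost E S) :
    ∀ (k : ℕ) (n : Finset V → ℝ), (univ.filter fun S => 0 < n S).card ≤ k →
      (∀ S, 0 ≤ n S) → n ∅ = 0 → Bal E n → (∀ S, n S ≠ 0 → Adm S) →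
      (∀ S₁ S₂, 0 < n S₁ → 0 < n S₂ → (S₁ ∩ S₂).Nonempty → S₁ ⊆ S₂ ∨ S₂ ⊆ S₁) →
      ∑ S, n S * ∑ u ∈ S, p u ≤ ∑ S, n S * cost E S := by
  classical
  intro k
  induction k with
  | zero =>
    intro n hk hn0 _ _ _ _
    have hz : ∀ S, n S = 0 := by
      intro S
      by_contra hne
      have hpos : 0 < n S := lt_of_le_of_ne (hn0 S) (Ne.symm hne)
      have : 0 < (univ.filter fun S => 0 < n S).card :=
        card_pos.2 ⟨S, mem_filter.2 ⟨mem_univ _, hpos⟩⟩
      omega
    simp [hz]
  | succ k ih =>
    intro n hk hn0 hnE hbal hadm hlam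
    by_cases hall : ∀ S, n S = 0
    · simp [hall]
    · push Not at hall
      obtain ⟨S₀, hS₀⟩ := hall
      have hS₀pos : 0 < n S₀ := lt_of_le_of_ne (hn0 S₀) (Ne.symm hS₀)
      have hS₀ne : S₀.Nonempty := by
        rw [nonempty_iff_ne_empty]
        rintro rfl
        exact hS₀ hnE
      let supp : Finset (Finset V) := univ.filter fun S => 0 < n S
      have hsupp : ∀ S, S ∈ supp ↔ 0 < n S := fun S => by simp [supp]
      have hsne : ∀ S, 0 < n S → S.Nonempty := by
        intro S hS
        rw [nonempty_iff_ne_empty]
        rintro rfl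
        rw [hnE] at hS
        exact lt_irrefl _ hS
      let M : Finset (Finset V) := supp.filter fun S => ∀ S' ∈ supp, S ⊆ S' → S' = S
      have hMmem : ∀ S, S ∈ M ↔ 0 < n S ∧ ∀ S', 0 < n S' → S ⊆ S' → S' = S := by
        intro S
        simp only [M, mem_filter, hsupp]
      -- every member of the support is below a maximal one
      have hmax : ∀ S, 0 < n S → ∃ S' ∈ M, S ⊆ S' := by
        intro S hS
        obtain ⟨S', hS', hS'max⟩ := (supp.filter fun S' => S ⊆ S').exists_max_image
          (fun S' => S'.card) ⟨S, mem_filter.2 ⟨(hsupp S).2 hS, Subset.refl _⟩⟩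
        rw [mem_filter] at hS'
        refine ⟨S', ?_, hS'.2⟩
        rw [hMmem]
        refine ⟨(hsupp _).1 hS'.1, ?_⟩
        intro S'' hS'' hsub
        have := hS'max S'' (mem_filter.2 ⟨(hsupp _).2 hS'', hS'.2.trans hsub⟩)
        exact (eq_of_subset_of_card_le hsub this).symm
      -- existence of partners from the balance condition
      have hpart1 : ∀ b S, 0 < n S → (outT E b S).Nonempty →
          ∃ S', 0 < n S' ∧ inT E b S' = outT E b S := by
        intro b S hS hne
        have h := hbal b (outT E b S) hne
        by_contra hcon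
        push Not at hcon
        have hz : ∑ S', n S' * (if inT E b S' = outT E b S then (1 : ℝ) else 0) = 0 := by
          apply sum_eq_zero
          intro S' _
          rcases (hn0 S').eq_or_lt with h0 | h0
          · rw [← h0, zero_mul]
          · simp [hcon S' h0]
        rw [hz] at h
        have hp : 0 < ∑ S', n S' * (if outT E b S' = outT E b S then (1 : ℝ) else 0) := by
          refine lt_of_lt_of_le ?_ (single_le_sum (f := fun S' => n S' *
            (if outT E b S' = outT E b S then (1 : ℝ) else 0))
            (fun S' _ => mul_nonneg (hn0 S') (by positivity)) (mem_univ S))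
          simp [hS]
        linarith
      have hpart2 : ∀ b S, 0 < n S → (inT E b S).Nonempty →
          ∃ S', 0 < n S' ∧ outT E b S' = inT E b S := by
        intro b S hS hne
        have h := hbal b (inT E b S) hne
        by_contra hcon
        push Not at hcon
        have hz : ∑ S', n S' * (if outT E b S' = inT E b S then (1 : ℝ) else 0) = 0 := by
          apply sum_eq_zero
          intro S' _
          rcases (hn0 S').eq_or_lt with h0 | h0
          · rw [← h0, zero_mul]
          · simp [hcon S' h0]
        rw [hz] at h
        have hp : 0 < ∑ S', n S' * (if inT E b S' = inT E b S then (1 : ℝ) else 0) := by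
          refine lt_of_lt_of_le ?_ (single_le_sum (f := fun S' => n S' *
            (if inT E b S' = inT E b S then (1 : ℝ) else 0))
            (fun S' _ => mul_nonneg (hn0 S') (by positivity)) (mem_univ S))
          simp [hS]
        linarith
      have hvalid : VPart E M := by
        refine ⟨?_, ?_, ?_, ?_⟩
        · intro S hS S' hS' hne
          rw [hMmem] at hS hS'
          rcases hlam S S' hS.1 hS'.1 hne with h | h
          · exact (hS.2 S' hS'.1 h).symm
          · exact hS'.2 S hS.1 h
        · intro S hS
          rw [hMmem] at hS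
          exact hsne S hS.1
        · intro b S hS hne
          rw [hMmem] at hS
          obtain ⟨R, hR, hRS⟩ := hpart1 b S hS.1 hne
          obtain ⟨R', hR', hRR'⟩ := hmax R hR
          refine ⟨R', hR', ?_⟩
          have hsub : outT E b S ⊆ inT E b R' := by
            rw [← hRS]; exact inT_mono b hRR'
          obtain ⟨S', hS', hS'R'⟩ := hpart2 b R' ((hMmem _).1 hR').1 (hne.mono hsub)
          have hint : (S' ∩ S).Nonempty := by
            obtain ⟨e, he⟩ := hne
            have he' := hsub he
            rw [← hS'R'] at he'
            rw [outT, mem_filter] at he he'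
            exact ⟨e.1, mem_inter.2 ⟨he'.2, he.2⟩⟩
          have hS'S : S' ⊆ S := by
            rcases hlam S' S hS' hS.1 hint with h | h
            · exact h
            · rw [hS.2 S' hS' h]
          apply Subset.antisymm _ hsub
          rw [← hS'R']
          exact outT_mono b hS'S
        · intro b S hS hne
          rw [hMmem] at hS
          obtain ⟨R, hR, hRS⟩ := hpart2 b S hS.1 hne
          obtain ⟨R', hR', hRR'⟩ := hmax R hR
          refine ⟨R', hR', ?_⟩
          have hsub : inT E b S ⊆ outT E b R' := by
            rw [← hRS]; exact outT_mono b hRR'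
          obtain ⟨S', hS', hS'R'⟩ := hpart1 b R' ((hMmem _).1 hR').1 (hne.mono hsub)
          have hint : (S' ∩ S).Nonempty := by
            obtain ⟨e, he⟩ := hne
            have he' := hsub he
            rw [← hS'R'] at he'
            rw [inT, mem_filter] at he he'
            exact ⟨e.2, mem_inter.2 ⟨he'.2, he.2⟩⟩
          have hS'S : S' ⊆ S := by
            rcases hlam S' S hS' hS.1 hint with h | h
            · exact h
            · rw [hS.2 S' hS' h]
          apply Subset.antisymm _ hsub
          rw [← hS'R']
          exact inT_mono b hS'S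
      -- peel
      obtain ⟨S₁, hS₁, -⟩ := hmax S₀ hS₀pos
      obtain ⟨S₂, hS₂, hmin⟩ := M.exists_min_image n ⟨S₁, hS₁⟩
      have hεpos : 0 < n S₂ := ((hMmem _).1 hS₂).1
      let n' : Finset V → ℝ := fun S => n S - n S₂ * (if S ∈ M then (1 : ℝ) else 0)
      have hn'le : ∀ S, n' S ≤ n S := by
        intro S
        have : 0 ≤ n S₂ * (if S ∈ M then (1 : ℝ) else 0) := by positivity
        simp only [n']
        linarith
      have hn'0 : ∀ S, 0 ≤ n' S := by
        intro S
        by_cases hSM : S ∈ M
        · have := hmin S hSM
          simp only [n', hSM, if_true]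
          linarith
        · simp only [n', hSM, if_false]
          linarith [hn0 S]
      have hcard : (univ.filter fun S => 0 < n' S).card ≤ k := by
        have hsub : (univ.filter fun S => 0 < n' S) ⊆ supp.erase S₂ := by
          intro S hS
          rw [mem_filter] at hS
          rw [mem_erase, hsupp]
          refine ⟨?_, lt_of_lt_of_le hS.2 (hn'le S)⟩
          rintro rfl
          have : n' S = 0 := by simp [n', hS₂]
          rw [this] at hS
          exact lt_irrefl _ hS.2
        have h1 := card_le_card hsub
        rw [card_erase_of_mem ((hsupp _).2 hεpos)] at h1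
        have h2 : supp.card ≤ k + 1 := hk
        have h3 : 0 < supp.card := card_pos.2 ⟨S₂, (hsupp _).2 hεpos⟩
        omega
      have hMempty : (∅ : Finset V) ∉ M := fun h => not_nonempty_empty (hvalid.nonempty ∅ h)
      have hMadm : ∀ S ∈ M, Adm S := fun S hS => hadm S ((hMmem S).1 hS).1.ne'
      have hIH := ih n' hcard hn'0 (by simp [n', hnE, hMempty]) (by
          intro b T hT
          have h1 := hbal b T hT
          have h2 := hvalid.bal b T hT
          have e1 : ∀ S, n' S * (if outT E b S = T then (1 : ℝ) else 0) =
              n S * (if outT E b S = T then (1 : ℝ) else 0) -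
              n S₂ * ((if S ∈ M then (1 : ℝ) else 0) * (if outT E b S = T then (1 : ℝ) else 0)) := by
            intro S; simp only [n']; ring
          have e2 : ∀ S, n' S * (if inT E b S = T then (1 : ℝ) else 0) =
              n S * (if inT E b S = T then (1 : ℝ) else 0) -
              n S₂ * ((if S ∈ M then (1 : ℝ) else 0) * (if inT E b S = T then (1 : ℝ) else 0)) := by
            intro S; simp only [n']; ring
          rw [sum_congr rfl fun S _ => e1 S, sum_congr rfl fun S _ => e2 S, sum_sub_distrib,
            sum_sub_distrib, ← mul_sum, ← mul_sum, h1, h2]) (by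
          intro S hS
          apply hadm S
          intro h0
          have h1 := hn'le S
          have h2 := hn'0 S
          exact hS (le_antisymm (h0 ▸ h1) h2))
          (fun T₁ T₂ h1 h2 h3 => hlam T₁ T₂ (lt_of_lt_of_le h1 (hn'le _))
            (lt_of_lt_of_le h2 (hn'le _)) h3)
      have hsumM : ∀ F : Finset V → ℝ,
          ∑ S, (if S ∈ M then (1 : ℝ) else 0) * F S = ∑ S ∈ M, F S := by
        intro F
        rw [← sum_filter_add_sum_filter_not univ (fun S => S ∈ M)]
        have e1 : (univ.filter fun S => S ∈ M) = M := by ext; simp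
        rw [e1]
        have e2 : ∑ S ∈ univ.filter (fun S => S ∉ M),
            (if S ∈ M then (1 : ℝ) else 0) * F S = 0 := by
          apply sum_eq_zero
          intro S hS
          rw [mem_filter] at hS
          simp [hS.2]
        rw [e2, add_zero]
        apply sum_congr rfl
        intro S hS
        simp [hS]
      have hsplit : ∀ F : Finset V → ℝ, ∑ S, n S * F S =
          ∑ S, n' S * F S + n S₂ * ∑ S ∈ M, F S := by
        intro F
        rw [← hsumM, mul_sum, ← sum_add_distrib]
        apply sum_congr rfl
        intro S _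
        simp only [n']
        ring
      rw [hsplit (cost E), hsplit (fun S => ∑ u ∈ S, p u)]
      have h4 := mul_le_mul_of_nonneg_left (hM M hvalid hMadm) hεpos.le
      exact add_le_add hIH h4

end Pool.Agent.LIA.LP
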