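import Pool.Agent.Lib.GogLI.LRat
import Pool.Agent.Lib.GogLI.LDir
import Pool.Agent.Lib.GogLI.LPeel

/-!
# LMain : the linear programming lemma

Like `lp_main` in `Lib/MP_727cf8_al/LP.lean` (helper68). The compact set is
`F = {x | 0 ≤ x S, x ∅ = 0, Bal E x, ∀ u, ∑ S, x S * [u ∈ S] = ∑ S, n S * [u ∈ S], ∀ S, ¬ Adm S → x S = 0, ∑ S, x S * cost E S ≤ κ}`,
`κ = ∑ S, n S * cost E S` (for nonempty `S` the value `x S` is at most the multiplicity `∑ S, n S * [u ∈ S]` of any `u ∈ S`, so at
most `C = ∑ S, n S`). Let `x ∈ F` maximise `∑ x S * |S|^2`. If its support is not laminar, take natural weights `N` with the same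
support (`exists_nat_weights`) and the direction `y` of `exists_direction` (for `Adm`); a small step in the direction `y` stays in
`F` (the multiplicities do not change; `y S ≠ 0 → Adm S`), and increases the quadratic function. So the support is laminar and
`peel` applies to `x`. Finally `∑ S, x S * ∑ u ∈ S, p u = ∑ u, p u * ∑ S, x S * [u ∈ S] = ∑ S, n S * ∑ u ∈ S, p u`, as the multiplicities are
those of `n`.
-/

set_option autoImplicit false

namespace Pool.Agent.LIA.LP

open Finset

variable {B V : Type*} [Fintype B] [Fintype V] [DecidableEq B] [DecidableEq V]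

/-- the feasible weights -/
private structure FF (E : B → Finset (V × V)) (Adm : Finset V → Prop) (n x : Finset V → ℝ) :
    Prop where
  nonneg : ∀ S, 0 ≤ x S
  empty : x ∅ = 0
  bal : Bal E x
  mult : ∀ u, ∑ S, x S * (if u ∈ S then (1 : ℝ) else 0) = ∑ S, n S * (if u ∈ S then (1 : ℝ) else 0)
  adm : ∀ S, ¬ Adm S → x S = 0
  cst : ∑ S, x S * cost E S ≤ ∑ S, n S * cost E S

private theorem sum_p (p : V → ℝ) (x : Finset V → ℝ) :
    ∑ S, x S * ∑ u ∈ S, p u = ∑ u, p u * ∑ S, x S * (if u ∈ S then (1 : ℝ) else 0) := by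
  have h1 : ∀ S : Finset V, x S * ∑ u ∈ S, p u =
      ∑ u, p u * (x S * (if u ∈ S then (1 : ℝ) else 0)) := by
    intro S
    rw [mul_sum]
    have e : ∀ u, p u * (x S * (if u ∈ S then (1 : ℝ) else 0)) =
        if u ∈ S then x S * p u else 0 := by
      intro u
      split_ifs <;> ring
    rw [sum_congr rfl fun u _ => e u, sum_ite_mem, univ_inter]
  rw [sum_congr rfl fun S _ => h1 S, sum_comm]
  exact sum_congr rfl fun u _ => by rw [mul_sum]

theorem lp2 {E : B → Finset (V × V)} (Adm : Finset V → Prop)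
    (hA : ∀ S S', Adm S → Adm S' → Adm (S ∩ S') ∧ Adm (S ∪ S')) (p : V → ℝ)
    (hM : ∀ M, VPart E M → (∀ S ∈ M, Adm S) → ∑ S ∈ M, ∑ u ∈ S, p u ≤ ∑ S ∈ M, cost E S)
    (n : Finset V → ℝ) (hn0 : ∀ S, 0 ≤ n S) (hne : n ∅ = 0) (hb : Bal E n)
    (hsupp : ∀ S, n S ≠ 0 → Adm S) :
    ∑ S, n S * ∑ u ∈ S, p u ≤ ∑ S, n S * cost E S := by
  classical
  let F : Set (Finset V → ℝ) := {x | FF E Adm n x}
  have hFne : F.Nonempty := ⟨n, ⟨hn0, hne, hb, fun _ => rfl,
    fun S hS => by
      by_contra h
      exact hS (hsupp S h), le_rfl⟩⟩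
  have hle1 : ∀ x, FF E Adm n x → ∀ S, x S ≤ ∑ S, n S := by
    intro x hx S
    by_cases hS : S.Nonempty
    · obtain ⟨u, hu⟩ := hS
      have h1 : x S ≤ ∑ S, x S * (if u ∈ S then (1 : ℝ) else 0) := by
        refine le_trans ?_ (single_le_sum (f := fun S => x S * (if u ∈ S then (1 : ℝ) else 0))
          (fun S _ => mul_nonneg (hx.nonneg S) (by positivity)) (mem_univ S))
        simp [hu]
      rw [hx.mult u] at h1
      refine h1.trans (sum_le_sum fun S _ => ?_)
      split_ifs
      · rw [mul_one]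
      · rw [mul_zero]
        exact hn0 S
    · rw [not_nonempty_iff_eq_empty] at hS
      rw [hS, hx.empty]
      exact sum_nonneg fun S _ => hn0 S
  have hFcomp : IsCompact F := by
    refine IsCompact.of_isClosed_subset
      (isCompact_univ_pi fun _ : Finset V => isCompact_Icc (a := (0 : ℝ)) (b := ∑ S, n S)) ?_ ?_
    · have : F = (⋂ S, {x | 0 ≤ x S}) ∩ {x | x ∅ = 0} ∩
          (⋂ (b : B) (T : Finset (V × V)) (_ : T.Nonempty),
            {x | ∑ S, x S * (if outT E b S = T then (1 : ℝ) else 0) =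
              ∑ S, x S * (if inT E b S = T then (1 : ℝ) else 0)}) ∩
          (⋂ u, {x | ∑ S, x S * (if u ∈ S then (1 : ℝ) else 0) =
            ∑ S, n S * (if u ∈ S then (1 : ℝ) else 0)}) ∩
          (⋂ (S : Finset V) (_ : ¬ Adm S), {x | x S = 0}) ∩
          {x | ∑ S, x S * cost E S ≤ ∑ S, n S * cost E S} := by
        ext x
        simp only [F, Set.mem_ofPred_eq, Set.mem_inter_iff, Set.mem_iInter]
        constructor
        · rintro ⟨h1, h2, h3, h4, h5, h6⟩
          exact ⟨⟨⟨⟨⟨h1, h2⟩, h3⟩, h4⟩, h5⟩, h6⟩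
        · rintro ⟨⟨⟨⟨⟨h1, h2⟩, h3⟩, h4⟩, h5⟩, h6⟩
          exact ⟨h1, h2, h3, h4, h5, h6⟩
      rw [this]
      refine (((((isClosed_iInter fun S => ?_).inter ?_).inter ?_).inter ?_).inter ?_).inter ?_
      · exact isClosed_le continuous_const (continuous_apply S)
      · exact isClosed_eq (continuous_apply _) continuous_const
      · refine isClosed_iInter fun b => isClosed_iInter fun T => isClosed_iInter fun _ => ?_
        exact isClosed_eq (by fun_prop) (by fun_prop)
      · exact isClosed_iInter fun u => isClosed_eq (by fun_prop) continuous_const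
      · exact isClosed_iInter fun S => isClosed_iInter fun _ =>
          isClosed_eq (continuous_apply _) continuous_const
      · exact isClosed_le (by fun_prop) continuous_const
    · intro x hx S _
      exact ⟨hx.nonneg S, hle1 x hx S⟩
  obtain ⟨x, hxF, hxmax⟩ := hFcomp.exists_isMaxOn hFne
    (f := fun x : Finset V → ℝ => ∑ S, x S * (S.card : ℝ) ^ 2) (by fun_prop)
  have hx : FF E Adm n x := hxF
  have hxA : ∀ S, x S ≠ 0 → Adm S := by
    intro S hS
    by_contra h
    exact hS (hx.adm S h)
  -- laminarity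
  have hlam : ∀ S₁ S₂, 0 < x S₁ → 0 < x S₂ → (S₁ ∩ S₂).Nonempty → S₁ ⊆ S₂ ∨ S₂ ⊆ S₁ := by
    intro S₁ S₂ h1 h2 hint
    by_contra hcon
    rw [not_or] at hcon
    -- integer weights
    obtain ⟨N, hNsupp, hNeq⟩ := exists_nat_weights (κ := B × {T : Finset (V × V) // T.Nonempty})
      x hx.nonneg (fun k S => (if outT E k.1 S = k.2.1 then 1 else 0) -
        (if inT E k.1 S = k.2.1 then 1 else 0)) (by
        rintro ⟨b, T, hT⟩
        have := hx.bal b T hT
        push_cast
        simp only [sub_mul, sum_sub_distrib]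
        rw [sub_eq_zero]
        rw [sum_congr rfl fun S _ => mul_comm _ (x S), this]
        exact sum_congr rfl fun S _ => mul_comm (x S) _)
    have hN0 : N ∅ = 0 := by
      by_contra h
      have := (hNsupp ∅).1 (Nat.pos_of_ne_zero h)
      rw [hx.empty] at this
      exact lt_irrefl _ this
    have hNA : ∀ S, 0 < N S → Adm S := fun S hS => hxA S ((hNsupp S).1 hS).ne'
    obtain ⟨y, hy0, hybal, hymult, hyneg, hyA, hycost, hyq⟩ := exists_direction (E := E) Adm hA
      N hN0 hNA (by
        intro b T hT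
        have h := hNeq (b, ⟨T, hT⟩)
        simp only [sub_mul, sum_sub_distrib] at h
        have h' : ∑ S, (if outT E b S = T then (1 : ℤ) else 0) * (N S : ℤ) =
          ∑ S, (if inT E b S = T then (1 : ℤ) else 0) * (N S : ℤ) := sub_eq_zero.1 h
        have h'' : ((∑ S, N S * (if outT E b S = T then 1 else 0) : ℕ) : ℤ) =
            ((∑ S, N S * (if inT E b S = T then 1 else 0) : ℕ) : ℤ) := by
          push_cast
          rw [sum_congr rfl fun S _ => mul_comm (N S : ℤ) _, h']
          exact sum_congr rfl fun S _ => mul_comm _ (N S : ℤ)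
        exact_mod_cast h'') ((hNsupp _).2 h1) ((hNsupp _).2 h2) hint hcon.1 hcon.2
    -- small step
    have hev : ∀ᶠ ε in nhdsWithin (0 : ℝ) (Set.Ioi 0), ∀ S, 0 ≤ x S + ε * y S := by
      rw [Filter.eventually_all]
      intro S
      by_cases hyS : y S < 0
      · have hpos : 0 < x S := (hNsupp S).1 (hyneg S hyS)
        have hcont : Filter.Tendsto (fun ε : ℝ => x S + ε * y S) (nhdsWithin (0 : ℝ) (Set.Ioi 0))
            (nhds (x S + 0 * y S)) := by
          apply Filter.Tendsto.mono_left _ nhdsWithin_le_nhds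
          exact (by fun_prop : Continuous fun ε : ℝ => x S + ε * y S).tendsto 0
        rw [zero_mul, add_zero] at hcont
        exact (hcont.eventually (lt_mem_nhds hpos)).mono fun ε h => h.le
      · push Not at hyS
        filter_upwards [self_mem_nhdsWithin] with ε hε
        have : 0 ≤ ε * y S := mul_nonneg (le_of_lt hε) hyS
        linarith [hx.nonneg S]
    obtain ⟨ε, hε1, hε2⟩ := (hev.and self_mem_nhdsWithin).exists
    have hε : 0 < ε := hε2
    have hsum : ∀ φ : Finset V → ℝ, ∑ S, (x S + ε * y S) * φ S =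
        ∑ S, x S * φ S + ε * ∑ S, y S * φ S := by
      intro φ
      rw [mul_sum, ← sum_add_distrib]
      apply sum_congr rfl
      intro S _
      ring
    have hmem : (fun S => x S + ε * y S) ∈ F := by
      refine ⟨hε1, ?_, ?_, ?_, ?_, ?_⟩
      · simp [hx.empty, hy0]
      · intro b T hT
        rw [hsum, hsum, hx.bal b T hT, hybal b T hT]
      · intro u
        rw [hsum, hx.mult u, hymult u]
        ring
      · intro S hS
        have h3 : y S = 0 := by
          by_contra h
          exact hS (hyA S h)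
        show x S + ε * y S = 0
        rw [hx.adm S hS, h3]
        ring
      · rw [hsum]
        have h3 := mul_nonpos_of_nonneg_of_nonpos hε.le hycost
        have h4 := hx.cst
        linarith
    have h3 := hxmax hmem
    simp only [Set.mem_ofPred_eq] at h3
    have h4 : ∑ S, (x S + ε * y S) * (S.card : ℝ) ^ 2 ≤ ∑ S, x S * (S.card : ℝ) ^ 2 := h3
    rw [hsum] at h4
    have := mul_pos hε hyq
    linarith
  have hfinal := peel Adm p hM (univ.filter fun S => 0 < x S).card x le_rfl hx.nonneg hx.empty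
    hx.bal hxA hlam
  have he : ∑ S, n S * ∑ u ∈ S, p u = ∑ S, x S * ∑ u ∈ S, p u := by
    rw [sum_p, sum_p]
    exact sum_congr rfl fun u _ => by rw [hx.mult u]
  rw [he]
  exact hfinal.trans hx.cst

end Pool.Agent.LIA.LP
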