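import Mathlib

/-!
# LRat : nonnegative real solutions of integer linear systems give natural solutions

The proof of `Lib/MP_727cf8_al/Rational.lean` (helper68) with `Type*` instead of `Type` (copy it, with its private or
auxiliary lemmas if there are any).
-/

/-!
# LRat : nonnegative real solutions of integer linear systems give natural solutions

The proof of `Lib/MP_727cf8_al/Rational.lean` (helper68) with `Type*` instead of `Type` (copy it, with its private or
auxiliary lemmas if there are any).
-/

set_option autoImplicit false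

namespace Pool.Agent.LIA.LP

open Finset

theorem exists_nat_weights {ι κ : Type*} [Fintype ι] (n : ι → ℝ) (hn : ∀ i, 0 ≤ n i)
    (a : κ → ι → ℤ) (ha : ∀ k, ∑ i, (a k i : ℝ) * n i = 0) :
    ∃ N : ι → ℕ, (∀ i, 0 < N i ↔ 0 < n i) ∧ ∀ k, ∑ i, a k i * (N i : ℤ) = 0 := by
  classical
  -- the rational span of the values
  let L : Submodule ℚ ℝ := Submodule.span ℚ (Set.range n)
  have hfin : FiniteDimensional ℚ L := FiniteDimensional.span_of_finite ℚ (Set.finite_range n)
  let β := Module.finBasis ℚ L
  have hmem : ∀ i, n i ∈ L := fun i => Submodule.subset_span ⟨i, rfl⟩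
  let c : ι → Fin (Module.finrank ℚ L) → ℚ := fun i j => β.repr ⟨n i, hmem i⟩ j
  have hc : ∀ i, n i = ∑ j, (c i j : ℝ) * (β j : ℝ) := by
    intro i
    have h1 := β.sum_repr ⟨n i, hmem i⟩
    have h2 := congrArg (fun x : L => (x : ℝ)) h1
    simp only [Submodule.coe_sum, Submodule.coe_smul] at h2
    rw [← h2]
    apply sum_congr rfl
    intro j _
    simp only [c]
    rw [Rat.smul_def]
  -- rational approximation of the basis
  have hopen : IsOpen {r : Fin (Module.finrank ℚ L) → ℝ | ∀ i, 0 < n i →
      0 < ∑ j, (c i j : ℝ) * r j} := by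
    have : {r : Fin (Module.finrank ℚ L) → ℝ | ∀ i, 0 < n i → 0 < ∑ j, (c i j : ℝ) * r j} =
        ⋂ i : ι, {r : Fin (Module.finrank ℚ L) → ℝ | 0 < n i → 0 < ∑ j, (c i j : ℝ) * r j} := by
      ext r; simp
    rw [this]
    apply isOpen_iInter_of_finite
    intro i
    by_cases hi : 0 < n i
    · have : {r : Fin (Module.finrank ℚ L) → ℝ | 0 < n i → 0 < ∑ j, (c i j : ℝ) * r j} =
          {r | 0 < ∑ j, (c i j : ℝ) * r j} := by
        ext r; simp [hi]
      rw [this]
      exact isOpen_lt continuous_const (by fun_prop)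
    · have : {r : Fin (Module.finrank ℚ L) → ℝ | 0 < n i → 0 < ∑ j, (c i j : ℝ) * r j} =
          Set.univ := by
        ext r; simp [hi]
      rw [this]
      exact isOpen_univ
  have hβmem : (fun j => (β j : ℝ)) ∈ {r : Fin (Module.finrank ℚ L) → ℝ | ∀ i, 0 < n i →
      0 < ∑ j, (c i j : ℝ) * r j} := by
    intro i hi
    rw [← hc i]
    exact hi
  have hdense : DenseRange (fun (q : Fin (Module.finrank ℚ L) → ℚ) j => (q j : ℝ)) :=
    DenseRange.piMap fun _ => Rat.denseRange_cast
  obtain ⟨q, hq⟩ := hdense.exists_mem_open hopen ⟨_, hβmem⟩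
  -- the rational solution
  let r : ι → ℚ := fun i => ∑ j, c i j * q j
  have hr0 : ∀ i, n i = 0 → r i = 0 := by
    intro i hi
    have : (⟨n i, hmem i⟩ : L) = 0 := Subtype.ext hi
    have hc0 : ∀ j, c i j = 0 := by
      intro j
      simp only [c]
      rw [this]
      simp
    simp [r, hc0]
  have hrpos : ∀ i, 0 < n i → 0 < r i := by
    intro i hi
    have := hq i hi
    have h2 : ((r i : ℚ) : ℝ) = ∑ j, (c i j : ℝ) * (q j : ℝ) := by
      simp only [r]
      push_cast
      rfl
    rw [← h2] at this
    exact_mod_cast this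
  have hreq : ∀ k, ∑ i, (a k i : ℚ) * r i = 0 := by
    intro k
    have h1 : ∀ j, ∑ i, (a k i : ℚ) * c i j = 0 := by
      intro j
      have h2 : ∑ i, (a k i : ℚ) • (⟨n i, hmem i⟩ : L) = 0 := by
        apply Subtype.ext
        simp only [Submodule.coe_sum, Submodule.coe_smul, Submodule.coe_zero]
        rw [← ha k]
        apply sum_congr rfl
        intro i _
        rw [Rat.smul_def]
        push_cast
        rfl
      have h3 := congrArg (fun x => β.repr x j) h2
      simp only [map_sum, map_smul, Finsupp.coe_finsetSum, Finset.sum_apply, Finsupp.coe_smul,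
        Pi.smul_apply, smul_eq_mul, map_zero, Finsupp.coe_zero, Pi.zero_apply] at h3
      exact h3
    simp only [r, mul_sum]
    rw [sum_comm]
    apply sum_eq_zero
    intro j _
    have : ∑ i, (a k i : ℚ) * (c i j * q j) = (∑ i, (a k i : ℚ) * c i j) * q j := by
      rw [sum_mul]
      apply sum_congr rfl
      intro i _
      ring
    rw [this, h1 j, zero_mul]
  -- clear denominators
  let D : ℕ := ∏ i, (r i).den
  have hD : 0 < D := Finset.prod_pos fun i _ => (r i).den_pos
  have hint : ∀ i, ∃ z : ℤ, (D : ℚ) * r i = z := by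
    intro i
    obtain ⟨e, he⟩ : (r i).den ∣ D := Finset.dvd_prod_of_mem _ (mem_univ i)
    refine ⟨e * (r i).num, ?_⟩
    rw [he]
    push_cast
    have : ((r i).den : ℚ) * r i = (r i).num := by
      rw [mul_comm]; exact Rat.mul_den_eq_num (r i)
    calc ((r i).den : ℚ) * e * r i = e * (((r i).den : ℚ) * r i) := by ring
      _ = e * (r i).num := by rw [this]
  choose z hz using hint
  have hz0 : ∀ i, 0 ≤ z i := by
    intro i
    have : (0 : ℚ) ≤ (z i : ℚ) := by
      rw [← hz i]
      apply mul_nonneg (by positivity)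
      rcases (hn i).eq_or_lt with h | h
      · rw [hr0 i h.symm]
      · exact (hrpos i h).le
    exact_mod_cast this
  refine ⟨fun i => (z i).toNat, ?_, ?_⟩
  · intro i
    constructor
    · intro h
      rcases (hn i).eq_or_lt with h0 | h0
      · exfalso
        have h1 := hz i
        rw [hr0 i h0.symm, mul_zero] at h1
        have h2 : z i = 0 := by exact_mod_cast h1.symm
        simp only [h2] at h
        simp at h
      · exact h0
    · intro h
      have h1 : (0 : ℚ) < (z i : ℚ) := by
        rw [← hz i]
        have := hrpos i h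
        positivity
      have h2 : 0 < z i := by exact_mod_cast h1
      simpa using h2
  · intro k
    have h1 : ∀ i, ((z i).toNat : ℤ) = z i := fun i => Int.toNat_of_nonneg (hz0 i)
    simp only [h1]
    have h2 : ((∑ i, a k i * z i : ℤ) : ℚ) = 0 := by
      push_cast
      have : ∀ i, (a k i : ℚ) * (z i : ℚ) = D * ((a k i : ℚ) * r i) := by
        intro i
        rw [← hz i]; ring
      rw [sum_congr rfl fun i _ => this i, ← mul_sum, hreq k, mul_zero]
    exact_mod_cast h2

end Pool.Agent.LIA.LP
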