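import Pool.Agent.Lib.GogLI.KDefs

/-!
# NDefs : the nerve of a finite graph over a graph of groups

(helper81, problem MP_cf50d6_gt; paper MP_cf50d6_gt_paper81b.md, section 3)
-/

set_option autoImplicit false

open scoped Classical

namespace Pool.Agent.LIA.GOG

universe u

variable (A : GOG.{u}) {V : Type u} [Fintype V] (Γ : LG V ((Σ i, A.X i) ⊕ A.J))
  (I0 : Finset A.I) (J0 : Finset A.J)

/-- the vertices of the nerve: the vertices of `Γ` and the components of the vertex graphs -/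
abbrev NQ : Type u := V ⊕ (Σ i : ↥I0, {C // C ∈ (A.toGFG.GG Γ i.1).comps})

/-- the edges of the nerve: one edge for each vertex of `Γ` and each `i`, and the components of the
edge graphs -/
abbrev NE : Type u := (V × ↥I0) ⊕ (Σ j : ↥J0, {D // D ∈ (A.toGFG.PP Γ j.1).comps})

/-- a member of an edge component -/
noncomputable def rep (x : Σ j : ↥J0, {D // D ∈ (A.toGFG.PP Γ j.1).comps}) :
    A.toGFG.TT Γ x.1.1 :=
  (LG.nonempty_of_mem_comps x.2.2).choose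

theorem rep_mem (x : Σ j : ↥J0, {D // D ∈ (A.toGFG.PP Γ j.1).comps}) :
    A.rep Γ J0 x ∈ x.2.1 :=
  (LG.nonempty_of_mem_comps x.2.2).choose_spec

variable {I0 J0}

/-- the first end of an edge of the nerve -/
noncomputable def ns (hs : ∀ j ∈ J0, A.s j ∈ I0) : A.NE Γ I0 J0 → A.NQ Γ I0 :=
  Sum.elim (fun p => Sum.inl p.1) fun x =>
    Sum.inr ⟨⟨A.s x.1.1, hs _ x.1.2⟩,
      ⟨(A.toGFG.GG Γ (A.s x.1.1)).comp (A.rep Γ J0 x).1.1, LG.comp_mem_comps _⟩⟩

/-- the second end of an edge of the nerve -/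
noncomputable def nt (ht : ∀ j ∈ J0, A.t j ∈ I0) : A.NE Γ I0 J0 → A.NQ Γ I0 :=
  Sum.elim (fun p => Sum.inr ⟨p.2, ⟨(A.toGFG.GG Γ p.2.1).comp p.1, LG.comp_mem_comps _⟩⟩) fun x =>
    Sum.inr ⟨⟨A.t x.1.1, ht _ x.1.2⟩,
      ⟨(A.toGFG.GG Γ (A.t x.1.1)).comp (A.rep Γ J0 x).1.2, LG.comp_mem_comps _⟩⟩

end Pool.Agent.LIA.GOG
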