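import Pool.Agent.Lib.GogLI.Na

/-!
# Nb : the nerve is connected

`x ~ y` = `Relation.EqvGen (MAdj (A.ns Γ hs) (A.nt Γ ht)) x y`. `inl v ~ inr ⟨i, comp v⟩` (edge `inl (v, i)`), and every component of `GG Γ i` is the
component of one of its vertices (`LG.eq_comp_of_mem`, `LG.nonempty_of_mem_comps`). So it is enough that `inl u ~ inl v` for all `u`, `v`; as
`Γ` is connected (`hc`, `LG.Conn.induction`), for the two ends of an edge of `Γ`: for `(u, inl ⟨i, x⟩, v) ∈ Γ.F` we have `i ∈ I0` and `u`, `v` are in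
the same component of `GG Γ i` (`LG.mem_pull`, `LG.conn_of_mem`, `LG.comp_eq_iff`); for `(u, inr j, v)` let `t = ⟨(u, v), h⟩ : TT Γ j`: the edge
`inr ⟨j, comp t⟩` of the nerve joins `inr ⟨s j, comp u⟩` and `inr ⟨t j, comp v⟩` (`ns_comp`, `nt_comp`).
-/

set_option autoImplicit false

open scoped Classical

namespace Pool.Agent.LIA.GOG

universe u

variable (A : GOG.{u}) {V : Type u} [Fintype V] (Γ : LG V ((Σ i, A.X i) ⊕ A.J))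
  {I0 : Finset A.I} {J0 : Finset A.J}

private theorem nb_eq (i : ↥I0) {C C' : Finset V} (hC : C ∈ (A.toGFG.GG Γ i.1).comps)
    (hC' : C' ∈ (A.toGFG.GG Γ i.1).comps) (h : C = C') :
    (Sum.inr ⟨i, ⟨C, hC⟩⟩ : A.NQ Γ I0) = Sum.inr ⟨i, ⟨C', hC'⟩⟩ := by
  subst h
  rfl

theorem nerve_conn {o : V} (hc : ∀ x, Γ.Conn o x)
    (hJ : ∀ u j v, (u, Sum.inr j, v) ∈ Γ.F → j ∈ J0)
    (hI : ∀ u i x v, (u, Sum.inl ⟨i, x⟩, v) ∈ Γ.F → i ∈ I0)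
    (hs : ∀ j ∈ J0, A.s j ∈ I0) (ht : ∀ j ∈ J0, A.t j ∈ I0) (q q' : A.NQ Γ I0) :
    Relation.EqvGen (MAdj (A.ns Γ hs) (A.nt Γ ht)) q q' := by
  have hA : ∀ (v : V) (i : ↥I0), Relation.EqvGen (MAdj (A.ns Γ hs) (A.nt Γ ht)) (Sum.inl v)
      (Sum.inr ⟨i, ⟨(A.toGFG.GG Γ i.1).comp v, LG.comp_mem_comps v⟩⟩) :=
    fun v i => Relation.EqvGen.rel _ _ ⟨Sum.inl (v, i), rfl, rfl⟩
  have hB : ∀ x : A.NQ Γ I0, ∃ v, Relation.EqvGen (MAdj (A.ns Γ hs) (A.nt Γ ht)) x (Sum.inl v) := by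
    rintro (v | ⟨i, C, hC⟩)
    · exact ⟨v, Relation.EqvGen.refl _⟩
    · obtain ⟨v, hv⟩ := LG.nonempty_of_mem_comps hC
      refine ⟨v, ?_⟩
      rw [nb_eq A Γ i hC (LG.comp_mem_comps v) (LG.eq_comp_of_mem hC hv)]
      exact Relation.EqvGen.symm _ _ (hA v i)
  have hE : ∀ u s v, (u, s, v) ∈ Γ.F →
      Relation.EqvGen (MAdj (A.ns Γ hs) (A.nt Γ ht)) (Sum.inl u) (Sum.inl v) := by
    rintro u (⟨i, x⟩ | j) v h
    · have hi := hI u i x v h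
      have h1 : (u, x, v) ∈ (A.toGFG.GG Γ i).F := LG.mem_pull.2 h
      have h2 : (A.toGFG.GG Γ i).comp u = (A.toGFG.GG Γ i).comp v :=
        LG.comp_eq_iff.2 (LG.conn_of_mem h1)
      have h3 := hA u ⟨i, hi⟩
      rw [nb_eq A Γ ⟨i, hi⟩ (LG.comp_mem_comps u) (LG.comp_mem_comps v) h2] at h3
      exact Relation.EqvGen.trans _ _ _ h3 (Relation.EqvGen.symm _ _ (hA v ⟨i, hi⟩))
    · have hj := hJ u j v h
      let t : A.toGFG.TT Γ j := ⟨(u, v), h⟩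
      have h1 : Relation.EqvGen (MAdj (A.ns Γ hs) (A.nt Γ ht))
          (Sum.inr ⟨⟨A.s j, hs _ hj⟩, ⟨(A.toGFG.GG Γ (A.s j)).comp u, LG.comp_mem_comps _⟩⟩)
          (Sum.inr ⟨⟨A.t j, ht _ hj⟩, ⟨(A.toGFG.GG Γ (A.t j)).comp v, LG.comp_mem_comps _⟩⟩) :=
        Relation.EqvGen.rel _ _
          ⟨Sum.inr ⟨⟨j, hj⟩, ⟨(A.toGFG.PP Γ j).comp t, LG.comp_mem_comps t⟩⟩,
            A.ns_comp Γ hs ⟨j, hj⟩ t, A.nt_comp Γ ht ⟨j, hj⟩ t⟩
      exact Relation.EqvGen.trans _ _ _ (hA u ⟨A.s j, hs _ hj⟩)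
        (Relation.EqvGen.trans _ _ _ h1 (Relation.EqvGen.symm _ _ (hA v ⟨A.t j, ht _ hj⟩)))
  have hD : ∀ x, Relation.EqvGen (MAdj (A.ns Γ hs) (A.nt Γ ht)) (Sum.inl o) (Sum.inl x) := by
    intro x
    refine LG.Conn.induction
      (p := fun y => Relation.EqvGen (MAdj (A.ns Γ hs) (A.nt Γ ht)) (Sum.inl o) (Sum.inl y))
      (Relation.EqvGen.refl _) ?_ (hc x)
    rintro a ⟨s, b⟩ c ha h
    cases b
    · rw [LG.step_false] at h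
      exact Relation.EqvGen.trans _ _ _ ha (Relation.EqvGen.symm _ _ (hE _ _ _ h))
    · rw [LG.step_true] at h
      exact Relation.EqvGen.trans _ _ _ ha (hE _ _ _ h)
  obtain ⟨v, hv⟩ := hB q
  obtain ⟨v', hv'⟩ := hB q'
  exact Relation.EqvGen.trans _ _ _ hv (Relation.EqvGen.trans _ _ _
    (Relation.EqvGen.symm _ _ (hD v)) (Relation.EqvGen.trans _ _ _ (hD v')
      (Relation.EqvGen.symm _ _ hv')))

end Pool.Agent.LIA.GOG
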