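import Pool.Agent.Lib.GogLI.Nb
import Pool.Agent.Lib.GogLI.KPot

/-!
# Nc : all components are good and the nerve is a tree

Let `T : Finset (A.NQ Γ I0)` be the set of all `inl v` and of the `inr ⟨i, C⟩` with `C.1 ∈ A.good Γ i`:
`T.card = card V + ∑ i ∈ I0, (A.good Γ i).card` (`A.good Γ i ⊆ comps`). The edges `e` of the nerve with `ns e ∈ T ∨ nt e ∈ T` are among the
`inl p` and the `inr ⟨j, D⟩` with `(PP Γ j).Pot D.1` (`pot_of_good_s`, `pot_of_good_t` with `t = rep`, `rep_mem`): their number is at most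
`card V * I0.card + ∑ j ∈ J0, (PP Γ j).tr`. If `T ≠ univ`, `gl_boundary` (with `nerve_conn`) gives `T.card ≤` this number, contradiction
to `hT`. So `T = univ`; so all edges touch `T` and all `D` have `Pot D`, so `(PP Γ j).comps.card = (PP Γ j).tr`, and the last claim follows from
`hT` (`Fintype.card_sum`, `Fintype.card_sigma`, `Fintype.card_coe`, `Finset.sum_coe_sort`).
-/

set_option autoImplicit false

open scoped Classical

namespace Pool.Agent.LIA.GOG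

universe u

variable (A : GOG.{u}) {V : Type u} [Fintype V] (Γ : LG V ((Σ i, A.X i) ⊕ A.J))
  {I0 : Finset A.I} {J0 : Finset A.J}

private theorem nc_main {Q E : Type*} [Fintype Q] [Fintype E] (s t : E → Q)
    (hconn : ∀ q q', Relation.EqvGen (MAdj s t) q q') (T : Finset Q) (U : Finset E)
    (hU : ∀ e, (s e ∈ T ∨ t e ∈ T) → e ∈ U) (hlt : U.card + 1 ≤ T.card) :
    (∀ q, q ∈ T) ∧ Fintype.card E + 1 ≤ Fintype.card Q := by
  have huniv : T = Finset.univ := by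
    by_contra hne
    have h2 : T.card ≤ U.card := by
      refine (gl_boundary s t hconn T hne).trans (Finset.card_le_card ?_)
      intro e he
      exact hU e (Finset.mem_filter.1 he).2
    omega
  have h1 : ∀ q, q ∈ T := fun q => huniv ▸ Finset.mem_univ q
  have hUuniv : U = Finset.univ := by
    rw [Finset.eq_univ_iff_forall]
    intro e
    exact hU e (Or.inl (h1 _))
  refine ⟨h1, ?_⟩
  rw [← Finset.card_univ (α := Q), ← Finset.card_univ (α := E), ← huniv, ← hUuniv]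
  exact hlt

/-- vertices of the nerve: those of `Γ` and the good components -/
private noncomputable def ncT (I0 : Finset A.I) : Finset (A.NQ Γ I0) :=
  (Finset.univ : Finset V).disjSum ((Finset.univ : Finset ↥I0).sigma fun i =>
    (Finset.univ : Finset {C // C ∈ (A.toGFG.GG Γ i.1).comps}).filter fun C => C.1 ∈ A.good Γ i.1)

/-- edges of the nerve: those at a vertex of `Γ` and the edge components with a potential -/
private noncomputable def ncU (I0 : Finset A.I) (J0 : Finset A.J) : Finset (A.NE Γ I0 J0) :=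
  (Finset.univ : Finset (V × ↥I0)).disjSum ((Finset.univ : Finset ↥J0).sigma fun j =>
    (Finset.univ : Finset {D // D ∈ (A.toGFG.PP Γ j.1).comps}).filter fun D =>
      (A.toGFG.PP Γ j.1).Pot D.1)

private theorem nc_inr_mem {I0 : Finset A.I}
    {x : Σ i : ↥I0, {C // C ∈ (A.toGFG.GG Γ i.1).comps}} :
    (Sum.inr x : A.NQ Γ I0) ∈ ncT A Γ I0 ↔ x.2.1 ∈ A.good Γ x.1.1 := by
  unfold ncT
  rw [Finset.inr_mem_disjSum, Finset.mem_sigma, Finset.mem_filter]
  simp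

private theorem nc_inr_mem_U {I0 : Finset A.I} {J0 : Finset A.J}
    {x : Σ j : ↥J0, {D // D ∈ (A.toGFG.PP Γ j.1).comps}} :
    (Sum.inr x : A.NE Γ I0 J0) ∈ ncU A Γ I0 J0 ↔ (A.toGFG.PP Γ x.1.1).Pot x.2.1 := by
  unfold ncU
  rw [Finset.inr_mem_disjSum, Finset.mem_sigma, Finset.mem_filter]
  simp

private theorem nc_card_T (I0 : Finset A.I) :
    (ncT A Γ I0).card = Fintype.card V + ∑ i ∈ I0, (A.good Γ i).card := by
  unfold ncT
  rw [Finset.card_disjSum, Finset.card_sigma, Finset.card_univ]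
  congr 1
  rw [← Finset.sum_coe_sort I0 (fun i => (A.good Γ i).card)]
  refine Finset.sum_congr rfl fun i _ => ?_
  refine Finset.card_bij (fun C _ => C.1) ?_ ?_ ?_
  · intro C hC
    exact (Finset.mem_filter.1 hC).2
  · intro a _ b _ hab
    exact Subtype.ext hab
  · intro C hC
    have h1 : C ∈ (A.toGFG.GG Γ i.1).comps := (Finset.mem_filter.1 hC).1
    exact ⟨⟨C, h1⟩, Finset.mem_filter.2 ⟨Finset.mem_univ _, hC⟩, rfl⟩

private theorem nc_card_U (I0 : Finset A.I) (J0 : Finset A.J) :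
    (ncU A Γ I0 J0).card = Fintype.card V * I0.card + ∑ j ∈ J0, (A.toGFG.PP Γ j).tr := by
  unfold ncU
  rw [Finset.card_disjSum, Finset.card_sigma, Finset.card_univ, Fintype.card_prod,
    Fintype.card_coe]
  congr 1
  rw [← Finset.sum_coe_sort J0 (fun j => (A.toGFG.PP Γ j).tr)]
  refine Finset.sum_congr rfl fun j _ => ?_
  rw [LG.tr]
  refine Finset.card_bij (fun C _ => C.1) ?_ ?_ ?_
  · intro C hC
    exact Finset.mem_filter.2 ⟨C.2, (Finset.mem_filter.1 hC).2⟩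
  · intro a _ b _ hab
    exact Subtype.ext hab
  · intro C hC
    obtain ⟨h1, h2⟩ := Finset.mem_filter.1 hC
    exact ⟨⟨C, h1⟩, Finset.mem_filter.2 ⟨Finset.mem_univ _, h2⟩, rfl⟩

private theorem nc_mem_U (hs : ∀ j ∈ J0, A.s j ∈ I0) (ht : ∀ j ∈ J0, A.t j ∈ I0)
    (e : A.NE Γ I0 J0) (h : A.ns Γ hs e ∈ ncT A Γ I0 ∨ A.nt Γ ht e ∈ ncT A Γ I0) :
    e ∈ ncU A Γ I0 J0 := by
  rcases e with p | x
  · unfold ncU
    rw [Finset.inl_mem_disjSum]
    exact Finset.mem_univ _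
  · rw [nc_inr_mem_U]
    rcases h with h | h
    · have h1 : (Sum.inr ⟨⟨A.s x.1.1, hs _ x.1.2⟩,
        ⟨(A.toGFG.GG Γ (A.s x.1.1)).comp (A.rep Γ J0 x).1.1, LG.comp_mem_comps _⟩⟩ :
          A.NQ Γ I0) ∈ ncT A Γ I0 := h
      rw [nc_inr_mem] at h1
      exact A.pot_of_good_s Γ x.1.1 x.2.2 (A.rep_mem Γ J0 x) h1
    · have h1 : (Sum.inr ⟨⟨A.t x.1.1, ht _ x.1.2⟩,
        ⟨(A.toGFG.GG Γ (A.t x.1.1)).comp (A.rep Γ J0 x).1.2, LG.comp_mem_comps _⟩⟩ :
          A.NQ Γ I0) ∈ ncT A Γ I0 := h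
      rw [nc_inr_mem] at h1
      exact A.pot_of_good_t Γ x.1.1 x.2.2 (A.rep_mem Γ J0 x) h1

theorem all_good {o : V} (hc : ∀ x, Γ.Conn o x)
    (hJ : ∀ u j v, (u, Sum.inr j, v) ∈ Γ.F → j ∈ J0)
    (hI : ∀ u i x v, (u, Sum.inl ⟨i, x⟩, v) ∈ Γ.F → i ∈ I0)
    (hs : ∀ j ∈ J0, A.s j ∈ I0) (ht : ∀ j ∈ J0, A.t j ∈ I0)
    (hT : Fintype.card V * I0.card + ∑ j ∈ J0, (A.toGFG.PP Γ j).tr + 1 ≤
      Fintype.card V + ∑ i ∈ I0, (A.good Γ i).card) :
    (∀ i ∈ I0, ∀ C ∈ (A.toGFG.GG Γ i).comps, C ∈ A.good Γ i) ∧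
      Fintype.card (A.NE Γ I0 J0) + 1 ≤ Fintype.card (A.NQ Γ I0) := by
  have hlt : (ncU A Γ I0 J0).card + 1 ≤ (ncT A Γ I0).card := by
    have hTc := nc_card_T A Γ I0
    have hUc := nc_card_U A Γ I0 J0
    rw [hTc, hUc]
    exact hT
  have hconn := A.nerve_conn Γ hc hJ hI hs ht
  have key := nc_main (A.ns Γ hs) (A.nt Γ ht) hconn (ncT A Γ I0)
    (ncU A Γ I0 J0) (fun e he => nc_mem_U A Γ hs ht e he) hlt
  refine ⟨?_, ?_⟩
  · intro i hi C hC
    have h1 := key.1 (Sum.inr ⟨⟨i, hi⟩, ⟨C, hC⟩⟩)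
    rw [nc_inr_mem] at h1
    exact h1
  · exact key.2

end Pool.Agent.LIA.GOG
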